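import Pool.Agent.Work.MP_968e92_nt.B11

/-! # MP_968e92_nt, module B (helper28): the polynomials `E_l(n)` and the Wronskian identity -/

open Polynomial

namespace MZ

section
variable {K : Type*} [Field K] [CharP K 2] {θ : K} (hθ : Function.Injective (th θ))
include hθ

theorem EE_step (n l : ℕ) (hl : l ≤ pc n) :
    EE θ n l = PP θ n l * expand K 2 (EE θ n (l + 1)) :=
  b_EE_step hθ n l hl

theorem EE_zero_eval (n : ℕ) : (EE θ n 0).eval (th θ 1) = 1 :=
  b_EE_zero_eval hθ n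

theorem EE_natDegree (n l : ℕ) (hl : l ≤ pc n + 1) :
    (EE θ n l).natDegree + (zer n l).card ≤ n / 2 ^ l + 1 :=
  (b_EE_natDegree hθ n l hl).2

theorem EE_wr (n : ℕ) :
    Wr (EE θ n (pc n + 1)) (PP θ n (pc n + 1)) = C (kap θ n) * VV θ n (pc n + 1) :=
  b_EE_wr hθ n

end

end MZ
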