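import Pool.Agent.Work.MP_968e92_nt.Defs
open Polynomial
namespace MZ

/-! ### popcount -/

theorem b_pc_zero : pc 0 = 0 := by simp [pc]

theorem b_pc_two_mul (n : ℕ) : pc (2 * n) = pc n := by
  rcases Nat.eq_zero_or_pos n with rfl | h
  · simp [pc]
  · unfold pc
    have := Nat.digits_def' (b := 2) (n := 2 * n) (by norm_num) (by omega)
    rw [this]; simp

theorem b_pc_two_mul_add_one (n : ℕ) : pc (2 * n + 1) = pc n + 1 := by
  unfold pc
  have := Nat.digits_def' (b := 2) (n := 2 * n + 1) (by norm_num) (by omega)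
  rw [this]
  have h1 : (2 * n + 1) / 2 = n := by omega
  have h2 : (2 * n + 1) % 2 = 1 := by omega
  rw [h1, h2]; simp [add_comm]

theorem b_pc_mod_div (n : ℕ) : pc n = pc (n / 2) + n % 2 := by
  rcases Nat.mod_two_eq_zero_or_one n with h | h
  · have : n = 2 * (n / 2) := by omega
    conv_lhs => rw [this, b_pc_two_mul]
    omega
  · have : n = 2 * (n / 2) + 1 := by omega
    conv_lhs => rw [this, b_pc_two_mul_add_one]
    omega

theorem b_pc_one : pc 1 = 1 := by simpa [b_pc_zero] using b_pc_two_mul_add_one 0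

theorem b_pc_two_pow (i : ℕ) : pc (2 ^ i) = 1 := by
  induction i with
  | zero => simpa using b_pc_one
  | succ i ih => rw [pow_succ', b_pc_two_mul, ih]

theorem b_pc_succ_le (n : ℕ) : pc (n + 1) ≤ pc n + 1 := by
  induction n using Nat.strong_induction_on with
  | _ n ih =>
    rcases Nat.mod_two_eq_zero_or_one n with h | h
    · obtain ⟨m, rfl⟩ : ∃ m, n = 2 * m := ⟨n / 2, by omega⟩
      rw [b_pc_two_mul_add_one, b_pc_two_mul]
    · obtain ⟨m, rfl⟩ : ∃ m, n = 2 * m + 1 := ⟨n / 2, by omega⟩
      rw [show 2 * m + 1 + 1 = 2 * (m + 1) by ring, b_pc_two_mul, b_pc_two_mul_add_one]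
      have := ih m (by omega)
      omega

theorem b_pc_add_le (a b : ℕ) : pc (a + b) ≤ pc a + pc b := by
  induction a using Nat.strong_induction_on generalizing b with
  | _ a ih =>
    rcases Nat.eq_zero_or_pos a with rfl | ha
    · simp
    · have e1 := b_pc_mod_div a
      have e2 := b_pc_mod_div b
      have key := ih (a / 2) (by omega) (b / 2)
      rcases Nat.mod_two_eq_zero_or_one a with h | h <;>
      rcases Nat.mod_two_eq_zero_or_one b with h' | h'
      · have : a + b = 2 * (a / 2 + b / 2) := by omega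
        rw [this, b_pc_two_mul]; omega
      · have : a + b = 2 * (a / 2 + b / 2) + 1 := by omega
        rw [this, b_pc_two_mul_add_one]; omega
      · have : a + b = 2 * (a / 2 + b / 2) + 1 := by omega
        rw [this, b_pc_two_mul_add_one]; omega
      · have : a + b = 2 * (a / 2 + b / 2 + 1) := by omega
        rw [this, b_pc_two_mul]
        have := b_pc_succ_le (a / 2 + b / 2)
        omega

theorem b_pc_add_two_pow_le (M e : ℕ) (h : M.testBit e = true) : pc (M + 2 ^ e) ≤ pc M := by
  induction e generalizing M with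
  | zero =>
    rw [Nat.testBit_zero] at h
    have hM : M % 2 = 1 := by simpa using h
    obtain ⟨m, rfl⟩ : ∃ m, M = 2 * m + 1 := ⟨M / 2, by omega⟩
    rw [pow_zero, show 2 * m + 1 + 1 = 2 * (m + 1) by ring, b_pc_two_mul, b_pc_two_mul_add_one]
    exact b_pc_succ_le m
  | succ e ih =>
    rw [Nat.testBit_succ] at h
    have key := ih (M / 2) h
    have e1 := b_pc_mod_div M
    have e2 := b_pc_mod_div (M + 2 ^ (e + 1))
    have h1 : (M + 2 ^ (e + 1)) / 2 = M / 2 + 2 ^ e := by rw [pow_succ]; omega
    have h2 : (M + 2 ^ (e + 1)) % 2 = M % 2 := by rw [pow_succ]; omega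
    rw [h1, h2] at e2
    omega

theorem b_pc_add_two_pow (M e : ℕ) (h : M.testBit e = false) : pc (M + 2 ^ e) = pc M + 1 := by
  induction e generalizing M with
  | zero =>
    rw [Nat.testBit_zero] at h
    have hM : M % 2 = 0 := by
      have := Nat.mod_two_eq_zero_or_one M
      rcases this with h' | h'
      · exact h'
      · simp [h'] at h
    obtain ⟨m, rfl⟩ : ∃ m, M = 2 * m := ⟨M / 2, by omega⟩
    rw [pow_zero, b_pc_two_mul, b_pc_two_mul_add_one]
  | succ e ih =>
    rw [Nat.testBit_succ] at h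
    have key := ih (M / 2) h
    have e1 := b_pc_mod_div M
    have e2 := b_pc_mod_div (M + 2 ^ (e + 1))
    have h1 : (M + 2 ^ (e + 1)) / 2 = M / 2 + 2 ^ e := by rw [pow_succ]; omega
    have h2 : (M + 2 ^ (e + 1)) % 2 = M % 2 := by rw [pow_succ]; omega
    rw [h1, h2] at e2
    omega

theorem b_le_of_testBit {M e : ℕ} (h : M.testBit e = true) : 2 ^ e ≤ M :=
  Nat.ge_two_pow_of_testBit h

theorem b_mem_bits {n j : ℕ} : j ∈ bits n ↔ n.testBit j = true := by
  unfold bits
  simp only [Finset.mem_filter, Finset.mem_range, and_iff_right_iff_imp]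
  intro h
  have := b_le_of_testBit h
  have := (Nat.lt_two_pow_self (n := j))
  omega

theorem b_mem_zer {n l j : ℕ} : j ∈ zer n l ↔ j < l ∧ n.testBit j = false := by
  simp [zer]

/-- removing a bit -/
theorem b_testBit_sub {M e : ℕ} (h : M.testBit e = true) : (M - 2 ^ e).testBit e = false := by
  have h1 := b_le_of_testBit h
  have h2 : M = 2 ^ e + (M - 2 ^ e) := by omega
  rw [h2, Nat.testBit_two_pow_add_eq] at h
  simpa using h

theorem b_pc_sub {M e : ℕ} (h : M.testBit e = true) : pc (M - 2 ^ e) + 1 = pc M := by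
  have h1 := b_le_of_testBit h
  rw [← b_pc_add_two_pow _ _ (b_testBit_sub h)]
  congr 1; omega

theorem b_le_pc_sub {M e : ℕ} (h : M.testBit e = false) (he : 2 ^ e ≤ M) :
    pc M ≤ pc (M - 2 ^ e) := by
  have h2 : M = 2 ^ e + (M - 2 ^ e) := by omega
  rw [h2, Nat.testBit_two_pow_add_eq] at h
  have h3 : (M - 2 ^ e).testBit e = true := by simpa using h
  have := b_pc_add_two_pow_le _ _ h3
  rwa [Nat.sub_add_cancel he] at this

theorem b_testBit_add_ne {M e j : ℕ} (h : M.testBit e = false) (hj : j ≠ e) :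
    (M + 2 ^ e).testBit j = M.testBit j := by
  induction e generalizing M j with
  | zero =>
    rw [Nat.testBit_zero] at h
    have hM : M % 2 = 0 := by
      rcases Nat.mod_two_eq_zero_or_one M with h' | h'
      · exact h'
      · simp [h'] at h
    obtain ⟨j, rfl⟩ : ∃ k, j = k + 1 := ⟨j - 1, by omega⟩
    rw [Nat.testBit_succ, Nat.testBit_succ]
    congr 1
    simp; omega
  | succ e ih =>
    rw [Nat.testBit_succ] at h
    have h1 : (M + 2 ^ (e + 1)) / 2 = M / 2 + 2 ^ e := by rw [pow_succ]; omega
    have h2 : (M + 2 ^ (e + 1)) % 2 = M % 2 := by rw [pow_succ]; omega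
    rcases Nat.eq_zero_or_pos j with rfl | hj0
    · rw [Nat.testBit_zero, Nat.testBit_zero, h2]
    · obtain ⟨j, rfl⟩ : ∃ k, j = k + 1 := ⟨j - 1, by omega⟩
      rw [Nat.testBit_succ, Nat.testBit_succ, h1]
      exact ih h (by omega)

theorem b_bits_sub {M e : ℕ} (h : M.testBit e = true) : bits (M - 2 ^ e) = (bits M).erase e := by
  have h1 := b_le_of_testBit h
  have h0 := b_testBit_sub h
  ext j
  rw [Finset.mem_erase, b_mem_bits, b_mem_bits]
  by_cases hj : j = e
  · subst hj; simp [h0]
  · have := b_testBit_add_ne h0 hj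
    rw [Nat.sub_add_cancel h1] at this
    simp [hj, this]

theorem b_card_bits (n : ℕ) : (bits n).card = pc n := by
  induction hn : pc n generalizing n with
  | zero =>
    rw [Finset.card_eq_zero, Finset.eq_empty_iff_forall_notMem]
    intro j hj
    rw [b_mem_bits] at hj
    have := b_pc_sub hj
    omega
  | succ k ih =>
    have : ∃ j, n.testBit j = true := by
      by_contra hcon
      push Not at hcon
      have : n = 0 := Nat.eq_of_testBit_eq (fun i => by simpa using hcon i)
      subst this
      rw [b_pc_zero] at hn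
      omega
    obtain ⟨j, hj⟩ := this
    have h1 := ih (n - 2 ^ j) (by have := b_pc_sub hj; omega)
    rw [b_bits_sub hj, Finset.card_erase_of_mem (b_mem_bits.2 hj)] at h1
    have : 0 < (bits n).card := Finset.card_pos.2 ⟨j, b_mem_bits.2 hj⟩
    omega

end MZ
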