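import Pool.Agent.Work.MP_968e92_nt.B9
open Polynomial
namespace MZ

section
variable {K : Type*} [Field K] [CharP K 2] {θ : K}

theorem b_coeff_Psi (hθ : Function.Injective (th θ)) (l : ℕ) (J : Finset ℕ)
    (hJ : ∀ j ∈ J, j < l + 1) (k : ℕ) (hk : pc k + 2 = J.card) :
    PowerSeries.coeff k (Psi (yy θ l) (fun j => PowerSeries.C (C (th θ j))) J) =
      C (pp (th θ) J * pp (fun e => th θ (l + 1 + e)) (bits k) *
        ∏ e ∈ bits k, ∏ i ∈ J, (th θ (l + 1 + e) + th θ i)⁻¹) *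
      ∏ e ∈ bits k, (gg θ (l + 1) e * (C (th θ (l + 1 + e) ^ 2) + X)) := by
  have hc := b_charPS (K := K)
  have hcX : CharP K[X] 2 := inferInstance
  have hne : ∀ e i, i < l + 1 → th θ (l + 1 + e) + th θ i ≠ 0 := by
    intro e i hi h
    have := hθ (CharTwo.add_eq_zero.1 h)
    omega
  -- pick i0, i1
  obtain ⟨i0, hi0⟩ : J.Nonempty := by rw [← Finset.card_pos]; omega
  obtain ⟨J', hJ'⟩ : ∃ J', J' = J.erase i0 := ⟨_, rfl⟩
  have hcard' : J'.card + 1 = J.card := by
    rw [hJ']; exact Finset.card_erase_add_one hi0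
  obtain ⟨i1, hi1⟩ : J'.Nonempty := by rw [← Finset.card_pos]; omega
  obtain ⟨I, hI⟩ : ∃ I, I = J'.erase i1 := ⟨_, rfl⟩
  have hcardI : I.card + 1 = J'.card := by
    rw [hI]; exact Finset.card_erase_add_one hi1
  have h1n : i1 ∉ I := by rw [hI]; exact Finset.notMem_erase _ _
  have hJ'e : J' = insert i1 I := by rw [hI, Finset.insert_erase hi1]
  have h0n : i0 ∉ insert i1 I := by rw [← hJ'e, hJ']; exact Finset.notMem_erase _ _
  have hJe : J = insert i0 (insert i1 I) := by rw [← hJ'e, hJ', Finset.insert_erase hi0]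
  have hIlt : ∀ i ∈ I, i < l + 1 := fun i hi => hJ i (by rw [hJe]; simp [hi])
  have h0lt : i0 < l + 1 := hJ i0 hi0
  have h1lt : i1 < l + 1 := hJ i1 (by rw [hJe]; simp)
  have hkI : pc k = I.card := by omega
  -- the reduced series
  set T : ℕ → K := fun e => th θ (l + 1 + e) with hT
  set yt : ℕ → PowerSeries K[X] := fun i => addS (fun e => gg θ (l + 1) e *
    (1 + (C (T e ^ 2) + X) * C ((T e + th θ i)⁻¹ * (T e + th θ i0)⁻¹))) with hyt
  have hr : ∀ i ∈ insert i1 I, yy θ l i0 + yy θ l i =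
      PowerSeries.C (C (th θ i) + C (th θ i0)) * yt i := by
    intro i hi
    have hilt : i < l + 1 := hJ i (by rw [hJe]; exact Finset.mem_insert_of_mem hi)
    apply b_ext_pow (b_Adv_add (b_Adv_C_mul _ (b_Adv_al θ _ _)) (b_Adv_C_mul _ (b_Adv_al θ _ _)))
      (b_Adv_C_mul _ (b_Adv_addS _))
    intro e
    rw [(PowerSeries.coeff (2 ^ e)).map_add, PowerSeries.coeff_C_mul, PowerSeries.coeff_C_mul,
      PowerSeries.coeff_C_mul, b_coeff_al, b_coeff_al]
    simp only [b_addS_pow]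
    have ht : th θ (l + 1 + e) = T e := rfl
    rw [ht]
    have n0 : (C (T e) + C (th θ i0)) * C ((T e + th θ i0)⁻¹) = (1 : K[X]) := by
      rw [← C_add, ← C_mul, mul_inv_cancel₀ (hne e i0 h0lt), C_1]
    have ni : (C (T e) + C (th θ i)) * C ((T e + th θ i)⁻¹) = (1 : K[X]) := by
      rw [← C_add, ← C_mul, mul_inv_cancel₀ (hne e i hilt), C_1]
    have h2 : (2 : K[X]) = 0 := CharTwo.two_eq_zero
    rw [C_mul, C_pow, C_pow, C_pow]
    set a : K[X] := C ((T e + th θ i0)⁻¹)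
    set b : K[X] := C ((T e + th θ i)⁻¹)
    set t : K[X] := C (T e)
    set p : K[X] := C (th θ i0)
    set q : K[X] := C (th θ i)
    set g : K[X] := gg θ (l + 1) e
    -- (p²+X) a + (q²+X) b = (q+p)(1+(t²+X) b a), given (t+p)a = 1, (t+q)b = 1
    have hA : (p ^ 2 + X) * a = (t + p) + (t ^ 2 + X) * a := by
      linear_combination (t + p) * n0 + (- t * p * a - t ^ 2 * a) * h2
    have hB : (q ^ 2 + X) * b = (t + q) + (t ^ 2 + X) * b := by
      linear_combination (t + q) * ni + (- t * q * b - t ^ 2 * b) * h2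
    have hC : a + b = (q + p) * (b * a) := by
      linear_combination (-b) * n0 - a * ni + (t * a * b) * h2
    linear_combination g * hA + g * hB + g * (t ^ 2 + X) * hC + (g * t) * h2
  have hel := b_elim (yy θ l) yt (fun j => C (th θ j))
    (fun j => b_Vf_Adv (b_Adv_C_mul _ (b_Adv_al θ _ _)))
    (fun j => b_Vf_Adv (b_Adv_sq (b_Adv_C_mul _ (b_Adv_al θ _ _))))
    (fun j => b_Vf_Adv (b_Adv_addS _)) (fun j => b_Vf_Adv (b_Adv_sq (b_Adv_addS _)))
    h1n h0n hr k (by omega)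
  rw [map_sub, sub_eq_zero] at hel
  rw [hJe, hel, PowerSeries.coeff_C_mul]
  -- the product of the yt i1 + yt i
  have hyt2 : ∀ i ∈ I, yt i1 + yt i = addS (fun e =>
      (gg θ (l + 1) e * (C (T e ^ 2) + X) * C ((T e + th θ i0)⁻¹ * (T e + th θ i1)⁻¹)) *
        C ((th θ i + th θ i1) * (T e + th θ i)⁻¹)) := by
    intro i hi
    apply b_ext_pow (b_Adv_add (b_Adv_addS _) (b_Adv_addS _)) (b_Adv_addS _)
    intro e
    rw [(PowerSeries.coeff (2 ^ e)).map_add]
    simp only [b_addS_pow]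
    have n1 : (C (T e) + C (th θ i1)) * C ((T e + th θ i1)⁻¹) = (1 : K[X]) := by
      rw [← C_add, ← C_mul, mul_inv_cancel₀ (hne e i1 h1lt), C_1]
    have ni : (C (T e) + C (th θ i)) * C ((T e + th θ i)⁻¹) = (1 : K[X]) := by
      rw [← C_add, ← C_mul, mul_inv_cancel₀ (hne e i (hIlt i hi)), C_1]
    have h2 : (2 : K[X]) = 0 := CharTwo.two_eq_zero
    simp only [C_mul, C_add]
    set a0 : K[X] := C ((T e + th θ i0)⁻¹)
    set a : K[X] := C ((T e + th θ i1)⁻¹)
    set b : K[X] := C ((T e + th θ i)⁻¹)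
    set t : K[X] := C (T e)
    set p : K[X] := C (th θ i1)
    set q : K[X] := C (th θ i)
    set g : K[X] := gg θ (l + 1) e
    have hC : a + b = (q + p) * (b * a) := by
      linear_combination (-b) * n1 - a * ni + (t * a * b) * h2
    linear_combination g * (C (T e ^ 2) + X) * a0 * hC + g * h2
  rw [Finset.prod_congr rfl hyt2, b_scaling _ (fun i e => C ((th θ i + th θ i1) * (T e + th θ i)⁻¹))
    I k hkI]
  -- Cauchy
  have hcau : PowerSeries.coeff k (∏ i ∈ I, addS (fun e =>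
      (C ((th θ i + th θ i1) * (T e + th θ i)⁻¹) : K[X]))) =
      C ((∏ i ∈ I, (th θ i + th θ i1)) * (pp (th θ) I * pp T (bits k) *
        ∏ e ∈ bits k, ∏ i ∈ I, (T e + th θ i)⁻¹)) := by
    set c' : ℕ → K := fun i => if i < l + 1 then th θ i else th θ 0 with hc'
    have hc'I : ∀ i ∈ I, c' i = th θ i := fun i hi => if_pos (hIlt i hi)
    have e1 : ∀ i ∈ I, addS (fun e => (C ((th θ i + th θ i1) * (T e + th θ i)⁻¹) : K[X])) =
        PowerSeries.map C (PowerSeries.C (th θ i + th θ i1) * addS (fun e => (T e + c' i)⁻¹)) := by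
      intro i hi
      apply b_ext_pow (b_Adv_addS _)
      · intro n hn
        rw [PowerSeries.coeff_map, b_Adv_C_mul _ (b_Adv_addS _) n hn, map_zero]
      · intro e
        rw [PowerSeries.coeff_map, PowerSeries.coeff_C_mul, b_addS_pow, b_addS_pow, hc'I i hi]
    rw [Finset.prod_congr rfl e1, ← map_prod, PowerSeries.coeff_map, Finset.prod_mul_distrib,
      ← map_prod, PowerSeries.coeff_C_mul, b_cauchy T c' _ I k hkI]
    · congr 2
      have e2 : pp c' I = pp (th θ) I := by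
        unfold pp
        apply Finset.prod_congr rfl
        intro i hi
        apply Finset.prod_congr rfl
        intro j hj
        rw [hc'I i hi, hc'I j (Finset.mem_filter.1 hj).1]
      have e3 : ∀ e, ∏ i ∈ I, (T e + c' i)⁻¹ = ∏ i ∈ I, (T e + th θ i)⁻¹ := fun e =>
        Finset.prod_congr rfl (fun i hi => by rw [hc'I i hi])
      rw [e2, Finset.prod_congr rfl (fun e _ => e3 e)]
    · intro e i
      simp only [hc']
      split_ifs with h
      · exact hne e i h
      · exact hne e 0 (by omega)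
  rw [hcau, b_pp_insert _ h0n, b_pp_insert _ h1n]
  have e4 : ∏ e ∈ bits k, ∏ i ∈ insert i0 (insert i1 I), (T e + th θ i)⁻¹ =
      (∏ e ∈ bits k, ((T e + th θ i0)⁻¹ * (T e + th θ i1)⁻¹)) *
        ∏ e ∈ bits k, ∏ i ∈ I, (T e + th θ i)⁻¹ := by
    rw [← Finset.prod_mul_distrib]
    apply Finset.prod_congr rfl
    intro e _
    rw [Finset.prod_insert h0n, Finset.prod_insert h1n, mul_assoc]
  have e5 : ∏ e ∈ bits k, (gg θ (l + 1) e * (C (T e ^ 2) + X) *
      C ((T e + th θ i0)⁻¹ * (T e + th θ i1)⁻¹)) =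
      (∏ e ∈ bits k, (gg θ (l + 1) e * (C (T e ^ 2) + X))) *
      C (∏ e ∈ bits k, ((T e + th θ i0)⁻¹ * (T e + th θ i1)⁻¹)) := by
    rw [Finset.prod_mul_distrib, ← map_prod C]
  have e6 : ∏ i ∈ insert i1 I, (C (th θ i) + C (th θ i0) : K[X]) =
      C (∏ j ∈ insert i1 I, (th θ i0 + th θ j)) := by
    rw [map_prod]
    apply Finset.prod_congr rfl
    intro i _
    rw [← C_add, add_comm]
  have e7 : ∏ j ∈ I, (th θ i1 + th θ j) = ∏ i ∈ I, (th θ i + th θ i1) :=
    Finset.prod_congr rfl (fun j _ => add_comm _ _)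
  rw [e4, e5, e6, e7]
  simp only [C_mul]
  ring

end

end MZ
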