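import Pool.Agent.Work.MP_968e92_nt.B10
open Polynomial
namespace MZ

/-- the one digits below `a` -/
def ons (n a : ℕ) : Finset ℕ := (Finset.range a).filter fun j => n.testBit j = true

theorem b_ons_succ_one {n l : ℕ} (h : n.testBit l = true) :
    ons n (l + 1) = insert l (ons n l) := by
  unfold ons
  rw [Finset.range_add_one, Finset.filter_insert, if_pos h]

theorem b_ons_succ_zero {n l : ℕ} (h : n.testBit l = false) :
    ons n (l + 1) = ons n l := by
  unfold ons
  rw [Finset.range_add_one, Finset.filter_insert, if_neg (by simp [h])]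

theorem b_notMem_ons (n l : ℕ) : l ∉ ons n l := by simp [ons]

theorem b_bits_eq (n m : ℕ) (h : n < m) : bits n = ons n m := by
  ext j
  rw [b_mem_bits]
  unfold ons
  simp only [Finset.mem_filter, Finset.mem_range, iff_and_self]
  intro h1
  have := b_le_of_testBit h1
  have := (Nat.lt_two_pow_self (n := j))
  omega

theorem b_prod_zer_add {M : Type*} [CommMonoid M] (f : ℕ → M) (n a e : ℕ) :
    ∏ j ∈ zer n (a + e), f j =
      (∏ j ∈ zer n a, f j) * ∏ m ∈ zer (n / 2 ^ a) e, f (a + m) := by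
  induction e with
  | zero => simp [zer]
  | succ e ih =>
    have h1 : (n / 2 ^ a).testBit e = n.testBit (a + e) := by
      rw [Nat.testBit_div_two_pow, add_comm]
    rw [← add_assoc]
    cases h : n.testBit (a + e) with
    | true => rw [b_zer_succ_one h, b_zer_succ_one (h1.trans h), ih]
    | false =>
      rw [b_zer_succ_zero h, b_zer_succ_zero (h1.trans h),
        Finset.prod_insert (b_notMem_zer _ _), Finset.prod_insert (b_notMem_zer _ _), ih]
      exact mul_left_comm _ _ _

theorem b_prod_ons_add {M : Type*} [CommMonoid M] (f : ℕ → M) (n a e : ℕ) :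
    ∏ j ∈ ons n (a + e), f j =
      (∏ j ∈ ons n a, f j) * ∏ m ∈ ons (n / 2 ^ a) e, f (a + m) := by
  induction e with
  | zero => simp [ons]
  | succ e ih =>
    have h1 : (n / 2 ^ a).testBit e = n.testBit (a + e) := by
      rw [Nat.testBit_div_two_pow, add_comm]
    rw [← add_assoc]
    cases h : n.testBit (a + e) with
    | true =>
      rw [b_ons_succ_one h, b_ons_succ_one (h1.trans h),
        Finset.prod_insert (b_notMem_ons _ _), Finset.prod_insert (b_notMem_ons _ _), ih]
      exact mul_left_comm _ _ _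
    | false => rw [b_ons_succ_zero h, b_ons_succ_zero (h1.trans h), ih]

theorem b_prod_range_split {M : Type*} [CommMonoid M] (f : ℕ → M) (n a : ℕ) :
    ∏ j ∈ Finset.range a, f j = (∏ j ∈ ons n a, f j) * ∏ j ∈ zer n a, f j := by
  induction a with
  | zero => simp [ons, zer]
  | succ a ih =>
    rw [Finset.prod_range_succ, ih]
    cases h : n.testBit a with
    | true =>
      rw [b_ons_succ_one h, b_zer_succ_one h, Finset.prod_insert (b_notMem_ons _ _)]
      rw [mul_comm, mul_assoc]
    | false =>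
      rw [b_ons_succ_zero h, b_zer_succ_zero h, Finset.prod_insert (b_notMem_zer _ _)]
      rw [mul_comm, mul_left_comm]

section
variable {K : Type*} [Field K] [CharP K 2] {θ : K}

/-- the bookkeeping of the constants -/
theorem b_const (hθ : Function.Injective (th θ)) (n a : ℕ) :
    cc θ n a * (pp (th θ) (zer n a) * pp (fun e => th θ (a + e)) (bits (n / 2 ^ a)) *
      ∏ e ∈ bits (n / 2 ^ a), ∏ i ∈ zer n a, (th θ (a + e) + th θ i)⁻¹) *
      ∏ e ∈ bits (n / 2 ^ a), ∏ m ∈ Finset.range e, (th θ (a + e) + th θ (a + m))⁻¹ =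
    kap θ n := by
  have hne : ∀ i j, j < i → th θ i + th θ j ≠ 0 := by
    intro i j hij h
    have := hθ (CharTwo.add_eq_zero.1 h)
    omega
  set k := n / 2 ^ a with hk
  -- zeros cancel
  have h1 : cc θ n a * pp (th θ) (zer n a) =
      ∏ i ∈ ons n a, ∏ j ∈ zer n i, (th θ i + th θ j)⁻¹ := by
    unfold cc pp
    rw [b_prod_range_split _ n a, mul_assoc, ← Finset.prod_mul_distrib]
    have : ∏ i ∈ zer n a, ((∏ j ∈ zer n i, (th θ i + th θ j)⁻¹) *
        ∏ j ∈ (zer n a).filter (· < i), (th θ i + th θ j)) = 1 := by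
      apply Finset.prod_eq_one
      intro i hi
      have e1 : (zer n a).filter (· < i) = zer n i := by
        ext j
        rw [Finset.mem_filter, b_mem_zer, b_mem_zer]
        rw [b_mem_zer] at hi
        constructor
        · rintro ⟨⟨_, h2⟩, h3⟩; exact ⟨h3, h2⟩
        · rintro ⟨h2, h3⟩; exact ⟨⟨by omega, h3⟩, h2⟩
      rw [e1, ← Finset.prod_mul_distrib]
      apply Finset.prod_eq_one
      intro j hj
      exact inv_mul_cancel₀ (hne i j (b_mem_zer.1 hj).1)
    rw [this, mul_one]
  -- ones cancel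
  have h2 : pp (fun e => th θ (a + e)) (bits k) *
      ∏ e ∈ bits k, ∏ m ∈ Finset.range e, (th θ (a + e) + th θ (a + m))⁻¹ =
      ∏ e ∈ bits k, ∏ m ∈ zer k e, (th θ (a + e) + th θ (a + m))⁻¹ := by
    unfold pp
    rw [← Finset.prod_mul_distrib]
    apply Finset.prod_congr rfl
    intro e he
    have e1 : (bits k).filter (· < e) = ons k e := by
      ext j
      unfold ons
      rw [Finset.mem_filter, b_mem_bits, Finset.mem_filter, Finset.mem_range]
      tauto
    rw [e1, b_prod_range_split _ k e, ← mul_assoc, ← Finset.prod_mul_distrib]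
    have : ∏ i ∈ ons k e, ((th θ (a + e) + th θ (a + i)) * (th θ (a + e) + th θ (a + i))⁻¹) = 1 := by
      apply Finset.prod_eq_one
      intro j hj
      unfold ons at hj
      rw [Finset.mem_filter, Finset.mem_range] at hj
      exact mul_inv_cancel₀ (hne _ _ (by omega))
    rw [this, one_mul]
  -- kap
  have h3 : kap θ n = (∏ i ∈ ons n a, ∏ j ∈ zer n i, (th θ i + th θ j)⁻¹) *
      ∏ e ∈ bits k, ((∏ i ∈ zer n a, (th θ (a + e) + th θ i)⁻¹) *
        ∏ m ∈ zer k e, (th θ (a + e) + th θ (a + m))⁻¹) := by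
    unfold kap
    rw [b_bits_eq n (a + (n + 1)) (by omega), b_prod_ons_add, ← hk,
      b_bits_eq k (n + 1) (by have := Nat.div_le_self n (2 ^ a); omega)]
    congr 1
    apply Finset.prod_congr rfl
    intro e _
    rw [b_prod_zer_add, ← hk]
  rw [h3, Finset.prod_mul_distrib, ← h1, ← h2]
  ring

omit [CharP K 2] in
theorem b_Wr_add (f g P : K[X]) : Wr (f + g) P = Wr f P + Wr g P := by
  unfold Wr; rw [derivative_add]; ring

omit [CharP K 2] in
theorem b_Wr_C_mul (c : K) (f P : K[X]) : Wr (C c * f) P = C c * Wr f P := by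
  unfold Wr; rw [derivative_C_mul]; ring

theorem b_Wr_mul_expand (f P : K[X]) : Wr (P * expand K 2 f) P = 0 := by
  have : CharP K[X] 2 := inferInstance
  have h2 : (2 : K[X]) = 0 := CharTwo.two_eq_zero
  unfold Wr
  rw [derivative_mul, b_der_expand]
  linear_combination (derivative P * expand K 2 f * P) * h2

omit [CharP K 2] in
theorem b_PP_PS (n l : ℕ) : PP θ n l = PS θ (zer n (l + 1)) := by
  unfold PP PS
  exact Finset.prod_congr rfl (fun j _ => add_comm _ _)

/-- (E4) -/
theorem b_EE_wr (hθ : Function.Injective (th θ)) (n : ℕ) :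
    Wr (EE θ n (pc n + 1)) (PP θ n (pc n + 1)) = C (kap θ n) * VV θ n (pc n + 1) := by
  obtain ⟨l, hl⟩ : ∃ l, l = pc n + 1 := ⟨_, rfl⟩
  rw [← hl]
  have hcard := b_card_zer n l
  have hcard' := b_card_zer n (l + 1)
  rw [b_EE_form hθ, b_Wr_add, b_Wr_mul_expand, zero_add, b_Wr_C_mul,
    b_coeff_rest θ l _ (b_notMem_zer n l) _ (by omega), b_nxt_zer, b_PP_PS, ← b_coeff_WP, b_W2,
    b_coeff_ph, Nat.div_div_eq_div_mul, ← pow_succ,
    b_coeff_Psi hθ l _ (fun j hj => (b_mem_zer.1 hj).1) _ (by omega), ← b_const hθ n (l + 1)]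
  have h1 : ∀ e, gg θ (l + 1) e * (C (th θ (l + 1 + e) ^ 2) + X) =
      C (∏ m ∈ Finset.range e, (th θ (l + 1 + e) + th θ (l + 1 + m))⁻¹) *
        ((∏ m ∈ Finset.range e, (C (th θ (l + 1 + e)) + X ^ 2 ^ m)) *
          (C (th θ (l + 2 + e)) + X)) := by
    intro e
    unfold gg
    rw [Finset.prod_mul_distrib, ← map_prod C, b_th_sq, show l + 1 + e + 1 = l + 2 + e by ring]
    ring
  have h2 : VV θ n l = expand K 2 (∏ e ∈ bits (n / 2 ^ (l + 1)),
      ((∏ m ∈ Finset.range e, (C (th θ (l + 1 + e)) + X ^ 2 ^ m)) *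
          (C (th θ (l + 2 + e)) + X))) := by
    unfold VV; rw [map_prod]
  rw [Finset.prod_congr rfl (fun e _ => h1 e), Finset.prod_mul_distrib, ← map_prod C, h2]
  simp only [C_mul, map_mul (expand K 2), expand_C]
  ring

end

end MZ
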