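import Pool.Agent.Work.MP_968e92_nt.B1
open Polynomial
namespace MZ

theorem b_testBit_div (n l : ℕ) : n.testBit l = (n / 2 ^ l).testBit 0 := by
  simp [Nat.testBit, Nat.shiftRight_eq_div_pow]

theorem b_zer_succ_one {n l : ℕ} (h : n.testBit l = true) : zer n (l + 1) = zer n l := by
  ext j
  rw [b_mem_zer, b_mem_zer]
  constructor
  · rintro ⟨h1, h2⟩
    refine ⟨?_, h2⟩
    rcases Nat.lt_succ_iff_lt_or_eq.1 h1 with h3 | h3
    · exact h3
    · subst h3; simp [h] at h2
  · rintro ⟨h1, h2⟩
    exact ⟨by omega, h2⟩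

theorem b_zer_succ_zero {n l : ℕ} (h : n.testBit l = false) :
    zer n (l + 1) = insert l (zer n l) := by
  ext j
  rw [Finset.mem_insert, b_mem_zer, b_mem_zer]
  constructor
  · rintro ⟨h1, h2⟩
    rcases Nat.lt_succ_iff_lt_or_eq.1 h1 with h3 | h3
    · exact Or.inr ⟨h3, h2⟩
    · exact Or.inl h3
  · rintro (h1 | ⟨h1, h2⟩)
    · subst h1; exact ⟨by omega, h⟩
    · exact ⟨by omega, h2⟩

theorem b_notMem_zer (n l : ℕ) : l ∉ zer n l := by
  rw [b_mem_zer]; simp

theorem b_card_zer (n l : ℕ) : (zer n l).card + pc n = l + pc (n / 2 ^ l) := by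
  induction l with
  | zero => simp [zer]
  | succ l ih =>
    have h1 := b_pc_mod_div (n / 2 ^ l)
    rw [Nat.div_div_eq_div_mul, ← pow_succ] at h1
    cases h : n.testBit l with
    | true =>
      rw [b_zer_succ_one h]
      rw [b_testBit_div, Nat.testBit_zero] at h
      have : n / 2 ^ l % 2 = 1 := by simpa using h
      omega
    | false =>
      rw [b_zer_succ_zero h, Finset.card_insert_of_notMem (b_notMem_zer n l)]
      rw [b_testBit_div, Nat.testBit_zero] at h
      have : n / 2 ^ l % 2 = 0 := by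
        rcases Nat.mod_two_eq_zero_or_one (n / 2 ^ l) with h' | h'
        · exact h'
        · simp [h'] at h
      omega

/-! ### additive series -/

section
variable {R : Type*} [CommRing R]

theorem b_addS_pow (f : ℕ → R) (i : ℕ) : PowerSeries.coeff (2 ^ i) (addS f) = f i := by
  simp [addS, Nat.log_pow]

theorem b_addS_ne (f : ℕ → R) (n : ℕ) (h : ∀ i, n ≠ 2 ^ i) :
    PowerSeries.coeff n (addS f) = 0 := by
  simp only [addS, PowerSeries.coeff_mk]
  rw [if_neg]
  intro h'
  exact h _ h'.symm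

theorem b_addS_zero (f : ℕ → R) : PowerSeries.coeff 0 (addS f) = 0 :=
  b_addS_ne f 0 (fun i => (pow_pos (by norm_num) i).ne)

theorem b_ext_pow {F G : PowerSeries R} (hF : ∀ n, (∀ i, n ≠ 2 ^ i) → PowerSeries.coeff n F = 0)
    (hG : ∀ n, (∀ i, n ≠ 2 ^ i) → PowerSeries.coeff n G = 0)
    (h : ∀ i, PowerSeries.coeff (2 ^ i) F = PowerSeries.coeff (2 ^ i) G) : F = G := by
  ext n
  by_cases hn : ∃ i, n = 2 ^ i
  · obtain ⟨i, rfl⟩ := hn; exact h i
  · push Not at hn
    rw [hF n hn, hG n hn]

/-- additive series -/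
def Adv (F : PowerSeries R) : Prop := ∀ n, (∀ i, n ≠ 2 ^ i) → PowerSeries.coeff n F = 0

theorem b_Adv_addS (f : ℕ → R) : Adv (addS f) := fun n h => b_addS_ne f n h

theorem b_Adv_add {F G : PowerSeries R} (hF : Adv F) (hG : Adv G) : Adv (F + G) := by
  intro n h; rw [map_add, hF n h, hG n h, add_zero]

theorem b_Adv_C_mul (c : R) {F : PowerSeries R} (hF : Adv F) : Adv (PowerSeries.C c * F) := by
  intro n h; rw [PowerSeries.coeff_C_mul, hF n h, mul_zero]

theorem b_Adv_X : Adv (PowerSeries.X : PowerSeries R) := by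
  intro n h
  rw [PowerSeries.coeff_X, if_neg]
  intro h1; exact h 0 (by simpa using h1)

/-! ### filtration by popcount -/

/-- `F` has no coefficient at exponents of popcount `> m` -/
def Vf (m : ℤ) (F : PowerSeries R) : Prop := ∀ n, m < (pc n : ℤ) → PowerSeries.coeff n F = 0

theorem b_Vf_mono {a b : ℤ} (h : a ≤ b) {F : PowerSeries R} (hF : Vf a F) : Vf b F :=
  fun n hn => hF n (by omega)

theorem b_Vf_add {a : ℤ} {F G : PowerSeries R} (hF : Vf a F) (hG : Vf a G) : Vf a (F + G) := by
  intro n h; rw [map_add, hF n h, hG n h, add_zero]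

theorem b_Vf_neg {a : ℤ} {F : PowerSeries R} (hF : Vf a F) : Vf a (-F) := by
  intro n h; rw [map_neg, hF n h, neg_zero]

theorem b_Vf_sub {a : ℤ} {F G : PowerSeries R} (hF : Vf a F) (hG : Vf a G) : Vf a (F - G) := by
  intro n h; rw [map_sub, hF n h, hG n h, sub_zero]

theorem b_Vf_zero (a : ℤ) : Vf a (0 : PowerSeries R) := by
  intro n h; simp

theorem b_Vf_sum {ι : Type*} {a : ℤ} (s : Finset ι) (f : ι → PowerSeries R)
    (h : ∀ i ∈ s, Vf a (f i)) : Vf a (∑ i ∈ s, f i) := by
  intro n hn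
  rw [map_sum]
  exact Finset.sum_eq_zero (fun i hi => h i hi n hn)

theorem b_Vf_mul {a b : ℤ} {F G : PowerSeries R} (hF : Vf a F) (hG : Vf b G) :
    Vf (a + b) (F * G) := by
  intro n hn
  rw [PowerSeries.coeff_mul]
  apply Finset.sum_eq_zero
  rintro ⟨i, j⟩ hij
  rw [Finset.HasAntidiagonal.mem_antidiagonal] at hij
  have h1 := b_pc_add_le i j
  simp only at hij
  rw [hij] at h1
  by_cases h2 : a < (pc i : ℤ)
  · simp [hF i h2]
  · have : b < (pc j : ℤ) := by
      have : (pc n : ℤ) ≤ pc i + pc j := by exact_mod_cast h1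
      omega
    simp [hG j this]

theorem b_Vf_one : Vf 0 (1 : PowerSeries R) := by
  intro n h
  rw [PowerSeries.coeff_one, if_neg]
  rintro rfl
  rw [b_pc_zero] at h
  simp at h

theorem b_Vf_C (c : R) : Vf 0 (PowerSeries.C c : PowerSeries R) := by
  intro n h
  rw [PowerSeries.coeff_C, if_neg]
  rintro rfl
  rw [b_pc_zero] at h
  simp at h

theorem b_Vf_C_mul {a : ℤ} (c : R) {F : PowerSeries R} (hF : Vf a F) :
    Vf a (PowerSeries.C c * F) := by
  intro n h; rw [PowerSeries.coeff_C_mul, hF n h, mul_zero]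

theorem b_Vf_Adv {F : PowerSeries R} (hF : Adv F) : Vf 1 F := by
  intro n h
  apply hF
  rintro i rfl
  rw [b_pc_two_pow] at h
  norm_num at h

theorem b_Vf_prod {ι : Type*} [DecidableEq ι] (s : Finset ι) (y : ι → PowerSeries R)
    (h : ∀ i ∈ s, Vf 1 (y i)) : Vf s.card (∏ i ∈ s, y i) := by
  induction s using Finset.induction_on with
  | empty => simpa using b_Vf_one
  | insert a s ha ih =>
    rw [Finset.prod_insert ha, Finset.card_insert_of_notMem ha]
    have h1 := b_Vf_mul (h a (Finset.mem_insert_self a s))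
      (ih (fun i hi => h i (Finset.mem_insert_of_mem hi)))
    have e : ((s.card + 1 : ℕ) : ℤ) = 1 + (s.card : ℤ) := by push_cast; ring
    rw [e]; exact h1

theorem b_Vf_pow {a : ℤ} {F : PowerSeries R} (hF : Vf a F) (k : ℕ) : Vf (k * a) (F ^ k) := by
  induction k with
  | zero => simpa using b_Vf_one
  | succ k ih =>
    rw [pow_succ]
    have h1 := b_Vf_mul ih hF
    have e : ((k + 1 : ℕ) : ℤ) * a = k * a + a := by push_cast; ring
    rw [e]; exact h1

/-- squares of additive series are additive in characteristic two -/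
theorem b_Adv_sq [CharP R 2] {F : PowerSeries R} (hF : Adv F) : Adv (F ^ 2) := by
  intro n hn
  rw [pow_two, PowerSeries.coeff_mul]
  -- pair up
  have hinv : ∑ p ∈ Finset.HasAntidiagonal.antidiagonal n, PowerSeries.coeff p.1 F * PowerSeries.coeff p.2 F = 0 := by
    refine Finset.sum_involution (fun p _ => (p.2, p.1)) ?_ ?_ ?_ ?_
    · rintro ⟨i, j⟩ _
      simp only
      rw [mul_comm (PowerSeries.coeff j F)]
      exact CharTwo.add_self_eq_zero _
    · rintro ⟨i, j⟩ hij hne heq
      rw [Finset.HasAntidiagonal.mem_antidiagonal] at hij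
      simp only [Prod.mk.injEq] at heq hij
      obtain ⟨h1, -⟩ := heq
      subst h1
      apply hne
      simp only
      have : PowerSeries.coeff j F = 0 := by
        apply hF
        rintro k rfl
        apply hn (k + 1)
        rw [← hij]; ring
      rw [this, zero_mul]
    · rintro ⟨i, j⟩ hij
      rw [Finset.HasAntidiagonal.mem_antidiagonal] at hij ⊢
      simp only at hij ⊢
      omega
    · rintro ⟨i, j⟩ hij
      rfl
  exact hinv

theorem b_coeff_sq [CharP R 2] (F : PowerSeries R) (n : ℕ) :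
    PowerSeries.coeff (2 * n) (F ^ 2) = PowerSeries.coeff n F ^ 2 := by
  rw [pow_two, PowerSeries.coeff_mul]
  have hmem : (n, n) ∈ Finset.HasAntidiagonal.antidiagonal (2 * n) := by
    rw [Finset.HasAntidiagonal.mem_antidiagonal]; simp only; ring
  rw [← Finset.add_sum_erase _ _ hmem]
  have hinv : ∑ p ∈ (Finset.HasAntidiagonal.antidiagonal (2 * n)).erase (n, n),
      PowerSeries.coeff p.1 F * PowerSeries.coeff p.2 F = 0 := by
    refine Finset.sum_involution (fun p _ => (p.2, p.1)) ?_ ?_ ?_ ?_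
    · rintro ⟨i, j⟩ _
      simp only
      rw [mul_comm (PowerSeries.coeff j F)]
      exact CharTwo.add_self_eq_zero _
    · rintro ⟨i, j⟩ hij hne heq
      rw [Finset.mem_erase, Finset.HasAntidiagonal.mem_antidiagonal] at hij
      simp only [Prod.mk.injEq] at heq hij
      obtain ⟨h1, -⟩ := heq
      subst h1
      apply hij.1
      have : j = n := by omega
      rw [this]
    · rintro ⟨i, j⟩ hij
      rw [Finset.mem_erase, Finset.HasAntidiagonal.mem_antidiagonal] at hij ⊢
      simp only [Prod.mk.injEq, ne_eq] at hij ⊢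
      constructor
      · rintro ⟨h1, h2⟩; exact hij.1 ⟨h2, h1⟩
      · omega
    · rintro ⟨i, j⟩ hij
      rfl
  simp only at hinv ⊢
  rw [hinv, add_zero, pow_two]

theorem b_coeff_sq_odd [CharP R 2] (F : PowerSeries R) (n : ℕ) :
    PowerSeries.coeff (2 * n + 1) (F ^ 2) = 0 := by
  rw [pow_two, PowerSeries.coeff_mul]
  refine Finset.sum_involution (fun p _ => (p.2, p.1)) ?_ ?_ ?_ ?_
  · rintro ⟨i, j⟩ _
    simp only
    rw [mul_comm (PowerSeries.coeff j F)]
    exact CharTwo.add_self_eq_zero _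
  · rintro ⟨i, j⟩ hij hne heq
    rw [Finset.HasAntidiagonal.mem_antidiagonal] at hij
    simp only [Prod.mk.injEq] at heq hij
    omega
  · rintro ⟨i, j⟩ hij
    rw [Finset.HasAntidiagonal.mem_antidiagonal] at hij ⊢
    simp only at hij ⊢
    omega
  · rintro ⟨i, j⟩ hij
    rfl

end

end MZ
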