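import Pool.Agent.Work.MP_968e92_nt.B2
open Polynomial
namespace MZ

theorem b_coeff_expX {R : Type*} [CommRing R] (F : PowerSeries R) (n : ℕ) :
    PowerSeries.coeff (2 * n) (expX R F) = PowerSeries.coeff n F :=
  PowerSeries.coeff_expand_mul 2 two_ne_zero F n

theorem b_coeff_expX_odd {R : Type*} [CommRing R] (F : PowerSeries R) (n : ℕ) :
    PowerSeries.coeff (2 * n + 1) (expX R F) = 0 :=
  PowerSeries.coeff_expand_of_not_dvd 2 two_ne_zero F (by omega)

theorem b_expX_C {R : Type*} [CommRing R] (r : R) : expX R (PowerSeries.C r) = PowerSeries.C r :=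
  PowerSeries.expand_C 2 two_ne_zero r

theorem b_expX_X {R : Type*} [CommRing R] :
    expX R (PowerSeries.X) = PowerSeries.X ^ 2 :=
  PowerSeries.expand_X 2 two_ne_zero

section
variable {K : Type*} [Field K]

theorem b_coeff_ph (F : PowerSeries K[X]) (n : ℕ) :
    PowerSeries.coeff (2 * n) (ph F) = expand K 2 (PowerSeries.coeff n F) := by
  unfold ph
  rw [RingHom.comp_apply, b_coeff_expX, PowerSeries.coeff_map]
  rfl

theorem b_coeff_ph_odd (F : PowerSeries K[X]) (n : ℕ) :
    PowerSeries.coeff (2 * n + 1) (ph F) = 0 := by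
  unfold ph
  rw [RingHom.comp_apply, b_coeff_expX_odd]

theorem b_ph_C (f : K[X]) : ph (PowerSeries.C f) = PowerSeries.C (expand K 2 f) := by
  unfold ph
  rw [RingHom.comp_apply, PowerSeries.map_C, b_expX_C]
  rfl

theorem b_ph_X : ph (PowerSeries.X : PowerSeries K[X]) = PowerSeries.X ^ 2 := by
  unfold ph
  rw [RingHom.comp_apply, PowerSeries.map_X, b_expX_X]

theorem b_Adv_ph {F : PowerSeries K[X]} (hF : Adv F) : Adv (ph F) := by
  intro n hn
  rcases Nat.even_or_odd' n with ⟨m, rfl | rfl⟩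
  · rw [b_coeff_ph, hF m, map_zero]
    rintro i rfl
    exact hn (i + 1) (by ring)
  · exact b_coeff_ph_odd F m

end

end MZ
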