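import Pool.Agent.Work.MP_968e92_nt.B3
open Polynomial
namespace MZ

section
variable {K : Type*} [Field K] (θ : K)

theorem b_th_sq (i : ℕ) : th θ i ^ 2 = th θ (i + 1) := by
  unfold th; rw [← pow_mul, pow_succ]

theorem b_gg_zero (l : ℕ) : gg θ l 0 = 1 := by simp [gg]

theorem b_gg_succ (l i : ℕ) : gg θ l (i + 1) =
    C ((th θ (l + (i + 1)) + th θ l)⁻¹) * (C (th θ (l + (i + 1))) + X) *
      expand K 2 (gg θ (l + 1) i) := by
  unfold gg
  rw [Finset.prod_range_succ', mul_comm]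
  congr 1
  · simp
  · rw [map_prod]
    apply Finset.prod_congr rfl
    intro m _
    simp only [map_mul, map_add, map_pow, expand_C, expand_X]
    rw [show l + 1 + i = l + (i + 1) by ring, show l + 1 + m = l + (m + 1) by ring, ← pow_mul,
      ← pow_succ']

theorem b_gg_sq [CharP K 2] (l i : ℕ) : gg θ l i ^ 2 = expand K 2 (gg θ (l + 1) i) := by
  unfold gg
  rw [map_prod, ← Finset.prod_pow]
  apply Finset.prod_congr rfl
  intro m _
  have : CharP K[X] 2 := inferInstance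
  simp only [map_mul, map_add, map_pow, expand_C, expand_X]
  rw [mul_pow, CharTwo.add_sq, ← C_pow, ← C_pow, inv_pow, CharTwo.add_sq, b_th_sq, b_th_sq,
    ← pow_mul, ← pow_mul]
  have e1 : l + 1 + i = l + i + 1 := by ring
  have e2 : l + 1 + m = l + m + 1 := by ring
  rw [e1, e2, mul_comm (2 ^ m) 2]

theorem b_coeff_al (l j i : ℕ) : PowerSeries.coeff (2 ^ i) (al θ l j) =
    C ((th θ (l + i) + th θ j)⁻¹) * gg θ l i := b_addS_pow _ _

theorem b_Adv_al (l j : ℕ) : Adv (al θ l j) := b_Adv_addS _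

/-- `al² = φ(al)` with shifted indices -/
theorem b_al_sq [CharP K 2] (l j : ℕ) : al θ l j ^ 2 = ph (al θ (l + 1) (j + 1)) := by
  have : CharP K[X] 2 := inferInstance
  apply b_ext_pow (b_Adv_sq (b_Adv_al θ l j)) (b_Adv_ph (b_Adv_al θ _ _))
  intro i
  rcases Nat.eq_zero_or_pos i with rfl | hi
  · rw [pow_zero]
    have h1 := b_coeff_sq_odd (al θ l j) 0
    have h2 := b_coeff_ph_odd (al θ (l + 1) (j + 1)) 0
    simp only [mul_zero, zero_add] at h1 h2
    rw [h1, h2]
  · obtain ⟨i, rfl⟩ : ∃ k, i = k + 1 := ⟨i - 1, by omega⟩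
    rw [pow_succ', b_coeff_sq, b_coeff_ph, b_coeff_al, b_coeff_al, mul_pow, ← C_pow, inv_pow,
      CharTwo.add_sq, b_th_sq, b_th_sq, b_gg_sq, map_mul, expand_C]
    have e1 : l + 1 + i = l + i + 1 := by ring
    rw [e1]

/-- `x_{l,j} = (Z + θ_j) φ(al_{l+1,j})` -/
noncomputable def xx (l j : ℕ) : PowerSeries K[X] :=
  PowerSeries.C (C (th θ j) + X) * ph (al θ (l + 1) j)

theorem b_Adv_xx (l j : ℕ) : Adv (xx θ l j) := b_Adv_C_mul _ (b_Adv_ph (b_Adv_al θ _ _))

theorem b_Om (l : ℕ) : Om θ l = PowerSeries.X + xx θ l l := rfl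

theorem b_Adv_Om (l : ℕ) : Adv (Om θ l) := b_Adv_add b_Adv_X (b_Adv_xx θ l l)

theorem b_Om_sq [CharP K 2] (l : ℕ) : Om θ l ^ 2 = ph (Om θ (l + 1)) := by
  have : CharP K[X] 2 := inferInstance
  have : CharP (PowerSeries K[X]) 2 :=
    charP_of_injective_ringHom (PowerSeries.C_injective) 2
  rw [b_Om, b_Om, CharTwo.add_sq, map_add, b_ph_X]
  congr 1
  unfold xx
  rw [mul_pow, map_mul, b_ph_C, ← map_pow, ← map_pow, b_al_sq]
  congr 1
  congr 1
  rw [CharTwo.add_sq, ← C_pow, b_th_sq]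
  simp

/-- identity (1) -/
theorem b_id1 [CharP K 2] {θ : K} (hθ : Function.Injective (th θ)) (l j : ℕ) (hj : j < l) :
    PowerSeries.C (C (th θ l + th θ j)) * al θ l j = Om θ l + xx θ l j := by
  have : CharP K[X] 2 := inferInstance
  have hne : ∀ a b, a ≠ b → th θ a + th θ b ≠ 0 := by
    intro a b hab h
    exact hab (hθ (CharTwo.add_eq_zero.1 h))
  apply b_ext_pow (b_Adv_C_mul _ (b_Adv_al θ l j)) (b_Adv_add (b_Adv_Om θ l) (b_Adv_xx θ l j))
  intro i
  rw [PowerSeries.coeff_C_mul, (PowerSeries.coeff (2 ^ i)).map_add, b_coeff_al]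
  rcases Nat.eq_zero_or_pos i with rfl | hi
  · have h2 := fun k => b_coeff_ph_odd (al θ (l + 1) k) 0
    simp only [mul_zero, zero_add] at h2
    rw [pow_zero]
    unfold Om xx
    rw [(PowerSeries.coeff 1).map_add, PowerSeries.coeff_C_mul, PowerSeries.coeff_C_mul, h2, h2, add_zero, b_gg_zero,
      ← mul_assoc, ← C_mul, mul_inv_cancel₀ (hne _ _ (by omega))]
    simp
  · obtain ⟨i, rfl⟩ : ∃ k, i = k + 1 := ⟨i - 1, by omega⟩
    have hX : PowerSeries.coeff (2 ^ (i + 1)) (PowerSeries.X : PowerSeries K[X]) = 0 := by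
      rw [PowerSeries.coeff_X, if_neg]
      have : 1 < 2 ^ (i + 1) := Nat.one_lt_two_pow (by omega)
      omega
    unfold Om xx
    rw [(PowerSeries.coeff (2 ^ (i + 1))).map_add, hX, zero_add, PowerSeries.coeff_C_mul, PowerSeries.coeff_C_mul, pow_succ',
      b_coeff_ph, b_coeff_ph, b_coeff_al, b_coeff_al, b_gg_succ]
    simp only [map_mul, expand_C]
    rw [show l + 1 + i = l + (i + 1) by ring]
    set t := th θ (l + (i + 1)) with ht
    set a := th θ l with ha
    set b := th θ j with hb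
    have h1 : t + a ≠ 0 := hne _ _ (by omega)
    have h2 : t + b ≠ 0 := hne _ _ (by omega)
    have key : (C (a + b) * (C (t + b)⁻¹ * (C (t + a)⁻¹ * (C t + X))) : K[X]) =
        (C a + X) * C (t + a)⁻¹ + (C b + X) * C (t + b)⁻¹ := by
      have hh1 : (C (t + a) : K[X]) * C (t + a)⁻¹ = 1 := by
        rw [← C_mul, mul_inv_cancel₀ h1, C_1]
      have hh2 : (C (t + b) : K[X]) * C (t + b)⁻¹ = 1 := by
        rw [← C_mul, mul_inv_cancel₀ h2, C_1]
      have e : ((C a + X) * C (t + a)⁻¹ + (C b + X) * C (t + b)⁻¹ : K[X]) =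
          C (t + a)⁻¹ * C (t + b)⁻¹ * ((C a + X) * C (t + b) + (C b + X) * C (t + a)) := by
        linear_combination (-(C a + X) * C (t + a)⁻¹) * hh2 - ((C b + X) * C (t + b)⁻¹) * hh1
      rw [e]
      have e2 : ((C a + X) * C (t + b) + (C b + X) * C (t + a) : K[X]) = C (a + b) * (C t + X) := by
        simp only [C_add]
        have hc : (2 : K[X]) = 0 := CharTwo.two_eq_zero
        linear_combination (C a * C b + X * C t) * hc
      rw [e2]; ring
    linear_combination (expand K 2) (gg θ (l + 1) i) * key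

end

end MZ
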