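import Pool.Agent.Work.MP_968e92_nt.B4
open Polynomial
namespace MZ

/-! ### elementary symmetric polynomials -/

section
variable {A : Type*} [CommRing A]

/-- `∏_{j ∈ S} (x_j + X)` -/
noncomputable def QQ (x : ℕ → A) (S : Finset ℕ) : A[X] := ∏ j ∈ S, (C (x j) + X)

theorem b_QQ_insert (x : ℕ → A) {S : Finset ℕ} {k : ℕ} (hk : k ∉ S) :
    QQ x (insert k S) = (C (x k) + X) * QQ x S := by
  unfold QQ; rw [Finset.prod_insert hk]

theorem b_QQ_coeff_zero (x : ℕ → A) (S : Finset ℕ) : (QQ x S).coeff 0 = ∏ j ∈ S, x j := by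
  rw [coeff_zero_eq_eval_zero]; unfold QQ; rw [eval_prod]; simp

theorem b_QQ_insert_succ (x : ℕ → A) {S : Finset ℕ} {k : ℕ} (hk : k ∉ S) (m : ℕ) :
    (QQ x (insert k S)).coeff (m + 1) = x k * (QQ x S).coeff (m + 1) + (QQ x S).coeff m := by
  rw [b_QQ_insert x hk, add_mul, coeff_add, coeff_C_mul, coeff_X_mul]

theorem b_QQ_eval (x : ℕ → A) (S : Finset ℕ) (w : A) :
    ∏ j ∈ S, (w + x j) = ∏ j ∈ S, x j + w * (QQ x S).divX.eval w := by
  have h := congrArg (eval w) (divX_mul_X_add (QQ x S))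
  rw [eval_add, eval_mul, eval_X, eval_C, b_QQ_coeff_zero] at h
  have h2 : (QQ x S).eval w = ∏ j ∈ S, (w + x j) := by
    unfold QQ; rw [eval_prod]
    apply Finset.prod_congr rfl
    intro j _; simp [add_comm]
  rw [← h2, ← h]; ring

end

section
variable {R : Type*} [CommRing R]

theorem b_QQ_Vf (x : ℕ → PowerSeries R) (hx : ∀ j, Vf 1 (x j)) (S : Finset ℕ) (m : ℕ) :
    Vf ((S.card : ℤ) - m) ((QQ x S).coeff m) := by
  induction S using Finset.induction_on generalizing m with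
  | empty =>
    have : QQ x ∅ = 1 := by simp [QQ]
    rw [this, coeff_one]
    split_ifs with h
    · subst h; simpa using b_Vf_one
    · exact b_Vf_zero _
  | insert k S hk ih =>
    rw [Finset.card_insert_of_notMem hk]
    rcases m with _ | m
    · rw [b_QQ_coeff_zero, Finset.prod_insert hk, ← b_QQ_coeff_zero]
      have h1 := b_Vf_mul (hx k) (ih 0)
      refine b_Vf_mono ?_ h1
      push_cast; omega
    · rw [b_QQ_insert_succ x hk]
      apply b_Vf_add
      · refine b_Vf_mono ?_ (b_Vf_mul (hx k) (ih (m + 1)))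
        push_cast; omega
      · refine b_Vf_mono ?_ (ih m)
        push_cast; omega

theorem b_eval_Vf (P : (PowerSeries R)[X]) (w : PowerSeries R) (hw : Vf 1 w) (c : ℤ)
    (hP : ∀ m : ℕ, Vf (c - m) (P.coeff m)) : Vf c (P.eval w) := by
  rw [eval_eq_sum_range]
  apply b_Vf_sum
  intro i _
  have h1 := b_Vf_mul (hP i) (b_Vf_pow hw i)
  refine b_Vf_mono ?_ h1
  omega

/-- `Rest ∈ V_{|S|-1}` -/
theorem b_rest_Vf (x : ℕ → PowerSeries R) (hx : ∀ j, Vf 1 (x j)) (w : PowerSeries R)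
    (hw : Vf 1 w) (S : Finset ℕ) : Vf ((S.card : ℤ) - 1) ((QQ x S).divX.eval w) := by
  apply b_eval_Vf _ _ hw
  intro m
  rw [coeff_divX]
  refine b_Vf_mono ?_ (b_QQ_Vf x hx S (m + 1))
  push_cast; omega

/-- `Rest ≡ σ₁ + w σ₂ mod V_{|S|-2}` -/
theorem b_rest_eq (x : ℕ → PowerSeries R) (w : PowerSeries R) (S : Finset ℕ) :
    (QQ x S).divX.eval w = (QQ x S).coeff 1 + w * (QQ x S).coeff 2 +
      w ^ 2 * (QQ x S).divX.divX.divX.eval w := by
  have h1 := congrArg (eval w) (divX_mul_X_add (QQ x S).divX)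
  have h2 := congrArg (eval w) (divX_mul_X_add (QQ x S).divX.divX)
  rw [eval_add, eval_mul, eval_X, eval_C, coeff_divX] at h1 h2
  rw [coeff_divX] at h2
  simp only [zero_add] at h1 h2
  rw [← h1, ← h2]; ring

theorem b_rest3_Vf (x : ℕ → PowerSeries R) (hx : ∀ j, Vf 1 (x j)) (w : PowerSeries R)
    (hw : Vf 1 w) (hw2 : Vf 1 (w ^ 2)) (S : Finset ℕ) :
    Vf ((S.card : ℤ) - 2) (w ^ 2 * (QQ x S).divX.divX.divX.eval w) := by
  have h : Vf ((S.card : ℤ) - 3) ((QQ x S).divX.divX.divX.eval w) := by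
    apply b_eval_Vf _ _ hw
    intro m
    rw [coeff_divX, coeff_divX, coeff_divX]
    refine b_Vf_mono ?_ (b_QQ_Vf x hx S (m + 1 + 1 + 1))
    push_cast; omega
  refine b_Vf_mono ?_ (b_Vf_mul hw2 h)
  omega

end

section
variable {K : Type*} [Field K] [CharP K 2] {θ : K}

theorem b_X_mul_om (l : ℕ) : PowerSeries.X * om θ l = Om θ l := by
  ext n
  rcases n with _ | n
  · have : PowerSeries.coeff 0 (Om θ l) = 0 :=
      b_Adv_Om θ l 0 (fun i => (pow_pos (by norm_num) i).ne)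
    rw [this]; simp
  · rw [PowerSeries.coeff_succ_X_mul]
    simp [om]

omit [CharP K 2] in
theorem b_coeff_one_Om (l : ℕ) : PowerSeries.coeff 1 (Om θ l) = 1 := by
  have h2 := b_coeff_ph_odd (al θ (l + 1) l) 0
  simp only [mul_zero, zero_add] at h2
  unfold Om
  rw [(PowerSeries.coeff 1).map_add, PowerSeries.coeff_C_mul, h2]
  simp

omit [CharP K 2] in
theorem b_om_mul_inv (l : ℕ) : om θ l * omInv θ l = 1 := by
  unfold omInv
  apply PowerSeries.mul_invOfUnit
  rw [← PowerSeries.coeff_zero_eq_constantCoeff_apply]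
  have := b_coeff_one_Om (θ := θ) l
  simpa [om] using this

theorem b_om_sq (l : ℕ) : om θ l ^ 2 = ph (om θ (l + 1)) := by
  have h1 := b_Om_sq θ l
  rw [← b_X_mul_om, ← b_X_mul_om, map_mul, b_ph_X, mul_pow] at h1
  exact mul_left_cancel₀ (pow_ne_zero 2 PowerSeries.X_ne_zero) h1

theorem b_omInv_sq (l : ℕ) : omInv θ l ^ 2 = ph (omInv θ (l + 1)) := by
  have h1 : om θ l ^ 2 * omInv θ l ^ 2 = 1 := by rw [← mul_pow, b_om_mul_inv, one_pow]
  have h2 : ph (om θ (l + 1)) * ph (omInv θ (l + 1)) = 1 := by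
    rw [← map_mul, b_om_mul_inv, map_one]
  rw [b_om_sq] at h1
  calc omInv θ l ^ 2 = (ph (om θ (l + 1)) * ph (omInv θ (l + 1))) * omInv θ l ^ 2 := by
        rw [h2, one_mul]
    _ = (ph (om θ (l + 1)) * omInv θ l ^ 2) * ph (omInv θ (l + 1)) := by ring
    _ = ph (omInv θ (l + 1)) := by rw [h1, one_mul]

theorem b_omInv (l : ℕ) : omInv θ l = om θ l * ph (omInv θ (l + 1)) := by
  rw [← b_omInv_sq, pow_two, ← mul_assoc, b_om_mul_inv, one_mul]

/-- the next index set -/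
def nxt (l : ℕ) (S : Finset ℕ) (N : ℕ) : Finset ℕ := if N % 2 = 1 then S else insert l S

theorem b_prod_xx (l : ℕ) (S : Finset ℕ) : ∏ j ∈ S, xx θ l j =
    PowerSeries.C (∏ j ∈ S, (X + C (th θ j))) * ph (∏ j ∈ S, al θ (l + 1) j) := by
  unfold xx
  rw [Finset.prod_mul_distrib, map_prod, map_prod]
  congr 1
  apply Finset.prod_congr rfl
  intro j _
  rw [add_comm]

/-- formula (2) -/
theorem b_form2 (hθ : Function.Injective (th θ)) (l : ℕ) (S : Finset ℕ) (hS : ∀ j ∈ S, j < l)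
    (N : ℕ) :
    C (∏ j ∈ S, (th θ l + th θ j)) * tt θ l S N =
      (∏ j ∈ nxt l S N, (X + C (th θ j))) * expand K 2 (tt θ (l + 1) (nxt l S N) (N / 2)) +
      PowerSeries.coeff N ((QQ (xx θ l) S).divX.eval (Om θ l)) := by
  have h1 : PowerSeries.C (C (∏ j ∈ S, (th θ l + th θ j))) * ((∏ j ∈ S, al θ l j) * omInv θ l) =
      (∏ j ∈ S, xx θ l j + Om θ l * (QQ (xx θ l) S).divX.eval (Om θ l)) * omInv θ l := by
    rw [← mul_assoc, ← b_QQ_eval]
    congr 1
    rw [map_prod, map_prod, ← Finset.prod_mul_distrib]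
    apply Finset.prod_congr rfl
    intro j hj
    exact b_id1 hθ l j (hS j hj)
  unfold tt
  rw [← PowerSeries.coeff_C_mul, h1, add_mul]
  have h2 : Om θ l * (QQ (xx θ l) S).divX.eval (Om θ l) * omInv θ l =
      PowerSeries.X * (QQ (xx θ l) S).divX.eval (Om θ l) := by
    have : Om θ l * omInv θ l = PowerSeries.X := by
      rw [← b_X_mul_om, mul_assoc, b_om_mul_inv, mul_one]
    linear_combination ((QQ (xx θ l) S).divX.eval (Om θ l)) * this
  rw [h2, (PowerSeries.coeff (N + 1)).map_add, PowerSeries.coeff_succ_X_mul]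
  congr 1
  -- main term
  have h3 : PowerSeries.X * ((∏ j ∈ S, xx θ l j) * omInv θ l) =
      PowerSeries.C (∏ j ∈ S, (X + C (th θ j))) *
        (PowerSeries.X * ph ((∏ j ∈ S, al θ (l + 1) j) * omInv θ (l + 1)) +
         PowerSeries.C (X + C (th θ l)) *
          ph (al θ (l + 1) l * ((∏ j ∈ S, al θ (l + 1) j) * omInv θ (l + 1)))) := by
    have e1 : Om θ l = PowerSeries.X + PowerSeries.C (X + C (th θ l)) * ph (al θ (l + 1) l) := by
      unfold Om; rw [add_comm (C (th θ l))]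
    rw [b_omInv, b_prod_xx, map_mul, map_mul, map_mul]
    have e2 := b_X_mul_om (θ := θ) l
    rw [e1] at e2
    linear_combination (PowerSeries.C (∏ j ∈ S, (X + C (th θ j))) *
      ph (∏ j ∈ S, al θ (l + 1) j) * ph (omInv θ (l + 1))) * e2
  rw [← PowerSeries.coeff_succ_X_mul, h3, PowerSeries.coeff_C_mul,
    (PowerSeries.coeff (N + 1 + 1)).map_add, PowerSeries.coeff_succ_X_mul,
    PowerSeries.coeff_C_mul]
  rcases Nat.even_or_odd' N with ⟨k, rfl | rfl⟩
  · have e1 : nxt l S (2 * k) = insert l S := by unfold nxt; rw [if_neg]; omega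
    have hl : l ∉ S := fun h => lt_irrefl _ (hS l h)
    rw [e1, b_coeff_ph_odd, show 2 * k + 1 + 1 = 2 * (k + 1) by ring, b_coeff_ph,
      Finset.prod_insert hl, Finset.prod_insert hl, show 2 * k / 2 = k by omega, mul_assoc
      (al θ (l + 1) l)]
    ring
  · have e1 : nxt l S (2 * k + 1) = S := by unfold nxt; rw [if_pos]; omega
    rw [e1, show 2 * k + 1 + 1 = 2 * (k + 1) by ring, b_coeff_ph_odd, b_coeff_ph,
      show (2 * k + 1) / 2 = k by omega]
    ring

end

end MZ
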