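import Pool.Agent.Work.MP_968e92_nt.B5
open Polynomial
namespace MZ

section
variable {K : Type*} [Field K] {θ : K}

theorem b_nxt_zer (n l : ℕ) : nxt l (zer n l) (n / 2 ^ l) = zer n (l + 1) := by
  unfold nxt
  cases h : n.testBit l with
  | true =>
    rw [b_zer_succ_one h, if_pos]
    rw [b_testBit_div, Nat.testBit_zero] at h
    simpa using h
  | false =>
    rw [b_zer_succ_zero h, if_neg]
    rw [b_testBit_div, Nat.testBit_zero] at h
    simpa using h

theorem b_cc_succ (n l : ℕ) :
    cc θ n (l + 1) = cc θ n l * (∏ j ∈ zer n l, (th θ l + th θ j))⁻¹ := by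
  unfold cc
  rw [Finset.prod_range_succ, Finset.prod_inv_distrib]

theorem b_prod_ne [CharP K 2] (hθ : Function.Injective (th θ)) (n l : ℕ) :
    ∏ j ∈ zer n l, (th θ l + th θ j) ≠ 0 := by
  rw [Finset.prod_ne_zero_iff]
  intro j hj h
  rw [b_mem_zer] at hj
  have := hθ (CharTwo.add_eq_zero.1 h)
  omega

/-- the step formula with remainder, every `l` -/
theorem b_EE_form [CharP K 2] (hθ : Function.Injective (th θ)) (n l : ℕ) :
    EE θ n l = PP θ n l * expand K 2 (EE θ n (l + 1)) +
      C (cc θ n (l + 1)) *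
        PowerSeries.coeff (n / 2 ^ l) ((QQ (xx θ l) (zer n l)).divX.eval (Om θ l)) := by
  have h := b_form2 hθ l (zer n l) (fun j hj => (b_mem_zer.1 hj).1) (n / 2 ^ l)
  rw [b_nxt_zer, Nat.div_div_eq_div_mul, ← pow_succ] at h
  have hne := b_prod_ne hθ n l
  have h2 : (C (∏ j ∈ zer n l, (th θ l + th θ j))⁻¹ : K[X]) *
      C (∏ j ∈ zer n l, (th θ l + th θ j)) = 1 := by
    rw [← C_mul, inv_mul_cancel₀ hne, C_1]
  unfold EE PP
  rw [b_cc_succ, map_mul (expand K 2), expand_C, C_mul]
  linear_combination (C (cc θ n l) * C (∏ j ∈ zer n l, (th θ l + th θ j))⁻¹) * h -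
    (C (cc θ n l) * tt θ l (zer n l) (n / 2 ^ l)) * h2

theorem b_Vf_xx (l j : ℕ) : Vf 1 (xx θ l j) := b_Vf_Adv (b_Adv_xx θ l j)

theorem b_EE_step [CharP K 2] (hθ : Function.Injective (th θ)) (n l : ℕ) (hl : l ≤ pc n) :
    EE θ n l = PP θ n l * expand K 2 (EE θ n (l + 1)) := by
  rw [b_EE_form hθ]
  have h1 := b_rest_Vf (xx θ l) (b_Vf_xx l) (Om θ l) (b_Vf_Adv (b_Adv_Om θ l)) (zer n l)
    (n / 2 ^ l) (by have := b_card_zer n l; omega)
  rw [h1, mul_zero, add_zero]

theorem b_th_pow (a m : ℕ) : th θ a ^ (2 ^ m) = th θ (a + m) := by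
  unfold th; rw [← pow_mul, pow_add]

theorem b_gg_eval_zero [CharP K 2] (l i : ℕ) (hi : 1 ≤ i) :
    (gg θ l i).eval (th θ (l + 1)) = 0 := by
  unfold gg
  rw [eval_prod]
  apply Finset.prod_eq_zero (i := i - 1) (Finset.mem_range.2 (by omega))
  simp only [eval_mul, eval_C, eval_add, eval_pow, eval_X]
  rw [b_th_pow, show l + 1 + (i - 1) = l + i by omega, CharTwo.add_self_eq_zero, mul_zero]

theorem b_EE_zero (n : ℕ) : EE θ n 0 = PowerSeries.coeff (n + 1) (omInv θ 0) := by
  simp [EE, cc, tt, zer]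

theorem b_coeff_xx_succ (l j i : ℕ) : PowerSeries.coeff (2 ^ (i + 1)) (xx θ l j) =
    (C (th θ j) + X) * (C ((th θ (l + 1 + i) + th θ j)⁻¹) * expand K 2 (gg θ (l + 1) i)) := by
  unfold xx
  rw [PowerSeries.coeff_C_mul, pow_succ', b_coeff_ph, b_coeff_al, map_mul, expand_C]

theorem b_coeff_Om_succ (l i : ℕ) : PowerSeries.coeff (2 ^ (i + 1)) (Om θ l) =
    (C (th θ l) + X) * (C ((th θ (l + 1 + i) + th θ l)⁻¹) * expand K 2 (gg θ (l + 1) i)) := by
  rw [b_Om, (PowerSeries.coeff (2 ^ (i + 1))).map_add, b_coeff_xx_succ, PowerSeries.coeff_X,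
    if_neg, zero_add]
  have : 1 < 2 ^ (i + 1) := Nat.one_lt_two_pow (by omega)
  omega

theorem b_map_Om [CharP K 2] (hθ : Function.Injective (th θ)) :
    PowerSeries.map (evalRingHom (th θ 1)) (Om θ 0) = PowerSeries.X + PowerSeries.X ^ 2 := by
  apply b_ext_pow
  · intro n hn
    rw [PowerSeries.coeff_map, b_Adv_Om θ 0 n hn, map_zero]
  · intro n hn
    rw [(PowerSeries.coeff n).map_add, PowerSeries.coeff_X, PowerSeries.coeff_X_pow, if_neg,
      if_neg, add_zero]
    · intro h; exact hn 1 (by simpa using h)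
    · intro h; exact hn 0 (by simpa using h)
  · intro i
    rcases i with _ | i
    · rw [pow_zero, PowerSeries.coeff_map, b_coeff_one_Om, map_one,
        (PowerSeries.coeff 1).map_add, PowerSeries.coeff_X, PowerSeries.coeff_X_pow]
      simp
    · rw [PowerSeries.coeff_map, b_coeff_Om_succ]
      simp only [coe_evalRingHom, eval_mul, eval_add, eval_C, eval_X, expand_eval]
      rw [b_th_sq]
      have h1 : PowerSeries.coeff (2 ^ (i + 1)) (PowerSeries.X : PowerSeries K) = 0 := by
        rw [PowerSeries.coeff_X, if_neg]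
        have : 1 < 2 ^ (i + 1) := Nat.one_lt_two_pow (by omega)
        omega
      rw [(PowerSeries.coeff (2 ^ (i + 1))).map_add, h1, zero_add, PowerSeries.coeff_X_pow]
      rcases i with _ | i
      · rw [b_gg_zero]
        simp only [zero_add, pow_one, if_true, eval_one, mul_one, add_zero]
        rw [add_comm (th θ 1)]
        apply mul_inv_cancel₀
        intro h
        have := hθ (CharTwo.add_eq_zero.1 h)
        omega
      · rw [show (1 + 1 : ℕ) = 0 + 1 + 1 by ring, b_gg_eval_zero (θ := θ) (0 + 1) (i + 1) (by omega), mul_zero, mul_zero, if_neg, add_zero]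
        have : 2 ^ (i + 1 + 1) = 2 * 2 ^ (i + 1) := by ring
        have : 1 < 2 ^ (i + 1) := Nat.one_lt_two_pow (by omega)
        omega

theorem b_EE_zero_eval [CharP K 2] (hθ : Function.Injective (th θ)) (n : ℕ) :
    (EE θ n 0).eval (th θ 1) = 1 := by
  have h1 := b_map_Om hθ
  rw [← b_X_mul_om, map_mul, PowerSeries.map_X] at h1
  have h2 : PowerSeries.map (evalRingHom (th θ 1)) (om θ 0) = 1 + PowerSeries.X := by
    apply mul_left_cancel₀ (PowerSeries.X_ne_zero (R := K))
    rw [h1]; ring
  have h3 : PowerSeries.map (evalRingHom (th θ 1)) (om θ 0) *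
      PowerSeries.map (evalRingHom (th θ 1)) (omInv θ 0) = 1 := by
    rw [← map_mul, b_om_mul_inv, map_one]
  have hchar : CharP (PowerSeries K) 2 :=
    charP_of_injective_ringHom (PowerSeries.C_injective) 2
  have h4 : (PowerSeries.mk (1 : ℕ → K)) * (1 + PowerSeries.X) = 1 := by
    have := PowerSeries.mk_one_mul_one_sub_eq_one K
    rwa [CharTwo.sub_eq_add] at this
  have h5 : PowerSeries.map (evalRingHom (th θ 1)) (omInv θ 0) = PowerSeries.mk (1 : ℕ → K) := by
    rw [h2] at h3
    calc _ = (PowerSeries.mk (1 : ℕ → K)) * (1 + PowerSeries.X) *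
          PowerSeries.map (evalRingHom (th θ 1)) (omInv θ 0) := by rw [h4, one_mul]
      _ = (PowerSeries.mk (1 : ℕ → K)) := by rw [mul_assoc, h3, mul_one]
  rw [b_EE_zero]
  have h6 := congrArg (PowerSeries.coeff (n + 1)) h5
  rw [PowerSeries.coeff_map] at h6
  simpa using h6

/-! ### degrees -/

theorem b_gg_natDegree (l i : ℕ) : (gg θ l i).natDegree ≤ 2 ^ i - 1 := by
  unfold gg
  refine (natDegree_prod_le _ _).trans ?_
  refine (Finset.sum_le_sum (g := fun m => 2 ^ m) ?_).trans ?_
  · intro m _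
    refine natDegree_mul_le.trans ?_
    rw [natDegree_C, zero_add]
    refine (natDegree_add_le _ _).trans ?_
    simp
  · have := Nat.geomSum_eq (m := 2) (by norm_num) i
    simp at this
    rw [this]

theorem b_om_natDegree (m : ℕ) : (PowerSeries.coeff m (om θ 0)).natDegree ≤ m := by
  unfold om
  rw [PowerSeries.coeff_mk]
  by_cases h : ∃ i, m + 1 = 2 ^ i
  · obtain ⟨i, hi⟩ := h
    rcases i with _ | i
    · rw [hi, pow_zero, b_coeff_one_Om]; simp
    · rw [hi, b_coeff_Om_succ]
      refine natDegree_mul_le.trans ?_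
      have h1 : (C (th θ 0) + X : K[X]).natDegree ≤ 1 := by
        refine (natDegree_add_le _ _).trans ?_
        simp
      have h2 : (C ((th θ (0 + 1 + i) + th θ 0)⁻¹) * expand K 2 (gg θ (0 + 1) i)).natDegree ≤
          (2 ^ i - 1) * 2 := by
        refine natDegree_mul_le.trans ?_
        rw [natDegree_C, zero_add, natDegree_expand]
        exact Nat.mul_le_mul_right _ (b_gg_natDegree _ _)
      have h3 : 1 ≤ 2 ^ i := Nat.one_le_two_pow
      have h4 : 2 ^ (i + 1) = 2 * 2 ^ i := by ring
      omega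
  · push Not at h
    rw [b_Adv_Om θ 0 _ h]; simp

theorem b_omInv_natDegree (m : ℕ) : (PowerSeries.coeff m (omInv θ 0)).natDegree ≤ m := by
  induction m using Nat.strong_induction_on with
  | _ m ih =>
    unfold omInv at ih ⊢
    rw [PowerSeries.coeff_invOfUnit]
    split_ifs with h
    · simp
    · rw [inv_one, Units.val_one, neg_mul, one_mul, natDegree_neg]
      refine (natDegree_sum_le _ _).trans ?_
      rw [Finset.fold_max_le]
      refine ⟨Nat.zero_le _, ?_⟩
      rintro ⟨i, j⟩ hij
      rw [Finset.HasAntidiagonal.mem_antidiagonal] at hij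
      simp only [Function.comp]
      simp only at hij
      split_ifs with h2
      · refine natDegree_mul_le.trans ?_
        have h3 := ih j h2
        have h4 := b_om_natDegree (θ := θ) i
        omega
      · simp

theorem b_PP_monic (n l : ℕ) : (PP θ n l).Monic :=
  monic_prod_of_monic _ _ (fun j _ => monic_X_add_C _)

theorem b_PP_natDegree (n l : ℕ) : (PP θ n l).natDegree = (zer n (l + 1)).card := by
  unfold PP
  rw [natDegree_prod_of_monic _ _ (fun j _ => monic_X_add_C _)]
  simp

theorem b_EE_natDegree [CharP K 2] (hθ : Function.Injective (th θ)) (n l : ℕ)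
    (hl : l ≤ pc n + 1) :
    EE θ n l ≠ 0 ∧ (EE θ n l).natDegree + (zer n l).card ≤ n / 2 ^ l + 1 := by
  induction l with
  | zero =>
    constructor
    · intro h
      have := b_EE_zero_eval hθ n
      rw [h] at this
      simp at this
    · have : zer n 0 = ∅ := by simp [zer]
      rw [b_EE_zero, this]
      have := b_omInv_natDegree (θ := θ) (n + 1)
      simpa using this
  | succ l ih =>
    obtain ⟨h1, h2⟩ := ih (by omega)
    have hs := b_EE_step hθ n l (by omega)
    have hne : EE θ n (l + 1) ≠ 0 := by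
      intro h
      rw [h, map_zero, mul_zero] at hs
      exact h1 hs
    refine ⟨hne, ?_⟩
    have hd : (EE θ n l).natDegree = (zer n (l + 1)).card + (EE θ n (l + 1)).natDegree * 2 := by
      rw [hs, natDegree_mul (b_PP_monic n l).ne_zero
        (by rwa [Ne, expand_eq_zero (by norm_num)]), b_PP_natDegree, natDegree_expand]
    have e1 : n / 2 ^ l / 2 = n / 2 ^ (l + 1) := by
      rw [Nat.div_div_eq_div_mul, ← pow_succ]
    cases h : n.testBit l with
    | true =>
      have e2 := b_zer_succ_one h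
      rw [e2] at hd ⊢
      rw [b_testBit_div, Nat.testBit_zero] at h
      have : n / 2 ^ l % 2 = 1 := by simpa using h
      omega
    | false =>
      have e2 : (zer n (l + 1)).card = (zer n l).card + 1 := by
        rw [b_zer_succ_zero h, Finset.card_insert_of_notMem (b_notMem_zer n l)]
      rw [b_testBit_div, Nat.testBit_zero] at h
      have : n / 2 ^ l % 2 = 0 := by
        rcases Nat.mod_two_eq_zero_or_one (n / 2 ^ l) with h' | h'
        · exact h'
        · simp [h'] at h
      omega

end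

end MZ
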