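import Pool.Agent.Work.MP_968e92_nt.B5
open Polynomial
namespace MZ

/-! ### the forms `Th`, `Psi` -/

section
variable {A : Type*} [CommRing A]

/-- `∑_{j ∈ S} c_j ∏_{i ∈ S \ j} y_i` -/
def Th (y c : ℕ → A) (S : Finset ℕ) : A := ∑ j ∈ S, c j * ∏ i ∈ S.erase j, y i

/-- `∑_{j ≠ j'} c_j ∏_{i ≠ j,j'} y_i` (ordered pairs) -/
def Psi (y c : ℕ → A) (S : Finset ℕ) : A := ∑ j ∈ S, c j * Th y (fun _ => 1) (S.erase j)

theorem b_Th_empty (y c : ℕ → A) : Th y c ∅ = 0 := by simp [Th]
theorem b_Psi_empty (y c : ℕ → A) : Psi y c ∅ = 0 := by simp [Psi]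

theorem b_Th_insert (y c : ℕ → A) {S : Finset ℕ} {k : ℕ} (hk : k ∉ S) :
    Th y c (insert k S) = y k * Th y c S + c k * ∏ i ∈ S, y i := by
  unfold Th
  rw [Finset.sum_insert hk, Finset.erase_insert hk, Finset.mul_sum, add_comm]
  congr 1
  apply Finset.sum_congr rfl
  intro j hj
  have hjk : j ≠ k := fun h => hk (h ▸ hj)
  rw [Finset.erase_insert_of_ne hjk.symm, Finset.prod_insert (fun h => hk (Finset.mem_of_mem_erase h))]
  ring

theorem b_Psi_insert (y c : ℕ → A) {S : Finset ℕ} {k : ℕ} (hk : k ∉ S) :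
    Psi y c (insert k S) = y k * Psi y c S + c k * Th y (fun _ => 1) S + Th y c S := by
  unfold Psi
  rw [Finset.sum_insert hk, Finset.erase_insert hk, Finset.mul_sum]
  have : ∀ j ∈ S, c j * Th y (fun _ => 1) ((insert k S).erase j) =
      y k * (c j * Th y (fun _ => 1) (S.erase j)) + c j * ∏ i ∈ S.erase j, y i := by
    intro j hj
    have hjk : j ≠ k := fun h => hk (h ▸ hj)
    rw [Finset.erase_insert_of_ne hjk.symm,
      b_Th_insert _ _ (fun h => hk (Finset.mem_of_mem_erase h))]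
    ring
  rw [Finset.sum_congr rfl this, Finset.sum_add_distrib]
  unfold Th
  ring

theorem b_Psi_one [CharP A 2] (y : ℕ → A) (S : Finset ℕ) : Psi y (fun _ => 1) S = 0 := by
  induction S using Finset.induction_on with
  | empty => exact b_Psi_empty _ _
  | insert k S hk ih =>
    rw [b_Psi_insert _ _ hk, ih, one_mul, mul_zero, zero_add, CharTwo.add_self_eq_zero]

theorem b_Psi_shift [CharP A 2] (y c : ℕ → A) (d : A) (S : Finset ℕ) :
    Psi y c S = Psi y (fun j => c j + d) S := by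
  have h : Psi y (fun j => c j + d) S = Psi y c S + d * Psi y (fun _ => 1) S := by
    unfold Psi
    rw [Finset.mul_sum, ← Finset.sum_add_distrib]
    apply Finset.sum_congr rfl
    intro j _
    ring
  rw [h, b_Psi_one, mul_zero, add_zero]

theorem b_QQ_coeff_one (y : ℕ → A) (S : Finset ℕ) :
    (QQ y S).coeff 1 = Th y (fun _ => 1) S := by
  induction S using Finset.induction_on with
  | empty => simp [QQ, Th, coeff_one]
  | insert k S hk ih =>
    rw [b_QQ_insert_succ y hk, ih, b_Th_insert _ _ hk, b_QQ_coeff_zero, one_mul]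

end

section
variable {R : Type*} [CommRing R]

/-- El2: `Th 1 (insert k I) ≡ ∏_{I} (y_i + y_k)` modulo `V_{|I|-1}` -/
theorem b_El2 (y : ℕ → PowerSeries R) (hy : ∀ j, Vf 1 (y j)) (hy2 : ∀ j, Vf 1 (y j ^ 2))
    {I : Finset ℕ} {k : ℕ} (hk : k ∉ I) :
    Vf ((I.card : ℤ) - 1) (Th y (fun _ => 1) (insert k I) - ∏ i ∈ I, (y k + y i)) := by
  have h1 := b_QQ_eval y I (y k)
  have h2 := congrArg (eval (y k)) (divX_mul_X_add (QQ y I).divX)
  rw [eval_add, eval_mul, eval_X, eval_C, coeff_divX] at h2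
  simp only [zero_add] at h2
  rw [b_QQ_coeff_one] at h2
  have h3 : Vf ((I.card : ℤ) - 2) ((QQ y I).divX.divX.eval (y k)) := by
    apply b_eval_Vf _ _ (hy k)
    intro m
    rw [coeff_divX, coeff_divX]
    refine b_Vf_mono ?_ (b_QQ_Vf y hy I (m + 1 + 1))
    push_cast; omega
  have h4 : Vf ((I.card : ℤ) - 1) (-(y k ^ 2 * (QQ y I).divX.divX.eval (y k))) :=
    b_Vf_neg (b_Vf_mono (by omega) (b_Vf_mul (hy2 k) h3))
  have e : Th y (fun _ => 1) (insert k I) - ∏ i ∈ I, (y k + y i) =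
      -(y k ^ 2 * (QQ y I).divX.divX.eval (y k)) := by
    rw [b_Th_insert _ _ hk, h1, ← h2]; ring
  rw [e]; exact h4

/-- elimination: for `J = insert i0 (insert i1 I)`, modulo `V_{|I|-1}`,
`Psi y c J ≡ ∏_{J'} (c_i + c_{i0}) ∏_{I} (ỹ_{i1} + ỹ_i)`, if `y_{i0} + y_i = (c_i + c_{i0}) ỹ_i` -/
theorem b_elim [CharP R 2] (y yt : ℕ → PowerSeries R) (c : ℕ → R) (hy : ∀ j, Vf 1 (y j))
    (hy2 : ∀ j, Vf 1 (y j ^ 2)) (hyt : ∀ j, Vf 1 (yt j)) (hyt2 : ∀ j, Vf 1 (yt j ^ 2))
    {I : Finset ℕ} {i0 i1 : ℕ} (h1 : i1 ∉ I) (h0 : i0 ∉ insert i1 I)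
    (hr : ∀ i ∈ insert i1 I, y i0 + y i = PowerSeries.C (c i + c i0) * yt i) :
    Vf ((I.card : ℤ) - 1) (Psi y (fun j => PowerSeries.C (c j)) (insert i0 (insert i1 I)) -
      PowerSeries.C (∏ i ∈ insert i1 I, (c i + c i0)) * ∏ i ∈ I, (yt i1 + yt i)) := by
  have hchar : CharP (PowerSeries R) 2 :=
    charP_of_injective_ringHom (PowerSeries.C_injective) 2
  set J' := insert i1 I with hJ'
  -- step 1
  have e1 : Psi y (fun j => PowerSeries.C (c j)) (insert i0 J') =
      ∑ j ∈ J', PowerSeries.C (c j + c i0) * Th y (fun _ => 1) (insert i0 (J'.erase j)) := by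
    rw [b_Psi_shift y _ (PowerSeries.C (c i0))]
    unfold Psi
    rw [Finset.sum_insert h0]
    beta_reduce
    rw [CharTwo.add_self_eq_zero, zero_mul, zero_add]
    apply Finset.sum_congr rfl
    intro j hj
    have : i0 ≠ j := fun h => h0 (h ▸ hj)
    rw [Finset.erase_insert_of_ne this, map_add]
  -- step 2
  have s1 : Vf ((I.card : ℤ) - 1) (Psi y (fun j => PowerSeries.C (c j)) (insert i0 J') -
      ∑ j ∈ J', PowerSeries.C (c j + c i0) * ∏ i ∈ J'.erase j, (y i0 + y i)) := by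
    rw [e1, ← Finset.sum_sub_distrib]
    apply b_Vf_sum
    intro j hj
    rw [← mul_sub]
    apply b_Vf_C_mul
    have hc : (J'.erase j).card = I.card := by
      rw [Finset.card_erase_of_mem hj, hJ', Finset.card_insert_of_notMem h1]; simp
    have := b_El2 y hy hy2 (I := J'.erase j) (k := i0)
      (fun h => h0 (Finset.mem_of_mem_erase h))
    rwa [hc] at this
  have e2 : ∑ j ∈ J', PowerSeries.C (c j + c i0) * ∏ i ∈ J'.erase j, (y i0 + y i) =
      PowerSeries.C (∏ i ∈ J', (c i + c i0)) * Th yt (fun _ => 1) J' := by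
    unfold Th
    rw [Finset.mul_sum]
    apply Finset.sum_congr rfl
    intro j hj
    have : ∏ i ∈ J'.erase j, (y i0 + y i) =
        PowerSeries.C (∏ i ∈ J'.erase j, (c i + c i0)) * ∏ i ∈ J'.erase j, yt i := by
      rw [map_prod, ← Finset.prod_mul_distrib]
      apply Finset.prod_congr rfl
      intro i hi
      exact hr i (Finset.mem_of_mem_erase hi)
    rw [this, ← Finset.mul_prod_erase J' (fun i => c i + c i0) hj, map_mul]
    ring
  have s2 : Vf ((I.card : ℤ) - 1) (PowerSeries.C (∏ i ∈ J', (c i + c i0)) *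
      Th yt (fun _ => 1) J' -
      PowerSeries.C (∏ i ∈ J', (c i + c i0)) * ∏ i ∈ I, (yt i1 + yt i)) := by
    rw [← mul_sub]
    exact b_Vf_C_mul _ (b_El2 yt hyt hyt2 h1)
  have := b_Vf_add s1 s2
  rw [e2] at this
  have e3 : ∀ a b d : PowerSeries R, a - b + (b - d) = a - d := by intros; ring
  rwa [e3] at this

/-- (R) -/
theorem b_coeff_addS_mul (f : ℕ → R) (F : PowerSeries R) (M : ℕ)
    (hF : Vf ((pc M : ℤ) - 1) F) :
    PowerSeries.coeff M (addS f * F) =
      ∑ e ∈ bits M, f e * PowerSeries.coeff (M - 2 ^ e) F := by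
  rw [PowerSeries.coeff_mul]
  symm
  have hinj : Set.InjOn (fun e => ((2 ^ e, M - 2 ^ e) : ℕ × ℕ)) (bits M) := by
    intro a _ b _ h
    simp only [Prod.mk.injEq] at h
    exact Nat.pow_right_injective (le_refl 2) h.1
  have e1 : ∑ e ∈ bits M, f e * PowerSeries.coeff (M - 2 ^ e) F =
      ∑ p ∈ (bits M).image (fun e => ((2 ^ e, M - 2 ^ e) : ℕ × ℕ)),
        PowerSeries.coeff p.1 (addS f) * PowerSeries.coeff p.2 F := by
    rw [Finset.sum_image hinj]
    apply Finset.sum_congr rfl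
    intro e _
    simp only [b_addS_pow]
  rw [e1]
  apply Finset.sum_subset
  · intro p hp
    rw [Finset.mem_image] at hp
    obtain ⟨e, he, rfl⟩ := hp
    rw [b_mem_bits] at he
    have := b_le_of_testBit he
    rw [Finset.HasAntidiagonal.mem_antidiagonal]
    simp only; omega
  · rintro ⟨i, j⟩ hp hn
    rw [Finset.HasAntidiagonal.mem_antidiagonal] at hp
    simp only at hp ⊢
    by_cases hi : ∃ e, i = 2 ^ e
    · obtain ⟨e, rfl⟩ := hi
      have hj : j = M - 2 ^ e := by omega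
      have he : e ∉ bits M := by
        intro he
        exact hn (Finset.mem_image.2 ⟨e, he, by simp [hj]⟩)
      rw [b_mem_bits] at he
      have he' : M.testBit e = false := by simpa using he
      have h1 := b_le_pc_sub he' (by omega)
      rw [hj, hF (M - 2 ^ e) (by omega), mul_zero]
    · push Not at hi
      rw [b_addS_ne f i hi, zero_mul]

/-- scaling lemma -/
theorem b_scaling (w : ℕ → R) (m : ℕ → ℕ → R) (I : Finset ℕ) (M : ℕ) (hM : pc M = I.card) :
    PowerSeries.coeff M (∏ i ∈ I, addS (fun e => w e * m i e)) =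
      (∏ e ∈ bits M, w e) * PowerSeries.coeff M (∏ i ∈ I, addS (m i)) := by
  induction I using Finset.induction_on generalizing M with
  | empty =>
    rw [Finset.card_empty] at hM
    have h0 : bits M = ∅ := by rw [← Finset.card_eq_zero, b_card_bits, hM]
    simp [h0]
  | insert k I hk ih =>
    rw [Finset.card_insert_of_notMem hk] at hM
    have v : ∀ f : ℕ → ℕ → R, Vf ((pc M : ℤ) - 1) (∏ i ∈ I, addS (f i)) := by
      intro f
      have := b_Vf_prod I (fun i => addS (f i)) (fun i _ => b_Vf_Adv (b_Adv_addS _))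
      rw [hM]
      refine b_Vf_mono ?_ this
      push_cast; omega
    rw [Finset.prod_insert hk, Finset.prod_insert hk, b_coeff_addS_mul _ _ _ (v _),
      b_coeff_addS_mul _ _ _ (v _), Finset.mul_sum]
    apply Finset.sum_congr rfl
    intro e he
    have he' := b_mem_bits.1 he
    rw [ih (M - 2 ^ e) (by have := b_pc_sub he'; omega), b_bits_sub he',
      ← Finset.mul_prod_erase (bits M) w he]
    ring

end

end MZ
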