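import Pool.Agent.Work.MP_968e92_nt.B7
open Polynomial
namespace MZ

/-! ### products over pairs, Cauchy's determinant -/

section
variable {K : Type*} [Field K]

/-- `∏_{j < i in J} (c_i + c_j)` -/
def pp (c : ℕ → K) (J : Finset ℕ) : K := ∏ i ∈ J, ∏ j ∈ J.filter (· < i), (c i + c j)

theorem b_pp_insert (c : ℕ → K) {J : Finset ℕ} {k : ℕ} (hk : k ∉ J) :
    pp c (insert k J) = pp c J * ∏ j ∈ J, (c k + c j) := by
  unfold pp
  rw [Finset.prod_insert hk]
  have h1 : (insert k J).filter (· < k) = J.filter (· < k) := by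
    rw [Finset.filter_insert, if_neg (lt_irrefl k)]
  have h2 : ∀ i ∈ J, ∏ j ∈ (insert k J).filter (· < i), (c i + c j) =
      (∏ j ∈ J.filter (· < i), (c i + c j)) * (if k < i then (c i + c k) else 1) := by
    intro i hi
    rw [Finset.filter_insert]
    split_ifs with h
    · rw [Finset.prod_insert (by simp [hk]), mul_comm]
    · rw [mul_one]
  rw [h1, Finset.prod_congr rfl h2, Finset.prod_mul_distrib]
  have h3 : ∏ j ∈ J, (c k + c j) = (∏ j ∈ J.filter (· < k), (c k + c j)) *
      ∏ i ∈ J, (if k < i then (c i + c k) else 1) := by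
    rw [← Finset.prod_filter_mul_prod_filter_not J (· < k)]
    congr 1
    rw [← Finset.prod_filter]
    apply Finset.prod_congr
    · apply Finset.filter_congr
      intro j hj
      have : j ≠ k := fun h => hk (h ▸ hj)
      omega
    · intro j _; rw [add_comm]
  rw [h3]; ring

theorem b_cauchy [CharP K 2] (T c : ℕ → K) (hT : ∀ e i, T e + c i ≠ 0) (I : Finset ℕ) (M : ℕ)
    (hM : pc M = I.card) :
    PowerSeries.coeff M (∏ i ∈ I, addS (fun e => (T e + c i)⁻¹)) =
      pp c I * pp T (bits M) * ∏ e ∈ bits M, ∏ i ∈ I, (T e + c i)⁻¹ := by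
  have hchar : CharP (PowerSeries K) 2 :=
    charP_of_injective_ringHom (PowerSeries.C_injective) 2
  induction I using Finset.induction_on generalizing M with
  | empty =>
    rw [Finset.card_empty] at hM
    have h0 : bits M = ∅ := by rw [← Finset.card_eq_zero, b_card_bits, hM]
    have hM0 : M = 0 := by
      apply Nat.eq_of_testBit_eq
      intro i
      have : i ∉ bits M := by rw [h0]; simp
      rw [b_mem_bits] at this
      simpa using this
    subst hM0
    simp [h0, pp]
  | insert k I hk ih =>
    rw [Finset.card_insert_of_notMem hk] at hM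
    obtain ⟨s, hs⟩ : (bits M).Nonempty := by
      rw [← Finset.card_pos, b_card_bits]; omega
    have hs' := b_mem_bits.1 hs
    -- the series
    set κ : ℕ → PowerSeries K := fun i => addS (fun e => (T e + c i)⁻¹) with hκ
    set Y : ℕ → PowerSeries K := fun i => addS (fun e => (T s + c i) * (T e + c i)⁻¹) with hY
    have hYκ : ∀ i, Y i = PowerSeries.C (T s + c i) * κ i := by
      intro i
      apply b_ext_pow (b_Adv_addS _) (b_Adv_C_mul _ (b_Adv_addS _))
      intro e
      rw [PowerSeries.coeff_C_mul]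
      simp only [b_addS_pow]
    set Z : ℕ → PowerSeries K := fun i => addS (fun e =>
      ((T s + T e) * (T e + c k)⁻¹) * ((c i + c k) * (T e + c i)⁻¹)) with hZ
    have hYZ : ∀ i, Y i = Y k + Z i := by
      intro i
      apply b_ext_pow (b_Adv_addS _) (b_Adv_add (b_Adv_addS _) (b_Adv_addS _))
      intro e
      rw [(PowerSeries.coeff (2 ^ e)).map_add]
      simp only [b_addS_pow]
      have h1 := hT e i
      have h2 := hT e k
      have h2' : (2 : K) = 0 := CharTwo.two_eq_zero
      field_simp
      linear_combination (-T s * c i - T e * c k) * h2'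
    have hprod : ∏ i ∈ insert k I, Y i = Y k * ∏ i ∈ I, Z i +
        Y k ^ 2 * (QQ Z I).divX.eval (Y k) := by
      rw [Finset.prod_insert hk, Finset.prod_congr rfl (fun i _ => hYZ i), b_QQ_eval]
      ring
    have hvZ : Vf ((pc M : ℤ) - 1) (∏ i ∈ I, Z i) := by
      have := b_Vf_prod I Z (fun i _ => b_Vf_Adv (b_Adv_addS _))
      rw [hM]
      refine b_Vf_mono ?_ this
      push_cast; omega
    have hz0 : PowerSeries.coeff M (Y k ^ 2 * (QQ Z I).divX.eval (Y k)) = 0 := by
      have h1 := b_rest_Vf Z (fun i => b_Vf_Adv (b_Adv_addS _)) (Y k) (b_Vf_Adv (b_Adv_addS _)) I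
      have h2 : Vf 1 (Y k ^ 2) := b_Vf_Adv (b_Adv_sq (b_Adv_addS _))
      apply b_Vf_mul h2 h1
      omega
    have hcoef : PowerSeries.coeff M (∏ i ∈ insert k I, Y i) =
        (∏ e ∈ (bits M).erase s, ((T s + T e) * (T e + c k)⁻¹)) *
        ((∏ i ∈ I, (c i + c k)) * PowerSeries.coeff (M - 2 ^ s) (∏ i ∈ I, κ i)) := by
      rw [hprod, (PowerSeries.coeff M).map_add, hz0, add_zero, hY]
      simp only
      rw [b_coeff_addS_mul _ _ _ hvZ, Finset.sum_eq_single s]
      · rw [mul_inv_cancel₀ (hT s k), one_mul, hZ,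
          b_scaling _ (fun i e => (c i + c k) * (T e + c i)⁻¹) I _
            (by have := b_pc_sub hs'; omega), b_bits_sub hs']
        congr 1
        have : ∀ i, addS (fun e => (c i + c k) * (T e + c i)⁻¹) =
            PowerSeries.C (c i + c k) * κ i := by
          intro i
          apply b_ext_pow (b_Adv_addS _) (b_Adv_C_mul _ (b_Adv_addS _))
          intro e
          rw [PowerSeries.coeff_C_mul]
          simp only [b_addS_pow]
        rw [Finset.prod_congr rfl (fun i _ => this i), Finset.prod_mul_distrib, ← map_prod,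
          PowerSeries.coeff_C_mul]
      · intro e he hes
        have he' := b_mem_bits.1 he
        rw [hZ, b_scaling _ (fun i e => (c i + c k) * (T e + c i)⁻¹) I _
            (by have := b_pc_sub he'; omega), b_bits_sub he']
        rw [Finset.prod_eq_zero (i := s) (Finset.mem_erase.2 ⟨hes.symm, hs⟩)]
        · rw [zero_mul, mul_zero]
        · rw [CharTwo.add_self_eq_zero, zero_mul]
      · intro h; exact absurd hs h
    have hYprod : ∏ i ∈ insert k I, Y i = PowerSeries.C (∏ i ∈ insert k I, (T s + c i)) *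
        ∏ i ∈ insert k I, κ i := by
      rw [Finset.prod_congr rfl (fun i _ => hYκ i), Finset.prod_mul_distrib, ← map_prod]
    rw [hYprod, PowerSeries.coeff_C_mul, ih (M - 2 ^ s) (by have := b_pc_sub hs'; omega),
      b_bits_sub hs'] at hcoef
    have hne : ∏ i ∈ insert k I, (T s + c i) ≠ 0 :=
      Finset.prod_ne_zero_iff.2 (fun i _ => hT s i)
    apply mul_left_cancel₀ hne
    rw [hcoef]
    -- compare
    have hB : bits M = insert s ((bits M).erase s) := (Finset.insert_erase hs).symm
    have hsn : s ∉ (bits M).erase s := Finset.notMem_erase s _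
    set B := (bits M).erase s with hBdef
    rw [hB, b_pp_insert c hk, b_pp_insert T hsn, Finset.prod_insert hsn, Finset.prod_insert hk,
      Finset.prod_insert hk]
    have h3 : ∏ e ∈ B, ∏ i ∈ insert k I, (T e + c i)⁻¹ =
        (∏ e ∈ B, (T e + c k)⁻¹) * ∏ e ∈ B, ∏ i ∈ I, (T e + c i)⁻¹ := by
      rw [← Finset.prod_mul_distrib]
      apply Finset.prod_congr rfl
      intro e _
      rw [Finset.prod_insert hk]
    have h4 : (T s + c k) * (T s + c k)⁻¹ = 1 := mul_inv_cancel₀ (hT s k)
    have h5 : (∏ i ∈ I, (T s + c i)) * ∏ i ∈ I, (T s + c i)⁻¹ = 1 := by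
      rw [← Finset.prod_mul_distrib]
      exact Finset.prod_eq_one (fun i _ => mul_inv_cancel₀ (hT s i))
    have h6 : ∏ j ∈ I, (c k + c j) = ∏ j ∈ I, (c j + c k) :=
      Finset.prod_congr rfl (fun j _ => add_comm _ _)
    rw [h3, Finset.prod_mul_distrib, h6]
    have h7 : ∀ a b A P Q R S U V W : K, a * b = 1 → A * P = 1 →
        Q * R * (S * (U * V * W)) = a * A * (U * S * (V * Q) * (b * P * (R * W))) := by
      intro a b A P Q R S U V W hab hAP
      linear_combination (-Q * R * S * U * V * W) * hab + (-a * b * Q * R * S * U * V * W) * hAP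
    exact h7 _ _ _ _ _ _ _ _ _ _ h4 h5

end

end MZ
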