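import Pool.Agent.Work.MP_968e92_nt.B6
import Pool.Agent.Work.MP_968e92_nt.B8
open Polynomial
namespace MZ

/-! ### coefficientwise Wronskian -/

section
variable {K : Type*} [Field K]

/-- coefficientwise derivative in `Z` -/
noncomputable def Dz (F : PowerSeries K[X]) : PowerSeries K[X] :=
  PowerSeries.mk fun n => derivative (PowerSeries.coeff n F)

theorem b_coeff_Dz (F : PowerSeries K[X]) (n : ℕ) :
    PowerSeries.coeff n (Dz F) = derivative (PowerSeries.coeff n F) := by
  simp [Dz]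

theorem b_Dz_add (F G : PowerSeries K[X]) : Dz (F + G) = Dz F + Dz G := by
  ext1 n
  rw [(PowerSeries.coeff n).map_add, b_coeff_Dz, b_coeff_Dz, b_coeff_Dz,
    (PowerSeries.coeff n).map_add, derivative_add]

theorem b_Dz_mul (F G : PowerSeries K[X]) : Dz (F * G) = Dz F * G + F * Dz G := by
  ext1 n
  rw [(PowerSeries.coeff n).map_add, b_coeff_Dz, PowerSeries.coeff_mul, PowerSeries.coeff_mul,
    PowerSeries.coeff_mul, derivative_sum, ← Finset.sum_add_distrib]
  apply Finset.sum_congr rfl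
  intro p _
  rw [derivative_mul, b_coeff_Dz, b_coeff_Dz]

theorem b_Dz_C (f : K[X]) : Dz (PowerSeries.C f) = PowerSeries.C (derivative f) := by
  ext1 n
  rw [b_coeff_Dz, PowerSeries.coeff_C, PowerSeries.coeff_C]
  split_ifs <;> simp

theorem b_Dz_zero : Dz (0 : PowerSeries K[X]) = 0 := by
  have := b_Dz_C (K := K) 0
  simpa using this

theorem b_Dz_one : Dz (1 : PowerSeries K[X]) = 0 := by
  have := b_Dz_C (K := K) 1
  simpa using this

theorem b_der_expand [CharP K 2] (f : K[X]) : derivative (expand K 2 f) = 0 := by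
  rw [derivative_expand]
  have : ((2 : ℕ) : K[X]) = 0 := by
    have : CharP K[X] 2 := inferInstance
    exact CharP.cast_eq_zero _ 2
  rw [this]; simp

theorem b_Dz_ph [CharP K 2] (F : PowerSeries K[X]) : Dz (ph F) = 0 := by
  ext1 n
  rw [b_coeff_Dz]
  rcases Nat.even_or_odd' n with ⟨m, rfl | rfl⟩
  · rw [b_coeff_ph, b_der_expand]; simp
  · rw [b_coeff_ph_odd]; simp

/-- coefficientwise Wronskian with a polynomial -/
noncomputable def WP (F : PowerSeries K[X]) (P : K[X]) : PowerSeries K[X] :=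
  Dz F * PowerSeries.C P + F * PowerSeries.C (derivative P)

theorem b_coeff_WP (F : PowerSeries K[X]) (P : K[X]) (n : ℕ) :
    PowerSeries.coeff n (WP F P) = Wr (PowerSeries.coeff n F) P := by
  unfold WP Wr
  rw [(PowerSeries.coeff n).map_add, PowerSeries.coeff_mul_C, PowerSeries.coeff_mul_C,
    b_coeff_Dz]

theorem b_WP_add (F G : PowerSeries K[X]) (P : K[X]) : WP (F + G) P = WP F P + WP G P := by
  unfold WP; rw [b_Dz_add]; ring

/-- `y_k = (c_k² + Z) al_{l+1,k}` -/
noncomputable def yy (θ : K) (l j : ℕ) : PowerSeries K[X] :=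
  PowerSeries.C (C (th θ j ^ 2) + X) * al θ (l + 1) j

variable [CharP K 2] (θ : K)

theorem b_charPS : CharP (PowerSeries K[X]) 2 := by
  have : CharP K[X] 2 := inferInstance
  exact charP_of_injective_ringHom (PowerSeries.C_injective) 2

theorem b_sq_lin (c : K) : ((C c + X) ^ 2 : K[X]) = C (c ^ 2) + X ^ 2 := by
  have : CharP K[X] 2 := inferInstance
  rw [CharTwo.add_sq, C_pow]

theorem b_xx_mul (l k : ℕ) :
    xx θ l k * PowerSeries.C (C (th θ k) + X) = ph (yy θ l k) := by
  unfold xx yy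
  have h : expand K 2 (C (th θ k ^ 2) + X) = (C (th θ k) + X) * (C (th θ k) + X) := by
    rw [← pow_two, b_sq_lin, map_add, expand_C, expand_X]
  rw [map_mul, b_ph_C, h, map_mul]
  ring

omit [CharP K 2] in
theorem b_der_lin (c : K) : derivative (C c + X : K[X]) = 1 := by simp

theorem b_WP_xx (l k : ℕ) (F : PowerSeries K[X]) (P : K[X]) :
    WP (xx θ l k * F) ((C (th θ k) + X) * P) = ph (yy θ l k) * WP F P := by
  have hc := b_charPS (K := K)
  have h2 : (2 : PowerSeries K[X]) = 0 := CharTwo.two_eq_zero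
  have h1 : Dz (xx θ l k) = ph (al θ (l + 1) k) := by
    unfold xx
    rw [b_Dz_mul, b_Dz_ph, b_Dz_C, b_der_lin]; simp
  rw [← b_xx_mul]
  unfold WP
  rw [b_Dz_mul, h1, derivative_mul, b_der_lin]
  unfold xx
  simp only [map_mul, map_add, one_mul]
  linear_combination ((PowerSeries.C (C (th θ k)) + PowerSeries.C X) * ph (al θ (l + 1) k) * F *
    PowerSeries.C P) * h2

theorem b_WP_lin (c : K) (F : PowerSeries K[X]) (P : K[X]) :
    WP F ((C c + X) * P) = PowerSeries.C (C c + X) * WP F P + F * PowerSeries.C P := by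
  unfold WP
  rw [derivative_mul, b_der_lin]
  simp only [map_mul, map_add, one_mul]
  ring

/-- `P_S` -/
noncomputable def PS (S : Finset ℕ) : K[X] := ∏ j ∈ S, (C (th θ j) + X)

omit [CharP K 2] in
theorem b_PS_insert {S : Finset ℕ} {k : ℕ} (hk : k ∉ S) :
    PS θ (insert k S) = (C (th θ k) + X) * PS θ S := by
  unfold PS; rw [Finset.prod_insert hk]

theorem b_s0_mul (l : ℕ) (S : Finset ℕ) :
    (∏ j ∈ S, xx θ l j) * PowerSeries.C (PS θ S) = ph (∏ j ∈ S, yy θ l j) := by
  unfold PS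
  rw [map_prod, map_prod, ← Finset.prod_mul_distrib]
  exact Finset.prod_congr rfl (fun j _ => b_xx_mul θ l j)

theorem b_W0 (l : ℕ) (S : Finset ℕ) : WP (∏ j ∈ S, xx θ l j) (PS θ S) = 0 := by
  induction S using Finset.induction_on with
  | empty => simp [WP, PS, b_Dz_one]
  | insert k S hk ih =>
    rw [Finset.prod_insert hk, b_PS_insert θ hk, b_WP_xx, ih, mul_zero]

theorem b_W1 (l : ℕ) (S : Finset ℕ) :
    WP ((QQ (xx θ l) S).coeff 1) (PS θ S) = ph (Th (yy θ l) (fun _ => 1) S) := by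
  induction S using Finset.induction_on with
  | empty =>
    have : (QQ (xx θ l) ∅).coeff 1 = 0 := by simp [QQ, coeff_one]
    rw [this, b_Th_empty, map_zero]
    simp [WP, PS, b_Dz_zero]
  | insert k S hk ih =>
    rw [b_QQ_insert_succ _ hk, b_QQ_coeff_zero, b_WP_add, b_PS_insert θ hk, b_WP_xx, ih,
      b_WP_lin, b_W0, b_s0_mul, b_Th_insert _ _ hk]
    simp only [map_add, map_mul, one_mul, mul_zero, zero_add]

theorem b_W1' (l : ℕ) (κ : K) (S : Finset ℕ) :
    PowerSeries.C (C κ + X) * ph (Th (yy θ l) (fun _ => 1) S) +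
      (QQ (xx θ l) S).coeff 1 * PowerSeries.C (PS θ S) =
    ph (PowerSeries.C (C κ) * Th (yy θ l) (fun _ => 1) S +
      Th (yy θ l) (fun j => PowerSeries.C (C (th θ j))) S) := by
  have hc := b_charPS (K := K)
  have h2 : (2 : PowerSeries K[X]) = 0 := CharTwo.two_eq_zero
  induction S using Finset.induction_on with
  | empty =>
    have : (QQ (xx θ l) ∅).coeff 1 = 0 := by simp [QQ, coeff_one]
    rw [this, b_Th_empty, b_Th_empty]
    simp
  | insert k S hk ih =>
    have hx := b_xx_mul θ l k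
    have h0 := b_s0_mul θ l S
    rw [b_QQ_insert_succ _ hk, b_QQ_coeff_zero, b_PS_insert θ hk, b_Th_insert _ _ hk,
      b_Th_insert _ _ hk]
    simp only [map_add, map_mul, one_mul, b_ph_C, expand_C, zero_add] at ih hx ⊢
    linear_combination ph (yy θ l k) * ih +
      ((QQ (xx θ l) S).coeff 1 * PowerSeries.C (PS θ S)) * hx +
      (PowerSeries.C (C (th θ k)) + PowerSeries.C X) * h0 +
      (PowerSeries.C X * ph (∏ i ∈ S, yy θ l i)) * h2

theorem b_W2 (l : ℕ) (S : Finset ℕ) :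
    WP ((QQ (xx θ l) S).coeff 2) (PS θ S) =
      ph (Psi (yy θ l) (fun j => PowerSeries.C (C (th θ j))) S) := by
  induction S using Finset.induction_on with
  | empty =>
    have : (QQ (xx θ l) ∅).coeff 2 = 0 := by simp [QQ, coeff_one]
    rw [this, b_Psi_empty, map_zero]
    simp [WP, PS, b_Dz_zero]
  | insert k S hk ih =>
    rw [b_QQ_insert_succ _ hk, b_WP_add, b_PS_insert θ hk, b_WP_xx, ih,
      b_WP_lin, b_W1, b_W1', b_Psi_insert _ _ hk, map_add, map_add, map_add, map_mul, map_mul]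
    ring

/-! ### parity of the exponents -/

def Ev (F : PowerSeries K[X]) : Prop := ∀ k, PowerSeries.coeff (2 * k + 1) F = 0

omit [CharP K 2] in
theorem b_Ev_ph (F : PowerSeries K[X]) : Ev (ph F) := b_coeff_ph_odd F

omit [CharP K 2] in
theorem b_Ev_add {F G : PowerSeries K[X]} (hF : Ev F) (hG : Ev G) : Ev (F + G) := by
  intro k; rw [(PowerSeries.coeff _).map_add, hF k, hG k, add_zero]

omit [CharP K 2] in
theorem b_Ev_mul {F G : PowerSeries K[X]} (hF : Ev F) (hG : Ev G) : Ev (F * G) := by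
  intro k
  rw [PowerSeries.coeff_mul]
  apply Finset.sum_eq_zero
  rintro ⟨i, j⟩ h
  rw [Finset.HasAntidiagonal.mem_antidiagonal] at h
  simp only at h ⊢
  rcases Nat.even_or_odd' i with ⟨a, rfl | rfl⟩
  · rcases Nat.even_or_odd' j with ⟨b, rfl | rfl⟩
    · omega
    · rw [hG b, mul_zero]
  · rw [hF a, zero_mul]

omit [CharP K 2] in
theorem b_Ev_C (c : K[X]) : Ev (PowerSeries.C c) := by
  intro k; rw [PowerSeries.coeff_C, if_neg (by omega)]

omit [CharP K 2] in
theorem b_Ev_xx (l j : ℕ) : Ev (xx θ l j) := b_Ev_mul (b_Ev_C _) (b_Ev_ph _)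

omit [CharP K 2] in
theorem b_Ev_QQ (l : ℕ) (S : Finset ℕ) (m : ℕ) : Ev ((QQ (xx θ l) S).coeff m) := by
  induction S using Finset.induction_on generalizing m with
  | empty =>
    have : QQ (xx θ l) ∅ = 1 := by simp [QQ]
    rw [this, coeff_one]
    split_ifs with h
    · have := b_Ev_C (K := K) 1; simpa using this
    · intro k; simp
  | insert k S hk ih =>
    rcases m with _ | m
    · rw [b_QQ_coeff_zero, Finset.prod_insert hk, ← b_QQ_coeff_zero]
      exact b_Ev_mul (b_Ev_xx θ l k) (ih 0)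
    · rw [b_QQ_insert_succ _ hk]
      exact b_Ev_add (b_Ev_mul (b_Ev_xx θ l k) (ih (m + 1))) (ih m)

/-- the remainder when `pc N + 1 = |S|` -/
theorem b_coeff_rest (l : ℕ) (S : Finset ℕ) (hS : l ∉ S) (N : ℕ) (hN : pc N + 1 = S.card) :
    PowerSeries.coeff N ((QQ (xx θ l) S).divX.eval (Om θ l)) =
      PowerSeries.coeff (2 * (N / 2)) ((QQ (xx θ l) (nxt l S N)).coeff 2) := by
  have hvx := b_Vf_xx (θ := θ) l
  have hOm := b_Vf_Adv (b_Adv_Om θ l)
  have hOm2 : Vf 1 (Om θ l ^ 2) := by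
    rw [b_Om_sq]; exact b_Vf_Adv (b_Adv_ph (b_Adv_Om θ _))
  have h3 := b_rest3_Vf (xx θ l) hvx (Om θ l) hOm hOm2 S N (by omega)
  rw [b_rest_eq, (PowerSeries.coeff N).map_add, h3, add_zero, b_Om, add_mul]
  rw [(PowerSeries.coeff N).map_add, (PowerSeries.coeff N).map_add]
  have hx2 : Ev (xx θ l l * (QQ (xx θ l) S).coeff 2) := b_Ev_mul (b_Ev_xx θ l l) (b_Ev_QQ θ l S 2)
  rcases Nat.even_or_odd' N with ⟨k, rfl | rfl⟩
  · have e1 : nxt l S (2 * k) = insert l S := by unfold nxt; rw [if_neg]; omega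
    rw [e1, b_QQ_insert_succ _ hS, (PowerSeries.coeff _).map_add,
      show 2 * (2 * k / 2) = 2 * k by omega]
    have h4 : PowerSeries.coeff (2 * k) (PowerSeries.X * (QQ (xx θ l) S).coeff 2) = 0 := by
      rcases k with _ | k
      · simp
      · rw [show 2 * (k + 1) = 2 * k + 1 + 1 by ring, PowerSeries.coeff_succ_X_mul]
        exact b_Ev_QQ θ l S 2 k
    rw [h4]; ring
  · have e1 : nxt l S (2 * k + 1) = S := by unfold nxt; rw [if_pos]; omega
    rw [e1, show 2 * ((2 * k + 1) / 2) = 2 * k by omega, hx2 k, b_Ev_QQ θ l S 1 k,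
      PowerSeries.coeff_succ_X_mul]
    ring

end

end MZ
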