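import Pool.Agent.Work.MP_968e92_nt.B

/-! # MP_968e92_nt, module BD: consequences of module B -/

open Polynomial

set_option linter.unusedSectionVars false

namespace MZ

/-! ## digits -/

theorem pc_zero : pc 0 = 0 := by simp [pc]

theorem bd_pc_rec (n : ℕ) : pc n = n % 2 + pc (n / 2) := by
  rcases Nat.eq_zero_or_pos n with h | h
  · subst h; simp [pc]
  · unfold pc
    rw [Nat.digits_def' (by norm_num) h]
    simp

theorem pc_div (n l : ℕ) : pc n = pc (n % 2 ^ l) + pc (n / 2 ^ l) := by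
  induction l generalizing n with
  | zero => simp [Nat.mod_one, pc_zero]
  | succ l ih =>
    rw [bd_pc_rec n, bd_pc_rec (n % 2 ^ (l + 1))]
    have h1 : n % 2 ^ (l + 1) % 2 = n % 2 := by
      rw [pow_succ, Nat.mod_mul_left_mod]
    have h2 : n % 2 ^ (l + 1) / 2 = (n / 2) % 2 ^ l := by
      rw [pow_succ', Nat.mod_mul_right_div_self]
    have h3 : n / 2 ^ (l + 1) = (n / 2) / 2 ^ l := by
      rw [pow_succ', Nat.div_div_eq_div_mul]
    rw [h1, h2, h3, ih (n / 2)]
    ring

theorem zer_succ_one {n l : ℕ} (h : n.testBit l = true) : zer n (l + 1) = zer n l := by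
  unfold zer
  rw [Finset.range_add_one, Finset.filter_insert]
  simp [h]

theorem zer_succ_zero {n l : ℕ} (h : n.testBit l = false) :
    zer n (l + 1) = insert l (zer n l) := by
  unfold zer
  rw [Finset.range_add_one, Finset.filter_insert]
  simp [h]

theorem bd_notMem_zer (n l : ℕ) : l ∉ zer n l := by
  unfold zer; simp

theorem bd_testBit (n l : ℕ) : n.testBit l = decide (n / 2 ^ l % 2 = 1) :=
  Nat.testBit_eq_decide_div_mod_eq

theorem card_zer (n l : ℕ) : (zer n l).card + pc (n % 2 ^ l) = l := by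
  induction l with
  | zero => simp [zer, Nat.mod_one, pc_zero]
  | succ l ih =>
    have h1 := pc_div (n % 2 ^ (l + 1)) l
    have h2 : n % 2 ^ (l + 1) % 2 ^ l = n % 2 ^ l := by
      rw [pow_succ', Nat.mod_mul_left_mod]
    have h3 : n % 2 ^ (l + 1) / 2 ^ l = (n / 2 ^ l) % 2 := by
      rw [pow_succ, Nat.mod_mul_right_div_self]
    rw [h2, h3] at h1
    rcases hb : n.testBit l with _ | _
    · rw [zer_succ_zero hb, Finset.card_insert_of_notMem (bd_notMem_zer n l), h1]
      rw [bd_testBit] at hb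
      have : n / 2 ^ l % 2 = 0 := by
        have := of_decide_eq_false hb
        omega
      rw [this, pc_zero]
      omega
    · rw [zer_succ_one hb, h1]
      rw [bd_testBit] at hb
      have : n / 2 ^ l % 2 = 1 := of_decide_eq_true hb
      rw [this]
      have : pc 1 = 1 := by simp [pc]
      rw [this]
      omega

section
variable {K : Type*} [Field K] [CharP K 2] {θ : K} (hθ : Function.Injective (th θ))

theorem bd_th_sq (θ : K) (i : ℕ) : (th θ i) ^ 2 = th θ (i + 1) := by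
  unfold th
  rw [← pow_mul, ← pow_succ]

theorem bd_add_self (a : K) : a + a = 0 := CharTwo.add_self_eq_zero a

theorem bd_padd_self (p : K[X]) : p + p = 0 := CharTwo.add_self_eq_zero p

theorem bd_expand_lin (a : K) :
    expand K 2 (X + C (a ^ 2)) = (X + C a) ^ 2 := by
  rw [map_add, expand_X, expand_C, CharTwo.add_sq, C_pow]

theorem bd_expand_th (θ : K) (i : ℕ) :
    expand K 2 (X + C (th θ (i + 1))) = (X + C (th θ i)) ^ 2 := by
  rw [← bd_th_sq, bd_expand_lin]

theorem bd_PP_zero {θ : K} {n l : ℕ} (h : n.testBit (l + 1) = false) :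
    PP θ n (l + 1) = PP θ n l * (X + C (th θ (l + 1))) := by
  unfold PP
  rw [zer_succ_zero h, Finset.prod_insert (bd_notMem_zer n (l + 1)), mul_comm]

theorem bd_PP_one {θ : K} {n l : ℕ} (h : n.testBit (l + 1) = true) :
    PP θ n (l + 1) = PP θ n l := by
  unfold PP
  rw [zer_succ_one h]

theorem bd_PP0_zero {θ : K} {n : ℕ} (h : n.testBit 0 = false) :
    PP θ n 0 = X + C (th θ 0) := by
  unfold PP
  rw [zer_succ_zero h]
  simp [zer]

theorem bd_PP0_one {θ : K} {n : ℕ} (h : n.testBit 0 = true) :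
    PP θ n 0 = 1 := by
  unfold PP
  rw [zer_succ_one h]
  simp [zer]

theorem bd_der_expand (f : K[X]) : derivative (expand K 2 f) = 0 := by
  rw [derivative_expand]
  have : ((2 : ℕ) : K[X]) = 0 := by exact_mod_cast CharP.cast_eq_zero K[X] 2
  rw [this]
  simp

theorem bd_wr_mul_expand (p f : K[X]) : Wr (p * expand K 2 f) p = 0 := by
  unfold Wr
  rw [derivative_mul, bd_der_expand]
  have : (derivative p * expand K 2 f + p * 0) * p + p * expand K 2 f * derivative p
      = (derivative p * p * expand K 2 f) + (derivative p * p * expand K 2 f) := by ring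
  rw [this, bd_padd_self]

include hθ

theorem bd_th_ne {i j : ℕ} (h : i ≠ j) : th θ i + th θ j ≠ 0 := by
  intro h0
  apply h
  apply hθ
  exact CharTwo.add_eq_zero.mp h0

theorem PP_eval_ne (n l m : ℕ) (h : l < m) : (PP θ n l).eval (th θ m) ≠ 0 := by
  unfold PP
  rw [eval_prod, Finset.prod_ne_zero_iff]
  intro j hj
  unfold zer at hj
  rw [Finset.mem_filter, Finset.mem_range] at hj
  simp only [eval_add, eval_X, eval_C]
  apply bd_th_ne hθ
  omega

theorem EE_eval (n l : ℕ) (hl : l ≤ pc n + 1) :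
    (EE θ n l).eval (th θ (l + 1)) =
      (∏ i ∈ Finset.range l, (PP θ n i).eval (th θ (i + 1)))⁻¹ := by
  induction l with
  | zero => simp [EE_zero_eval hθ n]
  | succ l ih =>
    have ih' := ih (by omega)
    have hs := EE_step hθ n l (by omega)
    rw [hs, eval_mul, expand_eval, bd_th_sq] at ih'
    rw [Finset.prod_range_succ, mul_inv, ← ih']
    have hne := PP_eval_ne hθ n l (l + 1) (by omega)
    field_simp

theorem EE_eval_ne (n l : ℕ) (hl : l ≤ pc n + 1) : (EE θ n l).eval (th θ (l + 1)) ≠ 0 := by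
  rw [EE_eval hθ n l hl]
  apply inv_ne_zero
  rw [Finset.prod_ne_zero_iff]
  intro i _
  exact PP_eval_ne hθ n i (i + 1) (by omega)

theorem HH_eval (n l : ℕ) (hl : l ≤ pc n) :
    (HH θ n l).eval (th θ (l + 1)) = (EE θ n l).eval (th θ (l + 1)) := by
  unfold HH GG
  rw [eval_add, eval_mul, eval_pow, eval_add, eval_X, eval_C, bd_add_self,
    zero_pow (Nat.succ_ne_zero _), zero_mul, add_zero]

theorem bd_pow_PP (n l : ℕ) :
    (X + C (th θ (l + 1))) ^ (n / 2 ^ (l + 1) + 1) * PP θ n (l + 1) =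
      PP θ n l * (X + C (th θ (l + 1))) ^ (2 * (n / 2 ^ (l + 2) + 1)) := by
  have hd : n / 2 ^ (l + 2) = n / 2 ^ (l + 1) / 2 := by
    rw [Nat.div_div_eq_div_mul, ← pow_succ]
  rcases hb : n.testBit (l + 1) with _ | _
  · rw [bd_PP_zero hb]
    rw [bd_testBit] at hb
    have h0 : ¬ (n / 2 ^ (l + 1) % 2 = 1) := of_decide_eq_false hb
    have h1 : 2 * (n / 2 ^ (l + 2) + 1) = n / 2 ^ (l + 1) + 1 + 1 := by
      rw [hd]; omega
    rw [h1, pow_succ _ (n / 2 ^ (l + 1) + 1)]
    ring
  · rw [bd_PP_one hb]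
    rw [bd_testBit] at hb
    have h0 : n / 2 ^ (l + 1) % 2 = 1 := of_decide_eq_true hb
    have h1 : 2 * (n / 2 ^ (l + 2) + 1) = n / 2 ^ (l + 1) + 1 := by
      rw [hd]; omega
    rw [h1]
    ring

theorem GG_step (n l : ℕ) (hl : l < pc n) :
    GG θ n l = PP θ n l * expand K 2 (GG θ n (l + 1)) := by
  unfold GG
  rw [map_mul, map_pow, bd_expand_th, EE_step hθ n (l + 1) (by omega), ← mul_assoc,
    bd_pow_PP hθ, ← pow_mul]
  ring

theorem HH_step (n l : ℕ) (hl : l < pc n) :
    HH θ n l = PP θ n l * expand K 2 (HH θ n (l + 1)) := by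
  unfold HH
  rw [map_add, mul_add, ← GG_step hθ n l hl, ← EE_step hθ n l (by omega)]

theorem bd_wr_GG (n l : ℕ) :
    Wr (GG θ n l) (PP θ n l) =
      (X + C (th θ (l + 1))) ^ (2 * ((n / 2 ^ (l + 1) + 1) / 2)) *
        Wr (EE θ n (l + 1)) (PP θ n (l + 1)) := by
  have h2 : ((2 : ℕ) : K[X]) = 0 := by exact_mod_cast CharP.cast_eq_zero K[X] 2
  unfold GG Wr
  rw [derivative_mul, derivative_pow]
  rcases hb : n.testBit (l + 1) with _ | _
  · rw [bd_PP_zero hb]
    rw [bd_testBit] at hb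
    have h0 : ¬ (n / 2 ^ (l + 1) % 2 = 1) := of_decide_eq_false hb
    obtain ⟨m, hm⟩ : ∃ m, n / 2 ^ (l + 1) = 2 * m := ⟨n / 2 ^ (l + 1) / 2, by omega⟩
    rw [hm]
    have h3 : 2 * ((2 * m + 1) / 2) = 2 * m := by omega
    rw [h3]
    have h4 : (C (((2 * m + 1 : ℕ) : K)) : K[X]) = 1 := by
      push_cast
      have : ((2 : K)) = 0 := CharTwo.two_eq_zero
      rw [this]; simp
    rw [h4]
    simp only [derivative_mul, derivative_add, derivative_X, derivative_C, Nat.add_sub_cancel]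
    ring
  · rw [bd_PP_one hb]
    rw [bd_testBit] at hb
    have h0 : n / 2 ^ (l + 1) % 2 = 1 := of_decide_eq_true hb
    obtain ⟨m, hm⟩ : ∃ m, n / 2 ^ (l + 1) = 2 * m + 1 := ⟨n / 2 ^ (l + 1) / 2, by omega⟩
    rw [hm]
    have h3 : 2 * ((2 * m + 1 + 1) / 2) = 2 * m + 1 + 1 := by omega
    rw [h3]
    have h4 : (C (((2 * m + 1 + 1 : ℕ) : K)) : K[X]) = 0 := by
      push_cast
      have : ((2 : K)) = 0 := CharTwo.two_eq_zero
      rw [this, zero_mul, zero_add, bd_add_self]; simp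
    rw [h4]
    ring

/-- (H2) -/
theorem HH_wr (n : ℕ) :
    Wr (HH θ n (pc n)) (PP θ n (pc n)) =
      (X + C (th θ (pc n + 1))) ^ (2 * ((n / 2 ^ (pc n + 1) + 1) / 2)) *
        (C (kap θ n) * VV θ n (pc n + 1)) := by
  rw [← EE_wr hθ n, ← bd_wr_GG hθ]
  have h1 : Wr (EE θ n (pc n)) (PP θ n (pc n)) = 0 := by
    rw [EE_step hθ n (pc n) le_rfl, bd_wr_mul_expand]
  have h2 : Wr (HH θ n (pc n)) (PP θ n (pc n)) =
      Wr (EE θ n (pc n)) (PP θ n (pc n)) + Wr (GG θ n (pc n)) (PP θ n (pc n)) := by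
    unfold HH Wr
    rw [derivative_add]
    ring
  rw [h2, h1, zero_add]

theorem bd_EE_one_natDegree (n : ℕ) :
    (EE θ n 1).natDegree + (if n.testBit 0 then 0 else 1) ≤ n / 2 + 1 := by
  have h := EE_natDegree hθ n 1 (by omega)
  rcases hb : n.testBit 0 with _ | _
  · rw [show (1 : ℕ) = 0 + 1 from rfl, zer_succ_zero hb,
      Finset.card_insert_of_notMem (bd_notMem_zer n 0)] at h
    simp [zer] at h
    simpa using h
  · rw [show (1 : ℕ) = 0 + 1 from rfl, zer_succ_one hb] at h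
    simp [zer] at h
    simpa using h

theorem GG_zero_natDegree (n : ℕ) : (GG θ n 0).natDegree ≤ n + 1 := by
  unfold GG
  refine le_trans natDegree_mul_le ?_
  rw [natDegree_pow, natDegree_X_add_C]
  have h := bd_EE_one_natDegree hθ n
  simp only [zero_add, pow_one, mul_one]
  rcases hb : n.testBit 0 with _ | _
  · rw [hb] at h
    rw [bd_testBit] at hb
    have h0 : ¬ (n / 2 ^ 0 % 2 = 1) := of_decide_eq_false hb
    simp at h h0
    omega
  · rw [hb] at h
    rw [bd_testBit] at hb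
    have h0 : n / 2 ^ 0 % 2 = 1 := of_decide_eq_true hb
    simp at h h0
    omega

theorem bd_EE_zero_natDegree (n : ℕ) : (EE θ n 0).natDegree ≤ n + 1 := by
  have h := EE_natDegree hθ n 0 (by omega)
  simp [zer] at h
  exact h

theorem bd_coeff_top (n : ℕ) :
    (EE θ n 0).coeff (n + 1) = (GG θ n 0).coeff (n + 1) := by
  have h := bd_EE_one_natDegree hθ n
  rw [EE_step hθ n 0 (by omega)]
  unfold GG
  simp only [zero_add, pow_one]
  have hX : (X + C (th θ 1) : K[X]).natDegree = 1 := natDegree_X_add_C _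
  have hlead : ((X + C (th θ 1) : K[X]) ^ (n / 2 + 1)).coeff (n / 2 + 1) = 1 := by
    have hm : ((X + C (th θ 1) : K[X]) ^ (n / 2 + 1)).Monic := (monic_X_add_C _).pow _
    have hd : ((X + C (th θ 1) : K[X]) ^ (n / 2 + 1)).natDegree = n / 2 + 1 := by
      rw [natDegree_pow, hX, mul_one]
    have := hm.coeff_natDegree
    rwa [hd] at this
  have hdle : ((X + C (th θ 1) : K[X]) ^ (n / 2 + 1)).natDegree ≤ n / 2 + 1 := by
    rw [natDegree_pow, hX, mul_one]
  rcases hb : n.testBit 0 with _ | _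
  · rw [hb] at h
    rw [bd_PP0_zero hb]
    rw [bd_testBit] at hb
    have h0 : ¬ (n / 2 ^ 0 % 2 = 1) := of_decide_eq_false hb
    simp at h h0
    have e1 : n + 1 = (n / 2 + 1) + n / 2 := by omega
    have hR : ((X + C (th θ 1) : K[X]) ^ (n / 2 + 1) * EE θ n 1).coeff (n + 1) =
        (EE θ n 1).coeff (n / 2) := by
      rw [e1, coeff_mul_add_eq_of_natDegree_le hdle (by omega), hlead, one_mul]
    rw [hR]
    have e2 : n + 1 = 1 + (n / 2) * 2 := by omega
    have hd2 : (expand K 2 (EE θ n 1)).natDegree ≤ n / 2 * 2 := by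
      rw [natDegree_expand]
      exact Nat.mul_le_mul_right 2 (by omega)
    rw [e2, coeff_mul_add_eq_of_natDegree_le (natDegree_X_add_C (th θ 0)).le hd2]
    simp [coeff_expand, coeff_X]
  · rw [hb] at h
    rw [bd_PP0_one hb, one_mul]
    rw [bd_testBit] at hb
    have h0 : n / 2 ^ 0 % 2 = 1 := of_decide_eq_true hb
    simp at h h0
    have e1 : n + 1 = (n / 2 + 1) + (n / 2 + 1) := by omega
    have hR : ((X + C (th θ 1) : K[X]) ^ (n / 2 + 1) * EE θ n 1).coeff (n + 1) =
        (EE θ n 1).coeff (n / 2 + 1) := by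
      rw [e1, coeff_mul_add_eq_of_natDegree_le hdle (by omega), hlead, one_mul]
    rw [hR]
    have e2 : n + 1 = (n / 2 + 1) * 2 := by omega
    rw [e2, coeff_expand_mul (by norm_num)]

theorem HH_zero_natDegree (n : ℕ) : (HH θ n 0).natDegree ≤ n := by
  rw [natDegree_le_iff_coeff_eq_zero]
  intro N hN
  unfold HH
  rw [coeff_add]
  rcases Nat.lt_or_ge (n + 1) N with h | h
  · rw [coeff_eq_zero_of_natDegree_lt (lt_of_le_of_lt (bd_EE_zero_natDegree hθ n) h),
      coeff_eq_zero_of_natDegree_lt (lt_of_le_of_lt (GG_zero_natDegree hθ n) h), add_zero]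
  · have hN' : N = n + 1 := by omega
    rw [hN', bd_coeff_top hθ n, bd_add_self]

/-- `φ(G_0(n)) = (Z+θ_0)^{n+1} E_0(n)` -/
theorem expand_GG_zero (n : ℕ) :
    expand K 2 (GG θ n 0) = (X + C (th θ 0)) ^ (n + 1) * EE θ n 0 := by
  rw [EE_step hθ n 0 (by omega)]
  unfold GG
  rw [map_mul, map_pow, bd_expand_th, ← pow_mul]
  simp only [zero_add, pow_one]
  rcases hb : n.testBit 0 with _ | _
  · rw [bd_PP0_zero hb]
    rw [bd_testBit] at hb
    have h0 : ¬ (n / 2 ^ 0 % 2 = 1) := of_decide_eq_false hb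
    simp at h0
    have h1 : 2 * (n / 2 + 1) = n + 1 + 1 := by omega
    rw [h1]
    ring
  · rw [bd_PP0_one hb]
    rw [bd_testBit] at hb
    have h0 : n / 2 ^ 0 % 2 = 1 := of_decide_eq_true hb
    simp at h0
    have h1 : 2 * (n / 2 + 1) = n + 1 := by omega
    rw [h1]
    ring

end

end MZ
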