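import Pool.Agent.Work.MP_968e92_nt.Stmt
import Pool.Agent.Work.MP_968e92_nt.BD

/-! # MP_968e92_nt, module Comb: binary digit combinatorics -/

namespace MZ

/-! ## auxiliary digit lemmas -/

theorem comb_pc_even (w : ℕ) : pc (2 * w) = pc w := by
  unfold pc
  rcases Nat.eq_zero_or_pos w with rfl | hw
  · simp
  · rw [Nat.digits_def' (by norm_num) (by omega), show 2 * w % 2 = 0 by omega,
      show 2 * w / 2 = w by omega]
    simp

theorem comb_pc_odd (w : ℕ) : pc (2 * w + 1) = pc w + 1 := by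
  unfold pc
  rw [Nat.digits_def' (by norm_num) (by omega), show (2 * w + 1) % 2 = 1 by omega,
    show (2 * w + 1) / 2 = w by omega]
  simp [add_comm]

theorem comb_pc_zero : pc 0 = 0 := by simp [pc]

theorem comb_pc_eq_zero : ∀ c : ℕ, pc c = 0 → c = 0 := by
  intro c
  induction c using Nat.strong_induction_on with
  | _ c ih =>
    intro h
    rcases Nat.even_or_odd' c with ⟨w, rfl | rfl⟩
    · rw [comb_pc_even] at h
      rcases Nat.eq_zero_or_pos w with rfl | hw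
      · rfl
      · have := ih w (by omega) h
        omega
    · rw [comb_pc_odd] at h
      omega

theorem comb_pc_eq_one : ∀ c : ℕ, pc c = 1 → ∃ i, c = 2 ^ i := by
  intro c
  induction c using Nat.strong_induction_on with
  | _ c ih =>
    intro h
    rcases Nat.even_or_odd' c with ⟨w, rfl | rfl⟩
    · rw [comb_pc_even] at h
      rcases Nat.eq_zero_or_pos w with rfl | hw
      · rw [comb_pc_zero] at h; omega
      · obtain ⟨i, rfl⟩ := ih w (by omega) h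
        exact ⟨i + 1, by rw [pow_succ]; ring⟩
    · rw [comb_pc_odd] at h
      have := comb_pc_eq_zero w (by omega)
      subst this
      exact ⟨0, rfl⟩

theorem comb_pc_eq_two : ∀ c : ℕ, pc c = 2 → ∃ i j, i < j ∧ c = 2 ^ i + 2 ^ j := by
  intro c
  induction c using Nat.strong_induction_on with
  | _ c ih =>
    intro h
    rcases Nat.even_or_odd' c with ⟨w, rfl | rfl⟩
    · rw [comb_pc_even] at h
      rcases Nat.eq_zero_or_pos w with rfl | hw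
      · rw [comb_pc_zero] at h; omega
      · obtain ⟨i, j, hij, hw'⟩ := ih w (by omega) h
        exact ⟨i + 1, j + 1, by omega, by rw [hw', pow_succ, pow_succ]; ring⟩
    · rw [comb_pc_odd] at h
      obtain ⟨i, rfl⟩ := comb_pc_eq_one w (by omega)
      exact ⟨0, i + 1, by omega, by rw [pow_succ]; ring⟩

/-- digits of the complement -/
theorem comb_pc_compl : ∀ (m r c : ℕ), r + c + 1 = 2 ^ m → pc r + pc c = m := by
  intro m
  induction m with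
  | zero =>
    intro r c h
    rw [pow_zero] at h
    obtain ⟨rfl, rfl⟩ : r = 0 ∧ c = 0 := by omega
    rw [comb_pc_zero]
  | succ m ih =>
    intro r c h
    rw [pow_succ] at h
    rcases Nat.even_or_odd' r with ⟨w, rfl | rfl⟩ <;> rcases Nat.even_or_odd' c with ⟨v, rfl | rfl⟩
    · omega
    · rw [comb_pc_even, comb_pc_odd]
      have := ih w v (by omega)
      omega
    · rw [comb_pc_even, comb_pc_odd]
      have := ih w v (by omega)
      omega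
    · omega

theorem comb_pc_le {m r : ℕ} (h : r < 2 ^ m) : pc r ≤ m := by
  have := comb_pc_compl m r (2 ^ m - 1 - r) (by omega)
  omega

theorem comb_full {m r : ℕ} (h : r < 2 ^ m) (hp : m ≤ pc r) : r + 1 = 2 ^ m := by
  have h1 := comb_pc_compl m r (2 ^ m - 1 - r) (by omega)
  have h2 := comb_pc_eq_zero (2 ^ m - 1 - r) (by omega)
  omega

theorem comb_one {m r : ℕ} (h : r < 2 ^ m) (hp : pc r + 1 = m) :
    ∃ i, i < m ∧ r + 2 ^ i + 1 = 2 ^ m := by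
  have h1 := comb_pc_compl m r (2 ^ m - 1 - r) (by omega)
  obtain ⟨i, hi⟩ := comb_pc_eq_one (2 ^ m - 1 - r) (by omega)
  refine ⟨i, ?_, by omega⟩
  by_contra hc
  have := Nat.pow_le_pow_right (show 0 < 2 by norm_num) (not_lt.mp hc)
  have h2 : 0 < 2 ^ m := by positivity
  omega

theorem comb_two {m r : ℕ} (h : r < 2 ^ m) (hp : pc r + 2 = m) :
    ∃ i j, i < j ∧ j < m ∧ r + 2 ^ i + 2 ^ j + 1 = 2 ^ m := by
  have h1 := comb_pc_compl m r (2 ^ m - 1 - r) (by omega)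
  obtain ⟨i, j, hij, hi⟩ := comb_pc_eq_two (2 ^ m - 1 - r) (by omega)
  refine ⟨i, j, hij, ?_, by omega⟩
  by_contra hc
  have h3 : 2 ^ m ≤ 2 ^ j := Nat.pow_le_pow_right (show 0 < 2 by norm_num) (not_lt.mp hc)
  have h2 : 0 < 2 ^ m := by positivity
  have h4 : 0 < 2 ^ i := by positivity
  omega

/-- division of the sum -/
theorem comb_div (n₁ n₂ D : ℕ) (hD : 0 < D) :
    ((n₁ + n₂ + 1) / D = n₁ / D + n₂ / D ∧ n₁ % D + n₂ % D + 1 < D) ∨
    ((n₁ + n₂ + 1) / D = n₁ / D + n₂ / D + 1 ∧ D ≤ n₁ % D + n₂ % D + 1) := by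
  have h1 := Nat.div_add_mod n₁ D
  have h2 := Nat.div_add_mod n₂ D
  have h3 := Nat.mod_lt n₁ hD
  have h4 := Nat.mod_lt n₂ hD
  by_cases h : n₁ % D + n₂ % D + 1 < D
  · left
    refine ⟨?_, h⟩
    have e : n₁ + n₂ + 1 = (n₁ % D + n₂ % D + 1) + D * (n₁ / D + n₂ / D) := by
      rw [mul_add]; omega
    rw [e, Nat.add_mul_div_left _ _ hD, Nat.div_eq_of_lt h, zero_add]
  · right
    refine ⟨?_, not_lt.mp h⟩
    have e : n₁ + n₂ + 1 = (n₁ % D + n₂ % D + 1 - D) + D * (n₁ / D + n₂ / D + 1) := by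
      rw [mul_add, mul_add]; omega
    rw [e, Nat.add_mul_div_left _ _ hD, Nat.div_eq_of_lt (by omega), zero_add]

theorem comb_pc_one : pc 1 = 1 := by
  have := comb_pc_odd 0
  rwa [comb_pc_zero] at this

/-- quotients and remainders -/
theorem comb_data (n₁ n₂ D : ℕ) (hD : 0 < D) :
    ∃ x y v r₁ r₂ : ℕ, n₁ = D * x + r₁ ∧ n₂ = D * y + r₂ ∧ r₁ < D ∧ r₂ < D ∧
      n₁ / D = x ∧ n₂ / D = y ∧ (n₁ + n₂ + 1) / D = v ∧ n₁ % D = r₁ ∧ n₂ % D = r₂ ∧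
      ((v = x + y ∧ r₁ + r₂ + 1 < D) ∨ (v = x + y + 1 ∧ D ≤ r₁ + r₂ + 1)) :=
  ⟨n₁ / D, n₂ / D, (n₁ + n₂ + 1) / D, n₁ % D, n₂ % D, (Nat.div_add_mod n₁ D).symm,
    (Nat.div_add_mod n₂ D).symm, Nat.mod_lt _ hD, Nat.mod_lt _ hD, rfl, rfl, rfl, rfl, rfl,
    comb_div n₁ n₂ D hD⟩

/-- the core of cases I and II -/
theorem comb_core {n₁ n₂ L : ℕ} (h₁ : L ≤ pc n₁)
    (h : ((n₁ + n₂ + 1) / 2 ^ (L + 1) + 1) / 2 ≤ (n₂ / 2 ^ (L + 1) + 1) / 2) :
    n₁ < 2 ^ (L + 2) ∧ pc n₁ ≤ L + 1 ∧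
      ((n₁ + n₂ + 1) / 2 ^ (L + 1) = n₂ / 2 ^ (L + 1) ∧ pc n₁ = L ∨
        (n₁ + n₂ + 1) / 2 ^ (L + 1) = n₂ / 2 ^ (L + 1) + 1 ∧ Odd (n₂ / 2 ^ (L + 1))) := by
  have hD : 0 < 2 ^ (L + 1) := by positivity
  have hD2 : 2 ^ (L + 2) = 2 * 2 ^ (L + 1) := by rw [pow_succ 2 (L + 1)]; ring
  obtain ⟨x, y, v, r₁, r₂, e₁, e₂, l₁, l₂, d₁, d₂, dv, m₁, m₂, hd⟩ := comb_data n₁ n₂ _ hD
  rw [d₂, dv] at h
  rw [d₂, dv]
  have hx : x = 0 ∨ x = 1 := by omega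
  have hlt2 : n₁ < 2 ^ (L + 2) := by
    rcases hx with rfl | rfl
    · rw [mul_zero] at e₁; omega
    · rw [mul_one] at e₁; omega
  have hple := comb_pc_le hlt2
  have hnp : pc n₁ ≤ L + 1 := by
    by_contra hc
    have hf := comb_full hlt2 (by omega)
    rcases hx with rfl | rfl
    · rw [mul_zero] at e₁; omega
    · rw [mul_one] at e₁; omega
  refine ⟨hlt2, hnp, ?_⟩
  rcases hd with ⟨hd, hc⟩ | ⟨hd, hc⟩
  · rcases hx with rfl | rfl
    · left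
      refine ⟨by omega, ?_⟩
      rw [mul_zero, zero_add] at e₁
      by_contra hne
      have hf := comb_full (m := L + 1) (r := n₁) (by omega) (by omega)
      omega
    · right
      refine ⟨by omega, ?_⟩
      rw [Nat.odd_iff]
      omega
  · right
    have hx0 : x = 0 := by omega
    subst hx0
    refine ⟨by omega, ?_⟩
    rw [Nat.odd_iff]
    omega

/-- the extremal triples of powers -/
theorem comb_triple {L i j k : ℕ} (hi : i < L + 1) (hjk : j < k) (hk : k < L + 1)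
    (h : 2 ^ (L + 1) ≤ 2 ^ i + 2 ^ j + 2 ^ k) :
    (i = L ∧ k = L) ∨ (i + 1 = L ∧ j + 1 = L ∧ k = L) := by
  obtain ⟨M, rfl⟩ : ∃ M, L = M + 1 := ⟨L - 1, by omega⟩
  have hM : 0 < 2 ^ M := by positivity
  have e1 : 2 ^ (M + 1 + 1) = 4 * 2 ^ M := by rw [pow_succ, pow_succ]; ring
  have e0 : 2 ^ (M + 1) = 2 * 2 ^ M := by rw [pow_succ]; ring
  have mono : ∀ a b : ℕ, a ≤ b → 2 ^ a ≤ 2 ^ b := fun a b hab =>
    Nat.pow_le_pow_right (by norm_num) hab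
  have hj' : 2 ^ j ≤ 2 ^ M := mono j M (by omega)
  have hkk : k = M + 1 := by
    by_contra hne
    have hk' : 2 ^ k ≤ 2 ^ M := mono k M (by omega)
    have hi' : 2 ^ i ≤ 2 ^ (M + 1) := mono i (M + 1) (by omega)
    have hjs : 2 ^ (j + 1) ≤ 2 ^ k := mono (j + 1) k (by omega)
    rw [pow_succ] at hjs
    omega
  subst hkk
  by_cases hi2 : i = M + 1
  · left; exact ⟨hi2, rfl⟩
  · right
    have hi' : 2 ^ i ≤ 2 ^ M := mono i M (by omega)
    have hie : i = M := by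
      by_contra hne
      have : 2 ^ (i + 1) ≤ 2 ^ M := mono (i + 1) M (by omega)
      rw [pow_succ] at this
      have : 0 < 2 ^ i := by positivity
      omega
    have hje : j = M := by
      by_contra hne
      have : 2 ^ (j + 1) ≤ 2 ^ M := mono (j + 1) M (by omega)
      rw [pow_succ] at this
      have : 0 < 2 ^ j := by positivity
      omega
    exact ⟨by omega, by omega, rfl⟩

theorem comb_even_pow {n : ℕ} (h : 1 ≤ n) : Even (2 ^ n) := by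
  rw [Nat.even_pow]
  exact ⟨even_two, by omega⟩


/-- case I: `L = pc n₂ ≤ pc n₁` -/
theorem comb_I {n₁ n₂ L : ℕ} (h₂ : pc n₂ = L) (h₁ : L ≤ pc n₁)
    (h : ((n₁ + n₂ + 1) / 2 ^ (L + 1) + 1) / 2 ≤ (n₂ / 2 ^ (L + 1) + 1) / 2) :
    n₁ < 2 ^ (L + 2) ∧
    ((pc n₁ = L ∧ (n₁ + n₂ + 1) / 2 ^ (L + 1) = n₂ / 2 ^ (L + 1)) ∨
     (pc n₁ = L ∧ (n₁ + n₂ + 1) / 2 ^ (L + 1) = n₂ / 2 ^ (L + 1) + 1 ∧
        Odd (n₂ / 2 ^ (L + 1))) ∨
     (pc n₁ = L + 1 ∧ (n₁ + n₂ + 1) / 2 ^ (L + 1) = n₂ / 2 ^ (L + 1) + 1 ∧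
        Odd (n₂ / 2 ^ (L + 1)))) := by
  obtain ⟨hlt, hp, hc⟩ := comb_core h₁ h
  refine ⟨hlt, ?_⟩
  rcases hc with ⟨hc, hpc⟩ | ⟨hc, ho⟩
  · left; exact ⟨hpc, hc⟩
  · rcases Nat.lt_or_ge (pc n₁) (L + 1) with hl | hl
    · right; left; exact ⟨by omega, hc, ho⟩
    · right; right; exact ⟨by omega, hc, ho⟩

/-- case II: `pc n₁ + 2 ≤ pc n₂`, `L = pc n₁ + 1` -/
theorem comb_II {n₁ n₂ L : ℕ} (h₁ : pc n₁ + 1 = L) (h₂ : L + 1 ≤ pc n₂)
    (h : ((n₁ + n₂ + 1) / 2 ^ (L + 1) + 1) / 2 ≤ (n₁ / 2 ^ (L + 1) + 1) / 2) :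
    n₂ < 2 ^ (L + 2) ∧ pc n₂ = L + 1 ∧ Odd (n₁ / 2 ^ (L + 1)) ∧
      (n₁ + n₂ + 1) / 2 ^ (L + 1) = n₁ / 2 ^ (L + 1) + 1 := by
  have h' : ((n₂ + n₁ + 1) / 2 ^ (L + 1) + 1) / 2 ≤ (n₁ / 2 ^ (L + 1) + 1) / 2 := by
    rw [add_comm n₂ n₁]; exact h
  obtain ⟨hlt, hp, hc⟩ := comb_core (n₁ := n₂) (n₂ := n₁) (by omega) h'
  rw [add_comm n₂ n₁] at hc
  rcases hc with ⟨hc, hpc⟩ | ⟨hc, ho⟩
  · omega
  · exact ⟨hlt, by omega, ho, hc⟩

/-- case III: `pc n₁ + 1 = pc n₂ = L` -/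
theorem comb_III {n₁ n₂ L : ℕ} (h₁ : pc n₁ + 1 = L) (h₂ : pc n₂ = L)
    (h : ((n₁ + n₂ + 1) / 2 ^ (L + 1) + 1) / 2 ≤ (n₁ / 2 ^ (L + 1) + 1) / 2)
    (h' : ((n₁ + n₂ + 1) / 2 ^ (L + 1) + 1) / 2 ≤ (n₂ / 2 ^ (L + 1) + 1) / 2) :
    (n₁ + n₂ + 1 < 2 ^ (L + 1)) ∨
      (n₁ / 2 ^ (L + 1) = 1 ∧ n₂ / 2 ^ (L + 1) = 1 ∧ (n₁ + n₂ + 1) / 2 ^ (L + 1) = 2) := by
  have hD : 0 < 2 ^ (L + 1) := by positivity
  obtain ⟨x, y, v, r₁, r₂, e₁, e₂, l₁, l₂, d₁, d₂, dv, m₁, m₂, hd⟩ := comb_data n₁ n₂ _ hD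
  rw [d₁, dv] at h
  rw [d₂, dv] at h'
  by_cases h0 : v = 0
  · left
    rw [h0] at dv
    exact (Nat.div_eq_zero_iff_lt hD).mp dv
  · right
    rw [d₁, d₂, dv]
    omega

/-- end of case I-a, `y = 0` -/
theorem end_Ia0 {n₁ n₂ L : ℕ} (h₁ : pc n₁ = L) (h₂ : pc n₂ = L)
    (h : n₁ + n₂ + 1 < 2 ^ (L + 1)) (hp : ¬ (Even (n₁ + 1) ∧ Even (n₂ + 1))) :
    InL (n₁ + 1) (n₂ + 1) := by
  have hD2 : 2 ^ (L + 1) = 2 * 2 ^ L := by rw [pow_succ]; ring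
  obtain ⟨i, hi, ei⟩ := comb_one (m := L + 1) (r := n₁) (by omega) (by omega)
  obtain ⟨j, hj, ej⟩ := comb_one (m := L + 1) (r := n₂) (by omega) (by omega)
  have mono : ∀ a b : ℕ, a ≤ b → 2 ^ a ≤ 2 ^ b := fun a b hab =>
    Nat.pow_le_pow_right (by norm_num) hab
  have hi' := mono i L (by omega)
  have hj' := mono j L (by omega)
  have e1 : n₁ + 1 = 2 ^ L := by omega
  have e2 : n₂ + 1 = 2 ^ L := by omega
  rcases Nat.eq_zero_or_pos L with rfl | hL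
  · left
    simp only [pow_zero] at e1 e2
    exact ⟨e1, e2⟩
  · exfalso
    apply hp
    rw [e1, e2]
    exact ⟨comb_even_pow hL, comb_even_pow hL⟩

/-- end of case I-a, `y = 1`, `ν_{L+1} = 1` -/
theorem end_Ia1 {n₁ n₂ L : ℕ} (h₁ : pc n₁ = L) (h₂ : pc n₂ = L)
    (hy : n₂ / 2 ^ (L + 1) = 1) (h : (n₁ + n₂ + 1) / 2 ^ (L + 1) = 1)
    (hp : ¬ (Even (n₁ + 1) ∧ Even (n₂ + 1))) :
    InL (n₁ + 1) (n₂ + 1) := by
  have hD : 0 < 2 ^ (L + 1) := by positivity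
  have hD2 : 2 ^ (L + 1) = 2 * 2 ^ L := by rw [pow_succ]; ring
  have hm := Nat.div_add_mod n₂ (2 ^ (L + 1))
  have hlt := Nat.mod_lt n₂ hD
  have hpd := pc_div n₂ (L + 1)
  rw [hy, comb_pc_one] at hpd
  rw [hy, mul_one] at hm
  have hs := Nat.div_add_mod (n₁ + n₂ + 1) (2 ^ (L + 1))
  have hslt := Nat.mod_lt (n₁ + n₂ + 1) hD
  rw [h, mul_one] at hs
  obtain ⟨i, hi, ei⟩ := comb_one (m := L + 1) (r := n₁) (by omega) (by omega)
  obtain ⟨j, k, hjk, hk, ej⟩ := comb_two (m := L + 1) (r := n₂ % 2 ^ (L + 1)) hlt (by omega)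
  have ht := comb_triple hi hjk hk (by omega)
  rcases ht with ⟨hiL, hkL⟩ | ⟨rfl, hj1, hk1⟩
  · rw [hiL] at ei
    rw [hkL] at ej hjk
    have e1 : n₁ + 1 = 2 ^ L := by omega
    have e2 : n₂ + 1 + 2 ^ j = 3 * 2 ^ L := by omega
    have hi1 : 1 ≤ L := by omega
    rcases Nat.eq_zero_or_pos j with rfl | hj
    · right; right; right; right
      refine ⟨L, hi1, e1, ?_⟩
      rw [pow_zero] at e2
      omega
    · exfalso
      apply hp
      have v1 := comb_even_pow hi1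
      have v2 := comb_even_pow hj
      rw [e1]
      refine ⟨v1, ?_⟩
      rw [Nat.even_iff] at v1 v2 ⊢
      omega
  · have hji : j = i := by omega
    subst hji hk1
    have hj2 : 2 ^ (j + 1) = 2 * 2 ^ j := by rw [pow_succ]; ring
    have e1 : n₁ + 1 = 3 * 2 ^ j := by omega
    have e2 : n₂ + 1 = 5 * 2 ^ j := by omega
    rcases Nat.eq_zero_or_pos j with rfl | hj
    · right; right; left
      rw [pow_zero] at e1 e2
      exact ⟨e1, e2⟩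
    · exfalso
      apply hp
      have v1 := comb_even_pow hj
      rw [e1, e2]
      exact ⟨v1.mul_left 3, v1.mul_left 5⟩

/-- end of case III -/
theorem end_III {n₁ n₂ L : ℕ} (h₁ : pc n₁ + 1 = L) (h₂ : pc n₂ = L)
    (h : n₁ + n₂ + 1 < 2 ^ (L + 1)) (hp : ¬ (Even (n₁ + 1) ∧ Even (n₂ + 1))) :
    InL (n₁ + 1) (n₂ + 1) := by
  have hD2 : 2 ^ (L + 1) = 2 * 2 ^ L := by rw [pow_succ]; ring
  obtain ⟨i, hi, ei⟩ := comb_one (m := L + 1) (r := n₂) (by omega) (by omega)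
  obtain ⟨j, k, hjk, hk, ej⟩ := comb_two (m := L + 1) (r := n₁) (by omega) (by omega)
  have ht := comb_triple hi hjk hk (by omega)
  rcases ht with ⟨hiL, hkL⟩ | ⟨rfl, hj1, hk1⟩
  · rw [hiL] at ei
    rw [hkL] at ej hjk
    have e1 : n₂ + 1 = 2 ^ L := by omega
    have e2 : n₁ + 1 + 2 ^ j = 2 ^ L := by omega
    have hi1 : 1 ≤ L := by omega
    rcases Nat.eq_zero_or_pos j with rfl | hj
    · right; right; right; left
      refine ⟨L, hi1, ?_, e1⟩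
      rw [pow_zero] at e2
      omega
    · exfalso
      apply hp
      have v1 := comb_even_pow hi1
      have v2 := comb_even_pow hj
      rw [e1]
      refine ⟨?_, v1⟩
      rw [Nat.even_iff] at v1 v2 ⊢
      omega
  · have hji : j = i := by omega
    subst hji hk1
    have hj2 : 2 ^ (j + 1) = 2 * 2 ^ j := by rw [pow_succ]; ring
    have e1 : n₁ + 1 = 2 ^ j := by omega
    have e2 : n₂ + 1 = 3 * 2 ^ j := by omega
    rcases Nat.eq_zero_or_pos j with rfl | hj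
    · right; left
      rw [pow_zero] at e1 e2
      exact ⟨e1, e2⟩
    · exfalso
      apply hp
      have v1 := comb_even_pow hj
      rw [e1, e2]
      exact ⟨v1, v1.mul_left 3⟩

end MZ
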