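import Pool.Agent.Work.MP_968e92_nt.Stmt
import Pool.Agent.Work.MP_968e92_nt.BD

/-! # MP_968e92_nt, module D1: Carlitz power sums are values of `E_0` -/

open Polynomial

namespace MZ

/-- `T = t ∈ F_2(t)` -/
noncomputable abbrev T : K2 := RatFunc.X

theorem th_T_injective : Function.Injective (th T) := by
  intro i j h
  have h' : ((RatFunc.X : RatFunc (ZMod 2))) ^ (2 ^ i) = RatFunc.X ^ (2 ^ j) := h
  have h2 : algebraMap (ZMod 2)[X] (RatFunc (ZMod 2)) (X ^ (2 ^ i)) =
      algebraMap (ZMod 2)[X] (RatFunc (ZMod 2)) (X ^ (2 ^ j)) := by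
    rw [map_pow, map_pow, RatFunc.algebraMap_X]
    exact h'
  have h3 := RatFunc.algebraMap_injective (K := ZMod 2) h2
  have h4 := congrArg natDegree h3
  rw [natDegree_X_pow, natDegree_X_pow] at h4
  exact Nat.pow_right_injective le_rfl h4

/-- `ℓ_d = ∏_{i=1}^d (θ_0 + θ_i)` -/
noncomputable def ell (d : ℕ) : K2 := ∏ i ∈ Finset.range d, (th T 0 + th T (i + 1))

/-- the monic polynomials of degree `d` over `F_2` -/
noncomputable def monics (d : ℕ) : Finset (ZMod 2)[X] :=
  Finset.univ.image fun c : Fin d → ZMod 2 => X ^ d + ∑ i, C (c i) * X ^ (i : ℕ)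

theorem d1_sum_natDegree (d : ℕ) (c : Fin d → ZMod 2) :
    (∑ i, C (c i) * X ^ (i : ℕ) : (ZMod 2)[X]).degree < d := by
  refine lt_of_le_of_lt (degree_sum_le _ _) ?_
  refine (Finset.sup_lt_iff (WithBot.bot_lt_coe d)).mpr ?_
  intro i _
  refine lt_of_le_of_lt (degree_C_mul_X_pow_le _ _) ?_
  exact Nat.cast_lt.mpr i.2

theorem mem_monics (d : ℕ) (a : (ZMod 2)[X]) : a ∈ monics d ↔ a.Monic ∧ a.natDegree = d := by
  unfold monics
  rw [Finset.mem_image]
  constructor
  · rintro ⟨c, -, rfl⟩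
    have h := d1_sum_natDegree d c
    refine ⟨monic_X_pow_add h, ?_⟩
    rw [natDegree_add_eq_left_of_degree_lt, natDegree_X_pow]
    rwa [degree_X_pow]
  · rintro ⟨h1, h2⟩
    refine ⟨fun i => a.coeff i, Finset.mem_univ _, ?_⟩
    have h := h1.as_sum
    rw [h2, Finset.sum_range] at h
    exact h.symm

/-- `S_d(k) = ∑_{a monic of degree d} a^{-k}` -/
noncomputable def Sd (k d : ℕ) : K2 :=
  ∑ a ∈ monics d, ((algebraMap (ZMod 2)[X] K2 a) ^ k)⁻¹

/-! ### the Carlitz functions -/

noncomputable def d1E : ℕ → K2 → K2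
  | 0, z => z
  | d + 1, z => (d1E d z ^ 2 + d1E d z) / (th T 0 + th T (d + 1))

theorem d1E_zero (d : ℕ) : d1E d 0 = 0 := by
  induction d with
  | zero => rfl
  | succ d ih => simp [d1E, ih]

theorem d1E_add (d : ℕ) (z w : K2) : d1E d (z + w) = d1E d z + d1E d w := by
  induction d with
  | zero => rfl
  | succ d ih =>
    simp only [d1E]
    rw [ih, CharTwo.add_sq]
    ring

theorem d1E_sum {ι : Type*} (d : ℕ) (s : Finset ι) (f : ι → K2) :
    d1E d (∑ i ∈ s, f i) = ∑ i ∈ s, d1E d (f i) := by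
  classical
  induction s using Finset.induction_on with
  | empty => simp [d1E_zero]
  | insert a s ha ih => rw [Finset.sum_insert ha, Finset.sum_insert ha, d1E_add, ih]

theorem d1_ne (i j : ℕ) (h : i ≠ j) : th T i + th T j ≠ 0 := bd_th_ne th_T_injective h

theorem d1_sq (i : ℕ) : (th T i) ^ 2 = th T (i + 1) := bd_th_sq T i

theorem d1_th0 : th T 0 = T := by simp [th]

theorem d1E_mul (d : ℕ) (z : K2) : d1E (d + 1) (T * z) = T * d1E (d + 1) z + d1E d z ^ 2 := by
  induction d with
  | zero =>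
    simp only [d1E]
    have h := d1_ne 0 1 (by norm_num)
    have h1 : th T 1 = T ^ 2 := by rw [← d1_sq 0, d1_th0]
    rw [d1_th0, h1] at h
    rw [zero_add, d1_th0, h1]
    rw [eq_comm, mul_div_assoc', div_add' _ _ _ h]
    congr 1
    have h3 : T * z + T * z = 0 := CharTwo.add_self_eq_zero _
    have h4 : T * z ^ 2 + T * z ^ 2 = 0 := CharTwo.add_self_eq_zero _
    linear_combination h4
  | succ d ih =>
    have h := d1_ne 0 (d + 1 + 1) (by omega)
    have h0 := d1_ne 0 (d + 1) (by omega)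
    have hE : (th T 0 + th T (d + 1)) * d1E (d + 1) z = d1E d z ^ 2 + d1E d z := by
      simp only [d1E]
      field_simp
    have e1 : d1E (d + 1 + 1) (T * z) =
        (d1E (d + 1) (T * z) ^ 2 + d1E (d + 1) (T * z)) / (th T 0 + th T (d + 1 + 1)) := rfl
    have e2 : d1E (d + 1 + 1) z =
        (d1E (d + 1) z ^ 2 + d1E (d + 1) z) / (th T 0 + th T (d + 1 + 1)) := rfl
    rw [e1, e2, ih, mul_div_assoc', div_add' _ _ _ h]
    congr 1
    set u := d1E (d + 1) z
    set v := d1E d z
    have hs : (v ^ 2) ^ 2 + v ^ 2 = (th T 0 ^ 2 + th T (d + 1) ^ 2) * u ^ 2 := by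
      rw [← CharTwo.add_sq, ← hE, mul_pow, CharTwo.add_sq]
    rw [d1_sq (d + 1)] at hs
    rw [CharTwo.add_sq]
    have : (T * u) ^ 2 + (v ^ 2) ^ 2 + (T * u + v ^ 2) =
        (T * u) ^ 2 + T * u + ((v ^ 2) ^ 2 + v ^ 2) := by ring
    rw [this, hs, d1_th0]
    have h2 : T ^ 2 * u ^ 2 + T ^ 2 * u ^ 2 = 0 := CharTwo.add_self_eq_zero _
    have h3 : T * u ^ 2 + T * u ^ 2 = 0 := CharTwo.add_self_eq_zero _
    linear_combination h2 - h3

theorem d1E_pow (j : ℕ) : ∀ d, j ≤ d → d1E d (T ^ j) = if j = d then 1 else 0 := by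
  induction j with
  | zero =>
    intro d _
    rw [pow_zero]
    induction d with
    | zero => rfl
    | succ d ih =>
      rw [if_neg (by omega)]
      have e : d1E (d + 1) 1 = (d1E d 1 ^ 2 + d1E d 1) / (th T 0 + th T (d + 1)) := rfl
      rw [e, ih (by omega)]
      rcases Nat.eq_zero_or_pos d with h | h
      · subst h
        simp only [if_true, one_pow]
        rw [CharTwo.add_self_eq_zero]
        simp
      · rw [if_neg (by omega)]
        simp
  | succ j ih =>
    intro d hd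
    obtain ⟨d, rfl⟩ : ∃ e, d = e + 1 := ⟨d - 1, by omega⟩
    rw [pow_succ', d1E_mul, ih (d + 1) (by omega), ih d (by omega), if_neg (by omega)]
    by_cases h : j = d
    · subst h; simp
    · rw [if_neg h, if_neg (by omega)]; simp

/-- value at a polynomial -/
theorem d1E_poly (d : ℕ) (a : (ZMod 2)[X]) (ha : a.natDegree ≤ d) :
    d1E d (algebraMap (ZMod 2)[X] K2 a) = if a.coeff d = 1 then 1 else 0 := by
  have h := a.as_sum_range_C_mul_X_pow' (n := d + 1) (by omega)
  have h2 : algebraMap (ZMod 2)[X] K2 a =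
      ∑ i ∈ Finset.range (d + 1), (if a.coeff i = 1 then T ^ i else 0) := by
    conv_lhs => rw [h]
    rw [map_sum]
    refine Finset.sum_congr rfl fun i _ => ?_
    rw [map_mul, map_pow, RatFunc.algebraMap_X]
    have hc : a.coeff i = 0 ∨ a.coeff i = 1 := by
      generalize a.coeff i = x
      revert x; decide
    rcases hc with hc | hc
    · rw [hc]; simp
    · rw [hc]; simp
  rw [h2, d1E_sum]
  rw [Finset.sum_eq_single d]
  · by_cases hc : a.coeff d = 1
    · rw [if_pos hc, if_pos hc, d1E_pow d d le_rfl, if_pos rfl]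
    · rw [if_neg hc, if_neg hc, d1E_zero]
  · intro i hi hne
    rw [Finset.mem_range] at hi
    by_cases hc : a.coeff i = 1
    · rw [if_pos hc, d1E_pow i d (by omega), if_neg hne]
    · rw [if_neg hc, d1E_zero]
  · intro hd
    exact absurd (Finset.mem_range.mpr (by omega)) hd


/-! ### the roots -/

/-- the polynomials of degree at most `d` -/
noncomputable def d1pols (d : ℕ) : Finset (ZMod 2)[X] :=
  Finset.univ.image fun c : Fin (d + 1) → ZMod 2 => ∑ i, C (c i) * X ^ (i : ℕ)

theorem mem_d1pols (d : ℕ) (a : (ZMod 2)[X]) : a ∈ d1pols d ↔ a.natDegree ≤ d := by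
  unfold d1pols
  rw [Finset.mem_image]
  constructor
  · rintro ⟨c, -, rfl⟩
    have h := d1_sum_natDegree (d + 1) c
    rw [← Nat.lt_succ_iff]
    by_cases h0 : (∑ i, C (c i) * X ^ (i : ℕ) : (ZMod 2)[X]) = 0
    · rw [h0]; simp
    · exact (natDegree_lt_iff_degree_lt h0).mpr h
  · intro h
    refine ⟨fun i => a.coeff i, Finset.mem_univ _, ?_⟩
    have h := a.as_sum_range_C_mul_X_pow' (n := d + 1) (by omega)
    rw [Finset.sum_range] at h
    exact h.symm

theorem d1_coeff_sum (d : ℕ) (c : Fin d → ZMod 2) (j : Fin d) :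
    (∑ i, C (c i) * X ^ (i : ℕ) : (ZMod 2)[X]).coeff j = c j := by
  rw [finsetSum_coeff]
  rw [Finset.sum_eq_single j]
  · simp
  · intro i _ hi
    rw [coeff_C_mul_X_pow, if_neg]
    intro h
    exact hi (Fin.ext h.symm)
  · simp

theorem card_d1pols (d : ℕ) : (d1pols d).card = 2 ^ (d + 1) := by
  unfold d1pols
  rw [Finset.card_image_of_injective]
  · simp
  · intro c c' h
    funext j
    rw [← d1_coeff_sum (d + 1) c j, ← d1_coeff_sum (d + 1) c' j]
    exact congrArg (fun p => p.coeff (j : ℕ)) h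

theorem d1_monic_of_ne (a : (ZMod 2)[X]) (h : a ≠ 0) : a.Monic := by
  have h1 : a.leadingCoeff ≠ 0 := leadingCoeff_ne_zero.mpr h
  unfold Monic
  generalize a.leadingCoeff = x at *
  revert x; decide

theorem d1_sum_erase (d : ℕ) (f : (ZMod 2)[X] → K2) :
    ∑ a ∈ (d1pols d).erase 0, f a = ∑ i ∈ Finset.range (d + 1), ∑ a ∈ monics i, f a := by
  rw [← Finset.sum_biUnion]
  · refine Finset.sum_congr ?_ fun _ _ => rfl
    ext a
    rw [Finset.mem_erase, mem_d1pols, Finset.mem_biUnion]
    constructor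
    · rintro ⟨h0, h1⟩
      exact ⟨a.natDegree, Finset.mem_range.mpr (by omega),
        (mem_monics _ _).mpr ⟨d1_monic_of_ne a h0, rfl⟩⟩
    · rintro ⟨i, hi, ha⟩
      rw [mem_monics] at ha
      rw [Finset.mem_range] at hi
      exact ⟨ha.1.ne_zero, by omega⟩
  · intro i _ j _ hij
    rw [Function.onFun, Finset.disjoint_left]
    intro a ha hb
    rw [mem_monics] at ha hb
    omega


/-! ### the coefficients -/

theorem d1_th_pow (i m : ℕ) : th T i ^ (2 ^ m) = th T (i + m) := by
  unfold th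
  rw [← pow_mul, ← pow_add]

noncomputable def d1a (z : K2) (i : ℕ) : K2 :=
  ∏ m ∈ Finset.range i, ((th T i + th T m)⁻¹ * (th T i + z ^ (2 ^ m)))

noncomputable def d1b (z : K2) (i : ℕ) : K2 := (gg T 1 i).eval (z ^ 2)

theorem d1b_eq (z : K2) (i : ℕ) : d1b z i =
    ∏ m ∈ Finset.range i, ((th T (i + 1) + th T (m + 1))⁻¹ * (th T (i + 1) + z ^ (2 ^ (m + 1)))) := by
  unfold d1b gg
  rw [eval_prod]
  refine Finset.prod_congr rfl fun m _ => ?_
  simp only [eval_mul, eval_C, eval_add, eval_pow, eval_X]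
  rw [← pow_mul, ← pow_succ', Nat.add_comm 1 i, Nat.add_comm 1 m]

theorem d1a_succ (z : K2) (i : ℕ) :
    d1a z (i + 1) = (th T (i + 1) + th T 0)⁻¹ * (th T (i + 1) + z) * d1b z i := by
  rw [d1b_eq]
  unfold d1a
  rw [Finset.prod_range_succ', mul_comm]
  simp

theorem d1a_sq (z : K2) (i : ℕ) : d1a z i ^ 2 = d1b z i := by
  rw [d1b_eq]
  unfold d1a
  rw [← Finset.prod_pow]
  refine Finset.prod_congr rfl fun m _ => ?_
  rw [mul_pow, inv_pow, CharTwo.add_sq, CharTwo.add_sq, d1_sq, d1_sq, ← pow_mul, ← pow_succ]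

/-- the coefficient of `X^{2^{i+1}}` in `Ω_0` at `z` -/
noncomputable def d1w (z : K2) (i : ℕ) : K2 :=
  (th T 0 + z) * ((th T (1 + i) + th T 0)⁻¹ * d1b z i)

theorem d1w_eq (z : K2) (i : ℕ) : d1w z i = d1a z (i + 1) + d1a z i ^ 2 := by
  rw [d1a_succ, d1a_sq]
  unfold d1w
  rw [Nat.add_comm 1 i]
  have h := d1_ne (i + 1) 0 (by omega)
  field_simp
  have h2 : th T (i + 1) + th T (i + 1) = 0 := CharTwo.add_self_eq_zero _
  linear_combination (-d1b z i) * h2

theorem d1a_top (d i : ℕ) (h : d < i) : d1a (th T (d + 1)) i = 0 := by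
  unfold d1a
  apply Finset.prod_eq_zero (i := i - (d + 1)) (Finset.mem_range.mpr (by omega))
  rw [d1_th_pow, show d + 1 + (i - (d + 1)) = i by omega, CharTwo.add_self_eq_zero, mul_zero]

theorem d1a_ne (d : ℕ) : d1a (th T (d + 1)) d ≠ 0 := by
  unfold d1a
  rw [Finset.prod_ne_zero_iff]
  intro m hm
  rw [Finset.mem_range] at hm
  rw [d1_th_pow]
  exact mul_ne_zero (inv_ne_zero (d1_ne _ _ (by omega))) (d1_ne _ _ (by omega))

/-- `A_d(X) = E_d(ℓ_d X)` -/
theorem d1E_eq (d : ℕ) (x : K2) :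
    d1E d (ell d * x) = ∑ i ∈ Finset.range (d + 1), d1a (th T (d + 1)) i * x ^ (2 ^ i) := by
  induction d generalizing x with
  | zero => simp [d1E, ell, d1a]
  | succ d ih =>
    have hne := d1_ne 0 (d + 1) (by omega)
    have e1 : ell (d + 1) * x = ell d * ((th T 0 + th T (d + 1)) * x) := by
      unfold ell
      rw [Finset.prod_range_succ]
      ring
    have e2 : ∀ y, d1E (d + 1) y = (d1E d y ^ 2 + d1E d y) / (th T 0 + th T (d + 1)) :=
      fun _ => rfl
    rw [e1, e2, ih, div_eq_iff hne, CharTwo.sum_sq]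
    -- left: ∑ (a_i y^{2^i})^2 + ∑ a_i y^{2^i}
    set u := th T 0 + th T (d + 1) with hu
    have hL1 : ∑ i ∈ Finset.range (d + 1), (d1a (th T (d + 1)) i * (u * x) ^ (2 ^ i)) ^ 2 =
        ∑ i ∈ Finset.range (d + 1), d1a (th T (d + 1)) i ^ 2 * (u * x) ^ (2 ^ (i + 1)) := by
      refine Finset.sum_congr rfl fun i _ => ?_
      rw [mul_pow, ← pow_mul, ← pow_succ]
    have hL2 : ∑ i ∈ Finset.range (d + 1), d1a (th T (d + 1)) i * (u * x) ^ (2 ^ i) =
        ∑ i ∈ Finset.range (d + 1), d1a (th T (d + 1)) (i + 1) * (u * x) ^ (2 ^ (i + 1)) +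
          u * x := by
      have h1 := Finset.sum_range_succ (fun i => d1a (th T (d + 1)) i * (u * x) ^ (2 ^ i)) (d + 1)
      have h2 := Finset.sum_range_succ' (fun i => d1a (th T (d + 1)) i * (u * x) ^ (2 ^ i)) (d + 1)
      rw [d1a_top d (d + 1) (by omega), zero_mul, add_zero] at h1
      rw [← h1, h2]
      simp [d1a]
    rw [hL1, hL2, ← add_assoc, ← Finset.sum_add_distrib, Finset.sum_mul,
      Finset.sum_range_succ' _ (d + 1)]
    congr 1
    · refine Finset.sum_congr rfl fun i _ => ?_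
      have h3 : d1a (th T (d + 1)) i ^ 2 * (u * x) ^ (2 ^ (i + 1)) +
          d1a (th T (d + 1)) (i + 1) * (u * x) ^ (2 ^ (i + 1)) =
          d1w (th T (d + 1)) i * (u * x) ^ (2 ^ (i + 1)) := by
        rw [d1w_eq]; ring
      rw [h3, mul_pow]
      have h4 : d1w (th T (d + 1)) i * u ^ (2 ^ (i + 1)) =
          d1a (th T (d + 1 + 1)) (i + 1) * u := by
        have hu2 : u ^ (2 ^ (i + 1)) = th T (i + 1) + th T (d + 1 + (i + 1)) := by
          rw [hu]
          have := add_pow_char_pow (R := K2) (p := 2) (n := i + 1) (th T 0) (th T (d + 1))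
          rw [this, d1_th_pow, d1_th_pow, zero_add]
        have h5 : d1a (th T (d + 1 + 1)) (i + 1) =
            (th T (i + 1) + th T 0)⁻¹ * (th T (i + 1) + th T (d + 1 + (i + 1))) *
              d1b (th T (d + 1)) i := by
          rw [d1b_eq]
          unfold d1a
          rw [Finset.prod_mul_distrib, Finset.prod_mul_distrib,
            Finset.prod_range_succ' (fun m => (th T (i + 1) + th T m)⁻¹),
            Finset.prod_range_succ (fun m => th T (i + 1) + th T (d + 1 + 1) ^ 2 ^ m)]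
          have h6 : ∀ m, th T (d + 1 + 1) ^ 2 ^ m = th T (d + 1) ^ (2 ^ (m + 1)) := by
            intro m
            rw [d1_th_pow, d1_th_pow]
            congr 1
            omega
          simp only [h6]
          rw [d1_th_pow (d + 1) (i + 1)]
          ring
        rw [hu2, h5]
        unfold d1w
        rw [Nat.add_comm 1 i, ← hu]
        ring
      rw [← mul_assoc, h4]
      ring
    · simp [d1a]
      ring


/-! ### the additive polynomial `W_d` -/

noncomputable def d1W (d : ℕ) : K2[X] :=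
  X + ∑ i ∈ Finset.range (d + 1), C (d1w (th T (d + 1)) i) * X ^ (2 ^ (i + 1))

noncomputable def d1v (d : ℕ) (a : (ZMod 2)[X]) : K2 := (ell d)⁻¹ * algebraMap (ZMod 2)[X] K2 a

theorem d1_ell_ne (d : ℕ) : ell d ≠ 0 := by
  unfold ell
  rw [Finset.prod_ne_zero_iff]
  intro i _
  exact d1_ne _ _ (by omega)

theorem d1W_root (d : ℕ) (a : (ZMod 2)[X]) (ha : a ∈ d1pols d) :
    (d1W d).eval (d1v d a) = 0 := by
  rw [mem_d1pols] at ha
  set x := d1v d a with hx
  have h1 : d1E d (ell d * x) = if a.coeff d = 1 then 1 else 0 := by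
    rw [hx]
    unfold d1v
    rw [← mul_assoc, mul_inv_cancel₀ (d1_ell_ne d), one_mul]
    exact d1E_poly d a ha
  have h2 : (d1W d).eval x = d1E d (ell d * x) + d1E d (ell d * x) ^ 2 := by
    rw [d1E_eq, CharTwo.sum_sq]
    unfold d1W
    simp only [eval_add, eval_X, eval_finsetSum, eval_mul, eval_C, eval_pow]
    have g1 := Finset.sum_range_succ (fun i => d1a (th T (d + 1)) i * x ^ (2 ^ i)) (d + 1)
    have g2 := Finset.sum_range_succ' (fun i => d1a (th T (d + 1)) i * x ^ (2 ^ i)) (d + 1)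
    rw [d1a_top d (d + 1) (by omega), zero_mul, add_zero] at g1
    rw [← g1, g2]
    have g3 : d1a (th T (d + 1)) 0 * x ^ (2 ^ 0) = x := by simp [d1a]
    rw [g3, add_comm x, add_right_comm, ← Finset.sum_add_distrib]
    congr 1
    refine Finset.sum_congr rfl fun i _ => ?_
    rw [d1w_eq, mul_pow, ← pow_mul, ← pow_succ]
    ring
  rw [h2, h1]
  split_ifs
  · rw [one_pow, CharTwo.add_self_eq_zero]
  · simp

theorem d1v_inj (d : ℕ) : Function.Injective (d1v d) := by
  intro a b h
  unfold d1v at h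
  have h1 := mul_left_cancel₀ (inv_ne_zero (d1_ell_ne d)) h
  exact RatFunc.algebraMap_injective (K := ZMod 2) h1

theorem d1w_top (d : ℕ) : d1w (th T (d + 1)) d = d1a (th T (d + 1)) d ^ 2 := by
  rw [d1w_eq, d1a_top d (d + 1) (by omega), zero_add]

theorem d1W_nodal (d : ℕ) :
    d1W d = C (d1w (th T (d + 1)) d) * Lagrange.nodal (d1pols d) (d1v d) := by
  set w := d1w (th T (d + 1)) d with hw
  set N := Lagrange.nodal (d1pols d) (d1v d) with hN
  have hNm : N.Monic := Lagrange.nodal_monic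
  have hNd : N.natDegree = 2 ^ (d + 1) := by
    rw [hN, Lagrange.natDegree_nodal, card_d1pols]
  -- `W - w X^{2^{d+1}}` has small degree
  have hW : (d1W d - C w * X ^ (2 ^ (d + 1))).degree < ((2 ^ (d + 1) : ℕ) : WithBot ℕ) := by
    unfold d1W
    rw [Finset.sum_range_succ, ← add_assoc, ← hw, add_sub_cancel_right]
    refine lt_of_le_of_lt (degree_add_le _ _) (max_lt ?_ ?_)
    · rw [degree_X]
      have : (1 : ℕ) < 2 ^ (d + 1) := Nat.one_lt_two_pow (by omega)
      exact_mod_cast this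
    · refine lt_of_le_of_lt (degree_sum_le _ _) ?_
      refine (Finset.sup_lt_iff (WithBot.bot_lt_coe _)).mpr ?_
      intro i hi
      rw [Finset.mem_range] at hi
      refine lt_of_le_of_lt (degree_C_mul_X_pow_le _ _) ?_
      exact Nat.cast_lt.mpr (Nat.pow_lt_pow_right (by norm_num) (by omega))
  have hN2 : (C w * X ^ (2 ^ (d + 1)) - C w * N).degree < ((2 ^ (d + 1) : ℕ) : WithBot ℕ) := by
    rw [← mul_sub]
    have h1 : (X ^ (2 ^ (d + 1)) - N).degree < ((2 ^ (d + 1) : ℕ) : WithBot ℕ) := by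
      have h2 : (X ^ (2 ^ (d + 1)) : K2[X]).degree = N.degree := by
        rw [degree_X_pow, degree_eq_natDegree hNm.ne_zero, hNd]
      have h3 := degree_sub_lt_left h2 (pow_ne_zero _ X_ne_zero) (by
        rw [leadingCoeff_X_pow, hNm.leadingCoeff])
      rwa [degree_X_pow] at h3
    refine lt_of_le_of_lt (degree_mul_le _ _) ?_
    rcases eq_or_ne w 0 with h0 | h0
    · rw [h0]
      simp
      exact WithBot.bot_lt_coe _
    · rw [degree_C h0, zero_add]
      exact h1
  have hdeg : (d1W d - C w * N).degree < (d1pols d).card := by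
    rw [card_d1pols]
    have : d1W d - C w * N = (d1W d - C w * X ^ (2 ^ (d + 1))) +
      (C w * X ^ (2 ^ (d + 1)) - C w * N) := by ring
    rw [this]
    exact lt_of_le_of_lt (degree_add_le _ _) (max_lt hW hN2)
  have := Polynomial.eq_zero_of_degree_lt_of_eval_index_eq_zero (s := d1pols d) (v := d1v d)
    ((d1v_inj d).injOn) hdeg (by
      intro a ha
      rw [eval_sub, d1W_root d a ha, eval_mul, hN, Lagrange.eval_nodal_at_node ha]
      simp)
  exact sub_eq_zero.mp this

theorem d1W_derivative (d : ℕ) : derivative (d1W d) = 1 := by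
  unfold d1W
  rw [derivative_add, derivative_X, derivative_sum, Finset.sum_eq_zero, add_zero]
  intro i _
  rw [derivative_C_mul, derivative_X_pow]
  have : ((2 ^ (i + 1) : ℕ) : K2) = 0 := by
    have h2 : (2 : K2) = 0 := CharTwo.two_eq_zero
    push_cast
    rw [h2, zero_pow (Nat.succ_ne_zero _)]
  rw [this]
  simp

/-! ### the power series side -/

/-- `1/(X + c)` -/
noncomputable def d1I (c : K2) : PowerSeries K2 := PowerSeries.mk fun j => (c⁻¹) ^ (j + 1)

theorem d1I_mul (c : K2) (hc : c ≠ 0) : (PowerSeries.X - PowerSeries.C c) * d1I c = 1 := by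
  ext n
  rw [sub_mul, map_sub]
  rcases n with _ | n
  · rw [PowerSeries.coeff_C_mul]
    simp [d1I]
    rw [mul_inv_cancel₀ hc]
    exact CharTwo.neg_eq _
  · rw [PowerSeries.coeff_succ_X_mul, PowerSeries.coeff_C_mul]
    simp only [d1I, PowerSeries.coeff_mk]
    rw [PowerSeries.coeff_one, if_neg (Nat.succ_ne_zero n), pow_succ' _ (n + 1), ← mul_assoc,
      mul_inv_cancel₀ hc, one_mul, sub_self]

noncomputable def d1F (d : ℕ) : PowerSeries K2 :=
  1 + ∑ a ∈ (d1pols d).erase 0, PowerSeries.X * d1I (d1v d a)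

theorem d1F_mul (d : ℕ) : d1F d * (d1W d : PowerSeries K2) = PowerSeries.X := by
  set w := d1w (th T (d + 1)) d with hw
  have h0 : (0 : (ZMod 2)[X]) ∈ d1pols d := by rw [mem_d1pols]; simp
  have hv0 : d1v d 0 = 0 := by simp [d1v]
  have key : ∀ a ∈ (d1pols d).erase 0, PowerSeries.X * d1I (d1v d a) * (d1W d : PowerSeries K2) =
      PowerSeries.X * ((C w * Lagrange.nodal ((d1pols d).erase a) (d1v d) : K2[X]) :
        PowerSeries K2) := by
    intro a ha
    rw [Finset.mem_erase] at ha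
    have hva : d1v d a ≠ 0 := by
      intro h
      rw [← hv0] at h
      exact ha.1 (d1v_inj d h)
    rw [d1W_nodal, ← hw, Lagrange.nodal_eq_mul_nodal_erase ha.2]
    simp only [Polynomial.coe_mul, Polynomial.coe_sub, Polynomial.coe_X, Polynomial.coe_C]
    have := d1I_mul (d1v d a) hva
    linear_combination (PowerSeries.X * PowerSeries.C w *
      (Lagrange.nodal ((d1pols d).erase a) (d1v d) : PowerSeries K2)) * this
  have key0 : (d1W d : PowerSeries K2) =
      PowerSeries.X * ((C w * Lagrange.nodal ((d1pols d).erase 0) (d1v d) : K2[X]) :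
        PowerSeries K2) := by
    rw [d1W_nodal, ← hw, Lagrange.nodal_eq_mul_nodal_erase h0, hv0]
    simp only [Polynomial.coe_mul, Polynomial.coe_X, Polynomial.coe_C, map_zero, sub_zero]
    ring
  unfold d1F
  rw [add_mul, one_mul, Finset.sum_mul, Finset.sum_congr rfl key, ← Finset.mul_sum]
  conv_lhs => rw [key0]
  rw [← mul_add]
  have hder := d1W_derivative d
  rw [d1W_nodal, ← hw, derivative_C_mul, Lagrange.derivative_nodal] at hder
  rw [← Finset.add_sum_erase _ _ h0, mul_add, Finset.mul_sum] at hder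
  have h3 := congrArg (fun p : K2[X] => (p : PowerSeries K2)) hder
  simp only [Polynomial.coe_add, Polynomial.coe_one] at h3
  have h4 : ((∑ a ∈ (d1pols d).erase 0, C w * Lagrange.nodal ((d1pols d).erase a) (d1v d) :
      K2[X]) : PowerSeries K2) = ∑ a ∈ (d1pols d).erase 0,
        ((C w * Lagrange.nodal ((d1pols d).erase a) (d1v d) : K2[X]) : PowerSeries K2) :=
    map_sum (Polynomial.coeToPowerSeries.ringHom (R := K2)) _ _
  rw [← h4, h3, mul_one]


theorem d1_coeff_ph_even (φ : PowerSeries K2[X]) (m : ℕ) :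
    PowerSeries.coeff (2 * m) (ph φ) = expand K2 2 (PowerSeries.coeff m φ) := by
  unfold ph expX
  simp [PowerSeries.coeff_expand_mul]

theorem d1_coeff_ph_odd (φ : PowerSeries K2[X]) (m : ℕ) :
    PowerSeries.coeff (2 * m + 1) (ph φ) = 0 := by
  unfold ph expX
  simp only [RingHom.comp_apply, AlgHom.toRingHom_eq_coe, RingHom.coe_coe]
  exact PowerSeries.coeff_expand_of_not_dvd _ _ _ (by omega)

theorem d1_coeff_al (m : ℕ) : PowerSeries.coeff m (al T 1 0) =
    if 2 ^ Nat.log 2 m = m then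
      C ((th T (1 + Nat.log 2 m) + th T 0)⁻¹) * gg T 1 (Nat.log 2 m) else 0 := by
  unfold al addS
  rw [PowerSeries.coeff_mk]

theorem d1_map_Om (d : ℕ) :
    PowerSeries.map (evalRingHom (th T (d + 1))) (Om T 0) = (d1W d : PowerSeries K2) := by
  ext n
  rw [PowerSeries.coeff_map, Polynomial.coeff_coe]
  unfold Om d1W
  rw [map_add, PowerSeries.coeff_C_mul, PowerSeries.coeff_X, Polynomial.coeff_add,
    Polynomial.coeff_X, finsetSum_coeff]
  simp only [coe_evalRingHom, eval_add, eval_mul, eval_C, eval_X, zero_add, coeff_C_mul,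
    coeff_X_pow]
  have h1 : eval (th T (d + 1)) (if n = 1 then (1 : K2[X]) else 0) =
      (if 1 = n then (1 : K2) else 0) := by
    by_cases h : n = 1
    · rw [if_pos h, if_pos h.symm, eval_one]
    · rw [if_neg h, if_neg (fun h' => h h'.symm), eval_zero]
  rw [h1]
  congr 1
  obtain ⟨m, hm | hm⟩ : ∃ m, n = 2 * m ∨ n = 2 * m + 1 := ⟨n / 2, by omega⟩
  · subst hm
    rw [d1_coeff_ph_even, expand_eval, d1_coeff_al]
    by_cases hp : 2 ^ Nat.log 2 m = m
    · rw [if_pos hp]
      set i := Nat.log 2 m with hi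
      have hpow : ∀ j, (2 * m = 2 ^ (j + 1)) ↔ j = i := by
        intro j
        rw [← hp, ← pow_succ']
        constructor
        · intro h
          have := Nat.pow_right_injective le_rfl h
          omega
        · rintro rfl; rfl
      simp only [hpow, eval_mul, eval_C]
      have h2 : (th T 0 + th T (d + 1)) *
          ((th T (1 + i) + th T 0)⁻¹ * eval (th T (d + 1) ^ 2) (gg T 1 i)) =
          d1w (th T (d + 1)) i := rfl
      rw [h2]
      by_cases hid : i < d + 1
      · rw [Finset.sum_eq_single i]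
        · simp
        · intro j _ hj
          rw [if_neg hj, mul_zero]
        · intro h
          exact absurd (Finset.mem_range.mpr hid) h
      · rw [Finset.sum_eq_zero]
        · rw [d1w_eq, d1a_top d i (by omega), d1a_top d (i + 1) (by omega)]
          simp
        · intro j hj
          rw [Finset.mem_range] at hj
          rw [if_neg (by omega), mul_zero]
    · rw [if_neg hp, eval_zero, mul_zero, Finset.sum_eq_zero]
      intro j _
      rw [if_neg, mul_zero]
      intro h
      rw [pow_succ'] at h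
      have h3 : m = 2 ^ j := by omega
      apply hp
      rw [h3, Nat.log_pow (by norm_num)]
  · subst hm
    rw [d1_coeff_ph_odd, eval_zero, mul_zero, Finset.sum_eq_zero]
    intro j _
    rw [if_neg, mul_zero]
    intro h
    rw [pow_succ'] at h
    omega

theorem d1_coeff_zero_Om : PowerSeries.coeff 0 (Om T 0) = 0 := by
  unfold Om
  rw [map_add, PowerSeries.coeff_C_mul, PowerSeries.coeff_X]
  have := d1_coeff_ph_even (al T (0 + 1) 0) 0
  rw [mul_zero] at this
  rw [this, zero_add, d1_coeff_al]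
  simp

theorem d1_coeff_one_Om : PowerSeries.coeff 1 (Om T 0) = 1 := by
  unfold Om
  rw [map_add, PowerSeries.coeff_C_mul, PowerSeries.coeff_X]
  have := d1_coeff_ph_odd (al T (0 + 1) 0) 0
  rw [mul_zero, zero_add] at this
  rw [this]
  simp

theorem d1_X_om : PowerSeries.X * om T 0 = Om T 0 := by
  ext1 n
  rcases n with _ | n
  · rw [d1_coeff_zero_Om]
    simp
  · rw [PowerSeries.coeff_succ_X_mul]
    unfold om
    rw [PowerSeries.coeff_mk]

theorem d1_om_inv : om T 0 * omInv T 0 = 1 := by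
  unfold omInv
  refine PowerSeries.mul_invOfUnit _ _ ?_
  rw [← PowerSeries.coeff_zero_eq_constantCoeff_apply]
  unfold om
  rw [PowerSeries.coeff_mk, zero_add, d1_coeff_one_Om]
  simp

theorem d1_map_omInv (d : ℕ) :
    PowerSeries.map (evalRingHom (th T (d + 1))) (omInv T 0) = d1F d := by
  set ev := PowerSeries.map (evalRingHom (th T (d + 1)))
  have h1 : ev (om T 0) * ev (omInv T 0) = 1 := by
    rw [← map_mul, d1_om_inv, map_one]
  have h2 : PowerSeries.X * ev (om T 0) = (d1W d : PowerSeries K2) := by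
    rw [← d1_map_Om, ← d1_X_om, map_mul, PowerSeries.map_X]
  have h3 := d1F_mul d
  have h4 : d1F d * ev (om T 0) = 1 := by
    have : PowerSeries.X * (d1F d * ev (om T 0)) = PowerSeries.X * 1 := by
      rw [mul_left_comm, h2, h3, mul_one]
    exact mul_left_cancel₀ PowerSeries.X_ne_zero this
  calc ev (omInv T 0) = d1F d * ev (om T 0) * ev (omInv T 0) := by rw [h4, one_mul]
    _ = d1F d := by rw [mul_assoc, h1, mul_one]

/-- (D1): `E_0(k-1)(θ_{d+1}) = ℓ_d^k S_{≤d}(k)` -/
theorem EE_eval_Sd (k d : ℕ) (hk : 1 ≤ k) :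
    (EE T (k - 1) 0).eval (th T (d + 1)) = ell d ^ k * ∑ i ∈ Finset.range (d + 1), Sd k i := by
  have e1 : EE T (k - 1) 0 = PowerSeries.coeff k (omInv T 0) := by
    unfold EE tt cc zer
    simp
    rw [Nat.sub_add_cancel hk]
  have e2 : (PowerSeries.coeff k (omInv T 0)).eval (th T (d + 1)) =
      PowerSeries.coeff k (d1F d) := by
    rw [← d1_map_omInv, PowerSeries.coeff_map, coe_evalRingHom]
  rw [e1, e2]
  unfold d1F Sd
  obtain ⟨k, rfl⟩ : ∃ j, k = j + 1 := ⟨k - 1, by omega⟩
  rw [map_add, PowerSeries.coeff_one, if_neg (Nat.succ_ne_zero k), zero_add, map_sum,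
    ← d1_sum_erase, Finset.mul_sum]
  refine Finset.sum_congr rfl fun a _ => ?_
  rw [PowerSeries.coeff_succ_X_mul]
  unfold d1I d1v
  rw [PowerSeries.coeff_mk, mul_inv, inv_inv, mul_pow, inv_pow]

/-- `G_0(k-1)(θ_{d+1}) = ℓ_d^k S_{<d}(k)` -/
theorem GG_eval_Sd (k d : ℕ) (hk : 1 ≤ k) :
    (GG T (k - 1) 0).eval (th T (d + 1)) = ell d ^ k * ∑ i ∈ Finset.range d, Sd k i := by
  have h := congrArg (eval (th T d)) (expand_GG_zero th_T_injective (k - 1))
  rw [expand_eval, d1_sq, eval_mul, eval_pow, eval_add, eval_X, eval_C,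
    Nat.sub_add_cancel hk] at h
  rw [h]
  rcases d with _ | d
  · rw [CharTwo.add_self_eq_zero, zero_pow (by omega)]
    simp
  · rw [EE_eval_Sd k d hk, ← mul_assoc, ← mul_pow]
    congr 2
    unfold ell
    rw [Finset.prod_range_succ]
    ring

/-- `H_0(k-1)(θ_{d+1}) = ℓ_d^k S_d(k)` -/
theorem HH_eval_Sd (k d : ℕ) (hk : 1 ≤ k) :
    (HH T (k - 1) 0).eval (th T (d + 1)) = ell d ^ k * Sd k d := by
  unfold HH
  rw [eval_add, EE_eval_Sd k d hk, GG_eval_Sd k d hk, ← mul_add, Finset.sum_range_succ]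
  congr 1
  have := CharTwo.add_self_eq_zero (∑ i ∈ Finset.range d, Sd k i)
  linear_combination this

end MZ
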