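import Pool.Agent.Work.MP_968e92_nt.D1

/-! # MP_968e92_nt, module D2: from zeta-like to a polynomial -/

open Polynomial Filter
open scoped Topology WithZero

namespace MZ

instance d2_complete : CompleteSpace Kinf :=
  inferInstanceAs (CompleteSpace (@UniformSpace.Completion (RatFunc (ZMod 2))
    (RatFunc.inftyValued (ZMod 2)).toUniformSpace))

theorem d2_v (x : K2) :
    Valued.v (algebraMap K2 Kinf x) = RatFunc.inftyValuation (ZMod 2) x :=
  Valued.valuedCompletion_apply (K := RatFunc (ZMod 2)) (hv := RatFunc.inftyValued (ZMod 2)) x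

theorem d2_val_ne {x : K2} (hx : x ≠ 0) :
    RatFunc.inftyValuation (ZMod 2) x = WithZero.exp x.intDegree := by
  rw [RatFunc.inftyValuation_apply, RatFunc.inftyValuation_of_nonzero _ hx]

theorem d2_tendsto {ι : Type*} {l : Filter ι} {f : ι → Kinf} :
    Tendsto f l (𝓝 0) ↔ ∀ N : ℤ, ∀ᶠ i in l, Valued.v (f i) < WithZero.exp N := by
  constructor
  · intro h N
    have h1 : {x : Kinf | Valued.v x < WithZero.exp N} ∈ 𝓝 (0 : Kinf) := by
      rw [Valued.mem_nhds_zero]
      have h2 : Valued.v (algebraMap K2 Kinf (RatFunc.X ^ N)) = (WithZero.exp N : WithZero (Multiplicative ℤ)) := by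
        rw [d2_v, RatFunc.inftyValuation.X_zpow]
      refine ⟨Units.mk0 (Valued.v.restrict (algebraMap K2 Kinf (RatFunc.X ^ N))) ?_, ?_⟩
      · rw [Ne, Valuation.restrict_eq_zero_iff, h2]
        exact WithZero.exp_ne_zero
      · intro x hx
        simp only [Units.val_mk0, Set.mem_ofPred_eq, Valuation.restrict_lt_iff, h2] at hx ⊢
        exact hx
    exact h h1
  · intro h s hs
    rw [Valued.mem_nhds_zero] at hs
    obtain ⟨γ, hγ⟩ := hs
    have h1 : (MonoidWithZeroHom.ValueGroup₀.embedding γ.1 : WithZero (Multiplicative ℤ)) ≠ 0 := by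
      simp
    have h2 := h (WithZero.log (MonoidWithZeroHom.ValueGroup₀.embedding γ.1 : WithZero (Multiplicative ℤ)))
    rw [WithZero.exp_log h1] at h2
    refine h2.mono (fun i hi => hγ ?_)
    simp only [Set.mem_ofPred_eq]
    rw [Valuation.restrict_lt_iff_lt_embedding]
    exact hi

instance d2_nonarch : NonarchimedeanAddGroup Kinf where
  is_nonarchimedean := by
    intro U hU
    rw [Valued.mem_nhds_zero] at hU
    obtain ⟨γ, hγ⟩ := hU
    exact ⟨⟨(Valued.v (R := Kinf)).restrict.ltAddSubgroup γ, Valued.isOpen_ball _ _⟩, hγ⟩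

/-- the monic polynomials of degree `< m` -/
noncomputable def mlt (m : ℕ) : Finset (ZMod 2)[X] := (Finset.range m).biUnion monics

theorem mem_mlt (m : ℕ) (a : (ZMod 2)[X]) : a ∈ mlt m ↔ a.Monic ∧ a.natDegree < m := by
  unfold mlt
  rw [Finset.mem_biUnion]
  constructor
  · rintro ⟨d, hd, h⟩
    rw [mem_monics] at h
    exact ⟨h.1, by rw [h.2]; exact Finset.mem_range.mp hd⟩
  · rintro ⟨h1, h2⟩
    exact ⟨a.natDegree, Finset.mem_range.mpr h2, (mem_monics _ _).mpr ⟨h1, rfl⟩⟩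

theorem sum_mlt {M : Type*} [AddCommMonoid M] (m : ℕ) (f : (ZMod 2)[X] → M) :
    ∑ a ∈ mlt m, f a = ∑ d ∈ Finset.range m, ∑ a ∈ monics d, f a := by
  unfold mlt
  apply Finset.sum_biUnion
  intro d _ d' _ hdd
  rw [Function.onFun, Finset.disjoint_left]
  intro a ha ha'
  rw [mem_monics] at ha ha'
  exact hdd (ha.2.symm.trans ha'.2)

theorem iA_v {a : (ZMod 2)[X]} (ha : a ≠ 0) : Valued.v (iA a) = WithZero.exp (a.natDegree : ℤ) := by
  unfold iA
  rw [d2_v, RatFunc.inftyValuation_apply, RatFunc.inftyValuation.polynomial _ ha]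

/-- the partial sums of the zeta value -/
theorem zeta_tendsto {s : ℕ} (hs : 1 ≤ s) :
    Tendsto (fun m : ℕ => algebraMap K2 Kinf (∑ d ∈ Finset.range m, Sd s d)) atTop
      (𝓝 (zeta s)) := by
  classical
  have hsum : Summable fun a : {a : (ZMod 2)[X] // a.Monic} => (iA a.1 ^ s)⁻¹ := by
    apply NonarchimedeanAddGroup.summable_of_tendsto_cofinite_zero
    rw [d2_tendsto]
    intro N
    rw [Filter.eventually_cofinite]
    refine Set.Finite.subset ((Finset.subtype (fun a : (ZMod 2)[X] => a.Monic)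
      (mlt ((-N).toNat + 1))).finite_toSet) ?_
    intro a ha
    simp only [Set.mem_ofPred_eq, not_lt] at ha
    rw [Finset.mem_coe, Finset.mem_subtype, mem_mlt]
    refine ⟨a.2, ?_⟩
    rw [map_inv₀, map_pow, iA_v a.2.ne_zero, ← WithZero.exp_nsmul, ← WithZero.exp_neg,
      WithZero.exp_le_exp] at ha
    simp only [nsmul_eq_mul] at ha
    have h1 : (a.1.natDegree : ℤ) ≤ s * a.1.natDegree := by
      have : (1 : ℤ) ≤ s := by exact_mod_cast hs
      nlinarith [Int.natCast_nonneg a.1.natDegree]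
    omega
  have h1 := hsum.hasSum
  have hmono : Tendsto (fun m : ℕ => Finset.subtype (fun a : (ZMod 2)[X] => a.Monic) (mlt m))
      atTop atTop := by
    apply tendsto_atTop_finset_of_monotone
    · intro m m' hm a ha
      rw [Finset.mem_subtype, mem_mlt] at ha ⊢
      exact ⟨ha.1, ha.2.trans_le hm⟩
    · intro a
      exact ⟨a.1.natDegree + 1, by
        rw [Finset.mem_subtype, mem_mlt]
        exact ⟨a.2, Nat.lt_succ_self _⟩⟩
  have h2 := Tendsto.comp h1 hmono
  refine h2.congr (fun m => ?_)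
  simp only [Function.comp]
  rw [Finset.sum_subtype_of_mem (fun a : (ZMod 2)[X] => (iA a ^ s)⁻¹)
    (fun a ha => ((mem_mlt _ _).mp ha).1), sum_mlt, map_sum]
  apply Finset.sum_congr rfl
  intro d _
  unfold Sd
  rw [map_sum]
  apply Finset.sum_congr rfl
  intro a _
  unfold iA
  rw [map_inv₀, map_pow]

/-- the partial sums of the multizeta value -/
theorem zeta2_tendsto {s₁ s₂ : ℕ} (h₁ : 1 ≤ s₁) :
    Tendsto (fun m : ℕ => algebraMap K2 Kinf
      (∑ d ∈ Finset.range m, Sd s₁ d * ∑ i ∈ Finset.range d, Sd s₂ i)) atTop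
      (𝓝 (zeta2 s₁ s₂)) := by
  classical
  set pr : (ZMod 2)[X] × (ZMod 2)[X] → Prop := fun p =>
    p.1.Monic ∧ p.2.Monic ∧ p.2.natDegree < p.1.natDegree with hpr
  set u : ℕ → Finset ((ZMod 2)[X] × (ZMod 2)[X]) := fun m =>
    (Finset.range m).biUnion fun d => monics d ×ˢ mlt d with hu
  have hmem : ∀ m p, p ∈ u m ↔ pr p ∧ p.1.natDegree < m := by
    intro m p
    rw [hu, hpr]
    simp only [Finset.mem_biUnion, Finset.mem_product, mem_monics, mem_mlt, Finset.mem_range]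
    constructor
    · rintro ⟨d, hd, ⟨h1, h2⟩, h3, h4⟩
      subst h2
      exact ⟨⟨h1, h3, h4⟩, hd⟩
    · rintro ⟨⟨h1, h3, h4⟩, hd⟩
      exact ⟨_, hd, ⟨h1, rfl⟩, h3, h4⟩
  have hsum : Summable fun p : {p : (ZMod 2)[X] × (ZMod 2)[X] // pr p} =>
      (iA p.1.1 ^ s₁ * iA p.1.2 ^ s₂)⁻¹ := by
    apply NonarchimedeanAddGroup.summable_of_tendsto_cofinite_zero
    rw [d2_tendsto]
    intro N
    rw [Filter.eventually_cofinite]
    refine Set.Finite.subset ((Finset.subtype pr (u ((-N).toNat + 1))).finite_toSet) ?_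
    intro p hp
    simp only [Set.mem_ofPred_eq, not_lt] at hp
    rw [Finset.mem_coe, Finset.mem_subtype, hmem]
    refine ⟨p.2, ?_⟩
    rw [map_inv₀, map_mul, map_pow, map_pow, iA_v p.2.1.ne_zero, iA_v p.2.2.1.ne_zero,
      ← WithZero.exp_nsmul, ← WithZero.exp_nsmul, ← WithZero.exp_add, ← WithZero.exp_neg,
      WithZero.exp_le_exp] at hp
    simp only [nsmul_eq_mul] at hp
    have h1 : (p.1.1.natDegree : ℤ) ≤ s₁ * p.1.1.natDegree := by
      have : (1 : ℤ) ≤ s₁ := by exact_mod_cast h₁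
      nlinarith [Int.natCast_nonneg p.1.1.natDegree]
    have h2 : (0 : ℤ) ≤ s₂ * p.1.2.natDegree := by positivity
    omega
  have h1 := hsum.hasSum
  have hmono : Tendsto (fun m : ℕ => Finset.subtype pr (u m)) atTop atTop := by
    apply tendsto_atTop_finset_of_monotone
    · intro m m' hm a ha
      rw [Finset.mem_subtype, hmem] at ha ⊢
      exact ⟨ha.1, ha.2.trans_le hm⟩
    · intro a
      exact ⟨a.1.1.natDegree + 1, by
        rw [Finset.mem_subtype, hmem]
        exact ⟨a.2, Nat.lt_succ_self _⟩⟩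
  have h2 := Tendsto.comp h1 hmono
  refine h2.congr (fun m => ?_)
  simp only [Function.comp]
  rw [Finset.sum_subtype_of_mem (fun p : (ZMod 2)[X] × (ZMod 2)[X] =>
    (iA p.1 ^ s₁ * iA p.2 ^ s₂)⁻¹) (fun a ha => ((hmem _ _).mp ha).1)]
  rw [hu]
  simp only
  rw [Finset.sum_biUnion, map_sum]
  · apply Finset.sum_congr rfl
    intro d _
    have h3 : (∑ i ∈ Finset.range d, Sd s₂ i) =
        ∑ b ∈ mlt d, ((algebraMap (ZMod 2)[X] K2 b) ^ s₂)⁻¹ := by
      rw [sum_mlt]
      rfl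
    rw [Finset.sum_product, h3, map_mul]
    unfold Sd
    rw [map_sum, map_sum, Finset.sum_mul_sum]
    apply Finset.sum_congr rfl
    intro a _
    apply Finset.sum_congr rfl
    intro b _
    unfold iA
    rw [map_inv₀, map_inv₀, map_pow, map_pow, mul_inv]
  · intro d _ d' _ hdd
    rw [Function.onFun, Finset.disjoint_left]
    intro a ha ha'
    rw [Finset.mem_product, mem_monics] at ha ha'
    exact hdd (ha.1.2.symm.trans ha'.1.2)

theorem v_Sd {s d : ℕ} (hs : 1 ≤ s) (hd : 1 ≤ d) :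
    RatFunc.inftyValuation (ZMod 2) (Sd s d) < 1 := by
  unfold Sd
  apply Valuation.map_sum_lt _ one_ne_zero
  intro a ha
  rw [mem_monics] at ha
  rw [map_inv₀, map_pow, RatFunc.inftyValuation_apply,
    RatFunc.inftyValuation.polynomial _ ha.1.ne_zero, ← WithZero.exp_nsmul, ← WithZero.exp_neg,
    ← WithZero.exp_zero, WithZero.exp_lt_exp, ha.2, nsmul_eq_mul]
  have : (0 : ℤ) < s * d := by positivity
  omega

theorem Sd_zero (s : ℕ) : Sd s 0 = 1 := by
  have h : monics 0 = {1} := by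
    ext a
    rw [mem_monics, Finset.mem_singleton]
    constructor
    · rintro ⟨h1, h2⟩
      exact h1.natDegree_eq_zero.mp h2
    · rintro rfl
      exact ⟨monic_one, natDegree_one⟩
  unfold Sd
  rw [h, Finset.sum_singleton]
  simp

theorem zeta_ne_zero {s : ℕ} (hs : 1 ≤ s) : zeta s ≠ 0 := by
  intro h
  have h1 := zeta_tendsto hs
  rw [h, d2_tendsto] at h1
  obtain ⟨m, hm1, hm2⟩ := ((h1 0).and (eventually_ge_atTop 1)).exists
  obtain ⟨k, rfl⟩ : ∃ k, m = k + 1 := ⟨m - 1, by omega⟩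
  rw [d2_v, Finset.sum_range_succ', Sd_zero, WithZero.exp_zero] at hm1
  have h2 : RatFunc.inftyValuation (ZMod 2) (∑ d ∈ Finset.range k, Sd s (d + 1)) < 1 :=
    Valuation.map_sum_lt _ one_ne_zero (fun d _ => v_Sd hs (by omega))
  have h3 : RatFunc.inftyValuation (ZMod 2) (1 : K2) = 1 := map_one _
  have h4 := Valuation.map_add_eq_of_lt_right (RatFunc.inftyValuation (ZMod 2))
    (x := ∑ d ∈ Finset.range k, Sd s (d + 1)) (y := 1) (by rw [h3]; exact h2)
  rw [h4, h3] at hm1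
  exact lt_irrefl _ hm1

theorem two_K2 : (2 : K2) = 0 := by
  have h : (algebraMap (ZMod 2) K2) 2 = 2 := map_ofNat _ 2
  rw [← h]
  have : (2 : ZMod 2) = 0 := rfl
  rw [this, map_zero]

instance d2_char : CharP K2 2 := by
  exact charP_of_injective_algebraMap (algebraMap (ZMod 2) K2).injective 2

/-- (D2a) analysis in `K_∞`: if `(s₁,s₂)` is zeta-like then for some `ρ ∈ K` the partial sums
`∑_{d<m} (S_d(s₁) S_{<d}(s₂) + ρ S_d(s₁+s₂))` (elements of `K`) tend to zero at infinity. -/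
theorem small_tail {s₁ s₂ : ℕ} (h₁ : 1 ≤ s₁) (h₂ : 1 ≤ s₂) (hz : ZetaLike s₁ s₂) :
    ∃ ρ : K2, ∀ N : ℤ, ∃ m₀ : ℕ, ∀ m ≥ m₀,
      (∑ d ∈ Finset.range m,
        (Sd s₁ d * (∑ i ∈ Finset.range d, Sd s₂ i) + ρ * Sd (s₁ + s₂) d)) = 0 ∨
      (∑ d ∈ Finset.range m,
        (Sd s₁ d * (∑ i ∈ Finset.range d, Sd s₂ i) + ρ * Sd (s₁ + s₂) d)).intDegree < N := by
  obtain ⟨ρ, hρ⟩ := hz
  refine ⟨ρ, fun N => ?_⟩
  have h3 : zeta2 s₁ s₂ = algebraMap K2 Kinf ρ * zeta (s₁ + s₂) := by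
    rw [← hρ, div_mul_cancel₀ _ (zeta_ne_zero (by omega))]
  have h4 := (zeta2_tendsto (s₂ := s₂) h₁).add
    ((zeta_tendsto (s := s₁ + s₂) (by omega)).const_mul (algebraMap K2 Kinf ρ))
  have h5 : zeta2 s₁ s₂ + algebraMap K2 Kinf ρ * zeta (s₁ + s₂) = 0 := by
    rw [h3, ← two_mul]
    have : (2 : Kinf) = algebraMap K2 Kinf 2 := (map_ofNat _ 2).symm
    rw [this, two_K2, map_zero, zero_mul]
  rw [h5, d2_tendsto] at h4
  obtain ⟨m₀, hm₀⟩ := eventually_atTop.mp (h4 N)
  refine ⟨m₀, fun m hm => ?_⟩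
  have h6 := hm₀ m hm
  rw [← map_mul, ← map_add, d2_v, Finset.mul_sum, ← Finset.sum_add_distrib] at h6
  by_cases h7 : (∑ d ∈ Finset.range m,
        (Sd s₁ d * (∑ i ∈ Finset.range d, Sd s₂ i) + ρ * Sd (s₁ + s₂) d)) = 0
  · exact Or.inl h7
  · right
    rw [d2_val_ne h7, WithZero.exp_lt_exp] at h6
    exact h6

/-! ## the polynomial part -/

/-- `θ_i` in `A = F_2[t]` -/
noncomputable def tA (i : ℕ) : (ZMod 2)[X] := X ^ 2 ^ i

theorem th_eq_tA (i : ℕ) : th T i = algebraMap (ZMod 2)[X] K2 (tA i) := by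
  unfold th tA T
  rw [map_pow, RatFunc.algebraMap_X]

theorem tA_pow (m j : ℕ) : tA m ^ 2 ^ j = tA (m + j) := by
  unfold tA
  rw [← pow_mul, ← pow_add]

theorem tA_natDegree (m : ℕ) : (tA m).natDegree = 2 ^ m := by
  unfold tA
  rw [natDegree_X_pow]

theorem tA_add_natDegree (m : ℕ) (hm : 1 ≤ m) : (tA 0 + tA m).natDegree = 2 ^ m := by
  rw [natDegree_add_eq_right_of_natDegree_lt, tA_natDegree]
  rw [tA_natDegree, tA_natDegree]
  exact Nat.pow_lt_pow_right (by norm_num) (by omega)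

theorem tA_add_ne (m : ℕ) (hm : 1 ≤ m) : tA 0 + tA m ≠ 0 := by
  intro h
  have h1 := tA_add_natDegree m hm
  rw [h, natDegree_zero] at h1
  exact absurd h1.symm (by positivity)

theorem tA_inj : Function.Injective tA := by
  intro m m' h
  have h1 := congrArg natDegree h
  rw [tA_natDegree, tA_natDegree] at h1
  exact Nat.pow_right_injective (le_refl 2) h1

/-- the denominators -/
noncomputable def DA (w i : ℕ) : (ZMod 2)[X][X] :=
  ∏ j ∈ Finset.range (i + 1), (X ^ 2 ^ j + C (tA 0)) ^ w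

theorem DA_monic (w i : ℕ) : (DA w i).Monic := by
  unfold DA
  apply monic_prod_of_monic
  intro j _
  exact (monic_X_pow_add_C _ (by positivity)).pow _

theorem sum_two_pow (i : ℕ) : (∑ j ∈ Finset.range (i + 1), 2 ^ j) + 1 = 2 ^ (i + 1) := by
  induction i with
  | zero => simp
  | succ i ih =>
    rw [Finset.sum_range_succ, pow_succ 2 (i + 1)]
    omega

theorem DA_natDegree (w i : ℕ) : (DA w i).natDegree + w = w * 2 ^ (i + 1) := by
  unfold DA
  rw [natDegree_prod_of_monic _ _ (fun j _ => (monic_X_pow_add_C _ (by positivity)).pow _)]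
  rw [Finset.sum_congr rfl (fun j _ => by
    rw [(monic_X_pow_add_C (tA 0) (by positivity : 2 ^ j ≠ 0)).natDegree_pow,
      natDegree_X_pow_add_C] : ∀ j ∈ Finset.range (i + 1),
        ((X ^ 2 ^ j + C (tA 0) : (ZMod 2)[X][X]) ^ w).natDegree = w * 2 ^ j)]
  rw [← Finset.mul_sum, ← sum_two_pow]
  ring

theorem DA_eval (w i m : ℕ) :
    (DA w i).eval (tA m) = ∏ j ∈ Finset.range (i + 1), (tA 0 + tA (m + j)) ^ w := by
  unfold DA
  rw [eval_prod]
  apply Finset.prod_congr rfl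
  intro j _
  rw [eval_pow, eval_add, eval_pow, eval_X, eval_C, tA_pow, add_comm]

theorem DA_eval_ne (w i m : ℕ) (hm : 1 ≤ m) : (DA w i).eval (tA m) ≠ 0 := by
  rw [DA_eval]
  exact Finset.prod_ne_zero_iff.mpr (fun j _ => pow_ne_zero _ (tA_add_ne _ (by omega)))

theorem DA_eval_natDegree (w i m : ℕ) (hm : 1 ≤ m) :
    ((DA w i).eval (tA m)).natDegree + w * 2 ^ m = w * 2 ^ (i + 1) * 2 ^ m := by
  rw [DA_eval, natDegree_prod _ _ (fun j _ => pow_ne_zero _ (tA_add_ne _ (by omega)))]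
  rw [Finset.sum_congr rfl (fun j _ => by
    rw [natDegree_pow, tA_add_natDegree _ (by omega)] : ∀ j ∈ Finset.range (i + 1),
        ((tA 0 + tA (m + j)) ^ w).natDegree = w * 2 ^ (m + j))]
  rw [← Finset.mul_sum, ← sum_two_pow]
  have h : ∑ j ∈ Finset.range (i + 1), 2 ^ (m + j) =
      2 ^ m * ∑ j ∈ Finset.range (i + 1), 2 ^ j := by
    rw [Finset.mul_sum]
    exact Finset.sum_congr rfl (fun j _ => pow_add _ _ _)
  rw [h]
  ring

theorem eval_deg (P : (ZMod 2)[X][X]) :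
    ∃ c : ℕ, ∀ m, (P.eval (tA m)).natDegree ≤ c + P.natDegree * 2 ^ m := by
  refine ⟨(Finset.range (P.natDegree + 1)).sup fun i => (P.coeff i).natDegree, fun m => ?_⟩
  rw [eval_eq_sum_range]
  apply natDegree_sum_le_of_forall_le
  intro i hi
  refine natDegree_mul_le.trans (add_le_add ?_ ?_)
  · exact Finset.le_sup (f := fun i => (P.coeff i).natDegree) hi
  · rw [natDegree_pow, tA_natDegree]
    exact Nat.mul_le_mul_right _ (Nat.lt_succ_iff.mp (Finset.mem_range.mp hi))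

theorem v_frac {p D : (ZMod 2)[X]} (h : p.natDegree < D.natDegree) :
    RatFunc.inftyValuation (ZMod 2) (algebraMap (ZMod 2)[X] K2 p / algebraMap (ZMod 2)[X] K2 D)
      < 1 := by
  by_cases hp : p = 0
  · rw [hp, map_zero, zero_div, map_zero]
    exact zero_lt_one
  have hD : D ≠ 0 := by
    rintro rfl
    simp at h
  rw [map_div₀, RatFunc.inftyValuation_apply, RatFunc.inftyValuation_apply,
    RatFunc.inftyValuation.polynomial _ hp, RatFunc.inftyValuation.polynomial _ hD,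
    ← WithZero.exp_sub, ← WithZero.exp_zero, WithZero.exp_lt_exp]
  omega

theorem eq_zero_of_v {p : (ZMod 2)[X]}
    (h : RatFunc.inftyValuation (ZMod 2) (algebraMap (ZMod 2)[X] K2 p) < 1) : p = 0 := by
  by_contra hp
  rw [RatFunc.inftyValuation_apply, RatFunc.inftyValuation.polynomial _ hp,
    ← WithZero.exp_zero, WithZero.exp_lt_exp] at h
  omega

/-- the sequence `v` -/
noncomputable def VA (w : ℕ) (Rt : (ZMod 2)[X][X]) : ℕ → (ZMod 2)[X]
  | 0 => Rt.eval (tA 1)
  | k + 1 => (tA 0 + tA (k + 1)) ^ w * VA w Rt k + Rt.eval (tA (k + 2))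

theorem ell_succ (k : ℕ) : ell (k + 1) = ell k * (th T 0 + th T (k + 1)) := by
  unfold ell
  rw [Finset.prod_range_succ]

theorem ell_ne (k : ℕ) : ell k ≠ 0 := by
  unfold ell
  apply Finset.prod_ne_zero_iff.mpr
  intro i _
  rw [th_eq_tA, th_eq_tA, ← map_add]
  intro h
  rw [map_eq_zero_iff _ (RatFunc.algebraMap_injective (ZMod 2))] at h
  exact tA_add_ne _ (by omega) h

theorem ell_add (k i : ℕ) :
    ell (k + 1 + i) = ell k * ∏ j ∈ Finset.range (i + 1), (th T 0 + th T (k + 1 + j)) := by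
  induction i with
  | zero => rw [Finset.prod_range_one]; exact ell_succ k
  | succ i ih =>
    rw [← add_assoc, ell_succ, ih, Finset.prod_range_succ _ (i + 1), mul_assoc]
    rfl

section
variable {w : ℕ} {R : K2[X]} {U : ℕ → K2} {Rt : (ZMod 2)[X][X]} {B : K2}

theorem Rt_eval (hRt : Rt.map (algebraMap (ZMod 2)[X] K2) = C B * R) (m : ℕ) :
    algebraMap (ZMod 2)[X] K2 (Rt.eval (tA m)) = B * R.eval (th T m) := by
  rw [← eval₂_at_apply, ← eval_map, hRt, eval_mul, eval_C, th_eq_tA]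

theorem VA_spec (hRt : Rt.map (algebraMap (ZMod 2)[X] K2) = C B * R) (h0 : U 0 = 0)
    (hU : ∀ m, ell m ^ w * (U (m + 1) + U m) = R.eval (th T (m + 1))) (k : ℕ) :
    algebraMap (ZMod 2)[X] K2 (VA w Rt k) = B * (ell k ^ w * U (k + 1)) := by
  induction k with
  | zero =>
    have h1 := hU 0
    rw [h0, add_zero] at h1
    rw [VA, Rt_eval hRt, h1]
  | succ k ih =>
    have h1 := hU (k + 1)
    rw [VA, map_add, Rt_eval hRt, map_mul, ih, map_pow, map_add, ← th_eq_tA, ← th_eq_tA, ← h1,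
      ell_succ, mul_pow]
    have h2 : B * (ell k ^ w * (th T 0 + th T (k + 1)) ^ w * U (k + 1)) +
        B * (ell k ^ w * (th T 0 + th T (k + 1)) ^ w * U (k + 1)) = 0 :=
      CharTwo.add_self_eq_zero _
    linear_combination h2

theorem VA_expand (hRt : Rt.map (algebraMap (ZMod 2)[X] K2) = C B * R) (h0 : U 0 = 0)
    (hU : ∀ m, ell m ^ w * (U (m + 1) + U m) = R.eval (th T (m + 1))) (k I : ℕ) :
    algebraMap (ZMod 2)[X] K2 (VA w Rt k) =
      (∑ i ∈ Finset.range I, algebraMap (ZMod 2)[X] K2 (Rt.eval (tA (k + 1 + (i + 1)))) /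
        algebraMap (ZMod 2)[X] K2 ((DA w i).eval (tA (k + 1)))) +
      B * (ell k ^ w * U (k + 1 + I)) := by
  induction I with
  | zero => rw [Finset.sum_range_zero, zero_add]; exact VA_spec hRt h0 hU k
  | succ I ih =>
    rw [ih, Finset.sum_range_succ]
    have h1 := hU (k + 1 + I)
    have h2 : algebraMap (ZMod 2)[X] K2 ((DA w I).eval (tA (k + 1))) =
        (∏ j ∈ Finset.range (I + 1), (th T 0 + th T (k + 1 + j))) ^ w := by
      rw [DA_eval, map_prod, ← Finset.prod_pow]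
      apply Finset.prod_congr rfl
      intro j _
      rw [map_pow, map_add, ← th_eq_tA, ← th_eq_tA]
    have h3 : algebraMap (ZMod 2)[X] K2 ((DA w I).eval (tA (k + 1))) ≠ 0 := by
      intro h
      rw [map_eq_zero_iff _ (RatFunc.algebraMap_injective (ZMod 2))] at h
      exact DA_eval_ne _ _ _ (by omega) h
    rw [ell_add, mul_pow, ← h2] at h1
    have h4 : (2 : K2) = 0 := CharTwo.two_eq_zero
    have h5 : algebraMap (ZMod 2)[X] K2 (Rt.eval (tA (k + 1 + (I + 1)))) /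
          algebraMap (ZMod 2)[X] K2 ((DA w I).eval (tA (k + 1))) =
        B * ell k ^ w * (U (k + 1 + I + 1) + U (k + 1 + I)) := by
      rw [div_eq_iff h3, Rt_eval hRt, show k + 1 + (I + 1) = k + 1 + I + 1 from rfl, ← h1]
      ring
    rw [h5, show k + 1 + (I + 1) = k + 1 + I + 1 from rfl]
    linear_combination (-(B * ell k ^ w * U (k + 1 + I + 1))) * h4

theorem VA_eq (hw : 1 ≤ w) (hR : Rt.natDegree < w)
    (hRt : Rt.map (algebraMap (ZMod 2)[X] K2) = C B * R) (h0 : U 0 = 0) (hB : B ≠ 0)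
    (hU : ∀ m, ell m ^ w * (U (m + 1) + U m) = R.eval (th T (m + 1)))
    (hs : ∀ N : ℤ, ∃ m₀ : ℕ, ∀ m ≥ m₀, U m = 0 ∨ (U m).intDegree < N) :
    ∃ F : (ZMod 2)[X][X], ∃ k₀, ∀ k ≥ k₀, VA w Rt k = F.eval (tA (k + 1)) := by
  classical
  set q : ℕ → (ZMod 2)[X][X] := fun i => (expand _ (2 ^ (i + 1)) Rt) /ₘ DA w i with hq
  set r : ℕ → (ZMod 2)[X][X] := fun i => (expand _ (2 ^ (i + 1)) Rt) %ₘ DA w i with hr
  choose c hc using fun i => eval_deg (r i)
  obtain ⟨c', hc'⟩ := eval_deg Rt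
  refine ⟨∑ i ∈ Finset.range w, q i, (∑ i ∈ Finset.range w, c i) + c', fun k hk => ?_⟩
  set m := k + 1 with hm
  have hm1 : 1 ≤ m := by omega
  have hm2 : (∑ i ∈ Finset.range w, c i) + c' < 2 ^ m := by
    have := Nat.lt_two_pow_self (n := m)
    omega
  -- the remainders
  have hrem : ∀ i ∈ Finset.range w, RatFunc.inftyValuation (ZMod 2)
      (algebraMap (ZMod 2)[X] K2 ((r i).eval (tA m)) /
        algebraMap (ZMod 2)[X] K2 ((DA w i).eval (tA m))) < 1 := by
    intro i hi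
    apply v_frac
    have h1 := hc i m
    have h2 := DA_eval_natDegree w i m hm1
    have h3 := DA_natDegree w i
    have h4 : c i ≤ ∑ i ∈ Finset.range w, c i :=
      Finset.single_le_sum (f := c) (fun _ _ => Nat.zero_le _) hi
    have h6 : 2 ≤ 2 ^ (i + 1) := by
      calc 2 = 2 ^ 1 := rfl
        _ ≤ _ := Nat.pow_le_pow_right (by norm_num) (by omega)
    have h7 : (DA w i).natDegree ≠ 0 := by
      intro h
      rw [h] at h3
      nlinarith
    have h5 : (r i).natDegree < (DA w i).natDegree := by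
      apply natDegree_modByMonic_lt _ (DA_monic w i)
      intro h
      rw [h, natDegree_one] at h7
      exact h7 rfl
    have h8 : ((r i).natDegree + 1) * 2 ^ m ≤ (DA w i).natDegree * 2 ^ m :=
      Nat.mul_le_mul_right _ h5
    have h9 : (DA w i).natDegree * 2 ^ m + w * 2 ^ m = w * 2 ^ (i + 1) * 2 ^ m := by
      rw [← h3]; ring
    rw [add_mul, one_mul] at h8
    omega
  -- the tail
  have htail : ∀ i, w ≤ i → RatFunc.inftyValuation (ZMod 2)
      (algebraMap (ZMod 2)[X] K2 (Rt.eval (tA (m + (i + 1)))) /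
        algebraMap (ZMod 2)[X] K2 ((DA w i).eval (tA m))) < 1 := by
    intro i hi
    apply v_frac
    have h1 := hc' (m + (i + 1))
    have h2 := DA_eval_natDegree w i m hm1
    have h3 : Rt.natDegree * 2 ^ (m + (i + 1)) + 2 ^ (m + (i + 1)) ≤ w * 2 ^ (m + (i + 1)) := by
      calc _ = (Rt.natDegree + 1) * 2 ^ (m + (i + 1)) := by ring
        _ ≤ _ := Nat.mul_le_mul_right _ hR
    have h4 : w * 2 ^ (m + (i + 1)) = w * 2 ^ (i + 1) * 2 ^ m := by
      rw [pow_add]; ring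
    have h5 : (w + 1) * 2 ^ m ≤ 2 ^ (m + (i + 1)) := by
      have h6 : w + 1 ≤ 2 ^ (i + 1) := by
        calc w + 1 ≤ 2 ^ w := Nat.lt_two_pow_self
          _ ≤ 2 ^ (i + 1) := Nat.pow_le_pow_right (by norm_num) (by omega)
      calc (w + 1) * 2 ^ m ≤ 2 ^ (i + 1) * 2 ^ m := Nat.mul_le_mul_right _ h6
        _ = 2 ^ (m + (i + 1)) := by rw [← pow_add, add_comm (i + 1) m]
    rw [add_mul, one_mul] at h5
    omega
  -- the error term
  obtain ⟨I, hI1, hI2⟩ : ∃ I, w ≤ I ∧ RatFunc.inftyValuation (ZMod 2)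
      (B * (ell k ^ w * U (k + 1 + I))) < 1 := by
    have hne : B * ell k ^ w ≠ 0 := mul_ne_zero hB (pow_ne_zero _ (ell_ne k))
    obtain ⟨m₀, hm₀⟩ := hs (-(B * ell k ^ w).intDegree)
    refine ⟨w + m₀, by omega, ?_⟩
    rw [← mul_assoc, map_mul]
    rcases hm₀ (k + 1 + (w + m₀)) (by omega) with h | h
    · rw [h, map_zero, mul_zero]
      exact zero_lt_one
    · by_cases hU0 : U (k + 1 + (w + m₀)) = 0
      · rw [hU0, map_zero, mul_zero]
        exact zero_lt_one
      · rw [d2_val_ne hne, d2_val_ne hU0, ← WithZero.exp_add, ← WithZero.exp_zero,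
          WithZero.exp_lt_exp]
        omega
  have hexp := VA_expand hRt h0 hU k I
  have hsplit : ∀ i, algebraMap (ZMod 2)[X] K2 (Rt.eval (tA (m + (i + 1)))) /
        algebraMap (ZMod 2)[X] K2 ((DA w i).eval (tA m)) =
      algebraMap (ZMod 2)[X] K2 ((q i).eval (tA m)) +
        algebraMap (ZMod 2)[X] K2 ((r i).eval (tA m)) /
        algebraMap (ZMod 2)[X] K2 ((DA w i).eval (tA m)) := by
    intro i
    have hne : algebraMap (ZMod 2)[X] K2 ((DA w i).eval (tA m)) ≠ 0 := by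
      intro h
      rw [map_eq_zero_iff _ (RatFunc.algebraMap_injective (ZMod 2))] at h
      exact DA_eval_ne _ _ _ hm1 h
    have h1 : r i + DA w i * q i = expand _ (2 ^ (i + 1)) Rt := modByMonic_add_div _ _
    have h2 := congrArg (eval (tA m)) h1
    rw [eval_add, eval_mul, expand_eval, tA_pow] at h2
    rw [div_eq_iff hne, add_mul, div_mul_cancel₀ _ hne, ← h2, map_add, map_mul]
    ring
  apply eq_of_sub_eq_zero
  apply eq_zero_of_v
  rw [map_sub, hexp, eval_finsetSum, map_sum]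
  rw [← Finset.sum_range_add_sum_Ico _ hI1]
  rw [Finset.sum_congr rfl (fun i _ => hsplit i : ∀ i ∈ Finset.range w, _)]
  rw [Finset.sum_add_distrib]
  have heq : ∀ a b c d : K2, a + b + c + d - a = b + c + d := by
    intro a b c d
    ring
  rw [heq]
  refine Valuation.map_add_lt _ (Valuation.map_add_lt _ ?_ ?_) hI2
  · exact Valuation.map_sum_lt _ one_ne_zero hrem
  · apply Valuation.map_sum_lt _ one_ne_zero
    intro i hi
    exact htail i (Finset.mem_Ico.mp hi).1

end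

/-- (D2b) pure algebra over `F_2(t)` -/
theorem poly_of_small (w : ℕ) (R : K2[X]) (hR : R.natDegree < w) (U : ℕ → K2) (h0 : U 0 = 0)
    (hU : ∀ m, ell m ^ w * (U (m + 1) + U m) = R.eval (th T (m + 1)))
    (hs : ∀ N : ℤ, ∃ m₀ : ℕ, ∀ m ≥ m₀, U m = 0 ∨ (U m).intDegree < N) :
    ∃ F : K2[X], expand K2 2 F = (X + C (th T 0)) ^ w * F + expand K2 2 R := by
  obtain ⟨b, hbm, hb⟩ := IsLocalization.integerNormalization_spec
    (nonZeroDivisors (ZMod 2)[X]) R
  set Rt := IsLocalization.integerNormalization (nonZeroDivisors (ZMod 2)[X]) R with hRtdef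
  set B : K2 := algebraMap (ZMod 2)[X] K2 b with hBdef
  have hB : B ≠ 0 := by
    rw [hBdef, Ne, map_eq_zero_iff _ (RatFunc.algebraMap_injective (ZMod 2))]
    exact nonZeroDivisors.ne_zero hbm
  have hRt : Rt.map (algebraMap (ZMod 2)[X] K2) = C B * R := by
    rw [hb]
    ext n
    rw [coeff_smul, coeff_C_mul, Algebra.smul_def]
  have hdeg : Rt.natDegree < w := by
    rw [← natDegree_map_eq_of_injective (RatFunc.algebraMap_injective (ZMod 2)) Rt, hRt,
      natDegree_C_mul hB]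
    exact hR
  obtain ⟨F, k₀, hF⟩ := VA_eq (by omega) hdeg hRt h0 hB hU hs
  have key : expand (ZMod 2)[X] 2 F = (X + C (tA 0)) ^ w * F + expand (ZMod 2)[X] 2 Rt := by
    apply eq_of_infinite_eval_eq
    refine Set.Infinite.mono ?_ (Set.infinite_range_of_injective
      (f := fun m : ℕ => tA (m + k₀ + 1)) ?_)
    · rintro _ ⟨m, rfl⟩
      have h1 := hF (m + k₀) (by omega)
      have h2 := hF (m + k₀ + 1) (by omega)
      rw [VA] at h2
      have h3 : tA (m + k₀ + 1) ^ 2 = tA (m + k₀ + 1 + 1) := tA_pow (m + k₀ + 1) 1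
      show eval (tA (m + k₀ + 1)) (expand (ZMod 2)[X] 2 F) =
        eval (tA (m + k₀ + 1)) ((X + C (tA 0)) ^ w * F + expand (ZMod 2)[X] 2 Rt)
      rw [eval_add, eval_mul, expand_eval, expand_eval, eval_pow, eval_add, eval_X, eval_C, h3,
        ← h2, h1, add_comm (tA 0)]
    · intro m m' h
      have := tA_inj h
      omega
  refine ⟨C B⁻¹ * F.map (algebraMap (ZMod 2)[X] K2), ?_⟩
  have h1 := congrArg (Polynomial.map (algebraMap (ZMod 2)[X] K2)) key
  rw [map_expand, Polynomial.map_add, Polynomial.map_mul, Polynomial.map_pow, Polynomial.map_add,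
    map_X, map_C, map_expand, hRt, ← th_eq_tA] at h1
  rw [map_mul, expand_C, h1, map_mul, expand_C]
  have h2 : (C B⁻¹ * C B : K2[X]) = 1 := by
    rw [← C_mul, inv_mul_cancel₀ hB, C_1]
  linear_combination (expand K2 2 R) * h2


/-- (D2) -/
theorem exists_poly {s₁ s₂ : ℕ} (h₁ : 1 ≤ s₁) (h₂ : 1 ≤ s₂) (hz : ZetaLike s₁ s₂) :
    ∃ F : K2[X], expand K2 2 F =
      (X + C (th T 0)) ^ (s₁ + s₂) * F + expand K2 2 (EE T (s₁ - 1) 0 * HH T (s₂ - 1) 0) := by
  obtain ⟨ρ, hρ⟩ := small_tail h₁ h₂ hz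
  set U : ℕ → K2 := fun m => ∑ d ∈ Finset.range m,
        (Sd s₁ d * (∑ i ∈ Finset.range d, Sd s₂ i) + ρ * Sd (s₁ + s₂) d) with hUdef
  have hexp : ∀ s, 1 ≤ s → expand K2 2 (GG T (s - 1) 0) =
      (X + C (th T 0)) ^ s * EE T (s - 1) 0 := by
    intro s hs
    have h := expand_GG_zero th_T_injective (s - 1)
    rwa [Nat.sub_add_cancel hs] at h
  have hH : ∀ n, HH T n 0 = EE T n 0 + GG T n 0 := fun n => rfl
  have hdeg : (HH T (s₁ - 1) 0 * GG T (s₂ - 1) 0 + C ρ * HH T (s₁ + s₂ - 1) 0).natDegree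
      < s₁ + s₂ := by
    have e1 := HH_zero_natDegree th_T_injective (s₁ - 1)
    have e2 := GG_zero_natDegree th_T_injective (s₂ - 1)
    have e3 := HH_zero_natDegree th_T_injective (s₁ + s₂ - 1)
    have e4 : (HH T (s₁ - 1) 0 * GG T (s₂ - 1) 0).natDegree ≤ s₁ + s₂ - 1 :=
      natDegree_mul_le.trans (by omega)
    have e5 : (C ρ * HH T (s₁ + s₂ - 1) 0).natDegree ≤ s₁ + s₂ - 1 :=
      (natDegree_C_mul_le _ _).trans e3
    have e6 := natDegree_add_le_of_degree_le e4 e5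
    omega
  obtain ⟨F, hF⟩ := poly_of_small (s₁ + s₂) _ hdeg U (by simp [hUdef]) (by
    intro m
    have hstep : U (m + 1) + U m = Sd s₁ m * (∑ i ∈ Finset.range m, Sd s₂ i) +
        ρ * Sd (s₁ + s₂) m := by
      have h1 : U (m + 1) = U m + (Sd s₁ m * (∑ i ∈ Finset.range m, Sd s₂ i) +
        ρ * Sd (s₁ + s₂) m) := Finset.sum_range_succ _ _
      rw [h1]
      linear_combination (U m) * two_K2
    rw [hstep, eval_add, eval_mul, eval_mul, eval_C, HH_eval_Sd _ _ h₁, GG_eval_Sd _ _ h₂,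
      HH_eval_Sd _ _ (by omega), pow_add]
    ring) hρ
  refine ⟨F + EE T (s₁ - 1) 0 * EE T (s₂ - 1) 0 + C ρ * EE T (s₁ + s₂ - 1) 0, ?_⟩
  have h2 : (2 : K2[X]) = 0 := by
    rw [show (2 : K2[X]) = C 2 from rfl, two_K2, C_0]
  simp only [hH, map_add, map_mul, expand_C, hexp s₁ h₁, hexp s₂ h₂,
    hexp (s₁ + s₂) (by omega)] at hF ⊢
  rw [hF]
  set A := (X + C (th T 0) : K2[X])
  rw [pow_add]
  set a := expand K2 2 (EE T (s₁ - 1) 0)
  set b := expand K2 2 (EE T (s₂ - 1) 0)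
  set c := expand K2 2 (EE T (s₁ + s₂ - 1) 0)
  linear_combination (C ρ * c) * h2

end MZ
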