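import Pool.Agent.Work.MP_968e92_nt.DatF

/-! # MP_968e92_nt, module LemS: (E5) from the periodicity of `E_0` -/

open Polynomial

set_option linter.unusedSectionVars false

namespace MZ

theorem ls_zer (n M l : ℕ) (hl : l ≤ M) : zer (n + 2 ^ M) l = zer n l := by
  ext j
  rw [b_mem_zer, b_mem_zer]
  have : j < l → (n + 2 ^ M).testBit j = n.testBit j := by
    intro hj
    rw [bd_testBit, bd_testBit]
    have hp : (2 : ℕ) ^ M = 2 ^ j * (2 * 2 ^ (M - j - 1)) := by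
      rw [← pow_succ', ← pow_add]; congr 1; omega
    rw [hp, Nat.add_mul_div_left _ _ (by positivity), Nat.add_mul_mod_self_left]
  constructor
  · rintro ⟨h1, h2⟩
    rw [this h1] at h2
    exact ⟨h1, h2⟩
  · rintro ⟨h1, h2⟩
    rw [← this h1] at h2
    exact ⟨h1, h2⟩

section
variable {K : Type*} [Field K] [CharP K 2] {θ : K} (hθ : Function.Injective (th θ))

theorem ls_PP (θ : K) (n M l : ℕ) (hl : l + 1 ≤ M) : PP θ (n + 2 ^ M) l = PP θ n l := by
  unfold PP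
  rw [ls_zer n M (l + 1) hl]

theorem ls_expand_dvd {D : K[X]} {m k : ℕ}
    (h : (X + C (th θ m)) ^ (2 * k + 1) ∣ expand K 2 D) :
    (X + C (th θ (m + 1))) ^ (k + 1) ∣ D := by
  have hX0 : (X + C (th θ m) : K[X]) ≠ 0 := X_add_C_ne_zero _
  induction k generalizing D with
  | zero =>
    obtain ⟨W, hW⟩ := h
    have h0 : D.eval (th θ (m + 1)) = 0 := by
      have := congrArg (eval (th θ m)) hW
      rw [expand_eval, bd_th_sq, eval_mul, eval_pow, eval_add, eval_X, eval_C, bd_add_self,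
        zero_pow (by omega), zero_mul] at this
      exact this
    obtain ⟨Q, hQ⟩ := loc_dvd_of_eval h0
    exact ⟨Q, by rw [hQ]; ring⟩
  | succ k ih =>
    obtain ⟨W, hW⟩ := h
    have h0 : D.eval (th θ (m + 1)) = 0 := by
      have := congrArg (eval (th θ m)) hW
      rw [expand_eval, bd_th_sq, eval_mul, eval_pow, eval_add, eval_X, eval_C, bd_add_self,
        zero_pow (by omega), zero_mul] at this
      exact this
    obtain ⟨Q, hQ⟩ := loc_dvd_of_eval h0
    have h1 : (X + C (th θ m)) ^ (2 * k + 1) ∣ expand K 2 Q := by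
      refine ⟨W, ?_⟩
      rw [hQ, map_mul, bd_expand_th] at hW
      apply mul_left_cancel₀ (pow_ne_zero 2 hX0)
      rw [hW]; ring
    obtain ⟨V, hV⟩ := ih h1
    exact ⟨V, by rw [hQ, hV]; ring⟩

include hθ

theorem ls_descend (n M : ℕ) (hM : pc n + 3 ≤ M) (hpc : pc (n + 2 ^ M) = pc n + 1)
    (h0 : (X + C (th θ 1)) ^ (n / 2 + 1) ∣ EE θ (n + 2 ^ M) 0 + EE θ n 0) (l : ℕ)
    (hl : l ≤ pc n + 1) :
    (X + C (th θ (l + 1))) ^ (n / 2 ^ (l + 1) + 1) ∣ EE θ (n + 2 ^ M) l + EE θ n l := by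
  induction l with
  | zero => simpa using h0
  | succ l ih =>
    have h1 := ih (by omega)
    rw [EE_step hθ n l (by omega), EE_step hθ (n + 2 ^ M) l (by omega),
      ls_PP θ n M l (by omega), ← mul_add, ← map_add] at h1
    have h2 := (loc_coprime_pow (PP_eval_ne hθ n l (l + 1) (by omega))
      (n / 2 ^ (l + 1) + 1)).dvd_of_dvd_mul_left h1
    have h3 : (X + C (th θ (l + 1)) : K[X]) ^ (2 * (n / 2 ^ (l + 2)) + 1) ∣
        expand K 2 (EE θ (n + 2 ^ M) (l + 1) + EE θ n (l + 1)) := by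
      refine dvd_trans (pow_dvd_pow _ ?_) h2
      have : n / 2 ^ (l + 2) = n / 2 ^ (l + 1) / 2 := loc_div_succ n (l + 1)
      omega
    exact ls_expand_dvd h3

/-- (E5), from the periodicity -/
theorem ls_second (n : ℕ) (hn : 1 ≤ n / 2 ^ (pc n + 3))
    (hper : ∀ M, (n + 1) / 2 + 1 ≤ 2 ^ M →
      (X + C (th θ 1)) ^ ((n + 1) / 2 + 1) ∣ EE θ (n + 2 ^ M) 0 + EE θ n 0) :
    ∃ Q : K[X],
      (X + C (th θ (pc n + 2))) ^ 3 ∣
        EE θ n (pc n + 1) + PP θ n (pc n + 1) * expand K 2 Q ∧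
      (Wr Q (PP θ n (pc n + 2))).eval (th θ (pc n + 3)) = 0 := by
  obtain ⟨M, hMdef⟩ : ∃ M, M = n + pc n + 3 := ⟨_, rfl⟩
  have hnM : n < 2 ^ M := lt_of_lt_of_le Nat.lt_two_pow_self (Nat.pow_le_pow_right (by norm_num)
    (by omega))
  have hbit : n.testBit M = false := Nat.testBit_lt_two_pow hnM
  have hpc : pc (n + 2 ^ M) = pc n + 1 := b_pc_add_two_pow n M hbit
  have hM2 : (n + 1) / 2 + 1 ≤ 2 ^ M := by
    generalize 2 ^ M = q at *
    omega
  have h0 : (X + C (th θ 1)) ^ (n / 2 + 1) ∣ EE θ (n + 2 ^ M) 0 + EE θ n 0 :=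
    dvd_trans (pow_dvd_pow _ (by omega)) (hper M hM2)
  have h1 := ls_descend hθ n M (by omega) hpc h0 (pc n + 1) le_rfl
  refine ⟨EE θ (n + 2 ^ M) (pc n + 2), ?_, ?_⟩
  · have h2 : PP θ n (pc n + 1) * expand K 2 (EE θ (n + 2 ^ M) (pc n + 2)) =
        EE θ (n + 2 ^ M) (pc n + 1) := by
      rw [EE_step hθ (n + 2 ^ M) (pc n + 1) (by omega), ls_PP θ n M (pc n + 1) (by omega)]
    rw [h2, add_comm (EE θ n (pc n + 1))]
    have h3 : pc n + 1 + 1 = pc n + 2 := rfl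
    rw [h3] at h1
    have h4 : n / 2 ^ (pc n + 3) = n / 2 ^ (pc n + 2) / 2 := loc_div_succ n (pc n + 2)
    have h5 : 3 ≤ n / 2 ^ (pc n + 2) + 1 := by
      rw [h4] at hn
      generalize n / 2 ^ (pc n + 2) = y at *
      omega
    exact (pow_dvd_pow (X + C (th θ (pc n + 2)) : K[X]) h5).trans h1
  · have h2 := EE_wr hθ (n + 2 ^ M)
    rw [hpc, show pc n + 1 + 1 = pc n + 2 from rfl, ls_PP θ n M (pc n + 2) (by omega)] at h2
    rw [h2, eval_mul, df_VV_zero θ (n + 2 ^ M) (pc n + 2), mul_zero]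
    refine le_trans hn (Nat.div_le_div_right (by omega))

end

end MZ
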