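import Pool.Agent.Work.MP_968e92_nt.BD
import Pool.Agent.Work.MP_968e92_nt.LemS

/-! # MP_968e92_nt, module LemP: second order information (E5) -/

open Polynomial

namespace MZ

section
variable {K : Type*} [Field K] [CharP K 2] {θ : K}

/-- divisibility filtration -/
def lpF (u : K[X]) (c : ℕ) (F : PowerSeries K[X]) : Prop :=
  ∀ m, u ^ ((m + 1 - c) / 2) ∣ PowerSeries.coeff m F

omit [CharP K 2] in
theorem lp_F_mul {u : K[X]} {c d : ℕ} {F G : PowerSeries K[X]} (hF : lpF u c F)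
    (hG : lpF u d G) : lpF u (c + d) (F * G) := by
  intro m
  rw [PowerSeries.coeff_mul]
  apply Finset.dvd_sum
  rintro ⟨i, j⟩ h
  rw [Finset.HasAntidiagonal.mem_antidiagonal] at h
  simp only at h ⊢
  refine dvd_trans (pow_dvd_pow u ?_) (by rw [pow_add]; exact mul_dvd_mul (hF i) (hG j))
  omega

omit [CharP K 2] in
theorem lp_F_pow {u : K[X]} {c : ℕ} {F : PowerSeries K[X]} (hF : lpF u c F) (k : ℕ) :
    lpF u (c * k) (F ^ k) := by
  induction k with
  | zero =>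
    intro m
    rw [pow_zero, PowerSeries.coeff_one]
    split_ifs with h
    · subst h; simp
    · simp
  | succ k ih =>
    rw [pow_succ, show c * (k + 1) = c * k + c by ring]
    exact lp_F_mul ih hF

/-- all coefficients divisible by `u^k` -/
def lpD (u : K[X]) (k : ℕ) (F : PowerSeries K[X]) : Prop :=
  ∀ m, u ^ k ∣ PowerSeries.coeff m F

omit [CharP K 2] in
theorem lp_D_mul {u : K[X]} {c d : ℕ} {F G : PowerSeries K[X]} (hF : lpD u c F)
    (hG : lpD u d G) : lpD u (c + d) (F * G) := by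
  intro m
  rw [PowerSeries.coeff_mul]
  apply Finset.dvd_sum
  rintro ⟨i, j⟩ h
  rw [pow_add]; exact mul_dvd_mul (hF i) (hG j)

omit [CharP K 2] in
theorem lp_D_pow {u : K[X]} {F : PowerSeries K[X]} (hF : lpD u 1 F) (k : ℕ) :
    lpD u k (F ^ k) := by
  induction k with
  | zero => intro m; simp
  | succ k ih => rw [pow_succ]; exact lp_D_mul ih hF

omit [CharP K 2] in
theorem lp_D_zero {u : K[X]} (F : PowerSeries K[X]) : lpD u 0 F := by intro m; simp

/-- the coefficients of `Om_0` -/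
theorem lp_coeff (i : ℕ) : (X + C (th θ 1)) ^ (2 ^ (i + 1)) ∣
    PowerSeries.coeff (2 ^ (i + 2)) (Om θ 0) := by
  rw [show i + 2 = (i + 1) + 1 by ring, b_coeff_Om_succ]
  apply Dvd.dvd.mul_left
  apply Dvd.dvd.mul_left
  unfold gg
  rw [map_prod]
  refine dvd_trans ?_ (Finset.dvd_prod_of_mem _ (Finset.mem_range.2 (show i < i + 1 by omega)))
  simp only [map_mul, map_add, map_pow, expand_C, expand_X]
  apply Dvd.dvd.mul_left
  have hX : CharP K[X] 2 := inferInstance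
  rw [add_pow_char_pow, ← C_pow, b_th_pow, ← pow_mul, ← pow_succ', add_comm]

theorem lp_F_Om : lpF (X + C (th θ 1)) 2 (Om θ 0) := by
  intro m
  by_cases hm : ∃ i, m = 2 ^ i
  · obtain ⟨i, rfl⟩ := hm
    rcases i with _ | _ | i
    · simp
    · simp
    · refine dvd_trans (pow_dvd_pow _ ?_) (lp_coeff i)
      have : 2 ^ (i + 2) = 2 * 2 ^ (i + 1) := by ring
      omega
  · push Not at hm
    rw [b_Adv_Om θ 0 m hm]
    exact dvd_zero _

theorem lp_D_Om (hθ : Function.Injective (th θ)) :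
    lpD (X + C (th θ 1)) 1 (Om θ 0 + (PowerSeries.X + PowerSeries.X ^ 2)) := by
  have hX : CharP K[X] 2 := inferInstance
  intro m
  rw [pow_one, (PowerSeries.coeff m).map_add, (PowerSeries.coeff m).map_add,
    PowerSeries.coeff_X, PowerSeries.coeff_X_pow]
  by_cases hm : ∃ i, m = 2 ^ i
  · obtain ⟨i, rfl⟩ := hm
    rcases i with _ | _ | i
    · rw [pow_zero, b_coeff_one_Om]
      simp only [if_true, show ¬ ((1 : ℕ) = 2) by omega, if_false, add_zero]
      rw [CharTwo.add_self_eq_zero]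
      exact dvd_zero _
    · rw [b_coeff_Om_succ, b_gg_zero]
      have hne : th θ 1 + th θ 0 ≠ 0 := by
        intro h
        have := hθ (CharTwo.add_eq_zero.1 h)
        omega
      simp only [zero_add, pow_one, if_true, add_zero, map_one, mul_one,
        show ¬ ((2 : ℕ) = 1) by omega, if_false]
      refine ⟨C ((th θ 1 + th θ 0)⁻¹), ?_⟩
      have h1 : (C (th θ 1) + C (th θ 0)) * C ((th θ 1 + th θ 0)⁻¹) = (1 : K[X]) := by
        rw [← C_add, ← C_mul, mul_inv_cancel₀ hne, C_1]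
      have h2 : (2 : K[X]) = 0 := CharTwo.two_eq_zero
      linear_combination (-1 : K[X]) * h1 + (C (th θ 0) * C ((th θ 1 + th θ 0)⁻¹)) * h2
    · have h1 : ¬ (2 ^ (i + 1 + 1) = 1) := by
        have : 1 < 2 ^ (i + 1 + 1) := Nat.one_lt_two_pow (by omega)
        omega
      have h2 : ¬ (2 ^ (i + 1 + 1) = 2) := by
        have : 1 < 2 ^ (i + 1) := Nat.one_lt_two_pow (by omega)
        have : 2 ^ (i + 1 + 1) = 2 * 2 ^ (i + 1) := by ring
        omega
      rw [if_neg h1, if_neg h2, add_zero, add_zero]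
      refine dvd_trans ?_ (lp_coeff i)
      exact dvd_pow_self _ (by positivity)
  · push Not at hm
    rw [b_Adv_Om θ 0 m hm, if_neg, if_neg]
    · simp
    · intro h; exact hm 1 (by simpa using h)
    · intro h; exact hm 0 (by simpa using h)

theorem lp_periodic (hθ : Function.Injective (th θ)) (n M : ℕ)
    (hM : (n + 1) / 2 + 1 ≤ 2 ^ M) :
    (X + C (th θ 1)) ^ ((n + 1) / 2 + 1) ∣ EE θ (n + 2 ^ M) 0 + EE θ n 0 := by
  have hc := b_charPS (K := K)
  set Om' := Om θ 0 + (PowerSeries.X + PowerSeries.X ^ 2) with hOm'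
  have e1 : (PowerSeries.X : PowerSeries K[X]) + PowerSeries.X ^ 2 = Om θ 0 + Om' := by
    rw [hOm', ← add_assoc, CharTwo.add_self_eq_zero, zero_add]
  have e2 : (PowerSeries.X : PowerSeries K[X]) ^ (2 ^ M) + PowerSeries.X ^ (2 ^ (M + 1)) =
      Om θ 0 ^ (2 ^ M) + Om' ^ (2 ^ M) := by
    have : (PowerSeries.X + PowerSeries.X ^ 2 : PowerSeries K[X]) ^ (2 ^ M) =
        (Om θ 0 + Om') ^ (2 ^ M) := by rw [e1]
    rw [add_pow_char_pow, add_pow_char_pow, ← pow_mul, ← pow_succ'] at this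
    exact this
  have hOW : Om θ 0 * omInv θ 0 = PowerSeries.X := by
    rw [← b_X_mul_om, mul_assoc, b_om_mul_inv, mul_one]
  have hpos : 1 ≤ 2 ^ M := Nat.one_le_two_pow
  have e3 : (PowerSeries.X : PowerSeries K[X]) ^ (2 ^ M) * omInv θ 0 +
      PowerSeries.X ^ (2 ^ (M + 1)) * omInv θ 0 =
      PowerSeries.X * Om θ 0 ^ (2 ^ M - 1) + Om' ^ (2 ^ M) * omInv θ 0 := by
    rw [← add_mul, e2, add_mul]
    congr 1
    obtain ⟨k, hk⟩ : ∃ k, 2 ^ M = k + 1 := ⟨2 ^ M - 1, by omega⟩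
    rw [hk, pow_succ, mul_assoc, hOW, mul_comm]
    simp
  have e4 := congrArg (PowerSeries.coeff (n + 1 + 2 ^ (M + 1))) e3
  have h2M : 2 ^ (M + 1) = 2 * 2 ^ M := by ring
  rw [(PowerSeries.coeff _).map_add, (PowerSeries.coeff _).map_add,
    PowerSeries.coeff_X_pow_mul', PowerSeries.coeff_X_pow_mul', if_pos (by omega),
    if_pos (by omega),
    show n + 1 + 2 ^ (M + 1) - 2 ^ M = n + 2 ^ M + 1 by omega,
    show n + 1 + 2 ^ (M + 1) - 2 ^ (M + 1) = n + 1 by omega,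
    show n + 1 + 2 ^ (M + 1) = (n + 2 ^ (M + 1)) + 1 by ring, PowerSeries.coeff_succ_X_mul,
    ← b_EE_zero, ← b_EE_zero] at e4
  rw [e4]
  apply dvd_add
  · have h1 := lp_F_pow (lp_F_Om (θ := θ)) (2 ^ M - 1) (n + 2 ^ (M + 1))
    refine dvd_trans (pow_dvd_pow _ ?_) h1
    omega
  · have h1 := lp_D_mul (lp_D_pow (lp_D_Om hθ) (2 ^ M)) (lp_D_zero (u := X + C (th θ 1))
      (omInv θ 0)) (n + 2 ^ (M + 1) + 1)
    exact dvd_trans (pow_dvd_pow _ (by omega)) h1

end

section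
variable {K : Type*} [Field K] [CharP K 2] {θ : K} (hθ : Function.Injective (th θ))
include hθ

/-- Lemma P: `E_0(n+2^M) ≡ E_0(n) mod (Z+θ_1)^{⌈n/2⌉+1}` when `2^M ≥ ⌈n/2⌉+1` -/
theorem EE_zero_periodic (n M : ℕ) (hM : (n + 1) / 2 + 1 ≤ 2 ^ M) :
    (X + C (th θ 1)) ^ ((n + 1) / 2 + 1) ∣ EE θ (n + 2 ^ M) 0 + EE θ n 0 :=
  lp_periodic hθ n M hM

/-- (E5) -/
theorem EE_second (n : ℕ) (hn : 1 ≤ n / 2 ^ (pc n + 3)) :
    ∃ Q : K[X],
      (X + C (th θ (pc n + 2))) ^ 3 ∣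
        EE θ n (pc n + 1) + PP θ n (pc n + 1) * expand K 2 Q ∧
      (Wr Q (PP θ n (pc n + 2))).eval (th θ (pc n + 3)) = 0 :=
  ls_second hθ n hn (fun M hM => EE_zero_periodic hθ n M hM)

end

end MZ
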