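import Pool.Agent.Work.MP_968e92_nt.DatF
import Pool.Agent.Work.MP_968e92_nt.LemP

/-! # MP_968e92_nt, module DatA: data (gA) and (Ib), from the second order information -/

open Polynomial

set_option linter.unusedSectionVars false

namespace MZ

section
variable {K : Type*} [Field K] [CharP K 2] {θ : K} (hθ : Function.Injective (th θ))

theorem da_exists_bit (x : ℕ) (h : 1 ≤ x / 2) : ∃ e ∈ bits x, 1 ≤ e := by
  by_contra h0
  push Not at h0
  have h1 : bits (x / 2) = ∅ := by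
    rw [Finset.eq_empty_iff_forall_notMem]
    intro e he
    have h2 : e + 1 ∈ bits x := by
      rw [b_mem_bits, Nat.testBit_add_one]
      rwa [b_mem_bits] at he
    have := h0 _ h2
    omega
  have h2 := df_sum_bits (x / 2)
  rw [h1, Finset.sum_empty] at h2
  omega

theorem da_VV_zero (θ : K) (n L : ℕ) (h : 1 ≤ n / 2 ^ (L + 2)) :
    (VV θ n L).eval (th θ (L + 2)) = 0 := by
  have hd : n / 2 ^ (L + 2) = n / 2 ^ (L + 1) / 2 := loc_div_succ n (L + 1)
  rw [hd] at h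
  obtain ⟨e, he, he1⟩ := da_exists_bit _ h
  unfold VV
  rw [eval_prod]
  apply Finset.prod_eq_zero he
  rw [expand_eval, bd_th_sq, eval_mul, eval_add, eval_C, eval_X, eval_prod]
  rcases Nat.lt_or_ge 1 e with h2 | h2
  · have : ∏ m ∈ Finset.range e, (C (th θ (L + 1 + e)) + X ^ (2 ^ m) : K[X]).eval
        (th θ (L + 2 + 1)) = 0 := by
      apply Finset.prod_eq_zero (i := e - 2) (Finset.mem_range.mpr (by omega))
      rw [eval_add, eval_C, eval_pow, eval_X, df_th_pow]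
      have : L + 2 + 1 + (e - 2) = L + 1 + e := by omega
      rw [this, bd_add_self]
    rw [this, zero_mul]
  · have : e = 1 := by omega
    subst this
    rw [show L + 2 + 1 = L + 2 + 1 from rfl, bd_add_self, mul_zero]

include hθ

/-- (gA) -/
theorem dat_gA (n L : ℕ) (hL : pc n + 1 = L) (hn : 1 ≤ n / 2 ^ (L + 2)) :
    ∃ g₀ g₂ : K, g₀ ≠ 0 ∧
      (X + C (th θ (L + 1))) ^ 3 ∣
        EE θ n L + (C g₀ + C g₂ * (X + C (th θ (L + 1))) ^ 2) * PP θ n L ∧
      g₂ = g₀ * ∑ j ∈ zer n (L + 2), (th θ j + th θ (L + 2))⁻¹ ∧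
      (Wr (EE θ n L) (PP θ n L)).eval (th θ (L + 2)) = 0 := by
  subst hL
  obtain ⟨Q, hQ1, hQ2⟩ := EE_second hθ n hn
  obtain ⟨Q', hQ'⟩ := df_taylor (θ := θ) Q (pc n + 2)
  refine ⟨Q.eval (th θ (pc n + 3)), (derivative Q).eval (th θ (pc n + 3)), ?_, ?_, ?_, ?_⟩
  · intro h0
    obtain ⟨W, hW⟩ := hQ1
    have h1 := congrArg (eval (th θ (pc n + 2))) hW
    rw [eval_add, eval_mul, expand_eval, bd_th_sq, h0, mul_zero, add_zero, eval_mul, eval_pow,
      eval_add, eval_X, eval_C, bd_add_self, zero_pow (by norm_num), zero_mul] at h1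
    exact EE_eval_ne hθ n (pc n + 1) le_rfl h1
  · obtain ⟨W, hW⟩ := hQ1
    refine ⟨W - PP θ n (pc n + 1) * Q' * (X + C (th θ (pc n + 2))), ?_⟩
    rw [hQ'] at hW
    linear_combination hW
  · exact df_log hθ Q n (pc n + 2) (pc n + 3) (by omega) hQ2
  · rw [EE_wr hθ n, eval_mul, da_VV_zero θ n (pc n + 1) hn, mul_zero]

/-- for case I-b, `μ ≥ 3`: second order information at `b`, first order at `b²` -/
theorem dat_Ib (n L : ℕ) (hL : pc n = L) (hy : Odd (n / 2 ^ (L + 1)))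
    (hn : 1 ≤ n / 2 ^ (L + 3)) :
    ∃ e₀ e₂ : K, e₀ ≠ 0 ∧
      (X + C (th θ (L + 2))) ^ 3 ∣
        EE θ n (L + 1) + (C e₀ + C e₂ * (X + C (th θ (L + 2))) ^ 2) * PP θ n L ∧
      e₂ = e₀ * ∑ j ∈ zer n (L + 3), (th θ j + th θ (L + 3))⁻¹ ∧
      (Wr (EE θ n (L + 1)) (PP θ n L)).eval (th θ (L + 3)) = 0 := by
  have hb : n.testBit (L + 1) = true := by
    rw [bd_testBit]
    exact decide_eq_true (Nat.odd_iff.mp hy)
  rw [← bd_PP_one hb]
  exact dat_gA hθ n (L + 1) (by omega) hn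

end

end MZ
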