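import Pool.Agent.Work.MP_968e92_nt.Vv

/-! # MP_968e92_nt, module DatF: local data of `H_L/P_L`, orders of the Wronskians -/

open Polynomial

set_option linter.unusedSectionVars false
set_option linter.unusedSimpArgs false

namespace MZ

/-- the sum of the powers of two of the bits -/
theorem df_sum_bits (x : ℕ) : ∑ e ∈ bits x, 2 ^ e = x := by
  have h : bits x = x.bitIndices.toFinset := by
    ext j
    rw [b_mem_bits, List.mem_toFinset, Nat.mem_bitIndices]
  rw [h]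
  exact Finset.sum_toFinset_bitIndices_two_pow x

theorem df_zero_mem (x : ℕ) : (if (0 : ℕ) ∈ bits x then 1 else 0) = x % 2 := by
  have hb : (0 : ℕ) ∈ bits x ↔ x % 2 = 1 := by
    rw [b_mem_bits, bd_testBit]
    simp only [pow_zero, Nat.div_one, decide_eq_true_eq]
  split_ifs with h
  · rw [hb] at h; omega
  · rw [hb] at h; omega

theorem df_sum_w (x : ℕ) :
    ∑ e ∈ bits x, (2 ^ e + if e = 0 then 1 else 0) = 2 * ((x + 1) / 2) := by
  rw [Finset.sum_add_distrib, df_sum_bits, Finset.sum_ite_eq', df_zero_mem]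
  omega

section
variable {K : Type*} [Field K] [CharP K 2] {θ : K} (hθ : Function.Injective (th θ))

theorem df_th_pow (θ : K) (i m : ℕ) : (th θ i) ^ (2 ^ m) = th θ (i + m) := by
  unfold th
  rw [← pow_mul, ← pow_add]

theorem df_lin_pow (θ : K) (i m : ℕ) :
    (X + C (th θ i) : K[X]) ^ (2 ^ m) = X ^ (2 ^ m) + C (th θ (i + m)) := by
  rw [add_pow_char_pow, ← C_pow, df_th_pow]

/-- the reduced factor -/
noncomputable def df_V1 (θ : K) (L e : ℕ) : K[X] :=
  if 1 ≤ e then expand K 2 ((∏ m ∈ Finset.range (e - 1), (C (th θ (L + 1 + e)) + X ^ (2 ^ m))) *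
      (C (th θ (L + 2 + e)) + X)) else 1

theorem df_factor (θ : K) (L e : ℕ) :
    expand K 2 ((∏ m ∈ Finset.range e, (C (th θ (L + 1 + e)) + X ^ (2 ^ m))) *
      (C (th θ (L + 2 + e)) + X)) =
    (X + C (th θ (L + 1))) ^ (2 ^ e + if e = 0 then 1 else 0) * df_V1 θ L e := by
  unfold df_V1
  rcases Nat.eq_zero_or_pos e with h | h
  · subst h
    simp only [Finset.range_zero, Finset.prod_empty, one_mul, add_zero, pow_zero, if_true]
    rw [if_neg (by norm_num), mul_one, add_comm (C (th θ (L + 2))), bd_expand_th]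
  · obtain ⟨f, hf⟩ : ∃ f, e = f + 1 := ⟨e - 1, by omega⟩
    subst hf
    rw [if_pos (show 1 ≤ f + 1 by omega), if_neg (show ¬ (f + 1 = 0) by omega),
      Finset.prod_range_succ, Nat.add_sub_cancel, add_zero]
    have h1 : expand K 2 (C (th θ (L + 1 + (f + 1))) + X ^ (2 ^ f)) =
        (X + C (th θ (L + 1))) ^ (2 ^ (f + 1)) := by
      rw [df_lin_pow, map_add, map_pow, expand_X, expand_C, ← pow_mul, ← pow_succ']
      ring
    rw [map_mul, map_mul, h1, map_mul]
    ring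

theorem df_VV (θ : K) (n L : ℕ) :
    VV θ n L = (X + C (th θ (L + 1))) ^ (2 * ((n / 2 ^ (L + 1) + 1) / 2)) *
      ∏ e ∈ bits (n / 2 ^ (L + 1)), df_V1 θ L e := by
  unfold VV
  rw [← df_sum_w, ← Finset.prod_pow_eq_pow_sum, ← Finset.prod_mul_distrib]
  apply Finset.prod_congr rfl
  intro e _
  exact df_factor θ L e

theorem df_V1_eval (θ : K) (L e : ℕ) :
    (df_V1 θ L e).eval (th θ (L + 1)) = if 1 ≤ e then
      ((∏ m ∈ Finset.range (e - 1), (th θ (L + 1 + e) + th θ (L + 2 + m))) *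
      (th θ (L + 2 + e) + th θ (L + 2))) else 1 := by
  unfold df_V1
  split_ifs with h
  · rw [expand_eval, bd_th_sq, eval_mul, eval_prod, eval_add, eval_C, eval_X]
    congr 1
    apply Finset.prod_congr rfl
    intro m _
    rw [eval_add, eval_C, eval_pow, eval_X, df_th_pow]
  · simp

theorem df_prod_eval (θ : K) (n L : ℕ) :
    kap θ n * (∏ e ∈ bits (n / 2 ^ (L + 1)), df_V1 θ L e).eval (th θ (L + 1)) = vv θ n L := by
  unfold vv
  rw [eval_prod, Finset.prod_filter]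
  congr 1
  apply Finset.prod_congr rfl
  intro e _
  rw [df_V1_eval]

theorem df_VV_zero (θ : K) (n L : ℕ) (h : 1 ≤ n / 2 ^ (L + 1)) :
    (VV θ n L).eval (th θ (L + 1)) = 0 := by
  rw [df_VV, eval_mul, eval_pow, eval_add, eval_X, eval_C, bd_add_self, zero_pow (by omega),
    zero_mul]

theorem df_taylor (E : K[X]) (m : ℕ) :
    ∃ Q, expand K 2 E = C (E.eval (th θ (m + 1))) + C ((derivative E).eval (th θ (m + 1))) *
      (X + C (th θ m)) ^ 2 + Q * (X + C (th θ m)) ^ 4 := by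
  have h0 : (E + C (E.eval (th θ (m + 1))) + C ((derivative E).eval (th θ (m + 1))) *
      (X + C (th θ (m + 1)))).eval (th θ (m + 1)) = 0 := by
    rw [eval_add, eval_add, eval_C, bd_add_self, eval_mul, eval_add, eval_X, eval_C, eval_C,
      bd_add_self, mul_zero, add_zero]
  obtain ⟨Q, hQ⟩ := loc_dvd_of_eval h0
  have h1 : Q.eval (th θ (m + 1)) = 0 := by
    have h2 := congrArg (fun p => (derivative p).eval (th θ (m + 1))) hQ
    simp only [derivative_mul, derivative_add, derivative_C, derivative_X, eval_add, eval_mul,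
      eval_C, eval_X, eval_one, eval_zero, add_zero, zero_mul, zero_add, mul_one, bd_add_self,
      one_mul, mul_zero] at h2
    exact h2.symm
  obtain ⟨Q', hQ'⟩ := loc_dvd_of_eval h1
  refine ⟨expand K 2 Q', ?_⟩
  have h3 : E = C (E.eval (th θ (m + 1))) + C ((derivative E).eval (th θ (m + 1))) *
      (X + C (th θ (m + 1))) + (X + C (th θ (m + 1))) ^ 2 * Q' := by
    rw [hQ'] at hQ
    have h4 : ∀ a b c d : K[X], a + b + c = d → a = b + c + d := by
      intro a b c d h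
      rw [← h]
      have : b + c + (a + b + c) = a + (b + b) + (c + c) := by ring
      rw [this, bd_padd_self, bd_padd_self, add_zero, add_zero]
    have := h4 _ _ _ _ hQ
    rw [this]
    simp only [derivative_mul, derivative_add, derivative_C, derivative_X, eval_add, eval_mul,
      eval_C, eval_X, eval_one, eval_zero, add_zero, zero_mul, zero_add, mul_one, bd_add_self,
      one_mul, mul_zero]
    ring
  conv_lhs => rw [h3]
  rw [map_add, map_add, map_mul, map_mul, map_pow, bd_expand_th, expand_C, expand_C]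
  ring

include hθ

theorem df_kap_ne (n : ℕ) : kap θ n ≠ 0 := by
  unfold kap
  rw [Finset.prod_ne_zero_iff]
  intro i _
  rw [Finset.prod_ne_zero_iff]
  intro j hj
  rw [b_mem_zer] at hj
  apply inv_ne_zero
  apply bd_th_ne hθ
  omega

theorem df_vv_ne (n L : ℕ) : vv θ n L ≠ 0 := by
  unfold vv
  refine mul_ne_zero (df_kap_ne hθ n) ?_
  rw [Finset.prod_ne_zero_iff]
  intro e he
  rw [Finset.mem_filter] at he
  refine mul_ne_zero ?_ (bd_th_ne hθ (by omega))
  rw [Finset.prod_ne_zero_iff]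
  intro m hm
  rw [Finset.mem_range] at hm
  apply bd_th_ne hθ
  omega

/-- order of `W(E_L,P_L)` at `a`, `L = pc n + 1` -/
theorem ordE (n L : ℕ) (hL : pc n + 1 = L) :
    ∃ V : K[X], Wr (EE θ n L) (PP θ n L) =
      (X + C (th θ (L + 1))) ^ (2 * ((n / 2 ^ (L + 1) + 1) / 2)) * V ∧
      V.eval (th θ (L + 1)) = vv θ n L ∧ vv θ n L ≠ 0 := by
  subst hL
  refine ⟨C (kap θ n) * ∏ e ∈ bits (n / 2 ^ (pc n + 1 + 1)), df_V1 θ (pc n + 1) e, ?_, ?_,
    df_vv_ne hθ n _⟩
  · rw [EE_wr hθ n, df_VV]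
    ring
  · rw [eval_mul, eval_C, df_prod_eval]

/-- order of `W(H_L,P_L)` at `a`, `L = pc n` -/
theorem ordH (n L : ℕ) (hL : pc n = L) :
    ∃ V : K[X], Wr (HH θ n L) (PP θ n L) =
      (X + C (th θ (L + 1))) ^ (2 * ((n / 2 ^ (L + 1) + 1) / 2)) * V ∧
      V.eval (th θ (L + 1)) = vv θ n L ∧ vv θ n L ≠ 0 := by
  subst hL
  refine ⟨C (kap θ n) * VV θ n (pc n + 1), HH_wr hθ n, ?_, df_vv_ne hθ n _⟩
  rw [eval_mul, eval_C]
  unfold vv VV
  rw [eval_prod]
  congr 1
  have hd : n / 2 ^ (pc n + 1 + 1) = n / 2 ^ (pc n + 1) / 2 := loc_div_succ n (pc n + 1)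
  rw [hd]
  refine Finset.prod_bij (fun e _ => e + 1) ?_ ?_ ?_ ?_
  · intro e he
    rw [Finset.mem_filter, b_mem_bits]
    rw [b_mem_bits] at he
    refine ⟨?_, by omega⟩
    rw [Nat.testBit_add_one]
    exact he
  · intro e _ f _ h
    omega
  · intro e he
    rw [Finset.mem_filter, b_mem_bits] at he
    obtain ⟨h1, h2⟩ := he
    obtain ⟨f, rfl⟩ : ∃ f, e = f + 1 := ⟨e - 1, by omega⟩
    refine ⟨f, ?_, rfl⟩
    rw [b_mem_bits]
    rwa [Nat.testBit_add_one] at h1
  · intro e _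
    rw [expand_eval, bd_th_sq, eval_mul, eval_prod, eval_add, eval_C, eval_X, Nat.add_sub_cancel]
    have e1 : pc n + 1 + 1 + e = pc n + 1 + (e + 1) := by ring
    have e2 : pc n + 1 + 2 + e = pc n + 2 + (e + 1) := by ring
    rw [e1, e2]
    congr 1
    apply Finset.prod_congr rfl
    intro m _
    rw [eval_add, eval_C, eval_pow, eval_X, df_th_pow]

/-- `W(E_L,P_L) = 0` for `L ≤ pc n` -/
theorem wrE_zero (n L : ℕ) (hL : L ≤ pc n) : Wr (EE θ n L) (PP θ n L) = 0 := by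
  rw [EE_step hθ n L hL, bd_wr_mul_expand]

/-- `W(H_L,P_L) = 0` for `L < pc n` -/
theorem wrH_zero (n L : ℕ) (hL : L < pc n) : Wr (HH θ n L) (PP θ n L) = 0 := by
  rw [HH_step hθ n L hL, bd_wr_mul_expand]

theorem df_log (E : K[X]) (n l m : ℕ) (hlm : l < m)
    (h : (Wr E (PP θ n l)).eval (th θ m) = 0) :
    (derivative E).eval (th θ m) =
      E.eval (th θ m) * ∑ j ∈ zer n (l + 1), (th θ j + th θ m)⁻¹ := by
  unfold Wr at h
  rw [eval_add, eval_mul, eval_mul, loc_PP_logder hθ n l m hlm] at h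
  have hP := PP_eval_ne hθ n l m hlm
  have h1 := CharTwo.add_eq_zero.mp h
  apply mul_right_cancel₀ hP
  rw [h1]; ring

/-- (fA) -/
theorem dat_fA (n L : ℕ) (hL : pc n = L) (hn : 1 ≤ n / 2 ^ (L + 2)) :
    ∃ f₀ f₂ : K, f₀ ≠ 0 ∧
      (X + C (th θ (L + 1))) ^ 3 ∣
        HH θ n L + (C f₀ + C f₂ * (X + C (th θ (L + 1))) ^ 2) * PP θ n L ∧
      f₂ = f₀ * ∑ j ∈ zer n (L + 2), (th θ j + th θ (L + 2))⁻¹ ∧
      (Wr (HH θ n L) (PP θ n L)).eval (th θ (L + 2)) = 0 := by
  subst hL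
  have hV := df_VV_zero θ n (pc n + 1) hn
  refine ⟨(EE θ n (pc n + 1)).eval (th θ (pc n + 2)),
    (derivative (EE θ n (pc n + 1))).eval (th θ (pc n + 2)), EE_eval_ne hθ n _ le_rfl, ?_, ?_, ?_⟩
  · obtain ⟨Q, hQ⟩ := df_taylor (θ := θ) (EE θ n (pc n + 1)) (pc n + 1)
    have hd := loc_div_succ n (pc n + 1)
    obtain ⟨e, he⟩ : ∃ e, n / 2 ^ (pc n + 1) + 1 = 3 + e :=
      ⟨n / 2 ^ (pc n + 1) - 2, by
        have : n / 2 ^ (pc n + 2) = n / 2 ^ (pc n + 1) / 2 := hd
        omega⟩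
    have h1 : HH θ n (pc n) = PP θ n (pc n) * expand K 2 (EE θ n (pc n + 1)) +
        (X + C (th θ (pc n + 1))) ^ (3 + e) * EE θ n (pc n + 1) := by
      unfold HH GG
      rw [EE_step hθ n (pc n) le_rfl, he]
    rw [h1, hQ]
    refine ⟨PP θ n (pc n) * Q * (X + C (th θ (pc n + 1))) + (X + C (th θ (pc n + 1))) ^ e *
      EE θ n (pc n + 1), ?_⟩
    have h2 : (2 : K[X]) = 0 := CharTwo.two_eq_zero
    generalize (C (eval (th θ (pc n + 1 + 1)) (EE θ n (pc n + 1))) : K[X]) = f₀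
    generalize (C (eval (th θ (pc n + 1 + 1)) (derivative (EE θ n (pc n + 1)))) : K[X]) = f₂
    generalize (X + C (th θ (pc n + 1)) : K[X]) = u
    generalize PP θ n (pc n) = P
    linear_combination (P * (f₀ + f₂ * u ^ 2)) * h2
  · apply df_log hθ _ n (pc n + 1) (pc n + 2) (by omega)
    rw [EE_wr hθ n, eval_mul, hV, mul_zero]
  · rw [HH_wr hθ n, eval_mul, eval_mul, hV, mul_zero, mul_zero]

/-- (fB) -/
theorem dat_fB (n L : ℕ) (hL : pc n = L) (hn : n / 2 ^ (L + 1) = 1) :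
    ∃ c : K, c ≠ 0 ∧ HH θ n L = C c * (PP θ n L + (X + C (th θ (L + 1))) ^ 2) := by
  subst hL
  have h1 := b_card_zer n (pc n + 1)
  rw [hn, b_pc_one] at h1
  have h2 := EE_natDegree hθ n (pc n + 1) le_rfl
  rw [hn] at h2
  obtain ⟨c, hc⟩ : ∃ c, EE θ n (pc n + 1) = C c := ⟨_, eq_C_of_natDegree_eq_zero (by omega)⟩
  refine ⟨c, ?_, ?_⟩
  · intro h0
    apply EE_eval_ne hθ n (pc n + 1) le_rfl
    rw [hc, h0]; simp
  · unfold HH GG
    rw [EE_step hθ n (pc n) le_rfl, hn, hc, expand_C]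
    ring

/-- (fC) -/
theorem dat_fC (n L : ℕ) (hL : pc n = L + 1) (hn : n < 2 ^ (L + 2)) :
    ∃ c : K, c ≠ 0 ∧ HH θ n L = C c * PP θ n L := by
  have h0 : n / 2 ^ (L + 2) = 0 := Nat.div_eq_of_lt hn
  have h1 := b_card_zer n (L + 2)
  rw [h0, b_pc_zero] at h1
  have h2 := EE_natDegree hθ n (L + 2) (by omega)
  rw [h0] at h2
  obtain ⟨c, hc⟩ : ∃ c, EE θ n (L + 2) = C c := ⟨_, eq_C_of_natDegree_eq_zero (by omega)⟩
  obtain ⟨j, hj⟩ := Finset.card_eq_one.mp (show (zer n (L + 2)).card = 1 by omega)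
  have hj' : j < L + 2 := by
    have : j ∈ zer n (L + 2) := by rw [hj]; simp
    rw [b_mem_zer] at this
    exact this.1
  refine ⟨c * (th θ j + th θ (L + 2)), ?_, ?_⟩
  · refine mul_ne_zero ?_ (bd_th_ne hθ (by omega))
    intro h3
    apply EE_eval_ne hθ n (L + 2) (by omega)
    rw [hc, h3]; simp
  · have hP : PP θ n (L + 1) = X + C (th θ j) := by
      unfold PP
      rw [hj]; simp
    have hH : HH θ n (L + 1) = C (c * (th θ j + th θ (L + 2))) := by
      unfold HH GG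
      rw [EE_step hθ n (L + 1) (by omega), hP, show L + 1 + 1 = L + 2 from rfl, h0, hc, expand_C,
        C_mul, C_add]
      have h2 : (2 : K[X]) = 0 := CharTwo.two_eq_zero
      linear_combination (X * C c) * h2
    rw [HH_step hθ n L (by omega), hH, expand_C]
    ring

/-- (gC) -/
theorem dat_gC (n L : ℕ) (hL : pc n = L) (hn : n < 2 ^ (L + 2)) :
    ∃ c : K, c ≠ 0 ∧ EE θ n L = C c * PP θ n L := by
  subst hL
  have hlt : n / 2 ^ (pc n + 1) < 2 := by
    rw [Nat.div_lt_iff_lt_mul (by positivity), ← pow_succ']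
    exact hn
  have h1 := b_card_zer n (pc n + 1)
  have h2 := EE_natDegree hθ n (pc n + 1) le_rfl
  have h3 : pc (n / 2 ^ (pc n + 1)) = n / 2 ^ (pc n + 1) := by
    generalize n / 2 ^ (pc n + 1) = x at *
    interval_cases x
    · exact b_pc_zero
    · exact b_pc_one
  rw [h3] at h1
  obtain ⟨c, hc⟩ : ∃ c, EE θ n (pc n + 1) = C c := ⟨_, eq_C_of_natDegree_eq_zero (by omega)⟩
  refine ⟨c, ?_, ?_⟩
  · intro h0
    apply EE_eval_ne hθ n (pc n + 1) le_rfl
    rw [hc, h0]; simp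
  · rw [EE_step hθ n (pc n) le_rfl, hc, expand_C]
    ring

end

end MZ
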