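import Pool.Agent.Work.MP_968e92_nt.BD
import Pool.Agent.Work.MP_968e92_nt.Comb

/-! # MP_968e92_nt, module Dat: digit patterns -/

namespace MZ

theorem dd_mem_zer {n l j : ℕ} (h : j ∈ zer n l) : j < l := by
  unfold zer at h
  rw [Finset.mem_filter, Finset.mem_range] at h
  exact h.1

/-- one zero below `2^{L+2}` -/
theorem one_zero {n L : ℕ} (h : pc n = L + 1) (hn : n < 2 ^ (L + 2)) :
    ∃ j ≤ L + 1, n = 2 ^ (L + 2) - 1 - 2 ^ j ∧ zer n (L + 2) = {j} := by
  have hc := card_zer n (L + 2)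
  rw [Nat.mod_eq_of_lt hn, h] at hc
  obtain ⟨j, hj⟩ := Finset.card_eq_one.mp (show (zer n (L + 2)).card = 1 by omega)
  obtain ⟨i, hi, ei⟩ := comb_one hn (by omega)
  have hni : n = 2 ^ (L + 2) - (2 ^ i + 1) := by omega
  have hlt : 2 ^ i < 2 ^ (L + 2) := Nat.pow_lt_pow_right (by norm_num) hi
  have htb : n.testBit i = false := by
    rw [hni, Nat.testBit_two_pow_sub_succ hlt]
    simp
  have hmem : i ∈ zer n (L + 2) := by
    unfold zer
    rw [Finset.mem_filter, Finset.mem_range]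
    exact ⟨hi, htb⟩
  rw [hj, Finset.mem_singleton] at hmem
  subst hmem
  exact ⟨i, by omega, by omega, hj⟩

/-- two zeros below `2^{L+2}` -/
theorem two_zeros {n L : ℕ} (h : pc n = L) (hn : n < 2 ^ (L + 2)) :
    ∃ i j, i < j ∧ j ≤ L + 1 ∧ zer n (L + 2) = {i, j} := by
  have hc := card_zer n (L + 2)
  rw [Nat.mod_eq_of_lt hn, h] at hc
  obtain ⟨x, y, hxy, hz⟩ := Finset.card_eq_two.mp (show (zer n (L + 2)).card = 2 by omega)
  have hx : x < L + 2 := dd_mem_zer (n := n) (by rw [hz]; simp)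
  have hy : y < L + 2 := dd_mem_zer (n := n) (by rw [hz]; simp)
  rcases lt_or_gt_of_ne hxy with hl | hl
  · exact ⟨x, y, hl, by omega, hz⟩
  · exact ⟨y, x, hl, by omega, by rw [hz, Finset.pair_comm]⟩

theorem dd_top {n L : ℕ} (hn : n / 2 ^ (L + 1) = 1) : zer n (L + 2) = zer n (L + 1) := by
  apply zer_succ_one
  rw [bd_testBit, hn]
  simp

/-- `pc n = L`, `n / 2^{L+1} = 1`: two zeros below `L+1` and the digit `L+1` is one -/
theorem two_zeros' {n L : ℕ} (h : pc n = L) (hn : n / 2 ^ (L + 1) = 1) :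
    ∃ i j, i < j ∧ j ≤ L ∧ zer n (L + 1) = {i, j} ∧ zer n (L + 2) = {i, j} := by
  have hc := card_zer n (L + 1)
  have hd := pc_div n (L + 1)
  rw [hn, comb_pc_one, h] at hd
  obtain ⟨x, y, hxy, hz⟩ := Finset.card_eq_two.mp (show (zer n (L + 1)).card = 2 by omega)
  have hx : x < L + 1 := dd_mem_zer (n := n) (by rw [hz]; simp)
  have hy : y < L + 1 := dd_mem_zer (n := n) (by rw [hz]; simp)
  rcases lt_or_gt_of_ne hxy with hl | hl
  · exact ⟨x, y, hl, by omega, hz, by rw [dd_top hn, hz]⟩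
  · have hz' : zer n (L + 1) = {y, x} := by rw [hz, Finset.pair_comm]
    exact ⟨y, x, hl, by omega, hz', by rw [dd_top hn, hz']⟩

/-- `pc n + 1 = L`, `n / 2^{L+1} = 1`: three zeros -/
theorem three_zeros {n L : ℕ} (h : pc n + 1 = L) (hn : n / 2 ^ (L + 1) = 1) :
    ∃ i j k, i < j ∧ j < k ∧ k ≤ L ∧ zer n (L + 1) = {i, j, k} ∧ zer n (L + 2) = {i, j, k} := by
  have hc := card_zer n (L + 1)
  have hd := pc_div n (L + 1)
  rw [hn, comb_pc_one] at hd
  obtain ⟨x, y, z, hxy, hxz, hyz, hz⟩ :=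
    Finset.card_eq_three.mp (show (zer n (L + 1)).card = 3 by omega)
  have hx : x < L + 1 := dd_mem_zer (n := n) (by rw [hz]; simp)
  have hy : y < L + 1 := dd_mem_zer (n := n) (by rw [hz]; simp)
  have hw : z < L + 1 := dd_mem_zer (n := n) (by rw [hz]; simp)
  have key : ∀ a b c : ℕ, a < b → b < c → c ≤ L → ({a, b, c} : Finset ℕ) = {x, y, z} →
      ∃ i j k, i < j ∧ j < k ∧ k ≤ L ∧ zer n (L + 1) = {i, j, k} ∧ zer n (L + 2) = {i, j, k} := by
    intro a b c hab hbc hcL e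
    exact ⟨a, b, c, hab, hbc, hcL, by rw [hz, e], by rw [dd_top hn, hz, e]⟩
  rcases lt_or_gt_of_ne hxy with h1 | h1 <;> rcases lt_or_gt_of_ne hxz with h2 | h2 <;>
    rcases lt_or_gt_of_ne hyz with h3 | h3
  · exact key x y z h1 h3 (by omega) rfl
  · exact key x z y h2 h3 (by omega) (by ext t; simp; tauto)
  · omega
  · exact key z x y h2 h1 (by omega) (by ext t; simp; tauto)
  · exact key y x z h1 h2 (by omega) (by ext t; simp; tauto)
  · omega
  · exact key y z x h3 h2 (by omega) (by ext t; simp; tauto)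
  · exact key z y x h3 h1 (by omega) (by ext t; simp; tauto)

end MZ
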