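import Pool.Agent.Work.MP_968e92_nt.BD
import Pool.Agent.Work.MP_968e92_nt.DatDig

/-! # MP_968e92_nt, module Dat: the data (gB) and (gD) -/

open Polynomial

set_option linter.unusedSectionVars false

namespace MZ

section
variable {K : Type*} [Field K] [CharP K 2] {θ : K} (hθ : Function.Injective (th θ))
include hθ

theorem dg_bits_one : bits 1 = {0} := by
  unfold bits
  ext e
  rw [Finset.mem_filter, Finset.mem_range, Finset.mem_singleton]
  constructor
  · rintro ⟨h1, h2⟩
    by_contra h0
    obtain rfl : e = 1 := by omega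
    revert h2
    decide
  · rintro rfl
    decide

/-- `V = (Z + a)²` when only the digit `L+1` is one at and above `L+1` -/
theorem dg_VV (n L : ℕ) (hn : n / 2 ^ (L + 1) = 1) :
    VV θ n L = (X + C (th θ (L + 1))) ^ 2 := by
  unfold VV
  rw [hn, dg_bits_one hθ, Finset.prod_singleton]
  simp only [Finset.range_zero, Finset.prod_empty, one_mul, add_zero]
  rw [add_comm (C (th θ (L + 2))) X, bd_expand_th]

theorem dg_two : (2 : K[X]) = 0 := by
  exact_mod_cast CharP.cast_eq_zero K[X] 2

/-- (gB): `E_L` is linear; expressed through `α_i = a + θ_i` for the three zeros. -/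
theorem dat_gB (n L i j k : ℕ) (hL : pc n + 1 = L) (hn : n / 2 ^ (L + 1) = 1)
    (hij : i < j) (hjk : j < k) (hk : k ≤ L) (hz : zer n (L + 1) = {i, j, k}) :
    ∃ g₀ : K, g₀ ≠ 0 ∧
      EE θ n L = C g₀ *
        (C ((th θ (L + 1) + th θ i) * (th θ (L + 1) + th θ j) * (th θ (L + 1) + th θ k)) +
         C ((th θ (L + 1) + th θ i) * (th θ (L + 1) + th θ j) +
            (th θ (L + 1) + th θ i) * (th θ (L + 1) + th θ k) +
            (th θ (L + 1) + th θ j) * (th θ (L + 1) + th θ k)) * (X + C (th θ (L + 1)))) ∧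
      Wr (EE θ n L) (PP θ n L) = C (g₀ * ((th θ i + th θ j) * (th θ i + th θ k) *
        (th θ j + th θ k))) * (X + C (th θ (L + 1))) ^ 2 := by
  -- the degree of `E_L`
  have hdeg : (EE θ n L).natDegree ≤ 1 := by
    have h1 := EE_natDegree hθ n L (by omega)
    have h2 : n / 2 ^ (L + 1) = n / 2 ^ L / 2 := by
      rw [Nat.div_div_eq_div_mul, ← pow_succ]
    have hcard : (zer n (L + 1)).card = 3 := by
      rw [hz]
      exact Finset.card_eq_three.mpr ⟨i, j, k, by omega, by omega, by omega, rfl⟩
    rcases hb : n.testBit L with _ | _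
    · rw [zer_succ_zero hb, Finset.card_insert_of_notMem (bd_notMem_zer n L)] at hcard
      rw [bd_testBit] at hb
      have h0 : ¬ (n / 2 ^ L % 2 = 1) := of_decide_eq_false hb
      omega
    · rw [zer_succ_one hb] at hcard
      omega
  set a := th θ (L + 1) with ha
  have hai : a + th θ i ≠ 0 := bd_th_ne hθ (by omega)
  have haj : a + th θ j ≠ 0 := bd_th_ne hθ (by omega)
  have hak : a + th θ k ≠ 0 := bd_th_ne hθ (by omega)
  set p := a + th θ i with hp
  set q := a + th θ j with hq
  set s := a + th θ k with hs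
  -- write `E_L = e₀ + e₁ (X + a)`
  obtain ⟨e₁, e₀, hE⟩ : ∃ e₁ e₀ : K, EE θ n L = C e₀ + C e₁ * (X + C a) := by
    obtain ⟨c₁, c₀, hc⟩ := Polynomial.exists_eq_X_add_C_of_natDegree_le_one hdeg
    refine ⟨c₁, c₀ + c₁ * a, ?_⟩
    rw [hc, C_add, C_mul]
    linear_combination (-(C c₁ * C a)) * dg_two hθ
  have he0 : e₀ ≠ 0 := by
    have h1 := EE_eval_ne hθ n L (by omega)
    rw [hE] at h1
    simp only [eval_add, eval_C, eval_mul, eval_X, ← ha, CharTwo.add_self_eq_zero, mul_zero,
      add_zero] at h1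
    exact h1
  -- the polynomial `P_L`
  have hP : PP θ n L = (X + C a + C p) * (X + C a + C q) * (X + C a + C s) := by
    have hh : ∀ t : ℕ, (X : K[X]) + C (th θ t) = X + C a + C (a + th θ t) := by
      intro t
      rw [C_add]
      linear_combination (-(C a)) * dg_two hθ
    unfold PP
    rw [hz, Finset.prod_insert, Finset.prod_insert, Finset.prod_singleton, hh i, hh j, hh k,
      mul_assoc]
    · rw [Finset.mem_singleton]; omega
    · rw [Finset.mem_insert, Finset.mem_singleton]; omega
  -- the Wronskian identity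
  have hW : Wr (EE θ n L) (PP θ n L) = C (kap θ n) * (X + C a) ^ 2 := by
    have h := EE_wr hθ n
    rw [hL, dg_VV hθ n L hn] at h
    exact h
  have hW' : Wr (EE θ n L) (PP θ n L) =
      C (e₁ * (p + q + s) + e₀) * (X + C a) ^ 2 + C (e₁ * (p * q * s) +
        e₀ * (p * q + p * s + q * s)) := by
    rw [hE, hP]
    unfold Wr
    simp only [derivative_add, derivative_mul, derivative_C, derivative_X, zero_add, add_zero,
      zero_mul, mul_one, one_mul, C_add, C_mul]
    linear_combination (C e₁ * (X + C a) ^ 3 + C e₀ * (X + C a) ^ 2 + C e₀ * (X + C a) *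
      (C p + C q + C s) + C e₁ * (X + C a) ^ 2 * (C p + C q + C s) +
      C e₁ * (X + C a) * (C p * C q + C p * C s + C q * C s) + C e₁ * (X + C a) ^ 3) * dg_two hθ
  have hcoef : e₁ * (p * q * s) + e₀ * (p * q + p * s + q * s) = 0 := by
    have h := hW.symm.trans hW'
    have h2 := congrArg (fun f => f.eval a) h
    simp only [eval_add, eval_mul, eval_C, eval_pow, eval_X, CharTwo.add_self_eq_zero] at h2
    rw [zero_pow two_ne_zero, mul_zero, mul_zero, zero_add] at h2
    exact h2.symm
  have hpqs : p * q * s ≠ 0 := mul_ne_zero (mul_ne_zero hai haj) hak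
  have h2K : (2 : K) = 0 := CharTwo.two_eq_zero
  refine ⟨e₀ * (p * q * s)⁻¹, mul_ne_zero he0 (inv_ne_zero hpqs), ?_, ?_⟩
  · have e1 : e₁ = e₀ * (p * q * s)⁻¹ * (p * q + p * s + q * s) := by
      have : e₁ * (p * q * s) = e₀ * (p * q + p * s + q * s) := by
        linear_combination hcoef - e₀ * (p * q + p * s + q * s) * h2K
      field_simp
      linear_combination this
    have e0 : e₀ = e₀ * (p * q * s)⁻¹ * (p * q * s) := by
      field_simp
    calc EE θ n L = C e₀ + C e₁ * (X + C a) := hE
      _ = C (e₀ * (p * q * s)⁻¹ * (p * q * s)) +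
          C (e₀ * (p * q * s)⁻¹ * (p * q + p * s + q * s)) * (X + C a) := by rw [← e0, ← e1]
      _ = _ := by rw [C_mul, C_mul (a := e₀ * (p * q * s)⁻¹)]; ring
  · rw [hW']
    rw [hcoef, C_0, add_zero]
    congr 2
    have h1 : e₁ * (p * q * s) = e₀ * (p * q + p * s + q * s) := by
      linear_combination hcoef - e₀ * (p * q + p * s + q * s) * h2K
    have t1 : th θ i + th θ j = p + q := by
      rw [hp, hq]; linear_combination (-a) * h2K
    have t2 : th θ i + th θ k = p + s := by
      rw [hp, hs]; linear_combination (-a) * h2K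
    have t3 : th θ j + th θ k = q + s := by
      rw [hq, hs]; linear_combination (-a) * h2K
    rw [t1, t2, t3]
    field_simp
    linear_combination (p + q + s) * h1 + (e₀ * (p * q * s)) * h2K

/-- (gD) -/
theorem dat_gD (n L j : ℕ) (hL : pc n = L + 1) (hn : n < 2 ^ (L + 2))
    (hz : zer n (L + 2) = {j}) :
    ∃ c : K, c ≠ 0 ∧ EE θ n L = C c * (X ^ 2 + C (th θ j)) * PP θ n L := by
  have hdeg : (EE θ n (L + 2)).natDegree ≤ 0 := by
    have h1 := EE_natDegree hθ n (L + 2) (by omega)
    rw [hz, Finset.card_singleton, Nat.div_eq_of_lt hn] at h1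
    omega
  rw [Nat.le_zero] at hdeg
  obtain ⟨c, hc⟩ : ∃ c : K, EE θ n (L + 2) = C c := ⟨_, Polynomial.eq_C_of_natDegree_eq_zero hdeg⟩
  have hc0 : c ≠ 0 := by
    have h1 := EE_eval_ne hθ n (L + 2) (by omega)
    rw [hc, eval_C] at h1
    exact h1
  refine ⟨c, hc0, ?_⟩
  rw [EE_step hθ n L (by omega), EE_step hθ n (L + 1) (by omega), hc]
  have hP : PP θ n (L + 1) = X + C (th θ j) := by
    unfold PP
    rw [hz, Finset.prod_singleton]
  rw [hP, map_mul, expand_C, expand_C, map_add, expand_X, expand_C]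
  ring

end

end MZ
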