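import Pool.Agent.Work.MP_968e92_nt.DatDig
import Pool.Agent.Work.MP_968e92_nt.DatG
import Pool.Agent.Work.MP_968e92_nt.DatF
import Pool.Agent.Work.MP_968e92_nt.DatA

/-! # MP_968e92_nt, module Dat: local data of `E_L(n)/P_L(n)` and `H_L(n)/P_L(n)` (import only) -/
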