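import Mathlib

/-!
# MP_968e92_nt : common definitions

`K` is a field of characteristic two, `θ : K`, `th θ i = θ^(2^i)`.
-/

open Polynomial

namespace MZ

/-! ## binary digits -/

/-- number of ones in the binary expansion -/
def pc (n : ℕ) : ℕ := (Nat.digits 2 n).sum

/-- positions `< l` of the zero digits of `n` -/
def zer (n l : ℕ) : Finset ℕ := (Finset.range l).filter fun j => n.testBit j = false

/-- positions of the one digits of `n` -/
def bits (n : ℕ) : Finset ℕ := (Finset.range (n + 1)).filter fun j => n.testBit j = true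

/-! ## polynomials -/

section
variable {K : Type*} [Field K] (θ : K)

def th (i : ℕ) : K := θ ^ (2 ^ i)

/-- `P_l(n) = ∏_{j ≤ l, digit j of n is 0} (Z + θ_j)` -/
noncomputable def PP (n l : ℕ) : K[X] := ∏ j ∈ zer n (l + 1), (X + C (th θ j))

/-- Wronskian (characteristic two) -/
noncomputable def Wr (f g : K[X]) : K[X] := derivative f * g + f * derivative g

/-- `g_{l,i}(Z) = ∏_{m<i} (θ_{l+i} + Z^{2^m}) / (θ_{l+i} + θ_{l+m})` -/
noncomputable def gg (l i : ℕ) : K[X] :=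
  ∏ m ∈ Finset.range i, (C ((th θ (l + i) + th θ (l + m))⁻¹) * (C (th θ (l + i)) + X ^ (2 ^ m)))

end

/-- additive power series `∑ f i X^{2^i}` -/
noncomputable def addS {R : Type*} [CommRing R] (f : ℕ → R) : PowerSeries R :=
  PowerSeries.mk fun n => if 2 ^ Nat.log 2 n = n then f (Nat.log 2 n) else 0

/-- `X ↦ X²` -/
noncomputable def expX (R : Type*) [CommRing R] : PowerSeries R →+* PowerSeries R :=
  (PowerSeries.expand 2 two_ne_zero).toRingHom

section
variable {K : Type*} [Field K] (θ : K)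

/-- `α_{l,j} = ∑ g_{l,i}/(θ_{l+i}+θ_j) X^{2^i}` -/
noncomputable def al (l j : ℕ) : PowerSeries K[X] :=
  addS fun i => C ((th θ (l + i) + th θ j)⁻¹) * gg θ l i

/-- `φ : Z ↦ Z², X ↦ X²` -/
noncomputable def ph : PowerSeries K[X] →+* PowerSeries K[X] :=
  (expX K[X]).comp (PowerSeries.map (Polynomial.expand K 2).toRingHom)

/-- `Ω_l = X + (θ_l + Z) φ(α_{l+1,l})` -/
noncomputable def Om (l : ℕ) : PowerSeries K[X] :=
  PowerSeries.X + PowerSeries.C (C (th θ l) + X) * ph (al θ (l + 1) l)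

/-- `ω_l = Ω_l / X` -/
noncomputable def om (l : ℕ) : PowerSeries K[X] :=
  PowerSeries.mk fun n => PowerSeries.coeff (n + 1) (Om θ l)

/-- `ω_l^{-1}` -/
noncomputable def omInv (l : ℕ) : PowerSeries K[X] := PowerSeries.invOfUnit (om θ l) 1

/-- `t_l(S,N) = [X^{N+1}] ∏_{j∈S} α_{l,j} ω_l^{-1}` -/
noncomputable def tt (l : ℕ) (S : Finset ℕ) (N : ℕ) : K[X] :=
  PowerSeries.coeff (N + 1) ((∏ j ∈ S, al θ l j) * omInv θ l)

/-- normalising constants -/
noncomputable def cc (n l : ℕ) : K :=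
  ∏ i ∈ Finset.range l, ∏ j ∈ zer n i, (th θ i + th θ j)⁻¹

/-- `E_l(n)` -/
noncomputable def EE (n l : ℕ) : K[X] := C (cc θ n l) * tt θ l (zer n l) (n / 2 ^ l)

/-- `G_l(n)` -/
noncomputable def GG (n l : ℕ) : K[X] :=
  (X + C (th θ (l + 1))) ^ (n / 2 ^ (l + 1) + 1) * EE θ n (l + 1)

/-- `H_l(n)` -/
noncomputable def HH (n l : ℕ) : K[X] := EE θ n l + GG θ n l

/-- `κ(n) = ∏_{i one} ∏_{j<i zero} (θ_i + θ_j)^{-1}` -/
noncomputable def kap (n : ℕ) : K :=
  ∏ i ∈ bits n, ∏ j ∈ zer n i, (th θ i + th θ j)⁻¹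

/-- the right-hand side of the Wronskian formula at level `l`:
`∏_{ε ∈ bits (n/2^{l+1})} φ( ∏_{m<ε}(θ_{l+1+ε} + Z^{2^m}) (θ_{l+2+ε} + Z) )` -/
noncomputable def VV (n l : ℕ) : K[X] :=
  ∏ e ∈ bits (n / 2 ^ (l + 1)),
    expand K 2 ((∏ m ∈ Finset.range e, (C (th θ (l + 1 + e)) + X ^ (2 ^ m))) *
      (C (th θ (l + 2 + e)) + X))

end

end MZ
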