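import Pool.Agent.Work.MP_968e92_nt.DegA
import Pool.Agent.Work.MP_968e92_nt.Dat

/-! # MP_968e92_nt, module DegB: the comparison of degrees in case III -/

open Polynomial

namespace MZ

/-! ## sums over the one digits -/

theorem testBit_false_of_le {n i : ℕ} (h : n ≤ i) : n.testBit i = false :=
  Nat.testBit_lt_two_pow (lt_of_le_of_lt h Nat.lt_two_pow_self)

theorem sum_bits {M : Type*} [AddCommMonoid M] (n N : ℕ) (hN : n < N) (f : ℕ → M) :
    ∑ i ∈ bits n, f i = ∑ i ∈ Finset.range N, if n.testBit i = true then f i else 0 := by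
  unfold bits
  rw [Finset.sum_filter]
  refine Finset.sum_subset (fun i hi => ?_) (fun i _ hi => ?_)
  · rw [Finset.mem_range] at *; omega
  · rw [Finset.mem_range, not_lt] at hi
    rw [testBit_false_of_le (by omega : n ≤ i)]
    simp

theorem pc_two_mul (g : ℕ) : pc (2 * g) = pc g := by
  unfold pc
  rcases Nat.eq_zero_or_pos g with rfl | hg
  · simp
  · rw [Nat.digits_def' (by norm_num) (by omega)]
    simp

theorem pc_two_mul_add (g : ℕ) : pc (2 * g + 1) = pc g + 1 := by
  unfold pc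
  rw [Nat.digits_def' (by norm_num) (by omega)]
  have h1 : (2 * g + 1) % 2 = 1 := by omega
  have h2 : (2 * g + 1) / 2 = g := by omega
  rw [h1, h2]
  simp [add_comm]

theorem pc_le (h : ℕ) : pc h ≤ h := by
  unfold pc
  exact Nat.digit_sum_le 2 h

/-- `β(x) = ∑_{e ∈ bits x} s(x/2^e) 2^e` -/
def be (x : ℕ) : ℕ := ∑ e ∈ bits x, pc (x / 2 ^ e) * 2 ^ e

theorem be_eq (x N : ℕ) (hN : x < N) :
    be x = ∑ e ∈ Finset.range N, if x.testBit e = true then pc (x / 2 ^ e) * 2 ^ e else 0 :=
  sum_bits x N hN _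

theorem be_two_mul (g : ℕ) : be (2 * g) = 2 * be g := by
  rw [be_eq (2 * g) (2 * g + 1 + 1) (by omega), be_eq g (2 * g + 1) (by omega),
    Finset.sum_range_succ', Finset.mul_sum]
  have h0 : (2 * g).testBit 0 = false := by simp
  rw [h0]
  simp only [Bool.false_eq_true, if_false, add_zero]
  refine Finset.sum_congr rfl fun e _ => ?_
  rw [Nat.testBit_succ, Nat.mul_div_cancel_left g (by norm_num)]
  have h1 : 2 * g / 2 ^ (e + 1) = g / 2 ^ e := by
    rw [pow_succ', ← Nat.div_div_eq_div_mul, Nat.mul_div_cancel_left g (by norm_num)]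
  rw [h1]
  split_ifs
  · ring
  · rfl

theorem be_two_mul_add (g : ℕ) : be (2 * g + 1) = 2 * be g + (1 + pc g) := by
  rw [be_eq (2 * g + 1) (2 * g + 2 + 1) (by omega), be_eq g (2 * g + 2) (by omega),
    Finset.sum_range_succ', Finset.mul_sum]
  have h0 : (2 * g + 1).testBit 0 = true := by simp
  rw [h0, if_pos rfl]
  congr 1
  · refine Finset.sum_congr rfl fun e _ => ?_
    have h2 : (2 * g + 1) / 2 = g := by omega
    rw [Nat.testBit_succ, h2]
    have h1 : (2 * g + 1) / 2 ^ (e + 1) = g / 2 ^ e := by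
      rw [pow_succ', ← Nat.div_div_eq_div_mul, h2]
    rw [h1]
    split_ifs
    · ring
    · rfl
  · rw [pow_zero, Nat.div_one, pc_two_mul_add]; ring

theorem keyAB (h : ℕ) : be h + pc h + 2 ≤ be (h + 1) + (h + 1) ∧
    2 * be (h + 1) + pc (h + 1) ≤ 2 * (h + 1) + 1 + 2 * be h + pc h := by
  induction h using Nat.strong_induction_on with
  | _ h ih =>
    rcases Nat.even_or_odd' h with ⟨g, rfl | rfl⟩
    · -- h = 2g, h+1 = 2g+1
      rw [be_two_mul, be_two_mul_add, pc_two_mul, pc_two_mul_add]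
      have := pc_le g
      constructor <;> omega
    · -- h = 2g+1, h+1 = 2(g+1)
      rw [show 2 * g + 1 + 1 = 2 * (g + 1) by ring, be_two_mul, be_two_mul_add, pc_two_mul,
        pc_two_mul_add]
      obtain ⟨h1, h2⟩ := ih g (by omega)
      constructor <;> omega

/-- the arithmetic inequality of case III -/
theorem key_ineq (x y : ℕ) (h : (x + 1) / 2 = (y + 1) / 2) :
    be y + pc y + y % 2 ≤ be x + x + x % 2 := by
  have hx : x = 2 * ((x + 1) / 2) ∨ x + 1 = 2 * ((x + 1) / 2) := by omega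
  have hy : y = 2 * ((y + 1) / 2) ∨ y + 1 = 2 * ((y + 1) / 2) := by omega
  rw [← h] at hy
  generalize (x + 1) / 2 = m at *
  rcases hx with hx | hx <;> rcases hy with hy | hy
  · subst hx hy
    have := pc_le (2 * m)
    omega
  · subst hx
    obtain ⟨k, rfl⟩ : ∃ k, m = k + 1 := ⟨m - 1, by omega⟩
    obtain rfl : y = 2 * k + 1 := by omega
    rw [be_two_mul, be_two_mul_add, pc_two_mul_add]
    have := (keyAB k).1
    omega
  · subst hy
    obtain ⟨k, rfl⟩ : ∃ k, m = k + 1 := ⟨m - 1, by omega⟩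
    obtain rfl : x = 2 * k + 1 := by omega
    rw [be_two_mul, be_two_mul_add, pc_two_mul]
    have := (keyAB k).2
    omega
  · obtain rfl : x = y := by omega
    have := pc_le x
    omega

/-! ## the degrees -/

theorem lt_of_mem_zer {n l j : ℕ} (h : j ∈ zer n l) : j < l := by
  unfold zer at h
  rw [Finset.mem_filter, Finset.mem_range] at h
  exact h.1

theorem deg_kap (n : ℕ) :
    HasDeg vI (kap T n) (∑ i ∈ bits n, -(((zer n i).card : ℤ) * 2 ^ i)) := by
  unfold kap
  refine HasDeg.finset_prod _ fun i _ => ?_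
  have : HasDeg vI (∏ j ∈ zer n i, (th T i + th T j)⁻¹) (∑ j ∈ zer n i, -(2 ^ i : ℤ)) := by
    refine HasDeg.finset_prod _ fun j hj => ?_
    rw [add_comm]
    exact (dadd (lt_of_mem_zer hj)).inv
  convert this using 1
  rw [Finset.sum_const, nsmul_eq_mul]
  ring

theorem deg_vv (n L : ℕ) :
    HasDeg vI (vv T n L) ((∑ i ∈ bits n, -(((zer n i).card : ℤ) * 2 ^ i)) +
      ∑ e ∈ (bits (n / 2 ^ (L + 1))).filter (fun e => 1 ≤ e), ((e : ℤ) + 1) * 2 ^ (L + 1 + e)) := by
  unfold vv
  refine (deg_kap n).mul (HasDeg.finset_prod _ fun e he => ?_)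
  rw [Finset.mem_filter] at he
  have h1 : HasDeg vI (∏ m ∈ Finset.range (e - 1), (th T (L + 1 + e) + th T (L + 2 + m)))
      (∑ m ∈ Finset.range (e - 1), (2 ^ (L + 1 + e) : ℤ)) := by
    refine HasDeg.finset_prod _ fun m hm => ?_
    rw [Finset.mem_range] at hm
    rw [add_comm]
    exact dadd (by omega)
  have h2 : HasDeg vI (th T (L + 2 + e) + th T (L + 2)) (2 ^ (L + 2 + e)) := by
    rw [add_comm]
    exact dadd (by omega)
  convert h1.mul h2 using 1
  rw [Finset.sum_const, nsmul_eq_mul, Finset.card_range]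
  have : ((e - 1 : ℕ) : ℤ) = e - 1 := by
    rw [Nat.cast_sub he.2]; simp
  rw [this]
  ring

theorem deg_PP (n l : ℕ) :
    HasDeg vI ((PP T n l).eval (th T (l + 1))) (((zer n (l + 1)).card : ℤ) * 2 ^ (l + 1)) := by
  unfold PP
  rw [eval_prod]
  have : HasDeg vI (∏ j ∈ zer n (l + 1), (X + C (th T j) : K2[X]).eval (th T (l + 1)))
      (∑ j ∈ zer n (l + 1), (2 ^ (l + 1) : ℤ)) := by
    refine HasDeg.finset_prod _ fun j hj => ?_
    rw [eval_add, eval_X, eval_C, add_comm]
    exact dadd (lt_of_mem_zer hj)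
  convert this using 1
  rw [Finset.sum_const, nsmul_eq_mul]

/-- the value at `a = θ_{L+1}` normalised: `∏_{i<L} P_i(θ_{i+1})` -/
noncomputable def pe (n L : ℕ) : K2 := ∏ i ∈ Finset.range L, (PP T n i).eval (th T (i + 1))

theorem deg_pe (n L : ℕ) :
    HasDeg vI (pe n L) (∑ i ∈ Finset.range (L + 1), ((zer n i).card : ℤ) * 2 ^ i) := by
  unfold pe
  rw [Finset.sum_range_succ']
  have h0 : zer n 0 = ∅ := by simp [zer]
  rw [h0]
  simp only [Finset.card_empty, Nat.cast_zero, zero_mul, add_zero]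
  exact HasDeg.finset_prod _ fun i _ => deg_PP n i

/-! ## the bookkeeping -/

/-- the zeros below `L+1` -/
def Ap (n L : ℕ) : ℤ :=
  ∑ i ∈ Finset.range (L + 1), if n.testBit i = true then 0 else ((zer n i).card : ℤ) * 2 ^ i

theorem Ap_nonneg (n L : ℕ) : 0 ≤ Ap n L := by
  unfold Ap
  refine Finset.sum_nonneg fun i _ => ?_
  split_ifs
  · exact le_rfl
  · positivity

theorem Ap_le (n L : ℕ) (h : 1 ≤ (zer n (L + 1)).card) :
    Ap n L ≤ (((zer n (L + 1)).card : ℤ) - 1) * (2 ^ (L + 1) - 1) := by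
  have hs : ∑ i ∈ Finset.range (L + 1), (2 ^ i : ℤ) = 2 ^ (L + 1) - 1 := by
    have := mul_geom_sum (2 : ℤ) (L + 1)
    linarith
  rw [← hs, Finset.mul_sum]
  unfold Ap
  refine Finset.sum_le_sum fun i hi => ?_
  rw [Finset.mem_range] at hi
  have h1 : (0 : ℤ) ≤ ((zer n (L + 1)).card : ℤ) - 1 := by
    have : (1 : ℤ) ≤ ((zer n (L + 1)).card : ℤ) := by exact_mod_cast h
    omega
  split_ifs with hb
  · positivity
  · refine mul_le_mul_of_nonneg_right ?_ (by positivity)
    have hlt : (zer n i).card < (zer n (L + 1)).card := by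
      refine Finset.card_lt_card ?_
      rw [Finset.ssubset_iff_of_subset]
      · refine ⟨i, ?_, fun hmem => absurd (lt_of_mem_zer hmem) (lt_irrefl _)⟩
        unfold zer
        rw [Finset.mem_filter, Finset.mem_range]
        exact ⟨hi, by simpa using hb⟩
      · intro j hj
        unfold zer at hj ⊢
        rw [Finset.mem_filter, Finset.mem_range] at hj ⊢
        exact ⟨by omega, hj.2⟩
    have : ((zer n i).card : ℤ) < ((zer n (L + 1)).card : ℤ) := by exact_mod_cast hlt
    omega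

/-- number of zeros below a position above `L` -/
theorem card_zer_add (n L e : ℕ) :
    ((zer n (L + 1 + e)).card : ℤ) =
      (zer n (L + 1)).card + e - pc (n / 2 ^ (L + 1)) + pc (n / 2 ^ (L + 1) / 2 ^ e) := by
  have h1 := card_zer n (L + 1 + e)
  have h2 := card_zer n (L + 1)
  have h3 := pc_div (n % 2 ^ (L + 1 + e)) (L + 1)
  have h4 := pc_div (n / 2 ^ (L + 1)) e
  have h5 : n % 2 ^ (L + 1 + e) % 2 ^ (L + 1) = n % 2 ^ (L + 1) :=
    Nat.mod_mod_of_dvd n (pow_dvd_pow 2 (by omega))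
  have h6 : n % 2 ^ (L + 1 + e) / 2 ^ (L + 1) = n / 2 ^ (L + 1) % 2 ^ e := by
    rw [pow_add, Nat.mod_mul_right_div_self]
  rw [h5, h6] at h3
  omega

theorem dgb_sum_two_pow (x : ℕ) : ∀ N, x < N →
    ∑ e ∈ Finset.range N, (if x.testBit e = true then 2 ^ e else 0) = x := by
  induction x using Nat.strong_induction_on with
  | _ x ih =>
    intro N hN
    obtain ⟨N', rfl⟩ : ∃ k, N = k + 1 := ⟨N - 1, by omega⟩
    rcases Nat.eq_zero_or_pos x with rfl | hx
    · simp
    · rw [Finset.sum_range_succ']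
      have h1 := ih (x / 2) (by omega) N' (by omega)
      have h2 : ∑ e ∈ Finset.range N', (if x.testBit (e + 1) = true then 2 ^ (e + 1) else 0) =
          2 * (x / 2) := by
        conv_rhs => rw [← h1]
        rw [Finset.mul_sum]
        refine Finset.sum_congr rfl fun e _ => ?_
        rw [Nat.testBit_succ]
        split_ifs
        · ring
        · rfl
      rw [h2, Nat.testBit_zero]
      rcases Nat.mod_two_eq_zero_or_one x with h | h
      · simp [h]; omega
      · simp [h]; omega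

/-- the degree of `v_n ∏ P_i(θ_{i+1}) / P_L(a)` -/
theorem deg_main (n L c : ℕ) (hc : (zer n (L + 1)).card = pc (n / 2 ^ (L + 1)) + 1 + c) :
    HasDeg vI (vv T n L * pe n L / (PP T n L).eval (th T (L + 1)))
      (Ap n L - 2 ^ (L + 1) * (be (n / 2 ^ (L + 1)) + c * (n / 2 ^ (L + 1)) +
        (n / 2 ^ (L + 1)) % 2 + pc (n / 2 ^ (L + 1)) + 1 + c : ℕ)) := by
  have h := ((deg_vv n L).mul (deg_pe n L)).div (deg_PP n L)
  convert h using 1
  generalize hx : n / 2 ^ (L + 1) = x at *
  have hxn : x ≤ n := by rw [← hx]; exact Nat.div_le_self _ _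
  have hZ : ((zer n (L + 1)).card : ℤ) = pc x + 1 + c := by exact_mod_cast hc
  have hbit : ∀ e, n.testBit (L + 1 + e) = x.testBit e := by
    intro e; rw [← hx, Nat.testBit_div_two_pow, add_comm]
  rw [sum_bits n (L + 1 + (n + 1)) (by omega), Finset.sum_range_add, Finset.sum_filter,
    sum_bits x (n + 1) (by omega), hZ]
  have hA : (∑ i ∈ Finset.range (L + 1),
      if n.testBit i = true then -(((zer n i).card : ℤ) * 2 ^ i) else 0) +
      ∑ i ∈ Finset.range (L + 1), ((zer n i).card : ℤ) * 2 ^ i = Ap n L := by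
    unfold Ap
    rw [← Finset.sum_add_distrib]
    refine Finset.sum_congr rfl fun i _ => ?_
    split_ifs
    · ring
    · ring
  have hB : (∑ e ∈ Finset.range (n + 1),
      if n.testBit (L + 1 + e) = true then
        -(((zer n (L + 1 + e)).card : ℤ) * 2 ^ (L + 1 + e)) else 0) +
      (∑ e ∈ Finset.range (n + 1),
        if x.testBit e = true then (if 1 ≤ e then ((e : ℤ) + 1) * 2 ^ (L + 1 + e) else 0) else 0) =
      -(2 ^ (L + 1) * (be x + c * x + x % 2 : ℕ) : ℤ) := by
    have hb1 := be_eq x (n + 1) (by omega)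
    have hb2 := dgb_sum_two_pow x (n + 1) (by omega)
    have hb3 : ∑ e ∈ Finset.range (n + 1), (if x.testBit e = true then (if e = 0 then 1 else 0)
        else 0) = x % 2 := by
      rw [Finset.sum_eq_single 0]
      · rw [if_pos rfl, Nat.testBit_zero]
        rcases Nat.mod_two_eq_zero_or_one x with h | h <;> simp [h]
      · intro e _ he
        rw [if_neg he]; simp
      · intro h0; simp at h0
    rw [hb1]
    conv_rhs => rw [← hb3]
    have hb4 : c * x = ∑ e ∈ Finset.range (n + 1), (if x.testBit e = true then c * 2 ^ e else 0) := by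
      conv_lhs => rw [← hb2]
      rw [Finset.mul_sum]
      refine Finset.sum_congr rfl fun e _ => ?_
      split_ifs <;> simp
    rw [hb4]
    push_cast
    rw [← Finset.sum_add_distrib, ← Finset.sum_add_distrib, ← Finset.sum_add_distrib,
      Finset.mul_sum, ← Finset.sum_neg_distrib]
    refine Finset.sum_congr rfl fun e _ => ?_
    rw [hbit e, card_zer_add n L e, hx, hZ]
    by_cases hb : x.testBit e = true
    · simp only [hb, if_true]
      rcases Nat.eq_zero_or_pos e with rfl | he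
      · simp
        ring
      · have h1 : 1 ≤ e := he
        have h2 : e ≠ 0 := by omega
        simp only [h1, h2, if_true, if_false]
        rw [pow_add]
        ring
    · simp [hb]
  push_cast at hB ⊢
  linear_combination -hA - hB

/-- case III: the two leading coefficients cannot cancel -/
theorem leadIII (n₁ n₂ L : ℕ) (h₁ : pc n₁ + 1 = L) (h₂ : pc n₂ = L)
    (hxy : (n₁ / 2 ^ (L + 1) + 1) / 2 = (n₂ / 2 ^ (L + 1) + 1) / 2) :
    vv T n₁ L * ((pe n₂ L)⁻¹ * (PP T n₂ L).eval (th T (L + 1))) +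
      vv T n₂ L * ((pe n₁ L)⁻¹ * (PP T n₁ L).eval (th T (L + 1))) ≠ 0 := by
  have e1 := card_zer n₁ (L + 1)
  have e2 := pc_div n₁ (L + 1)
  have e3 := card_zer n₂ (L + 1)
  have e4 := pc_div n₂ (L + 1)
  have hc1 : (zer n₁ (L + 1)).card = pc (n₁ / 2 ^ (L + 1)) + 1 + 1 := by omega
  have hc2 : (zer n₂ (L + 1)).card = pc (n₂ / 2 ^ (L + 1)) + 1 + 0 := by omega
  have d1 := deg_main n₁ L 1 hc1
  have d2 := deg_main n₂ L 0 hc2
  have a1 := Ap_le n₁ L (by omega)
  have a2 := Ap_nonneg n₂ L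
  have key := key_ineq _ _ hxy
  rw [hc1] at a1
  intro h0
  have p1 := (deg_pe n₁ L).ne_zero
  have p2 := (deg_pe n₂ L).ne_zero
  have q1 := (deg_PP n₁ L).ne_zero
  have q2 := (deg_PP n₂ L).ne_zero
  have heq : vv T n₁ L * pe n₁ L / (PP T n₁ L).eval (th T (L + 1)) =
      vv T n₂ L * pe n₂ L / (PP T n₂ L).eval (th T (L + 1)) := by
    have h1 : vv T n₁ L * ((pe n₂ L)⁻¹ * (PP T n₂ L).eval (th T (L + 1))) =
        vv T n₂ L * ((pe n₁ L)⁻¹ * (PP T n₁ L).eval (th T (L + 1))) := by
      have := two_zero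
      linear_combination h0 - (vv T n₂ L * ((pe n₁ L)⁻¹ * (PP T n₁ L).eval (th T (L + 1)))) * this
    field_simp at h1 ⊢
    linear_combination h1
  rw [heq] at d1
  have := d1.unique d2
  generalize n₁ / 2 ^ (L + 1) = x at *
  generalize n₂ / 2 ^ (L + 1) = y at *
  have hD : (0 : ℤ) < 2 ^ (L + 1) := by positivity
  have key' : (be y : ℤ) + pc y + y % 2 ≤ be x + x + x % 2 := by exact_mod_cast key
  push_cast at this a1
  nlinarith

end MZ
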