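import Pool.Agent.Work.MP_968e92_nt.DegA
import Pool.Agent.Work.MP_968e92_nt.DegB

/-! # MP_968e92_nt, module Deg: comparison of degrees in `K = F_2(t)`
`FT1`, ..., `FT5` are in `DegA.lean`, `pe`, `leadIII` in `DegB.lean`. -/
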