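import Pool.Agent.Work.MP_968e92_nt.DegFT

open Polynomial

namespace MZ

section
variable {L : ℕ}

/-- `D = 2^L`, `deg a = 2D`, `deg b = 4D`, `deg c = 8D` -/
theorem degs (L : ℕ) : HasDeg vI (th T (L + 1)) (2 * 2 ^ L) ∧ HasDeg vI (th T (L + 2)) (4 * 2 ^ L) ∧
    HasDeg vI (th T (L + 3)) (8 * 2 ^ L) := by
  refine ⟨?_, ?_, ?_⟩
  · have := dth (L + 1); rwa [pow_succ, mul_comm] at this
  · have := dth (L + 2)
    rwa [show (2 : ℤ) ^ (L + 2) = 4 * 2 ^ L by ring] at this
  · have := dth (L + 3)
    rwa [show (2 : ℤ) ^ (L + 3) = 8 * 2 ^ L by ring] at this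

theorem sq_a (L : ℕ) : th T (L + 2) = (th T (L + 1) : K2) ^ 2 := by
  unfold th
  rw [← pow_mul, ← pow_succ]

theorem sq_b (L : ℕ) : th T (L + 3) = (th T (L + 2) : K2) ^ 2 := by
  unfold th
  rw [← pow_mul, ← pow_succ]

end

theorem FT1 (L p q i j x : ℕ) (P1b : K2) (hpq : p < q) (hq : q ≤ L) (hij : i < j)
    (hj : j ≤ L + 1)
    (hx : (x = 0 ∧ P1b = th T (L + 2) + th T i) ∨
      (x = 1 ∧ P1b = (th T (L + 2) + th T i) * (th T (L + 2) + th T j))) :
    (th T (L + 1) + th T (L + 2)) ^ (x + 1) *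
      ((th T (L + 2) + th T p) * (th T (L + 2) + th T q)) *
      (((th T (L + 1) + th T p) * (th T (L + 1) + th T q))⁻¹ +
        ((th T p + th T (L + 2))⁻¹ + (th T q + th T (L + 2))⁻¹) +
        ((th T i + th T (L + 2))⁻¹ + (th T j + th T (L + 2))⁻¹)) ≠
      (th T p + th T q) * P1b := by
  obtain ⟨ha, hb, -⟩ := degs L
  have hD : (0 : ℤ) < 2 ^ L := by positivity
  have hP : DegLE vI (th T p) (2 ^ L) := dth_le (by omega)
  have hQ : DegLE vI (th T q) (2 ^ L) := dth_le (by omega)
  have hI : DegLE vI (th T i) (2 * 2 ^ L) := by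
    have := dth_le (i := i) (m := L + 1) (by omega)
    rwa [pow_succ, mul_comm] at this
  have hJ : DegLE vI (th T j) (2 * 2 ^ L) := by
    have := dth_le (i := j) (m := L + 1) (by omega)
    rwa [pow_succ, mul_comm] at this
  generalize (2 : ℤ) ^ L = D at *
  generalize th T (L + 1) = a at *
  generalize th T (L + 2) = b at *
  generalize th T p = p' at *
  generalize th T q = q' at *
  generalize th T i = i' at *
  generalize th T j = j' at *
  have hab : HasDeg vI (a + b) (4 * D) := HasDeg.lt_add ha.le hb (by omega)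
  have hbp : HasDeg vI (b + p') (4 * D) := hb.add_lt hP (by omega)
  have hbq : HasDeg vI (b + q') (4 * D) := hb.add_lt hQ (by omega)
  have hbi : HasDeg vI (b + i') (4 * D) := hb.add_lt hI (by omega)
  have hbj : HasDeg vI (b + j') (4 * D) := hb.add_lt hJ (by omega)
  have hap : HasDeg vI (a + p') (2 * D) := ha.add_lt hP (by omega)
  have haq : HasDeg vI (a + q') (2 * D) := ha.add_lt hQ (by omega)
  have hs1 : DegLE vI ((b + p')⁻¹ + (b + q')⁻¹) (-7 * D) :=
    (inv_sum hbp hbq (k := D) (by
      have : b + p' + (b + q') = p' + q' := by linear_combination b * two_zero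
      rw [this]; exact hP.add hQ)).mono (by omega)
  have hs2 : DegLE vI ((b + i')⁻¹ + (b + j')⁻¹) (-6 * D) :=
    (inv_sum hbi hbj (k := 2 * D) (by
      have : b + i' + (b + j') = i' + j' := by linear_combination b * two_zero
      rw [this]; exact hI.add hJ)).mono (by omega)
  have hS : HasDeg vI (((a + p') * (a + q'))⁻¹ + ((p' + b)⁻¹ + (q' + b)⁻¹) +
      ((i' + b)⁻¹ + (j' + b)⁻¹)) (-4 * D) := by
    rw [add_comm p' b, add_comm q' b, add_comm i' b, add_comm j' b]
    have h0 : HasDeg vI ((a + p') * (a + q'))⁻¹ (-4 * D) := by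
      have := (hap.mul haq).inv
      rwa [show -(2 * D + 2 * D) = -4 * D by ring] at this
    exact (h0.add_lt hs1 (by omega)).add_lt hs2 (by omega)
  have hL := ((hab.pow (x + 1)).mul (hbp.mul hbq)).mul hS
  have hR : DegLE vI ((p' + q') * P1b) (D + 4 * D * (x + 1)) := by
    refine (hP.add hQ).mul ?_
    rcases hx with ⟨rfl, rfl⟩ | ⟨rfl, rfl⟩
    · exact hbi.le.mono (by push_cast; omega)
    · exact (hbi.mul hbj).le.mono (by push_cast; omega)
  refine ne_of_deg hL hR ?_
  push_cast
  nlinarith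

theorem FT2 (L p q i x : ℕ) (P1b : K2) (hpq : p < q) (hq : q ≤ L) (hi : i ≤ L + 1)
    (hx : (x = 0 ∧ P1b = 1) ∨ (x = 1 ∧ P1b = th T (L + 2) + th T i)) :
    (th T (L + 1) + th T (L + 2)) ^ (x + 1) *
      ((th T (L + 2) + th T p) * (th T (L + 2) + th T q)) * (th T (L + 2) + th T i) *
      (((th T (L + 1) + th T p) * (th T (L + 1) + th T q))⁻¹ +
        ((th T p + th T (L + 2))⁻¹ + (th T q + th T (L + 2))⁻¹)) ≠
      (th T p + th T q) * (th T (L + 2) ^ 2 + th T i) * P1b := by
  obtain ⟨ha, hb, -⟩ := degs L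
  have hD : (0 : ℤ) < 2 ^ L := by positivity
  have hP : DegLE vI (th T p) (2 ^ L) := dth_le (by omega)
  have hQ : DegLE vI (th T q) (2 ^ L) := dth_le (by omega)
  have hI : DegLE vI (th T i) (2 * 2 ^ L) := by
    have := dth_le (i := i) (m := L + 1) (by omega)
    rwa [pow_succ, mul_comm] at this
  generalize (2 : ℤ) ^ L = D at *
  generalize th T (L + 1) = a at *
  generalize th T (L + 2) = b at *
  generalize th T p = p' at *
  generalize th T q = q' at *
  generalize th T i = i' at *
  have hab : HasDeg vI (a + b) (4 * D) := HasDeg.lt_add ha.le hb (by omega)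
  have hbp : HasDeg vI (b + p') (4 * D) := hb.add_lt hP (by omega)
  have hbq : HasDeg vI (b + q') (4 * D) := hb.add_lt hQ (by omega)
  have hbi : HasDeg vI (b + i') (4 * D) := hb.add_lt hI (by omega)
  have hap : HasDeg vI (a + p') (2 * D) := ha.add_lt hP (by omega)
  have haq : HasDeg vI (a + q') (2 * D) := ha.add_lt hQ (by omega)
  have hs1 : DegLE vI ((b + p')⁻¹ + (b + q')⁻¹) (-7 * D) :=
    (inv_sum hbp hbq (k := D) (by
      have : b + p' + (b + q') = p' + q' := by linear_combination b * two_zero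
      rw [this]; exact hP.add hQ)).mono (by omega)
  have hS : HasDeg vI (((a + p') * (a + q'))⁻¹ + ((p' + b)⁻¹ + (q' + b)⁻¹)) (-4 * D) := by
    rw [add_comm p' b, add_comm q' b]
    have h0 : HasDeg vI ((a + p') * (a + q'))⁻¹ (-4 * D) := by
      have := (hap.mul haq).inv
      rwa [show -(2 * D + 2 * D) = -4 * D by ring] at this
    exact h0.add_lt hs1 (by omega)
  have hL := (((hab.pow (x + 1)).mul (hbp.mul hbq)).mul hbi).mul hS
  have hR : DegLE vI ((p' + q') * (b ^ 2 + i') * P1b) (D + 8 * D + 4 * D * x) := by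
    refine ((hP.add hQ).mul ?_).mul ?_
    · exact ((hb.pow 2).le.mono (by push_cast; omega)).add (hI.mono (by omega))
    · rcases hx with ⟨rfl, rfl⟩ | ⟨rfl, rfl⟩
      · exact hasDeg_one.le.mono (by push_cast; omega)
      · exact hbi.le.mono (by push_cast; omega)
  refine ne_of_deg hL hR ?_
  push_cast
  nlinarith

theorem FT3 (L p q s j y : ℕ) (P2b : K2) (hpq : p < q) (hqs : q < s) (hs : s ≤ L)
    (hj : j ≤ L + 1)
    (hy : (y = 0 ∧ P2b = 1) ∨ (y = 1 ∧ P2b = th T (L + 2) + th T j)) :
    (th T (L + 1) + th T (L + 2)) ^ (y + 1) *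
      ((th T (L + 2) + th T p) * (th T (L + 2) + th T q) * (th T (L + 2) + th T s)) *
      (((th T (L + 1) + th T p)⁻¹ * (th T (L + 1) + th T q)⁻¹ +
        (th T (L + 1) + th T p)⁻¹ * (th T (L + 1) + th T s)⁻¹ +
        (th T (L + 1) + th T q)⁻¹ * (th T (L + 1) + th T s)⁻¹) +
        ((th T p + th T (L + 2))⁻¹ + (th T q + th T (L + 2))⁻¹ + (th T s + th T (L + 2))⁻¹) +
        (th T j + th T (L + 2))⁻¹) ≠
      ((th T p + th T q) * (th T p + th T s) * (th T q + th T s)) * P2b := by
  obtain ⟨ha, hb, -⟩ := degs L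
  have hab2 := sq_a L
  have hD : (0 : ℤ) < 2 ^ L := by positivity
  have hP : DegLE vI (th T p) (2 ^ L) := dth_le (by omega)
  have hQ : DegLE vI (th T q) (2 ^ L) := dth_le (by omega)
  have hS : DegLE vI (th T s) (2 ^ L) := dth_le (by omega)
  have hJ : DegLE vI (th T j) (2 * 2 ^ L) := by
    have := dth_le (i := j) (m := L + 1) (by omega)
    rwa [pow_succ, mul_comm] at this
  generalize (2 : ℤ) ^ L = D at *
  generalize th T (L + 1) = a at *
  generalize th T (L + 2) = b at *
  generalize th T p = p' at *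
  generalize th T q = q' at *
  generalize th T s = s' at *
  generalize th T j = j' at *
  have hab : HasDeg vI (a + b) (4 * D) := HasDeg.lt_add ha.le hb (by omega)
  have hbp : HasDeg vI (b + p') (4 * D) := hb.add_lt hP (by omega)
  have hbq : HasDeg vI (b + q') (4 * D) := hb.add_lt hQ (by omega)
  have hbs : HasDeg vI (b + s') (4 * D) := hb.add_lt hS (by omega)
  have hbj : HasDeg vI (b + j') (4 * D) := hb.add_lt hJ (by omega)
  have hSum : HasDeg vI ((((a + p')⁻¹ * (a + q')⁻¹ + (a + p')⁻¹ * (a + s')⁻¹ +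
      (a + q')⁻¹ * (a + s')⁻¹) + ((p' + b)⁻¹ + (q' + b)⁻¹ + (s' + b)⁻¹) + (j' + b)⁻¹)) (-4 * D) := by
    rw [← mul_inv, ← mul_inv, ← mul_inv, add_comm p' b, add_comm q' b, add_comm s' b,
      add_comm j' b]
    have e1 := alpha_small hD hab2 ha hP hQ
    have e2 := alpha_small hD hab2 ha hP hS
    have e3 := alpha_small hD hab2 ha hQ hS
    have e4 := beta_small hD hb (hP.mono (by omega : D ≤ 2 * D))
    have e5 := beta_small hD hb (hQ.mono (by omega : D ≤ 2 * D))
    have e6 := beta_small hD hb (hS.mono (by omega : D ≤ 2 * D))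
    have e7 := beta_small hD hb hJ
    have e := ((e1.add e2).add e3).add (((e4.add e5).add (e6.add e7)).mono
      (by omega : -6 * D ≤ -5 * D))
    have hbi : HasDeg vI b⁻¹ (-4 * D) := by
      have := hb.inv
      rwa [show -(4 * D) = -4 * D by ring] at this
    have := hbi.add_lt e (by omega)
    convert this using 1
    linear_combination (-4 * b⁻¹) * two_zero
  have hL := ((hab.pow (y + 1)).mul ((hbp.mul hbq).mul hbs)).mul hSum
  have hR : DegLE vI (((p' + q') * (p' + s') * (q' + s')) * P2b) (D + D + D + 4 * D * y) := by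
    refine ((((hP.add hQ).mul (hP.add hS)).mul (hQ.add hS))).mul ?_
    rcases hy with ⟨rfl, rfl⟩ | ⟨rfl, rfl⟩
    · exact hasDeg_one.le.mono (by push_cast; omega)
    · exact hbj.le.mono (by push_cast; omega)
  refine ne_of_deg hL hR ?_
  push_cast
  nlinarith

theorem FT4 (L p q s i j : ℕ) (hpq : p < q) (hqs : q < s) (hs : s ≤ L)
    (hij : i < j) (hj : j ≤ L) :
    (th T (L + 1) + th T (L + 2)) ^ 4 *
      (((th T (L + 2) + th T p) * (th T (L + 2) + th T q) * (th T (L + 2) + th T s)) *
       ((th T (L + 2) + th T i) * (th T (L + 2) + th T j))) *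
      (((th T (L + 1) + th T i) * (th T (L + 1) + th T j))⁻¹ +
        ((th T (L + 1) + th T p)⁻¹ * (th T (L + 1) + th T q)⁻¹ +
         (th T (L + 1) + th T p)⁻¹ * (th T (L + 1) + th T s)⁻¹ +
         (th T (L + 1) + th T q)⁻¹ * (th T (L + 1) + th T s)⁻¹) +
        ((th T p + th T (L + 2))⁻¹ + (th T q + th T (L + 2))⁻¹ + (th T s + th T (L + 2))⁻¹) +
        ((th T i + th T (L + 2))⁻¹ + (th T j + th T (L + 2))⁻¹)) ≠
      (((th T p + th T q) * (th T p + th T s) * (th T q + th T s)) *
        (th T (L + 1) + th T (L + 2)) ^ 2) *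
        (((th T (L + 2) + th T i) * (th T (L + 2) + th T j) +
          (th T (L + 1) + th T (L + 2)) ^ 2) *
         ((th T (L + 2) + th T i) * (th T (L + 2) + th T j))) +
      ((th T (L + 1) + th T (L + 2)) ^ 2 * (th T i + th T j)) *
        ((((th T (L + 1) + th T p) * (th T (L + 1) + th T q) * (th T (L + 1) + th T s)) +
          ((th T (L + 1) + th T p) * (th T (L + 1) + th T q) +
            (th T (L + 1) + th T p) * (th T (L + 1) + th T s) +
            (th T (L + 1) + th T q) * (th T (L + 1) + th T s)) *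
            (th T (L + 2) + th T (L + 1))) *
         ((th T (L + 2) + th T p) * (th T (L + 2) + th T q) * (th T (L + 2) + th T s))) := by
  obtain ⟨ha, hb, -⟩ := degs L
  have hab2 := sq_a L
  have hD : (0 : ℤ) < 2 ^ L := by positivity
  have hP : DegLE vI (th T p) (2 ^ L) := dth_le (by omega)
  have hQ : DegLE vI (th T q) (2 ^ L) := dth_le (by omega)
  have hS : DegLE vI (th T s) (2 ^ L) := dth_le (by omega)
  have hI : DegLE vI (th T i) (2 ^ L) := dth_le (by omega)
  have hJ : DegLE vI (th T j) (2 ^ L) := dth_le (by omega)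
  generalize (2 : ℤ) ^ L = D at *
  generalize th T (L + 1) = a at *
  generalize th T (L + 2) = b at *
  generalize th T p = p' at *
  generalize th T q = q' at *
  generalize th T s = s' at *
  generalize th T i = i' at *
  generalize th T j = j' at *
  have hab : HasDeg vI (a + b) (4 * D) := HasDeg.lt_add ha.le hb (by omega)
  have hba : HasDeg vI (b + a) (4 * D) := hb.add_lt ha.le (by omega)
  have hbp : HasDeg vI (b + p') (4 * D) := hb.add_lt hP (by omega)
  have hbq : HasDeg vI (b + q') (4 * D) := hb.add_lt hQ (by omega)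
  have hbs : HasDeg vI (b + s') (4 * D) := hb.add_lt hS (by omega)
  have hbi : HasDeg vI (b + i') (4 * D) := hb.add_lt hI (by omega)
  have hbj : HasDeg vI (b + j') (4 * D) := hb.add_lt hJ (by omega)
  have hap : HasDeg vI (a + p') (2 * D) := ha.add_lt hP (by omega)
  have haq : HasDeg vI (a + q') (2 * D) := ha.add_lt hQ (by omega)
  have has : HasDeg vI (a + s') (2 * D) := ha.add_lt hS (by omega)
  have hSum : HasDeg vI (((a + i') * (a + j'))⁻¹ + ((a + p')⁻¹ * (a + q')⁻¹ +
      (a + p')⁻¹ * (a + s')⁻¹ +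
      (a + q')⁻¹ * (a + s')⁻¹) + ((p' + b)⁻¹ + (q' + b)⁻¹ + (s' + b)⁻¹) +
      ((i' + b)⁻¹ + (j' + b)⁻¹)) (-4 * D) := by
    rw [← mul_inv, ← mul_inv, ← mul_inv, add_comm p' b, add_comm q' b, add_comm s' b,
      add_comm j' b, add_comm i' b]
    have e0 := alpha_small hD hab2 ha hI hJ
    have e1 := alpha_small hD hab2 ha hP hQ
    have e2 := alpha_small hD hab2 ha hP hS
    have e3 := alpha_small hD hab2 ha hQ hS
    have e4 := beta_small hD hb (hP.mono (by omega : D ≤ 2 * D))
    have e5 := beta_small hD hb (hQ.mono (by omega : D ≤ 2 * D))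
    have e6 := beta_small hD hb (hS.mono (by omega : D ≤ 2 * D))
    have e7 := beta_small hD hb (hI.mono (by omega : D ≤ 2 * D))
    have e8 := beta_small hD hb (hJ.mono (by omega : D ≤ 2 * D))
    have e := ((e0.add e1).add (e2.add e3)).add ((((e4.add e5).add (e6.add e7)).add e8).mono
      (by omega : -6 * D ≤ -5 * D))
    have hbi : HasDeg vI b⁻¹ (-4 * D) := by
      have := hb.inv
      rwa [show -(4 * D) = -4 * D by ring] at this
    have := hbi.add_lt e (by omega)
    convert this using 1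
    linear_combination (-5 * b⁻¹) * two_zero
  have hL := ((hab.pow 4).mul (((hbp.mul hbq).mul hbs).mul (hbi.mul hbj))).mul hSum
  have hR1 : DegLE vI ((((p' + q') * (p' + s') * (q' + s')) * (a + b) ^ 2) *
      (((b + i') * (b + j') + (a + b) ^ 2) * ((b + i') * (b + j'))))
      ((D + D + D + 8 * D) + (5 * D + 8 * D)) := by
    refine ((((hP.add hQ).mul (hP.add hS)).mul (hQ.add hS)).mul
      ((hab.pow 2).le.mono (by push_cast; omega))).mul (DegLE.mul ?_ ?_)
    · have : (b + i') * (b + j') + (a + b) ^ 2 = b * (i' + j') + i' * j' + b := by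
        rw [hab2]
        linear_combination (a ^ 4 + a ^ 3) * two_zero
      rw [this]
      refine ((hb.le.mul (hI.add hJ)).mono (by omega)).add ?_ |>.add ?_
      · exact (hI.mul hJ).mono (by omega)
      · exact hb.le.mono (by omega)
    · exact (hbi.mul hbj).le.mono (by omega)
  have hR2 : DegLE vI (((a + b) ^ 2 * (i' + j')) *
      ((((a + p') * (a + q') * (a + s')) +
        ((a + p') * (a + q') + (a + p') * (a + s') + (a + q') * (a + s')) * (b + a)) *
        ((b + p') * (b + q') * (b + s')))) ((8 * D + D) + (8 * D + 12 * D)) := by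
    refine DegLE.mul ((hab.pow 2).le.mono (by push_cast; omega) |>.mul (hI.add hJ)) ?_
    refine DegLE.mul ?_ ?_
    · refine DegLE.add ?_ ?_
      · exact ((hap.mul haq).mul has).le.mono (by omega)
      · refine (DegLE.mul (m := 4 * D) ?_ hba.le).mono (by omega)
        refine DegLE.add (DegLE.add ?_ ?_) ?_
        · exact (hap.mul haq).le.mono (by omega)
        · exact (hap.mul has).le.mono (by omega)
        · exact (haq.mul has).le.mono (by omega)
    · exact ((hbp.mul hbq).mul hbs).le.mono (by omega)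
  refine ne_of_deg hL ((hR1.mono (by omega : _ ≤ 30 * D)).add (hR2.mono (by omega))) ?_
  push_cast
  linarith

theorem FT5 (L p q s j x : ℕ) (P1b P1c : K2) (hpq : p < q) (hqs : q < s) (hs : s ≤ L)
    (hj : j ≤ L + 1)
    (hx : (x = 0 ∧ P1b = 1 ∧ P1c = 1) ∨
      (x = 1 ∧ P1b = th T (L + 2) + th T j ∧ P1c = th T (L + 3) + th T j)) :
    (th T (L + 1) + th T (L + 3)) ^ (x + 5) *
      ((th T (L + 3) + th T p) * (th T (L + 3) + th T q) * (th T (L + 3) + th T s)) *
      ((th T (L + 1) + th T (L + 2)) ^ 4 *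
        ((th T j + th T (L + 3))⁻¹ +
         ((th T p + th T (L + 3))⁻¹ + (th T q + th T (L + 3))⁻¹ + (th T s + th T (L + 3))⁻¹) +
         ((th T (L + 2) + th T p)⁻¹ * (th T (L + 2) + th T q)⁻¹ +
          (th T (L + 2) + th T p)⁻¹ * (th T (L + 2) + th T s)⁻¹ +
          (th T (L + 2) + th T q)⁻¹ * (th T (L + 2) + th T s)⁻¹)) +
       (th T (L + 1) + th T (L + 2)) ^ (x + 5) *
         (((th T (L + 2) + th T p) * (th T (L + 2) + th T q) * (th T (L + 2) + th T s) +
           ((th T (L + 2) + th T p) * (th T (L + 2) + th T q) +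
            (th T (L + 2) + th T p) * (th T (L + 2) + th T s) +
            (th T (L + 2) + th T q) * (th T (L + 2) + th T s)) *
            (th T (L + 1) + th T (L + 2))) *
          ((th T (L + 1) + th T p) * (th T (L + 1) + th T q) * (th T (L + 1) + th T s))⁻¹) *
         (P1b * ((th T (L + 2) + th T p) * (th T (L + 2) + th T q) *
          (th T (L + 2) + th T s)))⁻¹) ≠
    (th T (L + 1) + th T (L + 3)) ^ 4 * P1c *
      (((th T p + th T q) * (th T p + th T s) * (th T q + th T s)) *
        (th T (L + 2) + th T (L + 3)) ^ 2) := by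
  obtain ⟨ha, hb, hc⟩ := degs L
  have hD : (0 : ℤ) < 2 ^ L := by positivity
  have hP : DegLE vI (th T p) (2 ^ L) := dth_le (by omega)
  have hQ : DegLE vI (th T q) (2 ^ L) := dth_le (by omega)
  have hS : DegLE vI (th T s) (2 ^ L) := dth_le (by omega)
  have hJ : DegLE vI (th T j) (2 * 2 ^ L) := by
    have := dth_le (i := j) (m := L + 1) (by omega)
    rwa [pow_succ, mul_comm] at this
  generalize (2 : ℤ) ^ L = D at *
  generalize th T (L + 1) = a at *
  generalize th T (L + 2) = b at *
  generalize th T (L + 3) = c at *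
  generalize th T p = p' at *
  generalize th T q = q' at *
  generalize th T s = s' at *
  generalize th T j = j' at *
  have hab : HasDeg vI (a + b) (4 * D) := HasDeg.lt_add ha.le hb (by omega)
  have hac : HasDeg vI (a + c) (8 * D) := HasDeg.lt_add ha.le hc (by omega)
  have hbc : HasDeg vI (b + c) (8 * D) := HasDeg.lt_add hb.le hc (by omega)
  have hbp : HasDeg vI (b + p') (4 * D) := hb.add_lt hP (by omega)
  have hbq : HasDeg vI (b + q') (4 * D) := hb.add_lt hQ (by omega)
  have hbs : HasDeg vI (b + s') (4 * D) := hb.add_lt hS (by omega)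
  have hbj : HasDeg vI (b + j') (4 * D) := hb.add_lt hJ (by omega)
  have hcp : HasDeg vI (c + p') (8 * D) := hc.add_lt hP (by omega)
  have hcq : HasDeg vI (c + q') (8 * D) := hc.add_lt hQ (by omega)
  have hcs : HasDeg vI (c + s') (8 * D) := hc.add_lt hS (by omega)
  have hcj : HasDeg vI (c + j') (8 * D) := hc.add_lt hJ (by omega)
  have hap : HasDeg vI (a + p') (2 * D) := ha.add_lt hP (by omega)
  have haq : HasDeg vI (a + q') (2 * D) := ha.add_lt hQ (by omega)
  have has : HasDeg vI (a + s') (2 * D) := ha.add_lt hS (by omega)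
  -- the first inner term
  have h1 : DegLE vI ((a + b) ^ 4 * ((j' + c)⁻¹ + ((p' + c)⁻¹ + (q' + c)⁻¹ + (s' + c)⁻¹) +
      ((b + p')⁻¹ * (b + q')⁻¹ + (b + p')⁻¹ * (b + s')⁻¹ + (b + q')⁻¹ * (b + s')⁻¹))) (8 * D) := by
    rw [add_comm p' c, add_comm q' c, add_comm s' c, add_comm j' c]
    refine (DegLE.mul (m := 16 * D) (n := -8 * D) ((hab.pow 4).le.mono (by push_cast; omega))
      ?_).mono (by omega)
    refine DegLE.add (DegLE.add ?_ (DegLE.add (DegLE.add ?_ ?_) ?_)) (DegLE.add (DegLE.add ?_ ?_) ?_)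
    · exact hcj.inv.le.mono (by omega)
    · exact hcp.inv.le.mono (by omega)
    · exact hcq.inv.le.mono (by omega)
    · exact hcs.inv.le.mono (by omega)
    · exact (hbp.inv.mul hbq.inv).le.mono (by omega)
    · exact (hbp.inv.mul hbs.inv).le.mono (by omega)
    · exact (hbq.inv.mul hbs.inv).le.mono (by omega)
  have h2 : HasDeg vI ((b + p') * (b + q') * (b + s') +
      ((b + p') * (b + q') + (b + p') * (b + s') + (b + q') * (b + s')) * (a + b)) (10 * D) := by
    have e : (b + p') * (b + q') * (b + s') +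
      ((b + p') * (b + q') + (b + p') * (b + s') + (b + q') * (b + s')) * (a + b) =
      a * b ^ 2 + (s' * ((b + p') * (b + q')) + q' * ((b + p') * (b + s')) +
        p' * ((b + q') * (b + s')) + a * (b * (q' + s') + b * (p' + s') + b * (p' + q') +
          (p' * q' + p' * s' + q' * s'))) := by
      have h := two_zero
      linear_combination (a * b ^ 2 + 2 * b ^ 3 - p' * q' * s' + b ^ 2 * (p' + q' + s')) * h
    rw [e]
    have e1 : HasDeg vI (a * b ^ 2) (10 * D) := by
      have := ha.mul (hb.pow 2)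
      convert this using 1
      push_cast; ring
    refine e1.add_lt (n := 9 * D) ?_ (by omega)
    refine DegLE.add (DegLE.add (DegLE.add ?_ ?_) ?_) ?_
    · exact (hS.mul (hbp.mul hbq).le).mono (by omega)
    · exact (hQ.mul (hbp.mul hbs).le).mono (by omega)
    · exact (hP.mul (hbq.mul hbs).le).mono (by omega)
    · refine (ha.le.mul (n := 5 * D) ?_).mono (by omega)
      refine DegLE.add (DegLE.add (DegLE.add ?_ ?_) ?_) (DegLE.add (DegLE.add ?_ ?_) ?_)
      · exact (hb.le.mul (hQ.add hS)).mono (by omega)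
      · exact (hb.le.mul (hP.add hS)).mono (by omega)
      · exact (hb.le.mul (hP.add hQ)).mono (by omega)
      · exact (hP.mul hQ).mono (by omega)
      · exact (hP.mul hS).mono (by omega)
      · exact (hQ.mul hS).mono (by omega)
  have hP1b : HasDeg vI P1b (4 * D * x) := by
    rcases hx with ⟨rfl, rfl, -⟩ | ⟨rfl, rfl, -⟩
    · simpa using hasDeg_one
    · simpa using hbj
  have hP1c : HasDeg vI P1c (8 * D * x) := by
    rcases hx with ⟨rfl, -, rfl⟩ | ⟨rfl, -, rfl⟩
    · simpa using hasDeg_one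
    · simpa using hcj
  have h3 := ((hab.pow (x + 5)).mul (h2.mul ((hap.mul haq).mul has).inv)).mul
    (hP1b.mul ((hbp.mul hbq).mul hbs)).inv
  have h4 := HasDeg.lt_add h1 h3 (by push_cast; nlinarith)
  have hL := ((hac.pow (x + 5)).mul ((hcp.mul hcq).mul hcs)).mul h4
  have hR : DegLE vI ((a + c) ^ 4 * P1c * (((p' + q') * (p' + s') * (q' + s')) * (b + c) ^ 2))
      ((32 * D + 8 * D * x) + ((D + D + D) + 16 * D)) := by
    refine DegLE.mul (DegLE.mul ((hac.pow 4).le.mono (by push_cast; omega)) hP1c.le) ?_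
    exact (((hP.add hQ).mul (hP.add hS)).mul (hQ.add hS)).mul
      ((hbc.pow 2).le.mono (by push_cast; omega))
  refine ne_of_deg hL hR ?_
  push_cast
  nlinarith

end MZ
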