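import Mathlib

/-!
# Degrees in a valued field

A small toolkit: `HasDeg v x n` says that `x` has degree exactly `n`, `DegLE v x n` that the
degree of `x` is at most `n` (with the convention that `0` has degree at most everything).
-/

namespace MZ

open WithZero

section Toolkit

variable {K : Type*} [Field K] (v : Valuation K (WithZero (Multiplicative ℤ)))

/-- `x` has degree exactly `n`. -/
def HasDeg (x : K) (n : ℤ) : Prop := v x = exp n

/-- `x` has degree at most `n`. -/
def DegLE (x : K) (n : ℤ) : Prop := v x ≤ exp n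

variable {v}
variable {x y : K} {m n : ℤ}

lemma HasDeg.ne_zero (h : HasDeg v x n) : x ≠ 0 := by
  rintro rfl
  unfold HasDeg at h
  rw [map_zero] at h
  exact exp_ne_zero h.symm

lemma HasDeg.le (h : HasDeg v x n) : DegLE v x n := le_of_eq h

lemma DegLE.mono (h : DegLE v x m) (hmn : m ≤ n) : DegLE v x n :=
  le_trans h (exp_le_exp.mpr hmn)

lemma degLE_zero (n : ℤ) : DegLE v (0 : K) n := by
  unfold DegLE
  rw [map_zero]
  exact zero_le

lemma hasDeg_one : HasDeg v (1 : K) 0 := by
  unfold HasDeg
  rw [map_one, exp_zero]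

lemma HasDeg.mul (hx : HasDeg v x m) (hy : HasDeg v y n) : HasDeg v (x * y) (m + n) := by
  unfold HasDeg at *
  rw [map_mul, hx, hy, exp_add]

lemma DegLE.mul (hx : DegLE v x m) (hy : DegLE v y n) : DegLE v (x * y) (m + n) := by
  unfold DegLE at *
  rw [map_mul, exp_add]
  exact mul_le_mul' hx hy

lemma HasDeg.inv (hx : HasDeg v x m) : HasDeg v x⁻¹ (-m) := by
  unfold HasDeg at *
  rw [map_inv₀, hx, exp_neg]

lemma HasDeg.div (hx : HasDeg v x m) (hy : HasDeg v y n) : HasDeg v (x / y) (m - n) := by
  rw [div_eq_mul_inv, sub_eq_add_neg]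
  exact hx.mul hy.inv

lemma DegLE.div (hx : DegLE v x m) (hy : HasDeg v y n) : DegLE v (x / y) (m - n) := by
  rw [div_eq_mul_inv, sub_eq_add_neg]
  exact hx.mul hy.inv.le

lemma HasDeg.pow (hx : HasDeg v x m) (k : ℕ) : HasDeg v (x ^ k) (k * m) := by
  induction k with
  | zero => simpa using hasDeg_one
  | succ k ih =>
    rw [pow_succ]
    have := ih.mul hx
    rwa [show ((k + 1 : ℕ) : ℤ) * m = k * m + m by push_cast; ring]

lemma DegLE.add (hx : DegLE v x n) (hy : DegLE v y n) : DegLE v (x + y) n := by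
  unfold DegLE at *
  exact le_trans (v.map_add x y) (max_le hx hy)

lemma HasDeg.add_lt (hx : HasDeg v x m) (hy : DegLE v y n) (h : n < m) :
    HasDeg v (x + y) m := by
  unfold HasDeg DegLE at *
  have : v y < v x := by
    rw [hx]; exact lt_of_le_of_lt hy (exp_lt_exp.mpr h)
  rw [Valuation.map_add_eq_of_lt_left v this, hx]

lemma HasDeg.lt_add (hx : DegLE v x m) (hy : HasDeg v y n) (h : m < n) :
    HasDeg v (x + y) n := by
  rw [add_comm]
  exact hy.add_lt hx h

lemma HasDeg.unique (h1 : HasDeg v x m) (h2 : HasDeg v x n) : m = n := by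
  unfold HasDeg at *
  rw [h1] at h2
  exact exp_injective h2

lemma HasDeg.le_of_degLE (h1 : HasDeg v x m) (h2 : DegLE v x n) : m ≤ n := by
  unfold HasDeg DegLE at *
  rw [h1] at h2
  exact exp_le_exp.mp h2

lemma hasDeg_iff_of_ne {x : K} (hx : x ≠ 0) : ∃ n, HasDeg v x n := by
  have h := (Valuation.ne_zero_iff v).mpr hx
  exact ⟨log (v x), (exp_log h).symm⟩

/-- Two elements of different degree cannot add up to zero. -/
lemma HasDeg.add_ne_zero (hx : HasDeg v x m) (hy : DegLE v y n) (h : n < m) : x + y ≠ 0 :=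
  (hx.add_lt hy h).ne_zero

lemma HasDeg.finset_prod {ι : Type*} (s : Finset ι) {f : ι → K} {d : ι → ℤ}
    (h : ∀ i ∈ s, HasDeg v (f i) (d i)) : HasDeg v (∏ i ∈ s, f i) (∑ i ∈ s, d i) := by
  classical
  induction s using Finset.induction_on with
  | empty => simpa using hasDeg_one
  | insert a s ha ih =>
    rw [Finset.prod_insert ha, Finset.sum_insert ha]
    exact (h a (Finset.mem_insert_self a s)).mul
      (ih fun i hi => h i (Finset.mem_insert_of_mem hi))

lemma DegLE.finset_sum {ι : Type*} (s : Finset ι) {f : ι → K} {n : ℤ}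
    (h : ∀ i ∈ s, DegLE v (f i) n) : DegLE v (∑ i ∈ s, f i) n := by
  classical
  induction s using Finset.induction_on with
  | empty => simpa using degLE_zero n
  | insert a s ha ih =>
    rw [Finset.sum_insert ha]
    exact (h a (Finset.mem_insert_self a s)).add
      (ih fun i hi => h i (Finset.mem_insert_of_mem hi))

end Toolkit

end MZ
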