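import Pool.Agent.Work.MP_968e92_nt.D1
import Pool.Agent.Work.MP_968e92_nt.DegTool

/-! # MP_968e92_nt, module DegFT: degrees of `θ_i`, and the inequalities in abstract form -/

open Polynomial

namespace MZ

/-- the valuation at infinity of `F_2(t)` -/
noncomputable abbrev vI : Valuation K2 (WithZero (Multiplicative ℤ)) :=
  RatFunc.inftyValuation (ZMod 2)

theorem ne_of_deg {x y : K2} {m n : ℤ} (hx : HasDeg vI x m) (hy : DegLE vI y n) (h : n < m) :
    x ≠ y := by
  rintro rfl
  exact absurd (hx.le_of_degLE hy) (by omega)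

theorem dth (i : ℕ) : HasDeg vI (th T i) (2 ^ i) := by
  have h : HasDeg vI (T : K2) 1 := by
    unfold HasDeg
    exact RatFunc.inftyValuation.X (ZMod 2)
  have := h.pow (2 ^ i)
  simpa [th] using this

theorem dth_le {i m : ℕ} (h : i ≤ m) : DegLE vI (th T i) (2 ^ m) :=
  (dth i).le.mono (pow_le_pow_right₀ (by norm_num) h)

theorem dadd {i j : ℕ} (h : i < j) : HasDeg vI (th T i + th T j) (2 ^ j) :=
  HasDeg.lt_add (dth i).le (dth j) (pow_lt_pow_right₀ (by norm_num) h)

section
variable {D : ℤ}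

/-- `(x+y)⁻¹` form -/
theorem inv_sum {x y : K2} {m n k : ℤ} (hx : HasDeg vI x m) (hy : HasDeg vI y n)
    (hxy : DegLE vI (x + y) k) : DegLE vI (x⁻¹ + y⁻¹) (k - (m + n)) := by
  have h : x⁻¹ + y⁻¹ = (x + y) / (x * y) := by
    field_simp [hx.ne_zero, hy.ne_zero]
    ring
  rw [h]
  exact hxy.div (hx.mul hy)

theorem two_zero : (2 : K2) = 0 := CharTwo.two_eq_zero

/-- `β_p⁻¹ + b⁻¹` is small -/
theorem beta_small {b p : K2} (hD : 0 < D) (hb : HasDeg vI b (4 * D)) (hp : DegLE vI p (2 * D)) :
    DegLE vI ((b + p)⁻¹ + b⁻¹) (-6 * D) := by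
  have h1 : HasDeg vI (b + p) (4 * D) := hb.add_lt hp (by omega)
  have := inv_sum h1 hb (k := 2 * D) (by
    have : b + p + b = p := by
      have := two_zero
      linear_combination b * this
    rw [this]; exact hp)
  exact this.mono (by omega)

/-- `(α_p α_q)⁻¹ + b⁻¹` is small, `b = a²` -/
theorem alpha_small {a b p q : K2} (hD : 0 < D) (hab : b = a ^ 2) (ha : HasDeg vI a (2 * D))
    (hp : DegLE vI p D) (hq : DegLE vI q D) :
    DegLE vI (((a + p) * (a + q))⁻¹ + b⁻¹) (-5 * D) := by
  have h1 : HasDeg vI (a + p) (2 * D) := ha.add_lt hp (by omega)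
  have h2 : HasDeg vI (a + q) (2 * D) := ha.add_lt hq (by omega)
  have hb : HasDeg vI b (4 * D) := by
    rw [hab]
    have := ha.pow 2
    convert this using 1
    push_cast; ring
  have := inv_sum (h1.mul h2) hb (k := 3 * D) (by
    have : (a + p) * (a + q) + b = a * (p + q) + p * q := by
      have := two_zero
      rw [hab]
      linear_combination a ^ 2 * this
    rw [this]
    refine DegLE.add ?_ ?_
    · exact (ha.le.mul (hp.add hq)).mono (by omega)
    · exact (hp.mul hq).mono (by omega))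
  exact this.mono (by omega)

end

end MZ
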