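import Pool.Agent.Work.MP_968e92_nt.BD

/-! # MP_968e92_nt, module Loc: descent and local analysis -/

open Polynomial

set_option linter.unusedSectionVars false

namespace MZ

section
variable {K : Type*} [Field K] (θ : K)

/-- the carry product `C_l = ∏_{1 ≤ j ≤ l, no carry into position j} (Z+θ_j)`
(carries of the addition `n₁ + n₂ + 1`) -/
noncomputable def CP (n₁ n₂ l : ℕ) : K[X] :=
  ∏ j ∈ (Finset.Icc 1 l).filter (fun j => n₁ % 2 ^ j + n₂ % 2 ^ j + 1 < 2 ^ j),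
    (X + C (th θ j))

/-- the system at level `l` with right-hand side `N` (`ν = n₁+n₂+1`):
`P_l(ν) φ(Φ) = (Z+θ_{l+1})^{ν_{l+1}+1} Φ + C_l N` -/
def SysAt (n₁ n₂ l : ℕ) (N Φ : K[X]) : Prop :=
  PP θ (n₁ + n₂ + 1) l * expand K 2 Φ =
    (X + C (th θ (l + 1))) ^ ((n₁ + n₂ + 1) / 2 ^ (l + 1) + 1) * Φ + CP θ n₁ n₂ l * N

end

/-! ## arithmetic of carries -/

/-- indicator of the absence of a carry into position `i` -/
def loc_nc (n₁ n₂ i : ℕ) : ℕ := if n₁ % 2 ^ i + n₂ % 2 ^ i + 1 < 2 ^ i then 1 else 0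

theorem loc_nc_zero (n₁ n₂ : ℕ) : loc_nc n₁ n₂ 0 = 0 := by
  simp [loc_nc]

theorem loc_div_add (n₁ n₂ i : ℕ) :
    (n₁ + n₂ + 1) / 2 ^ i + loc_nc n₁ n₂ i = n₁ / 2 ^ i + n₂ / 2 ^ i + 1 := by
  have hp : 0 < 2 ^ i := by positivity
  have e1 := Nat.div_add_mod n₁ (2 ^ i)
  have e2 := Nat.div_add_mod n₂ (2 ^ i)
  have l1 := Nat.mod_lt n₁ hp
  have l2 := Nat.mod_lt n₂ hp
  have key : (n₁ + n₂ + 1) / 2 ^ i =
      n₁ / 2 ^ i + n₂ / 2 ^ i + (n₁ % 2 ^ i + n₂ % 2 ^ i + 1) / 2 ^ i := by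
    have : n₁ + n₂ + 1 = (n₁ % 2 ^ i + n₂ % 2 ^ i + 1) + 2 ^ i * (n₁ / 2 ^ i + n₂ / 2 ^ i) := by
      rw [mul_add]; omega
    rw [this, Nat.add_mul_div_left _ _ hp]
    omega
  unfold loc_nc
  split_ifs with h
  · rw [key, Nat.div_eq_of_lt h]
  · have : (n₁ % 2 ^ i + n₂ % 2 ^ i + 1) / 2 ^ i = 1 :=
      Nat.div_eq_of_lt_le (by omega) (by omega)
    rw [key, this]

theorem loc_nc_le (n₁ n₂ i : ℕ) : loc_nc n₁ n₂ i ≤ 1 := by
  unfold loc_nc; split_ifs <;> omega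

theorem loc_div_succ (n i : ℕ) : n / 2 ^ (i + 1) = n / 2 ^ i / 2 := by
  rw [Nat.div_div_eq_div_mul, ← pow_succ]

/-- indicator of a zero digit -/
def loc_z (n i : ℕ) : ℕ := 1 - n / 2 ^ i % 2

theorem loc_z_true {n i : ℕ} (h : n.testBit i = true) : loc_z n i = 0 := by
  rw [bd_testBit] at h
  have := of_decide_eq_true h
  unfold loc_z; omega

theorem loc_z_false {n i : ℕ} (h : n.testBit i = false) : loc_z n i = 1 := by
  rw [bd_testBit] at h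
  have := of_decide_eq_false h
  unfold loc_z; omega

theorem loc_digit (n₁ n₂ i : ℕ) :
    loc_z n₁ i + loc_z n₂ i + loc_nc n₁ n₂ i =
      loc_z (n₁ + n₂ + 1) i + 2 * loc_nc n₁ n₂ (i + 1) := by
  have h1 := loc_div_add n₁ n₂ i
  have h2 := loc_div_add n₁ n₂ (i + 1)
  have h3 := loc_nc_le n₁ n₂ i
  have h4 := loc_nc_le n₁ n₂ (i + 1)
  rw [loc_div_succ, loc_div_succ n₁, loc_div_succ n₂] at h2
  unfold loc_z
  omega

section
variable {K : Type*} [Field K]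

theorem loc_PP_eq (θ : K) (n l : ℕ) :
    PP θ n l = ∏ i ∈ Finset.range (l + 1), (X + C (th θ i)) ^ loc_z n i := by
  unfold PP zer
  rw [Finset.prod_filter]
  apply Finset.prod_congr rfl
  intro i _
  split_ifs with h
  · rw [loc_z_false h, pow_one]
  · rw [loc_z_true (by simpa using h), pow_zero]

theorem loc_CP_eq (θ : K) (n₁ n₂ l : ℕ) :
    CP θ n₁ n₂ l = ∏ i ∈ Finset.range (l + 1), (X + C (th θ i)) ^ loc_nc n₁ n₂ i := by
  unfold CP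
  rw [Finset.prod_filter, Finset.prod_range_succ']
  rw [loc_nc_zero, pow_zero, mul_one]
  have : Finset.Icc 1 l = Finset.Ico 1 (l + 1) := by ext; simp
  rw [this, Finset.prod_Ico_eq_prod_range]
  apply Finset.prod_congr (by simp)
  intro i _
  rw [add_comm 1 i]
  unfold loc_nc
  split_ifs <;> simp

theorem loc_CP_succ (θ : K) (n₁ n₂ l : ℕ) :
    CP θ n₁ n₂ (l + 1) = (X + C (th θ (l + 1))) ^ loc_nc n₁ n₂ (l + 1) * CP θ n₁ n₂ l := by
  rw [loc_CP_eq, loc_CP_eq, Finset.prod_range_succ _ (l + 1), mul_comm]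

end

section
variable {K : Type*} [Field K] [CharP K 2] {θ : K}

theorem loc_expand_CP (n₁ n₂ l : ℕ) :
    expand K 2 (CP θ n₁ n₂ (l + 1)) =
      ∏ i ∈ Finset.range (l + 1), (X + C (th θ i)) ^ (2 * loc_nc n₁ n₂ (i + 1)) := by
  rw [loc_CP_eq, Finset.prod_range_succ']
  rw [loc_nc_zero, pow_zero, mul_one, map_prod]
  apply Finset.prod_congr rfl
  intro i _
  rw [map_pow, bd_expand_th, ← pow_mul]

/-- `P_l(n₁) P_l(n₂) C_l = P_l(ν) φ(C_{l+1})` -/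
theorem loc_PPC (θ : K) (n₁ n₂ l : ℕ) :
    PP θ n₁ l * PP θ n₂ l * CP θ n₁ n₂ l =
      PP θ (n₁ + n₂ + 1) l * expand K 2 (CP θ n₁ n₂ (l + 1)) := by
  rw [loc_expand_CP, loc_PP_eq, loc_PP_eq, loc_PP_eq, loc_CP_eq,
    ← Finset.prod_mul_distrib, ← Finset.prod_mul_distrib, ← Finset.prod_mul_distrib]
  apply Finset.prod_congr rfl
  intro i _
  rw [← pow_add, ← pow_add, ← pow_add, loc_digit]

/-! ## general lemmas on `expand` and coprimality -/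

theorem loc_exp_factor {A B Q : K[X]} (hA : A ≠ 0) (h : expand K 2 A * Q = expand K 2 B) :
    ∃ R, Q = expand K 2 R ∧ A * R = B := by
  have hA' : expand K 2 A ≠ 0 := by
    intro h0
    exact hA ((expand_eq_zero (by norm_num)).mp h0)
  have hd : derivative Q = 0 := by
    have := congrArg derivative h
    rw [derivative_mul, bd_der_expand, bd_der_expand, zero_mul, zero_add] at this
    exact (mul_eq_zero.mp this).resolve_left hA'
  refine ⟨contract 2 Q, (expand_contract 2 hd (by norm_num)).symm, ?_⟩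
  apply expand_injective (n := 2) (by norm_num)
  rw [map_mul, expand_contract 2 hd (by norm_num), h]

theorem loc_coprime {P : K[X]} {t : K} (h : P.eval t ≠ 0) : IsCoprime (X + C t) P := by
  have e : (X + C t : K[X]) = X - C t := by
    rw [sub_eq_add_neg, ← C_neg, CharTwo.neg_eq]
  rw [e]
  rw [(irreducible_X_sub_C t).coprime_iff_not_dvd, dvd_iff_isRoot]
  exact h

theorem loc_coprime_pow {P : K[X]} {t : K} (h : P.eval t ≠ 0) (k : ℕ) :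
    IsCoprime ((X + C t) ^ k) P := (loc_coprime h).pow_left

theorem loc_dvd_of_eval {R : K[X]} {t : K} (h : R.eval t = 0) : ∃ Q, R = (X + C t) * Q := by
  have e : (X + C t : K[X]) = X - C t := by
    rw [sub_eq_add_neg, ← C_neg, CharTwo.neg_eq]
  rw [e]
  exact dvd_iff_isRoot.mpr h

/-- level shift -/
theorem loc_shift {m x : ℕ} {Ψ B : K[X]} (h : (X + C (th θ m)) ^ (x + 1) * Ψ = expand K 2 B) :
    ∃ Φ, Ψ = (X + C (th θ m)) ^ (1 - x % 2) * expand K 2 Φ ∧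
      (X + C (th θ (m + 1))) ^ (x / 2 + 1) * Φ = B := by
  have hX : (X + C (th θ (m + 1)) : K[X]) ≠ 0 := X_add_C_ne_zero _
  have hX0 : (X + C (th θ m) : K[X]) ≠ 0 := X_add_C_ne_zero _
  rcases Nat.mod_two_eq_zero_or_one x with hx | hx
  · -- even
    have e1 : x + 1 = 2 * (x / 2) + 1 := by omega
    rw [e1, pow_succ, pow_mul, ← bd_expand_th, ← map_pow, mul_assoc] at h
    obtain ⟨R, hR1, hR2⟩ := loc_exp_factor (pow_ne_zero _ hX) h
    have h0 : R.eval (th θ (m + 1)) = 0 := by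
      have := congrArg (eval (th θ m)) hR1
      rw [eval_mul, eval_add, eval_X, eval_C, bd_add_self, zero_mul, expand_eval,
        bd_th_sq] at this
      exact this.symm
    obtain ⟨Φ, hΦ⟩ := loc_dvd_of_eval h0
    refine ⟨Φ, ?_, ?_⟩
    · rw [hΦ, map_mul, bd_expand_th] at hR1
      have : (X + C (th θ m)) * Ψ = (X + C (th θ m)) * ((X + C (th θ m)) * expand K 2 Φ) := by
        rw [hR1]; ring
      have := mul_left_cancel₀ hX0 this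
      rw [this, hx]
      simp
    · rw [← hR2, hΦ]; ring
  · have e1 : x + 1 = 2 * (x / 2 + 1) := by omega
    rw [e1, pow_mul, ← bd_expand_th, ← map_pow] at h
    obtain ⟨R, hR1, hR2⟩ := loc_exp_factor (pow_ne_zero _ hX) h
    refine ⟨R, ?_, hR2⟩
    rw [hR1, hx]
    simp

theorem loc_PP_succ (n l : ℕ) :
    PP θ n (l + 1) = PP θ n l * (X + C (th θ (l + 1))) ^ (1 - n / 2 ^ (l + 1) % 2) := by
  rw [loc_PP_eq, loc_PP_eq, Finset.prod_range_succ _ (l + 1)]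
  rfl

theorem loc_PP0 (n : ℕ) :
    PP θ n 0 = (X + C (th θ 0)) ^ (1 - n % 2) := by
  rw [loc_PP_eq]
  simp [loc_z]

/-! ## Wronskian calculus -/

theorem loc_wr_add_left (f g h : K[X]) : Wr (f + g) h = Wr f h + Wr g h := by
  unfold Wr; rw [derivative_add]; ring

theorem loc_wr_mul_mul (h f g : K[X]) : Wr (h * f) (h * g) = h ^ 2 * Wr f g := by
  unfold Wr
  rw [derivative_mul, derivative_mul]
  have : (derivative h * f + h * derivative f) * (h * g) + h * f * (derivative h * g + h * derivative g)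
      = h ^ 2 * (derivative f * g + f * derivative g) +
        (derivative h * f * h * g + derivative h * f * h * g) := by ring
  rw [this, bd_padd_self, add_zero]

theorem loc_wr_exp (P f g : K[X]) : Wr (P * expand K 2 f) (P * expand K 2 g) = 0 := by
  rw [loc_wr_mul_mul]
  unfold Wr
  rw [bd_der_expand, bd_der_expand]
  ring

theorem loc_wr_prod (E H P Q : K[X]) :
    Wr (E * H) (P * Q) = Wr E P * (H * Q) + Wr H Q * (E * P) := by
  unfold Wr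
  rw [derivative_mul, derivative_mul]
  ring

theorem loc_der_sq (f : K[X]) (k : ℕ) : derivative (f ^ (2 * k)) = 0 := by
  rw [pow_mul, derivative_pow, derivative_pow]
  have : ((2 : ℕ) : K) = 0 := by exact_mod_cast CharP.cast_eq_zero K 2
  rw [this]
  simp

theorem loc_wr_sq_mul (h f g : K[X]) (k : ℕ) : Wr (h ^ (2 * k) * f) g = h ^ (2 * k) * Wr f g := by
  unfold Wr
  rw [derivative_mul, loc_der_sq]
  ring

/-- the basic identity (**) -/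
theorem loc_star (n₁ n₂ L : ℕ) (N Φ : K[X]) (hS : SysAt θ n₁ n₂ L N Φ) :
    CP θ n₁ n₂ L ^ 2 * Wr N (PP θ n₁ L * PP θ n₂ L) =
      Wr ((X + C (th θ (L + 1))) ^ ((n₁ + n₂ + 1) / 2 ^ (L + 1) + 1) * Φ)
        (CP θ n₁ n₂ L * (PP θ n₁ L * PP θ n₂ L)) := by
  unfold SysAt at hS
  have e1 : CP θ n₁ n₂ L * N = PP θ (n₁ + n₂ + 1) L * expand K 2 Φ +
      (X + C (th θ (L + 1))) ^ ((n₁ + n₂ + 1) / 2 ^ (L + 1) + 1) * Φ := by
    rw [hS]
    have : ∀ a b : K[X], b = a + b + a := by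
      intro a b
      have : a + b + a = b + (a + a) := by ring
      rw [this, bd_padd_self, add_zero]
    exact this _ _
  have e2 : CP θ n₁ n₂ L * (PP θ n₁ L * PP θ n₂ L) =
      PP θ (n₁ + n₂ + 1) L * expand K 2 (CP θ n₁ n₂ (L + 1)) := by
    rw [← loc_PPC]; ring
  rw [← loc_wr_mul_mul, e1, loc_wr_add_left]
  rw [e2, loc_wr_exp, zero_add]

/-- the identity (***) -/
theorem loc_star3 (n₁ n₂ L : ℕ) (N Φ : K[X]) (hS : SysAt θ n₁ n₂ L N Φ) :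
    CP θ n₁ n₂ (L + 1) ^ 2 * Wr N (PP θ n₁ L * PP θ n₂ L) =
      Wr ((X + C (th θ (L + 1))) ^ (n₁ / 2 ^ (L + 1) + n₂ / 2 ^ (L + 1) + 2) * Φ)
        (CP θ n₁ n₂ (L + 1) * (PP θ n₁ L * PP θ n₂ L)) := by
  have hd := loc_div_add n₁ n₂ (L + 1)
  have e : n₁ / 2 ^ (L + 1) + n₂ / 2 ^ (L + 1) + 2 =
      loc_nc n₁ n₂ (L + 1) + ((n₁ + n₂ + 1) / 2 ^ (L + 1) + 1) := by omega
  rw [loc_CP_succ, mul_pow, mul_assoc, loc_star n₁ n₂ L N Φ hS, ← loc_wr_mul_mul, e, pow_add]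
  congr 1 <;> ring

/-- the multiplied system -/
theorem loc_sys_mul (n₁ n₂ L : ℕ) (N Φ : K[X]) (hS : SysAt θ n₁ n₂ L N Φ) :
    CP θ n₁ n₂ (L + 1) * (PP θ n₁ L * PP θ n₂ L) * expand K 2 Φ =
      expand K 2 (CP θ n₁ n₂ (L + 1)) *
        ((X + C (th θ (L + 1))) ^ (n₁ / 2 ^ (L + 1) + n₂ / 2 ^ (L + 1) + 2) * Φ +
          CP θ n₁ n₂ (L + 1) * N) := by
  have hd := loc_div_add n₁ n₂ (L + 1)
  have e : n₁ / 2 ^ (L + 1) + n₂ / 2 ^ (L + 1) + 2 =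
      loc_nc n₁ n₂ (L + 1) + ((n₁ + n₂ + 1) / 2 ^ (L + 1) + 1) := by omega
  have h1 := loc_PPC θ n₁ n₂ L
  unfold SysAt at hS
  have h2 : (X + C (th θ (L + 1))) ^ (n₁ / 2 ^ (L + 1) + n₂ / 2 ^ (L + 1) + 2) * Φ +
          CP θ n₁ n₂ (L + 1) * N = (X + C (th θ (L + 1))) ^ (loc_nc n₁ n₂ (L + 1)) *
          (PP θ (n₁ + n₂ + 1) L * expand K 2 Φ) := by
    rw [hS, e, pow_add, loc_CP_succ]; ring
  rw [h2]
  have h3 : CP θ n₁ n₂ (L + 1) * (PP θ n₁ L * PP θ n₂ L) =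
      (X + C (th θ (L + 1))) ^ (loc_nc n₁ n₂ (L + 1)) *
        (PP θ n₁ L * PP θ n₂ L * CP θ n₁ n₂ L) := by
    rw [loc_CP_succ]; ring
  rw [h3, h1]
  ring

end

section
variable {K : Type*} [Field K] [CharP K 2] {θ : K} (hθ : Function.Injective (th θ))
include hθ

theorem loc_CP_eval_ne (n₁ n₂ l m : ℕ) (h : l < m) : (CP θ n₁ n₂ l).eval (th θ m) ≠ 0 := by
  unfold CP
  rw [eval_prod, Finset.prod_ne_zero_iff]
  intro j hj
  rw [Finset.mem_filter, Finset.mem_Icc] at hj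
  simp only [eval_add, eval_X, eval_C]
  apply bd_th_ne hθ
  omega

theorem loc_alg1 (u c e₁ e₂ : K[X]) (d e m₁ m₂ : ℕ) (h : m₁ + m₂ = d + e) :
    c * (u ^ m₁ * e₁ * (u ^ m₂ * e₂)) = u ^ e * (u ^ d * c * (e₁ * e₂)) := by
  have : u ^ m₁ * e₁ * (u ^ m₂ * e₂) = u ^ (m₁ + m₂) * (e₁ * e₂) := by rw [pow_add]; ring
  rw [this, h, pow_add]; ring

theorem loc_alg2 (a b c d : K[X]) : (a + b) * d = a * (c + d) + (a * c + b * d) := by
  have : a * (c + d) + (a * c + b * d) = (a * c + a * c) + (a + b) * d := by ring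
  rw [this, bd_padd_self, zero_add]

theorem loc_alg3 (c p₁ p₂ e₁ e₂ : K[X]) :
    c * (p₁ * e₁ * (p₂ * e₂)) = p₁ * p₂ * c * (e₁ * e₂) := by ring

/-- the descent: the system at every level `l ≤ min (pc n₁ + 1) (pc n₂)` -/
theorem sys_descent (n₁ n₂ : ℕ) (F : K[X])
    (hF : expand K 2 F = (X + C (th θ 0)) ^ (n₁ + n₂ + 2) * F +
      expand K 2 (EE θ n₁ 0 * HH θ n₂ 0)) (l : ℕ) (hl₁ : l ≤ pc n₁ + 1) (hl₂ : l ≤ pc n₂) :
    ∃ Φ : K[X], SysAt θ n₁ n₂ l (EE θ n₁ l * HH θ n₂ l) Φ := by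
  induction l with
  | zero =>
    have h1 : (X + C (th θ 0)) ^ ((n₁ + n₂ + 1) + 1) * F =
        expand K 2 (F + EE θ n₁ 0 * HH θ n₂ 0) := by
      rw [map_add, hF]
      have : ∀ a b : K[X], a = a + b + b := by
        intro a b; rw [add_assoc, bd_padd_self, add_zero]
      exact this _ _
    obtain ⟨Φ, hΦ1, hΦ2⟩ := loc_shift h1
    refine ⟨Φ, ?_⟩
    unfold SysAt
    have hC : CP θ n₁ n₂ 0 = 1 := by simp [CP]
    rw [hC, one_mul, loc_PP0, ← hΦ1]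
    simp only [zero_add, pow_one] at hΦ2 ⊢
    rw [hΦ2, add_assoc, bd_padd_self, add_zero]
  | succ l ih =>
    obtain ⟨Φ, hΦ⟩ := ih (by omega) (by omega)
    unfold SysAt at hΦ
    have hE := EE_step hθ n₁ l (by omega)
    have hH := HH_step hθ n₂ l (by omega)
    have h1 : (X + C (th θ (l + 1))) ^ ((n₁ + n₂ + 1) / 2 ^ (l + 1) + 1) * Φ =
        PP θ (n₁ + n₂ + 1) l * expand K 2 (Φ + CP θ n₁ n₂ (l + 1) *
          (EE θ n₁ (l + 1) * HH θ n₂ (l + 1))) := by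
      have h2 : CP θ n₁ n₂ l * (EE θ n₁ l * HH θ n₂ l) =
          PP θ (n₁ + n₂ + 1) l * expand K 2 (CP θ n₁ n₂ (l + 1) *
            (EE θ n₁ (l + 1) * HH θ n₂ (l + 1))) := by
        rw [map_mul, ← mul_assoc (PP θ (n₁ + n₂ + 1) l), ← loc_PPC, hE, hH, map_mul]
        ring
      rw [map_add, mul_add, hΦ, h2]
      have : ∀ a b : K[X], a = a + b + b := by
        intro a b; rw [add_assoc, bd_padd_self, add_zero]
      exact this _ _
    have hcop : IsCoprime ((X + C (th θ (l + 1)) : K[X]) ^ ((n₁ + n₂ + 1) / 2 ^ (l + 1) + 1))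
        (PP θ (n₁ + n₂ + 1) l) :=
      loc_coprime_pow (PP_eval_ne hθ _ l (l + 1) (by omega)) _
    obtain ⟨Ψ, hΨ⟩ : PP θ (n₁ + n₂ + 1) l ∣ Φ :=
      hcop.symm.dvd_of_dvd_mul_left ⟨_, h1⟩
    have hPne : PP θ (n₁ + n₂ + 1) l ≠ 0 := by
      intro h0
      apply PP_eval_ne hθ (n₁ + n₂ + 1) l (l + 1) (by omega)
      rw [h0, eval_zero]
    have h3 : (X + C (th θ (l + 1))) ^ ((n₁ + n₂ + 1) / 2 ^ (l + 1) + 1) * Ψ =
        expand K 2 (Φ + CP θ n₁ n₂ (l + 1) * (EE θ n₁ (l + 1) * HH θ n₂ (l + 1))) := by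
      apply mul_left_cancel₀ hPne
      rw [← h1]
      conv_rhs => rw [hΨ]
      ring
    obtain ⟨Φ', hΦ1, hΦ2⟩ := loc_shift h3
    refine ⟨Φ', ?_⟩
    unfold SysAt
    rw [loc_PP_succ, mul_assoc, ← hΦ1, ← hΨ]
    rw [show l + 1 + 1 = (l + 1) + 1 from rfl, loc_div_succ _ (l + 1), hΦ2, add_assoc,
      bd_padd_self, add_zero]

/-- passage from `E_L(n₁)H_L(n₂)` to `H_L(n₁)G_L(n₂)` -/
theorem sys_swap (n₁ n₂ L : ℕ) (Φ : K[X]) (h₁ : L ≤ pc n₁) (h₂ : L ≤ pc n₂)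
    (hS : SysAt θ n₁ n₂ L (EE θ n₁ L * HH θ n₂ L) Φ) :
    ∃ Φ' : K[X], SysAt θ n₁ n₂ L (HH θ n₁ L * GG θ n₂ L) Φ' := by
  refine ⟨Φ + CP θ n₁ n₂ (L + 1) * (EE θ n₁ (L + 1) * EE θ n₂ (L + 1)), ?_⟩
  unfold SysAt at hS ⊢
  have hE1 := EE_step hθ n₁ L h₁
  have hE2 := EE_step hθ n₂ L h₂
  have hd := loc_div_add n₁ n₂ (L + 1)
  have e : (n₁ / 2 ^ (L + 1) + 1) + (n₂ / 2 ^ (L + 1) + 1) =
      loc_nc n₁ n₂ (L + 1) + ((n₁ + n₂ + 1) / 2 ^ (L + 1) + 1) := by omega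
  have key : CP θ n₁ n₂ L * (EE θ n₁ L * EE θ n₂ L + GG θ n₁ L * GG θ n₂ L) =
      PP θ (n₁ + n₂ + 1) L * expand K 2 (CP θ n₁ n₂ (L + 1) *
        (EE θ n₁ (L + 1) * EE θ n₂ (L + 1))) +
      (X + C (th θ (L + 1))) ^ ((n₁ + n₂ + 1) / 2 ^ (L + 1) + 1) *
        (CP θ n₁ n₂ (L + 1) * (EE θ n₁ (L + 1) * EE θ n₂ (L + 1))) := by
    rw [map_mul, ← mul_assoc (PP θ (n₁ + n₂ + 1) L), ← loc_PPC, mul_add]
    refine congrArg₂ (· + ·) ?_ ?_
    · rw [hE1, hE2, map_mul]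
      exact loc_alg3 hθ _ _ _ _ _
    · unfold GG
      rw [loc_CP_succ]
      exact loc_alg1 hθ _ _ _ _ _ _ _ _ e
  have hN : HH θ n₁ L * GG θ n₂ L = EE θ n₁ L * HH θ n₂ L +
      (EE θ n₁ L * EE θ n₂ L + GG θ n₁ L * GG θ n₂ L) :=
    loc_alg2 hθ (EE θ n₁ L) (GG θ n₁ L) (EE θ n₂ L) (GG θ n₂ L)
  have gen : ∀ A B C' D : K[X], A + B + C' = A + D + (B + (C' + D)) := by
    intro A B C' D
    have : A + D + (B + (C' + D)) = A + B + C' + (D + D) := by ring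
    rw [this, bd_padd_self, add_zero]
  rw [map_add, mul_add, hS, hN, mul_add (CP θ n₁ n₂ L), key, mul_add ((X + C (th θ (L + 1))) ^
    ((n₁ + n₂ + 1) / 2 ^ (L + 1) + 1))]
  exact gen _ _ _ _

/-- LC1 (valid for arbitrary polynomials `E`, `H`) -/
theorem LC1 (n₁ n₂ L : ℕ) (E H Φ : K[X]) (hS : SysAt θ n₁ n₂ L (E * H) Φ) :
    (X + C (th θ (L + 1))) ^ (2 * (((n₁ + n₂ + 1) / 2 ^ (L + 1) + 1) / 2)) ∣
      Wr E (PP θ n₁ L) * (H * PP θ n₂ L) + Wr H (PP θ n₂ L) * (E * PP θ n₁ L) := by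
  rw [← loc_wr_prod]
  have h1 := loc_star n₁ n₂ L (E * H) Φ hS
  set e := (n₁ + n₂ + 1) / 2 ^ (L + 1) + 1 with he
  have e1 : e = 2 * (e / 2) + e % 2 := by omega
  have h2 : (X + C (th θ (L + 1))) ^ (2 * (e / 2)) ∣
      CP θ n₁ n₂ L ^ 2 * Wr (E * H) (PP θ n₁ L * PP θ n₂ L) := by
    rw [h1]
    conv_rhs => rw [e1, pow_add, mul_assoc, loc_wr_sq_mul]
    exact dvd_mul_right _ _
  have hcop : IsCoprime ((X + C (th θ (L + 1)) : K[X]) ^ (2 * (e / 2)))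
      (CP θ n₁ n₂ L ^ 2) := by
    apply loc_coprime_pow
    rw [eval_pow]
    exact pow_ne_zero _ (loc_CP_eval_ne hθ _ _ L (L + 1) (by omega))
  exact hcop.dvd_of_dvd_mul_left h2


/-! ## Taylor coefficients -/

theorem loc_taylor {R : K[X]} {m : ℕ}
    (h : (X + C (th θ m)) ^ 3 ∣ expand K 2 R) :
    R.eval (th θ (m + 1)) = 0 ∧ (derivative R).eval (th θ (m + 1)) = 0 := by
  have hX0 : (X + C (th θ m) : K[X]) ≠ 0 := X_add_C_ne_zero _
  obtain ⟨W, hW⟩ := h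
  have h0 : R.eval (th θ (m + 1)) = 0 := by
    have := congrArg (eval (th θ m)) hW
    rw [expand_eval, bd_th_sq, eval_mul, eval_pow, eval_add, eval_X, eval_C, bd_add_self,
      zero_pow (by norm_num), zero_mul] at this
    exact this
  obtain ⟨Q, hQ⟩ := loc_dvd_of_eval h0
  have h1 : expand K 2 Q = (X + C (th θ m)) * W := by
    rw [hQ, map_mul, bd_expand_th] at hW
    apply mul_left_cancel₀ (pow_ne_zero 2 hX0)
    rw [hW]; ring
  have h2 : Q.eval (th θ (m + 1)) = 0 := by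
    have := congrArg (eval (th θ m)) h1
    rw [expand_eval, bd_th_sq, eval_mul, eval_add, eval_X, eval_C, bd_add_self,
      zero_mul] at this
    exact this
  refine ⟨h0, ?_⟩
  rw [hQ, derivative_mul, eval_add, eval_mul, eval_mul, h2, mul_zero, zero_add,
    eval_add, eval_X, eval_C, bd_add_self, zero_mul]

/-- value and derivative of `Φ` from `(Z+θ_m)^3 ∣ φ(Φ) + φ(c)(q₀+q₂(Z+θ_m)²)` -/
theorem loc_taylor2 {Φ c : K[X]} {q₀ q₂ : K} {m : ℕ}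
    (h : (X + C (th θ m)) ^ 3 ∣ expand K 2 Φ + expand K 2 c *
      (C q₀ + C q₂ * (X + C (th θ m)) ^ 2)) :
    Φ.eval (th θ (m + 1)) = c.eval (th θ (m + 1)) * q₀ ∧
      (derivative Φ).eval (th θ (m + 1)) =
        (derivative c).eval (th θ (m + 1)) * q₀ + c.eval (th θ (m + 1)) * q₂ := by
  have h1 : expand K 2 Φ + expand K 2 c * (C q₀ + C q₂ * (X + C (th θ m)) ^ 2) =
      expand K 2 (Φ + c * (C q₀ + C q₂ * (X + C (th θ (m + 1))))) := by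
    rw [map_add, map_mul, map_add, map_mul, bd_expand_th, expand_C, expand_C]
  rw [h1] at h
  obtain ⟨h2, h3⟩ := loc_taylor hθ h
  constructor
  · rw [eval_add, eval_mul, eval_add, eval_C, eval_mul, eval_add, eval_X, eval_C, eval_C,
      bd_add_self, mul_zero, add_zero] at h2
    exact CharTwo.add_eq_zero.mp h2
  · rw [derivative_add, derivative_mul, derivative_add, derivative_mul, derivative_add,
      derivative_C, derivative_C, derivative_C, derivative_X, eval_add, eval_add, eval_mul,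
      eval_mul, eval_add, eval_mul, eval_add, eval_C, eval_C, eval_X, eval_C,
      bd_add_self, mul_zero, add_zero, zero_mul, zero_add, zero_add, eval_mul, add_zero,
      eval_C, eval_one, mul_one] at h3
    exact CharTwo.add_eq_zero.mp h3

theorem loc_logder (s : Finset ℕ) (p : K) (hs : ∀ j ∈ s, th θ j + p ≠ 0) :
    (derivative (∏ j ∈ s, (X + C (th θ j)))).eval p =
      (∏ j ∈ s, (X + C (th θ j))).eval p * ∑ j ∈ s, (th θ j + p)⁻¹ := by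
  induction s using Finset.induction_on with
  | empty => simp
  | insert a s ha ih =>
    rw [Finset.prod_insert ha, Finset.sum_insert ha, derivative_mul, eval_add, eval_mul,
      eval_mul, eval_mul, ih (fun j hj => hs j (Finset.mem_insert_of_mem hj)), derivative_add,
      derivative_X, derivative_C, add_zero, eval_one, one_mul, eval_add, eval_X, eval_C]
    have h0 := hs a (Finset.mem_insert_self a s)
    have h1 : p + th θ a = th θ a + p := add_comm _ _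
    rw [h1]
    field_simp

theorem loc_PP_logder (n l m : ℕ) (h : l < m) :
    (derivative (PP θ n l)).eval (th θ m) =
      (PP θ n l).eval (th θ m) * ∑ j ∈ zer n (l + 1), (th θ j + th θ m)⁻¹ := by
  unfold PP
  apply loc_logder hθ
  intro j hj
  unfold zer at hj
  rw [Finset.mem_filter, Finset.mem_range] at hj
  apply bd_th_ne hθ
  omega

theorem loc_sum_zer (n l : ℕ) (p : K) :
    ∑ j ∈ zer n (l + 1), (th θ j + p)⁻¹ =
      ∑ j ∈ zer n l, (th θ j + p)⁻¹ + ((loc_z n l : ℕ) : K) * (th θ l + p)⁻¹ := by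
  rcases hb : n.testBit l with _ | _
  · rw [zer_succ_zero hb, Finset.sum_insert (bd_notMem_zer n l), loc_z_false hb]
    push_cast
    ring
  · rw [zer_succ_one hb, loc_z_true hb]
    push_cast
    ring

theorem loc_M_cast (n₁ n₂ l : ℕ) :
    ((n₁ / 2 ^ l + n₂ / 2 ^ l + 2 : ℕ) : K) = ((loc_z n₁ l : ℕ) : K) + ((loc_z n₂ l : ℕ) : K) := by
  have h : ∃ k, n₁ / 2 ^ l + n₂ / 2 ^ l + 2 + (loc_z n₁ l + loc_z n₂ l) = 2 * k := by
    refine ⟨(n₁ / 2 ^ l + n₂ / 2 ^ l + 2 + (loc_z n₁ l + loc_z n₂ l)) / 2, ?_⟩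
    unfold loc_z
    omega
  obtain ⟨k, hk⟩ := h
  have h2 : ((n₁ / 2 ^ l + n₂ / 2 ^ l + 2 + (loc_z n₁ l + loc_z n₂ l) : ℕ) : K) =
    ((2 * k : ℕ) : K) := by rw [hk]
  rw [Nat.cast_add (n₁ / 2 ^ l + n₂ / 2 ^ l + 2), Nat.cast_mul 2 k, Nat.cast_add (loc_z n₁ l)] at h2
  have h3 : ((2 : ℕ) : K) = 0 := by exact_mod_cast CharP.cast_eq_zero K 2
  rw [h3, zero_mul] at h2
  exact CharTwo.add_eq_zero.mp h2

/-- evaluation of the Wronskian in (***) at `θ_m`, `m > L+1` -/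
theorem loc_wr_eval (n₁ n₂ L m : ℕ) (hm : L + 1 < m) (c Φ : K[X]) (k₀ k₂ : K)
    (h0 : Φ.eval (th θ m) = c.eval (th θ m) * k₀)
    (h1 : (derivative Φ).eval (th θ m) =
      (derivative c).eval (th θ m) * k₀ + c.eval (th θ m) * k₂) :
    (Wr ((X + C (th θ (L + 1))) ^ (n₁ / 2 ^ (L + 1) + n₂ / 2 ^ (L + 1) + 2) * Φ)
        (c * (PP θ n₁ L * PP θ n₂ L))).eval (th θ m) =
      c.eval (th θ m) ^ 2 * ((th θ (L + 1) + th θ m) ^
        (n₁ / 2 ^ (L + 1) + n₂ / 2 ^ (L + 1) + 2) *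
      ((PP θ n₁ L).eval (th θ m) * (PP θ n₂ L).eval (th θ m)) *
      (k₂ + k₀ * (∑ j ∈ zer n₁ (L + 2), (th θ j + th θ m)⁻¹ +
        ∑ j ∈ zer n₂ (L + 2), (th θ j + th θ m)⁻¹))) := by
  have hc := loc_M_cast hθ n₁ n₂ (L + 1)
  rw [loc_sum_zer hθ n₁ (L + 1), loc_sum_zer hθ n₂ (L + 1)]
  have hu : th θ (L + 1) + th θ m ≠ 0 := bd_th_ne hθ (by omega)
  have hp1 := loc_PP_logder hθ n₁ L m (by omega)
  have hp2 := loc_PP_logder hθ n₂ L m (by omega)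
  generalize (∑ j ∈ zer n₁ (L + 1), (th θ j + th θ m)⁻¹) = T₁ at *
  generalize (∑ j ∈ zer n₂ (L + 1), (th θ j + th θ m)⁻¹) = T₂ at *
  generalize ((loc_z n₁ (L + 1) : ℕ) : K) = z₁ at *
  generalize ((loc_z n₂ (L + 1) : ℕ) : K) = z₂ at *
  generalize hM : n₁ / 2 ^ (L + 1) + n₂ / 2 ^ (L + 1) = M' at *
  unfold Wr
  simp only [derivative_mul, derivative_pow, derivative_add, derivative_X, derivative_C,
    eval_add, eval_mul, eval_pow, eval_X, eval_C, h0, h1, hp1, hp2, add_zero, mul_one,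
    hc]
  have e1 : M' + 2 - 1 = M' + 1 := by omega
  rw [e1, add_comm (th θ m) (th θ (L + 1)), pow_succ _ (M' + 1)]
  generalize th θ (L + 1) + th θ m = u at *
  generalize (PP θ n₁ L).eval (th θ m) = p₁
  generalize (PP θ n₂ L).eval (th θ m) = p₂
  generalize c.eval (th θ m) = c₀
  generalize (derivative c).eval (th θ m) = c₁
  have h2 : (2 : K) = 0 := CharTwo.two_eq_zero
  field_simp
  linear_combination (c₀ * p₁ * p₂ * k₀ * u * c₁) * h2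


/-- LC2 (valid for arbitrary polynomials `E`, `H`); `a = θ_{L+1}`, `b = θ_{L+2} = a²`. -/
theorem LC2 (n₁ n₂ L : ℕ) (E H Φ : K[X]) (hS : SysAt θ n₁ n₂ L (E * H) Φ)
    (he : 2 ≤ (n₁ + n₂ + 1) / 2 ^ (L + 1)) (f₀ f₂ g₀ g₂ : K)
    (hE : (X + C (th θ (L + 1))) ^ 3 ∣
      E + (C g₀ + C g₂ * (X + C (th θ (L + 1))) ^ 2) * PP θ n₁ L)
    (hH : (X + C (th θ (L + 1))) ^ 3 ∣
      H + (C f₀ + C f₂ * (X + C (th θ (L + 1))) ^ 2) * PP θ n₂ L) :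
    (th θ (L + 1) + th θ (L + 2)) ^ (n₁ / 2 ^ (L + 1) + n₂ / 2 ^ (L + 1) + 2) *
      ((PP θ n₁ L).eval (th θ (L + 2)) * (PP θ n₂ L).eval (th θ (L + 2))) *
      (f₀ * g₂ + f₂ * g₀ + f₀ * g₀ *
        (∑ j ∈ zer n₁ (L + 2), (th θ j + th θ (L + 2))⁻¹ +
         ∑ j ∈ zer n₂ (L + 2), (th θ j + th θ (L + 2))⁻¹)) =
      (Wr E (PP θ n₁ L)).eval (th θ (L + 2)) *
        (H.eval (th θ (L + 2)) * (PP θ n₂ L).eval (th θ (L + 2))) +
      (Wr H (PP θ n₂ L)).eval (th θ (L + 2)) *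
        (E.eval (th θ (L + 2)) * (PP θ n₁ L).eval (th θ (L + 2))) := by
  have hS' := hS
  unfold SysAt at hS'
  have hppc := loc_PPC θ n₁ n₂ L
  -- step at a
  have h1 : (X + C (th θ (L + 1))) ^ 3 ∣ PP θ (n₁ + n₂ + 1) L *
      (expand K 2 Φ + expand K 2 (CP θ n₁ n₂ (L + 1)) *
        (C (f₀ * g₀) + C (f₀ * g₂ + f₂ * g₀) * (X + C (th θ (L + 1))) ^ 2)) := by
    rw [mul_add, ← mul_assoc (PP θ (n₁ + n₂ + 1) L) (expand K 2 (CP θ n₁ n₂ (L + 1))), ← hppc, hS']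
    obtain ⟨A, hA⟩ := hE
    obtain ⟨B, hB⟩ := hH
    obtain ⟨e, he'⟩ : ∃ e, (n₁ + n₂ + 1) / 2 ^ (L + 1) + 1 = 3 + e :=
      ⟨(n₁ + n₂ + 1) / 2 ^ (L + 1) - 2, by omega⟩
    rw [he', pow_add]
    generalize (X + C (th θ (L + 1)) : K[X]) = u at *
    generalize PP θ n₁ L = P₁ at *
    generalize PP θ n₂ L = P₂ at *
    generalize CP θ n₁ n₂ L = c at *
    simp only [C_add, C_mul]
    generalize (C f₀ : K[X]) = F₀ at *
    generalize (C f₂ : K[X]) = F₂ at *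
    generalize (C g₀ : K[X]) = G₀ at *
    generalize (C g₂ : K[X]) = G₂ at *
    have h2 : (2 : K[X]) = 0 := CharTwo.two_eq_zero
    refine ⟨u ^ e * Φ + c * (A * H + (G₀ + G₂ * u ^ 2) * P₁ * B) + c * P₁ * P₂ * (G₂ * F₂ * u), ?_⟩
    linear_combination c * H * hA + c * ((G₀ + G₂ * u ^ 2) * P₁) * hB -
      (c * (G₀ + G₂ * u ^ 2) * P₁ * (H + (F₀ + F₂ * u ^ 2) * P₂) ) * h2 +
      (c * P₁ * P₂ * (G₀ * F₀ + G₀ * F₂ * u ^ 2 + G₂ * F₀ * u ^ 2) ) * h2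
  have hcop : IsCoprime ((X + C (th θ (L + 1)) : K[X]) ^ 3) (PP θ (n₁ + n₂ + 1) L) :=
    loc_coprime_pow (PP_eval_ne hθ _ L (L + 1) (by omega)) _
  have h3 := hcop.dvd_of_dvd_mul_left h1
  obtain ⟨h4, h5⟩ := loc_taylor2 hθ h3
  have h6 := loc_wr_eval hθ n₁ n₂ L (L + 2) (by omega) (CP θ n₁ n₂ (L + 1)) Φ _ _ h4 h5
  rw [← loc_star3 n₁ n₂ L _ Φ hS, eval_mul, eval_pow, loc_wr_prod] at h6
  have hc := loc_CP_eval_ne hθ n₁ n₂ (L + 1) (L + 2) (by omega)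
  have h7 := mul_left_cancel₀ (pow_ne_zero 2 hc) h6
  rw [eval_add, eval_mul, eval_mul, eval_mul, eval_mul] at h7
  exact h7.symm


theorem loc_pow_exp (s : K) (v : K[X]) (m : ℕ) :
    ∃ Q : K[X], (C s + v ^ 2) ^ m = C (s ^ m) + C ((m : K) * s ^ (m - 1)) * v ^ 2 + Q * v ^ 4 := by
  obtain ⟨Q, hQ⟩ := Polynomial.powAddExpansion (C s : K[X]) (v ^ 2) m
  refine ⟨Q, ?_⟩
  rw [hQ]
  simp only [C_mul, C_pow, map_natCast]
  ring

/-- LC3 (case I-b), second point `b² = θ_{L+3}`.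
`y = n₂/2^{L+1}` odd, `y ≥ 3`, `ν_{L+1} = y+1`, the right-hand side is
`P_L(n₁) h (Z+a)^{y+1} E`, and `E ≡ (e₀ + e₂ (Z+b)²) P_L(n₂) mod (Z+b)³`. -/
theorem LC3 (n₁ n₂ L : ℕ) (E Φ : K[X]) (h : K) (hh : h ≠ 0)
    (hS : SysAt θ n₁ n₂ L
      ((PP θ n₁ L * C h) * ((X + C (th θ (L + 1))) ^ (n₂ / 2 ^ (L + 1) + 1) * E)) Φ)
    (hy : Odd (n₂ / 2 ^ (L + 1))) (hy3 : 3 ≤ n₂ / 2 ^ (L + 1))
    (hν : (n₁ + n₂ + 1) / 2 ^ (L + 1) = n₂ / 2 ^ (L + 1) + 1) (e₀ e₂ : K)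
    (hE : (X + C (th θ (L + 2))) ^ 3 ∣
      E + (C e₀ + C e₂ * (X + C (th θ (L + 2))) ^ 2) * PP θ n₂ L) :
    (th θ (L + 1) + th θ (L + 3)) ^ (n₁ / 2 ^ (L + 1) + n₂ / 2 ^ (L + 1) + 2) *
      (PP θ n₂ L).eval (th θ (L + 3)) *
      ((th θ (L + 1) + th θ (L + 2)) ^ (n₂ / 2 ^ (L + 1) + 1) *
        (e₀ * (∑ j ∈ zer n₁ (L + 2), (th θ j + th θ (L + 3))⁻¹ +
               ∑ j ∈ zer n₂ (L + 2), (th θ j + th θ (L + 3))⁻¹) + e₂) +
       (((n₂ / 2 ^ (L + 1) + 1) / 2 : ℕ) : K) *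
         (th θ (L + 1) + th θ (L + 2)) ^ (n₂ / 2 ^ (L + 1) - 1) * e₀ +
       (if n₂ / 2 ^ (L + 1) = 3 then
         (th θ (L + 1) + th θ (L + 2)) ^ (n₁ / 2 ^ (L + 1) + n₂ / 2 ^ (L + 1) + 2) *
           (E.eval (th θ (L + 1)) * ((PP θ n₂ L).eval (th θ (L + 1)))⁻¹) *
           ((PP θ n₁ L).eval (th θ (L + 2)) * (PP θ n₂ L).eval (th θ (L + 2)))⁻¹ else 0)) =
    (th θ (L + 1) + th θ (L + 3)) ^ (n₂ / 2 ^ (L + 1) + 1) *
      (PP θ n₁ L).eval (th θ (L + 3)) * (Wr E (PP θ n₂ L)).eval (th θ (L + 3)) := by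
  have hS' := hS
  unfold SysAt at hS'
  have hppc := loc_PPC θ n₁ n₂ L
  have hsm := loc_sys_mul n₁ n₂ L _ Φ hS
  have hst := loc_star3 n₁ n₂ L _ Φ hS
  rw [hν] at hS'
  obtain ⟨μ, hμ⟩ : ∃ μ, n₂ / 2 ^ (L + 1) + 1 = 2 * (μ + 2) := by
    obtain ⟨k, hk⟩ := hy
    exact ⟨k - 1, by omega⟩
  have hc1 := loc_CP_eval_ne hθ n₁ n₂ (L + 1) (L + 2) (by omega)
  have hc2 := loc_CP_eval_ne hθ n₁ n₂ (L + 1) (L + 3) (by omega)
  have hP1b := PP_eval_ne hθ n₁ L (L + 2) (by omega)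
  have hP2b := PP_eval_ne hθ n₂ L (L + 2) (by omega)
  have hP1p := PP_eval_ne hθ n₁ L (L + 3) (by omega)
  have hP2p := PP_eval_ne hθ n₂ L (L + 3) (by omega)
  have hP2a := PP_eval_ne hθ n₂ L (L + 1) (by omega)
  have hPνa := PP_eval_ne hθ (n₁ + n₂ + 1) L (L + 1) (by omega)
  have hX1 : (X + C (th θ (L + 1)) : K[X]) ≠ 0 := X_add_C_ne_zero _
  have hX2 : (X + C (th θ (L + 2)) : K[X]) ≠ 0 := X_add_C_ne_zero _
  have hyy : n₂ / 2 ^ (L + 1) = 2 * μ + 3 := by omega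
  -- step at `a`
  have ha1 : PP θ (n₁ + n₂ + 1) L * expand K 2 Φ = (X + C (th θ (L + 1))) ^ (2 * (μ + 2)) *
      ((X + C (th θ (L + 1))) * Φ + CP θ n₁ n₂ L * (PP θ n₁ L * C h) * E) := by
    rw [hS', hμ, pow_succ]
    ring
  obtain ⟨Q₀, hQ₀⟩ : (X + C (th θ (L + 1)) : K[X]) ^ (2 * (μ + 2)) ∣ expand K 2 Φ :=
    (loc_coprime_pow hPνa _).dvd_of_dvd_mul_left ⟨_, ha1⟩
  have hQ₁ : expand K 2 ((X + C (th θ (L + 2))) ^ (μ + 2)) * Q₀ = expand K 2 Φ := by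
    rw [map_pow, bd_expand_th, ← pow_mul, hQ₀]
  obtain ⟨R, hR1, hR2⟩ := loc_exp_factor (pow_ne_zero _ hX2) hQ₁
  have ha2 : PP θ (n₁ + n₂ + 1) L * expand K 2 R =
      (X + C (th θ (L + 1))) * Φ + CP θ n₁ n₂ L * (PP θ n₁ L * C h) * E := by
    apply mul_left_cancel₀ (pow_ne_zero (2 * (μ + 2)) hX1)
    rw [← ha1, hQ₀, hR1]
    ring
  have ha3 := congrArg (eval (th θ (L + 1))) ha2
  have ha4 := congrArg (eval (th θ (L + 1))) hppc
  simp only [eval_mul, eval_add, eval_X, eval_C, expand_eval, bd_th_sq, bd_add_self,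
    zero_mul, zero_add] at ha3 ha4
  have hRb : R.eval (th θ (L + 2)) = (CP θ n₁ n₂ (L + 1)).eval (th θ (L + 2)) * h *
      (E.eval (th θ (L + 1)) * ((PP θ n₂ L).eval (th θ (L + 1)))⁻¹) := by
    field_simp
    apply mul_left_cancel₀ hPνa
    linear_combination (PP θ n₂ L).eval (th θ (L + 1)) * ha3 +
      h * E.eval (th θ (L + 1)) * ha4
  -- step at `b`
  set T : K := if n₂ / 2 ^ (L + 1) = 3 then
         (th θ (L + 1) + th θ (L + 2)) ^ (n₁ / 2 ^ (L + 1) + n₂ / 2 ^ (L + 1) + 2) *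
           (E.eval (th θ (L + 1)) * ((PP θ n₂ L).eval (th θ (L + 1)))⁻¹) *
           ((PP θ n₁ L).eval (th θ (L + 2)) * (PP θ n₂ L).eval (th θ (L + 2)))⁻¹ else 0 with hT
  set s : K := (th θ (L + 1) + th θ (L + 2)) ^ 2 with hs
  have hu2 : (X + C (th θ (L + 1)) : K[X]) ^ 2 = C s + (X + C (th θ (L + 2))) ^ 2 := by
    rw [CharTwo.add_sq, CharTwo.add_sq, ← C_pow, ← C_pow, hs, CharTwo.add_sq, C_add]
    have : (C (th θ (L + 1) ^ 2) + C (th θ (L + 2) ^ 2) + (X ^ 2 + C (th θ (L + 2) ^ 2)) : K[X]) =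
      X ^ 2 + C (th θ (L + 1) ^ 2) + (C (th θ (L + 2) ^ 2) + C (th θ (L + 2) ^ 2)) := by ring
    rw [this, bd_padd_self, add_zero]
  -- `u^M Φ ≡ c P₁ P₂ h T v²`
  have hb1 : (X + C (th θ (L + 2))) ^ 3 ∣
      (X + C (th θ (L + 1))) ^ (n₁ / 2 ^ (L + 1) + n₂ / 2 ^ (L + 1) + 2) * Φ +
      CP θ n₁ n₂ (L + 1) * (PP θ n₁ L * PP θ n₂ L) * (C (h * T) *
        (X + C (th θ (L + 2))) ^ 2) := by
    rw [← hR2]
    rcases Nat.eq_zero_or_pos μ with h0 | h0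
    · subst h0
      have h3 : n₂ / 2 ^ (L + 1) = 3 := by omega
      rw [if_pos h3] at hT
      have hroot : ((X + C (th θ (L + 1))) ^ (n₁ / 2 ^ (L + 1) + n₂ / 2 ^ (L + 1) + 2) * R +
          CP θ n₁ n₂ (L + 1) * (PP θ n₁ L * PP θ n₂ L) * C (h * T)).eval (th θ (L + 2)) = 0 := by
        simp only [eval_mul, eval_add, eval_pow, eval_X, eval_C]
        rw [hRb, hT, add_comm (th θ (L + 2)) (th θ (L + 1))]
        generalize (th θ (L + 1) + th θ (L + 2)) ^ (n₁ / 2 ^ (L + 1) + n₂ / 2 ^ (L + 1) + 2) = w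
        field_simp
        rw [bd_add_self]
        simp
      obtain ⟨Q, hQ⟩ := loc_dvd_of_eval hroot
      refine ⟨Q, ?_⟩
      linear_combination (X + C (th θ (L + 2))) ^ 2 * hQ
    · have h3 : ¬ (n₂ / 2 ^ (L + 1) = 3) := by omega
      rw [if_neg h3] at hT
      rw [hT]
      obtain ⟨μ', hμ'⟩ : ∃ μ', μ = μ' + 1 := ⟨μ - 1, by omega⟩
      rw [hμ']
      refine ⟨(X + C (th θ (L + 1))) ^ (n₁ / 2 ^ (L + 1) + n₂ / 2 ^ (L + 1) + 2) *
        ((X + C (th θ (L + 2))) ^ μ' * R), ?_⟩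
      rw [mul_zero, C_0, zero_mul, mul_zero, add_zero]
      ring
  -- `N ≡ P₁ P₂ (K₀ + K₂ v²)`
  have hb2 : (X + C (th θ (L + 2))) ^ 3 ∣
      ((PP θ n₁ L * C h) * ((X + C (th θ (L + 1))) ^ (n₂ / 2 ^ (L + 1) + 1) * E)) +
      (PP θ n₁ L * PP θ n₂ L) * (C (h * (s ^ (μ + 2) * e₀)) + C (h * (s ^ (μ + 2) * e₂ +
        ((μ + 2 : ℕ) : K) * s ^ (μ + 1) * e₀)) * (X + C (th θ (L + 2))) ^ 2) := by
    obtain ⟨Q, hQ⟩ := loc_pow_exp hθ s (X + C (th θ (L + 2))) (μ + 2)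
    obtain ⟨A, hA⟩ := hE
    rw [hμ, pow_mul, hu2, hQ]
    have e1 : μ + 2 - 1 = μ + 1 := by omega
    rw [e1]
    simp only [C_add, C_mul]
    generalize (X + C (th θ (L + 2)) : K[X]) = v at *
    generalize PP θ n₁ L = P₁ at *
    generalize PP θ n₂ L = P₂ at *
    generalize (C (s ^ (μ + 2)) : K[X]) = s₂
    generalize (C (s ^ (μ + 1)) : K[X]) = s₁
    generalize (C (((μ + 2 : ℕ) : K)) : K[X]) = m₂
    generalize (C e₀ : K[X]) = E₀ at *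
    generalize (C e₂ : K[X]) = E₂ at *
    generalize (C h : K[X]) = h' at *
    have h2 : (2 : K[X]) = 0 := CharTwo.two_eq_zero
    refine ⟨P₁ * h' * ((s₂ + m₂ * s₁ * v ^ 2 + Q * v ^ 4) * A) -
      P₁ * h' * P₂ * (Q * v * (E₀ + E₂ * v ^ 2) + m₂ * s₁ * E₂ * v), ?_⟩
    linear_combination P₁ * h' * (s₂ + m₂ * s₁ * v ^ 2 + Q * v ^ 4) * hA
  have hb3 : (X + C (th θ (L + 2))) ^ 3 ∣
      (CP θ n₁ n₂ (L + 1) * (PP θ n₁ L * PP θ n₂ L)) *
      (expand K 2 Φ + expand K 2 (CP θ n₁ n₂ (L + 1)) *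
      (C (h * (s ^ (μ + 2) * e₀)) + C (h * (s ^ (μ + 2) * e₂ +
        ((μ + 2 : ℕ) : K) * s ^ (μ + 1) * e₀) + h * T) * (X + C (th θ (L + 2))) ^ 2)) := by
    obtain ⟨A, hA⟩ := hb1
    obtain ⟨B, hB⟩ := hb2
    refine ⟨expand K 2 (CP θ n₁ n₂ (L + 1)) * (A + CP θ n₁ n₂ (L + 1) * B), ?_⟩
    rw [mul_add, hsm]
    rw [C_add (a := h * (s ^ (μ + 2) * e₂ + ((μ + 2 : ℕ) : K) * s ^ (μ + 1) * e₀))]
    generalize (C (h * (s ^ (μ + 2) * e₀)) : K[X]) = k₀ at *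
    generalize (C (h * (s ^ (μ + 2) * e₂ + ((μ + 2 : ℕ) : K) * s ^ (μ + 1) * e₀)) : K[X]) = k₂ at *
    generalize (C (h * T) : K[X]) = k₃ at *
    generalize (X + C (th θ (L + 2)) : K[X]) = v at *
    generalize (X + C (th θ (L + 1)) : K[X]) ^ (n₁ / 2 ^ (L + 1) + n₂ / 2 ^ (L + 1) + 2) = uM at *
    generalize PP θ n₁ L * C h *
      ((X + C (th θ (L + 1))) ^ (n₂ / 2 ^ (L + 1) + 1) * E) = N at *
    generalize expand K 2 (CP θ n₁ n₂ (L + 1)) = ec at *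
    generalize CP θ n₁ n₂ (L + 1) = c at *
    generalize PP θ n₁ L = P₁ at *
    generalize PP θ n₂ L = P₂ at *
    linear_combination ec * hA + ec * c * hB
  have hcop : IsCoprime ((X + C (th θ (L + 2)) : K[X]) ^ 3)
      (CP θ n₁ n₂ (L + 1) * (PP θ n₁ L * PP θ n₂ L)) := by
    apply loc_coprime_pow
    rw [eval_mul, eval_mul]
    exact mul_ne_zero hc1 (mul_ne_zero hP1b hP2b)
  have hb4 := hcop.dvd_of_dvd_mul_left hb3
  obtain ⟨hb5, hb6⟩ := loc_taylor2 hθ hb4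
  have hb7 := loc_wr_eval hθ n₁ n₂ L (L + 3) (by omega) (CP θ n₁ n₂ (L + 1)) Φ _ _ hb5 hb6
  rw [← hst, eval_mul, eval_pow] at hb7
  have hb8 := mul_left_cancel₀ (pow_ne_zero 2 hc2) hb7
  have hW1 : Wr (PP θ n₁ L * C h) (PP θ n₁ L) = 0 := by
    have := bd_wr_mul_expand (K := K) (PP θ n₁ L) (C h)
    rwa [expand_C] at this
  rw [loc_wr_prod, hW1, zero_mul, zero_add, hμ, loc_wr_sq_mul] at hb8
  simp only [eval_mul, eval_pow, eval_add, eval_X, eval_C] at hb8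
  rw [add_comm (th θ (L + 3)) (th θ (L + 1))] at hb8
  have e1 : (2 * (μ + 2)) / 2 = μ + 2 := by omega
  have e2 : n₂ / 2 ^ (L + 1) - 1 = 2 * (μ + 1) := by omega
  rw [hμ, e1, e2, pow_mul (th θ (L + 1) + th θ (L + 2)) 2, pow_mul (th θ (L + 1) + th θ (L + 2)) 2,
    ← hs]
  apply mul_left_cancel₀ (mul_ne_zero hh hP1p)
  linear_combination -hb8

end

end MZ
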