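import Pool.Agent.Work.MP_968e92_nt.MainC

/-! # MP_968e92_nt, module MainD: case II and case III -/

open Polynomial

namespace MZ

/-- case II, `x ≥ 3` -/
theorem II_big {n₁ n₂ L : ℕ} {Φ : K2[X]} (h₁ : pc n₁ + 1 = L) (hx : 1 ≤ n₁ / 2 ^ (L + 2))
    (h₂ : pc n₂ = L + 1) (hn₂ : n₂ < 2 ^ (L + 2))
    (he : 2 ≤ (n₁ + n₂ + 1) / 2 ^ (L + 1))
    (hS : SysAt T n₁ n₂ L (EE T n₁ L * HH T n₂ L) Φ) : False := by
  obtain ⟨c, hc, hH⟩ := dat_fC th_T_injective n₂ L h₂ hn₂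
  obtain ⟨g₀, g₂, hg₀, hE, hg₂, hW⟩ := dat_gA th_T_injective n₁ L h₁ hx
  have key := LC2 th_T_injective n₁ n₂ L _ _ Φ hS he c 0 g₀ g₂ hE
    (by rw [hH]; exact dvd3_const _ _ _)
  rw [wrH_zero th_T_injective n₂ L (by omega), hW] at key
  obtain ⟨j, hj, -, hz⟩ := one_zero h₂ hn₂
  have p1 := PP_eval_ne th_T_injective n₁ L (L + 2) (by omega)
  have p2 := PP_eval_ne th_T_injective n₂ L (L + 2) (by omega)
  have p3 : (th T (L + 1) + th T (L + 2) : K2) ≠ 0 := tadd_ne (by omega)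
  have p4 : (th T j + th T (L + 2) : K2)⁻¹ ≠ 0 := inv_ne_zero (tadd_ne (by omega))
  rw [eval_zero, zero_mul, zero_mul, add_zero, hg₂, hz, Finset.sum_singleton] at key
  have e2 : c * (g₀ * (∑ j ∈ zer n₁ (L + 2), (th T j + th T (L + 2))⁻¹)) + c * g₀ *
      (∑ j ∈ zer n₁ (L + 2), (th T j + th T (L + 2))⁻¹ + (th T j + th T (L + 2))⁻¹) =
      c * g₀ * (th T j + th T (L + 2))⁻¹ := by
    linear_combination (c * g₀ * ∑ j ∈ zer n₁ (L + 2), (th T j + th T (L + 2))⁻¹) * two_zero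
  rw [e2, zero_mul, add_zero] at key
  exact absurd key (mul_ne_zero (mul_ne_zero (pow_ne_zero _ p3) (mul_ne_zero p1 p2))
    (mul_ne_zero (mul_ne_zero hc hg₀) p4))

/-- the value of the explicit linear polynomial at `b` -/
theorem eval_lin (g₀ a b A B D : K2) :
    (C g₀ * (C (A * B * D) + C (A * B + A * D + B * D) * (X + C a))).eval b =
      g₀ * (A * B * D + (A * B + A * D + B * D) * (b + a)) := by
  simp only [eval_mul, eval_add, eval_C, eval_X]

/-- case II, `x = 1` -/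
theorem II_one {n₁ n₂ L : ℕ} {Φ : K2[X]} (h₁ : pc n₁ + 1 = L) (hx : n₁ / 2 ^ (L + 1) = 1)
    (h₂ : pc n₂ = L + 1) (hn₂ : n₂ < 2 ^ (L + 2))
    (he : 2 ≤ (n₁ + n₂ + 1) / 2 ^ (L + 1))
    (hS : SysAt T n₁ n₂ L (EE T n₁ L * HH T n₂ L) Φ) : False := by
  obtain ⟨c, hc, hH⟩ := dat_fC th_T_injective n₂ L h₂ hn₂
  obtain ⟨p, q, s, hpq, hqs, hs, hz1, hz2⟩ := three_zeros h₁ hx
  obtain ⟨g₀, hg₀, hE, hW⟩ := dat_gB th_T_injective n₁ L p q s h₁ hx hpq hqs hs hz1
  have hPe := PP_zer3 (θ := T) hpq hqs hz1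
  have key := LC2 th_T_injective n₁ n₂ L _ _ Φ hS he c 0 g₀
    (g₀ * ((th T (L + 1) + th T p)⁻¹ * (th T (L + 1) + th T q)⁻¹ +
      (th T (L + 1) + th T p)⁻¹ * (th T (L + 1) + th T s)⁻¹ +
      (th T (L + 1) + th T q)⁻¹ * (th T (L + 1) + th T s)⁻¹))
    (by
      rw [hE, hPe]
      exact dvd3_gB g₀ (th T (L + 1)) (th T p) (th T q) (th T s) (tadd_ne' (by omega))
        (tadd_ne' (by omega)) (tadd_ne' (by omega)))
    (by rw [hH]; exact dvd3_const _ _ _)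
  rw [wrH_zero th_T_injective n₂ L (by omega), hW] at key
  obtain ⟨j, hj, -, hz⟩ := one_zero h₂ hn₂
  have p2 := PP_eval_ne th_T_injective n₂ L (L + 2) (by omega)
  have p3 : (th T (L + 1) + th T (L + 2) : K2) ≠ 0 := tadd_ne (by omega)
  have hy : (n₂ / 2 ^ (L + 1) = 0 ∧ (PP T n₂ L).eval (th T (L + 2)) = 1) ∨
      (n₂ / 2 ^ (L + 1) = 1 ∧ (PP T n₂ L).eval (th T (L + 2)) = th T (L + 2) + th T j) := by
    rcases zer_one hn₂ hj hz with ⟨hx, -, hz0⟩ | ⟨hx, -, hz0⟩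
    · left
      refine ⟨hx, ?_⟩
      rw [PP_zer0 hz0]; simp
    · right
      refine ⟨hx, ?_⟩
      rw [PP_zer1 hz0]; simp
  have ft := FT3 L p q s j (n₂ / 2 ^ (L + 1)) _ hpq hqs hs hj hy
  apply ft
  rw [hz, hz2, Finset.sum_singleton, Finset.sum_insert
    (by simp only [Finset.mem_insert, Finset.mem_singleton]; omega),
    Finset.sum_pair (by omega), hx, hPe, hH] at key
  simp only [eval_add, eval_mul, eval_C, eval_X, eval_pow, eval_zero, zero_mul, add_zero] at key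
  have hne : c * g₀ * (PP T n₂ L).eval (th T (L + 2)) * (th T (L + 1) + th T (L + 2)) ^ 2 ≠ 0 :=
    mul_ne_zero (mul_ne_zero (mul_ne_zero hc hg₀) p2) (pow_ne_zero _ p3)
  apply mul_left_cancel₀ hne
  rw [show 1 + n₂ / 2 ^ (L + 1) + 2 = (n₂ / 2 ^ (L + 1) + 1) + 2 by ring, pow_add,
    add_comm (th T (L + 2)) (th T (L + 1))] at key
  clear ft hy hE hW hPe hS hH
  generalize (th T (L + 1) + th T (L + 2) : K2) ^ (n₂ / 2 ^ (L + 1) + 1) = AC5 at *
  generalize (th T (L + 2) + th T p : K2) * (th T (L + 2) + th T q) *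
    (th T (L + 2) + th T s) = b1 at *
  generalize (th T (L + 1) + th T p : K2)⁻¹ * (th T (L + 1) + th T q)⁻¹ +
    (th T (L + 1) + th T p)⁻¹ * (th T (L + 1) + th T s)⁻¹ +
    (th T (L + 1) + th T q)⁻¹ * (th T (L + 1) + th T s)⁻¹ = b3 at *
  generalize (th T (L + 1) + th T (L + 2) : K2) = ab at *
  generalize (th T j + th T (L + 2) : K2)⁻¹ = ci at *
  generalize (th T p + th T (L + 2) : K2)⁻¹ = cp at *
  generalize (th T q + th T (L + 2) : K2)⁻¹ = cq at *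
  generalize (th T s + th T (L + 2) : K2)⁻¹ = cs at *
  generalize (th T p + th T q : K2) * (th T p + th T s) * (th T q + th T s) = dd at *
  generalize (PP T n₂ L).eval (th T (L + 2)) = e3 at *
  linear_combination key

/-- case III, `x = y = 1` -/
theorem III_one {n₁ n₂ L : ℕ} {Φ : K2[X]} (h₁ : pc n₁ + 1 = L) (hx : n₁ / 2 ^ (L + 1) = 1)
    (h₂ : pc n₂ = L) (hy : n₂ / 2 ^ (L + 1) = 1)
    (he : 2 ≤ (n₁ + n₂ + 1) / 2 ^ (L + 1))
    (hS : SysAt T n₁ n₂ L (EE T n₁ L * HH T n₂ L) Φ) : False := by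
  obtain ⟨d, hd, hH⟩ := dat_fB th_T_injective n₂ L h₂ hy
  obtain ⟨p, q, s, hpq, hqs, hs, hz1, hz2⟩ := three_zeros h₁ hx
  obtain ⟨g₀, hg₀, hE, hW⟩ := dat_gB th_T_injective n₁ L p q s h₁ hx hpq hqs hs hz1
  have hPe := PP_zer3 (θ := T) hpq hqs hz1
  obtain ⟨i, j, hij, hj, hz3, hz4⟩ := two_zeros' h₂ hy
  have hP2 := PP_zer2 (θ := T) hij hz3
  have p2a := PP_eval_ne th_T_injective n₂ L (L + 1) (by omega)
  have p3 : (th T (L + 1) + th T (L + 2) : K2) ≠ 0 := tadd_ne (by omega)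
  have key := LC2 th_T_injective n₁ n₂ L _ _ Φ hS he d
    (d * ((PP T n₂ L).eval (th T (L + 1)))⁻¹) g₀
    (g₀ * ((th T (L + 1) + th T p)⁻¹ * (th T (L + 1) + th T q)⁻¹ +
      (th T (L + 1) + th T p)⁻¹ * (th T (L + 1) + th T s)⁻¹ +
      (th T (L + 1) + th T q)⁻¹ * (th T (L + 1) + th T s)⁻¹))
    (by
      rw [hE, hPe]
      exact dvd3_gB g₀ (th T (L + 1)) (th T p) (th T q) (th T s) (tadd_ne' (by omega))
        (tadd_ne' (by omega)) (tadd_ne' (by omega)))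
    (by rw [hH]; exact dvd3_fB _ _ _ p2a)
  rw [hW, hH, hE, hz2, hz4, hx, hy, hPe, hP2, Finset.sum_insert
    (by simp only [Finset.mem_insert, Finset.mem_singleton]; omega),
    Finset.sum_pair (by omega), Finset.sum_pair (by omega), eval_lin] at key
  have w1 : (Wr (C d * ((X + C (th T i)) * (X + C (th T j)) + (X + C (th T (L + 1))) ^ 2))
      ((X + C (th T i)) * (X + C (th T j)))).eval (th T (L + 2)) =
      d * ((th T (L + 1) + th T (L + 2)) ^ 2 * (th T i + th T j)) := by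
    unfold Wr
    simp only [derivative_mul, derivative_C, derivative_add, derivative_X, derivative_pow,
      eval_add, eval_mul, eval_C, eval_X, eval_pow, eval_zero, eval_one]
    push_cast
    linear_combination (d * ((th T (L + 2) + th T i) * (th T (L + 2) + th T j)) *
      ((th T (L + 2) + th T i) + (th T (L + 2) + th T j)) + d * (th T (L + 2) + th T (L + 1)) *
      ((th T (L + 2) + th T i) * (th T (L + 2) + th T j)) + d * th T (L + 2) *
        (th T (L + 2) + th T (L + 1)) ^ 2) * two_zero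
  rw [w1] at key
  simp only [eval_add, eval_mul, eval_C, eval_X, eval_pow] at key
  have ft := FT4 L p q s i j hpq hqs hs hij hj
  apply ft
  apply mul_left_cancel₀ (mul_ne_zero hd hg₀)
  rw [show 1 + 1 + 2 = 4 by norm_num] at key
  have hab : (th T (L + 2) + th T (L + 1) : K2) = th T (L + 1) + th T (L + 2) := add_comm _ _
  rw [hab] at key
  rw [hab]
  clear ft hE hW hPe hS hH hP2 w1 hab
  generalize (th T (L + 2) + th T p : K2) * (th T (L + 2) + th T q) *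
    (th T (L + 2) + th T s) = b1 at *
  generalize (th T (L + 1) + th T p : K2) * (th T (L + 1) + th T q) *
    (th T (L + 1) + th T s) = a1 at *
  generalize (th T (L + 1) + th T p : K2) * (th T (L + 1) + th T q) +
    (th T (L + 1) + th T p) * (th T (L + 1) + th T s) +
    (th T (L + 1) + th T q) * (th T (L + 1) + th T s) = a2 at *
  generalize (th T (L + 1) + th T p : K2)⁻¹ * (th T (L + 1) + th T q)⁻¹ +
    (th T (L + 1) + th T p)⁻¹ * (th T (L + 1) + th T s)⁻¹ +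
    (th T (L + 1) + th T q)⁻¹ * (th T (L + 1) + th T s)⁻¹ = b3 at *
  generalize ((th T (L + 1) + th T i : K2) * (th T (L + 1) + th T j))⁻¹ = aij at *
  generalize ((th T (L + 2) + th T i : K2) * (th T (L + 2) + th T j)) = bij at *
  generalize (th T (L + 1) + th T (L + 2) : K2) = ab at *
  generalize (th T i + th T (L + 2) : K2)⁻¹ = ci at *
  generalize (th T j + th T (L + 2) : K2)⁻¹ = cj at *
  generalize (th T p + th T (L + 2) : K2)⁻¹ = cp at *
  generalize (th T q + th T (L + 2) : K2)⁻¹ = cq at *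
  generalize (th T s + th T (L + 2) : K2)⁻¹ = cs at *
  generalize (th T i + th T j : K2) = dij at *
  generalize (th T p + th T q : K2) * (th T p + th T s) * (th T q + th T s) = dd at *
  linear_combination key

/-- case III: the order comparison -/
theorem III_ord {n₁ n₂ L : ℕ} {Φ : K2[X]} (h₁ : pc n₁ + 1 = L) (h₂ : pc n₂ = L)
    (hS : SysAt T n₁ n₂ L (EE T n₁ L * HH T n₂ L) Φ) :
    ((n₁ + n₂ + 1) / 2 ^ (L + 1) + 1) / 2 ≤ (n₁ / 2 ^ (L + 1) + 1) / 2 ∧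
      ((n₁ + n₂ + 1) / 2 ^ (L + 1) + 1) / 2 ≤ (n₂ / 2 ^ (L + 1) + 1) / 2 := by
  have hd := LC1 th_T_injective n₁ n₂ L _ _ Φ hS
  obtain ⟨V₁, hV₁, hv₁, hn₁⟩ := ordE th_T_injective n₁ L h₁
  obtain ⟨V₂, hV₂, hv₂, hn₂⟩ := ordH th_T_injective n₂ L h₂
  rw [hV₁, hV₂] at hd
  have eE := EE_eval th_T_injective n₁ L (by omega)
  have eH := HH_eval th_T_injective n₂ L (by omega)
  rw [EE_eval th_T_injective n₂ L (by omega)] at eH
  have nE := EE_eval_ne th_T_injective n₁ L (by omega)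
  have nH : (HH T n₂ L).eval (th T (L + 1)) ≠ 0 := by
    rw [HH_eval th_T_injective n₂ L (by omega)]
    exact EE_eval_ne th_T_injective n₂ L (by omega)
  have p1 := PP_eval_ne th_T_injective n₁ L (L + 1) (by omega)
  have p2 := PP_eval_ne th_T_injective n₂ L (L + 1) (by omega)
  rcases lt_trichotomy ((n₁ / 2 ^ (L + 1) + 1) / 2) ((n₂ / 2 ^ (L + 1) + 1) / 2) with hlt | heq | hgt
  · have h := pow_dvd_le (k := 2 * ((n₁ / 2 ^ (L + 1) + 1) / 2))
      (W := V₁ * (HH T n₂ L * PP T n₂ L) + (X + C (th T (L + 1))) ^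
        (2 * ((n₂ / 2 ^ (L + 1) + 1) / 2) - 2 * ((n₁ / 2 ^ (L + 1) + 1) / 2)) *
        V₂ * (EE T n₁ L * PP T n₁ L)) (by
        convert hd using 1
        have hp : (X + C (th T (L + 1)) : K2[X]) ^ (2 * ((n₂ / 2 ^ (L + 1) + 1) / 2)) =
            (X + C (th T (L + 1))) ^ (2 * ((n₁ / 2 ^ (L + 1) + 1) / 2)) *
            (X + C (th T (L + 1))) ^
              (2 * ((n₂ / 2 ^ (L + 1) + 1) / 2) - 2 * ((n₁ / 2 ^ (L + 1) + 1) / 2)) := by
          rw [← pow_add]; congr 1; omega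
        rw [hp]
        generalize (X + C (th T (L + 1)) : K2[X]) ^ (2 * ((n₁ / 2 ^ (L + 1) + 1) / 2)) = u1
        generalize (X + C (th T (L + 1)) : K2[X]) ^
              (2 * ((n₂ / 2 ^ (L + 1) + 1) / 2) - 2 * ((n₁ / 2 ^ (L + 1) + 1) / 2)) = u2
        ring) (by
        rw [eval_add, eval_mul, eval_mul, eval_mul, eval_mul, eval_pow, eval_u,
          zero_pow (by omega), zero_mul, zero_mul, add_zero, hv₁]
        exact mul_ne_zero hn₁ (mul_ne_zero nH p2))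
    omega
  · have h := pow_dvd_le (k := 2 * ((n₁ / 2 ^ (L + 1) + 1) / 2))
      (W := V₁ * (HH T n₂ L * PP T n₂ L) + V₂ * (EE T n₁ L * PP T n₁ L)) (by
        convert hd using 1
        rw [← heq]
        generalize (X + C (th T (L + 1)) : K2[X]) ^ (2 * ((n₁ / 2 ^ (L + 1) + 1) / 2)) = u1
        ring) (by
        rw [eval_add, eval_mul, eval_mul, eval_mul, eval_mul, hv₁, hv₂, eE, eH]
        exact leadIII n₁ n₂ L h₁ h₂ heq)
    omega
  · have h := pow_dvd_le (k := 2 * ((n₂ / 2 ^ (L + 1) + 1) / 2))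
      (W := V₂ * (EE T n₁ L * PP T n₁ L) + (X + C (th T (L + 1))) ^
        (2 * ((n₁ / 2 ^ (L + 1) + 1) / 2) - 2 * ((n₂ / 2 ^ (L + 1) + 1) / 2)) *
        V₁ * (HH T n₂ L * PP T n₂ L)) (by
        convert hd using 1
        have hp : (X + C (th T (L + 1)) : K2[X]) ^ (2 * ((n₁ / 2 ^ (L + 1) + 1) / 2)) =
            (X + C (th T (L + 1))) ^ (2 * ((n₂ / 2 ^ (L + 1) + 1) / 2)) *
            (X + C (th T (L + 1))) ^
              (2 * ((n₁ / 2 ^ (L + 1) + 1) / 2) - 2 * ((n₂ / 2 ^ (L + 1) + 1) / 2)) := by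
          rw [← pow_add]; congr 1; omega
        rw [hp]
        generalize (X + C (th T (L + 1)) : K2[X]) ^ (2 * ((n₂ / 2 ^ (L + 1) + 1) / 2)) = u1
        generalize (X + C (th T (L + 1)) : K2[X]) ^
              (2 * ((n₁ / 2 ^ (L + 1) + 1) / 2) - 2 * ((n₂ / 2 ^ (L + 1) + 1) / 2)) = u2
        ring) (by
        rw [eval_add, eval_mul, eval_mul, eval_mul, eval_mul, eval_pow, eval_u,
          zero_pow (by omega), zero_mul, zero_mul, add_zero, hv₂]
        exact mul_ne_zero hn₂ (mul_ne_zero nE p1))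
    omega

/-- case I: the order comparison -/
theorem I_ord {n₁ n₂ L : ℕ} {Φ : K2[X]} (h₁ : L ≤ pc n₁) (h₂ : pc n₂ = L)
    (hS : SysAt T n₁ n₂ L (EE T n₁ L * HH T n₂ L) Φ) :
    ((n₁ + n₂ + 1) / 2 ^ (L + 1) + 1) / 2 ≤ (n₂ / 2 ^ (L + 1) + 1) / 2 := by
  have hd := LC1 th_T_injective n₁ n₂ L _ _ Φ hS
  obtain ⟨V₂, hV₂, hv₂, hn₂⟩ := ordH th_T_injective n₂ L h₂
  rw [wrE_zero th_T_injective n₁ L h₁, hV₂, zero_mul, zero_add, mul_assoc] at hd
  have nE := EE_eval_ne th_T_injective n₁ L (by omega)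
  have p1 := PP_eval_ne th_T_injective n₁ L (L + 1) (by omega)
  have h := pow_dvd_le hd (by
    rw [eval_mul, eval_mul, hv₂]
    exact mul_ne_zero hn₂ (mul_ne_zero nE p1))
  omega

/-- case II: the order comparison -/
theorem II_ord {n₁ n₂ L : ℕ} {Φ : K2[X]} (h₁ : pc n₁ + 1 = L) (h₂ : L < pc n₂)
    (hS : SysAt T n₁ n₂ L (EE T n₁ L * HH T n₂ L) Φ) :
    ((n₁ + n₂ + 1) / 2 ^ (L + 1) + 1) / 2 ≤ (n₁ / 2 ^ (L + 1) + 1) / 2 := by
  have hd := LC1 th_T_injective n₁ n₂ L _ _ Φ hS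
  obtain ⟨V₁, hV₁, hv₁, hn₁⟩ := ordE th_T_injective n₁ L h₁
  rw [wrH_zero th_T_injective n₂ L h₂, hV₁, zero_mul, add_zero, mul_assoc] at hd
  have nH : (HH T n₂ L).eval (th T (L + 1)) ≠ 0 := by
    rw [HH_eval th_T_injective n₂ L (by omega)]
    exact EE_eval_ne th_T_injective n₂ L (by omega)
  have p2 := PP_eval_ne th_T_injective n₂ L (L + 1) (by omega)
  have h := pow_dvd_le hd (by
    rw [eval_mul, eval_mul, hv₁]
    exact mul_ne_zero hn₁ (mul_ne_zero nH p2))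
  omega

end MZ
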