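import Pool.Agent.Work.MP_968e92_nt.D2
import Pool.Agent.Work.MP_968e92_nt.MainD

/-! # MP_968e92_nt, assembly -/

open Polynomial

namespace MZ

/-- the algebraic heart: existence of `F` forces the list `L` -/
theorem main_alg (n₁ n₂ : ℕ) (F : K2[X])
    (hF : expand K2 2 F = (X + C (th T 0)) ^ (n₁ + n₂ + 2) * F +
      expand K2 2 (EE T n₁ 0 * HH T n₂ 0))
    (hp : ¬ (Even (n₁ + 1) ∧ Even (n₂ + 1))) : InL (n₁ + 1) (n₂ + 1) := by
  have hdesc := sys_descent th_T_injective n₁ n₂ F hF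
  have half : ∀ n L : ℕ, n / 2 ^ (L + 2) = n / 2 ^ (L + 1) / 2 := by
    intro n L
    rw [Nat.div_div_eq_div_mul, show (2 : ℕ) ^ (L + 2) = 2 ^ (L + 1) * 2 by ring]
  rcases Nat.lt_trichotomy (pc n₁ + 1) (pc n₂) with hII | hIII | hI
  · -- case II
    obtain ⟨L, hL⟩ : ∃ L, L = pc n₁ + 1 := ⟨_, rfl⟩
    obtain ⟨Φ, hS⟩ := hdesc L (by omega) (by omega)
    have ho := II_ord hL.symm (by omega) hS
    obtain ⟨hn₂, h2, hodd, hν⟩ := comb_II hL.symm (by omega) ho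
    have hpos : 1 ≤ n₁ / 2 ^ (L + 1) := hodd.pos
    rcases Nat.lt_or_ge (n₁ / 2 ^ (L + 1)) 2 with hx | hx
    · exact (II_one hL.symm (by omega) h2 hn₂ (by omega) hS).elim
    · exact (II_big hL.symm (by rw [half]; omega) h2 hn₂ (by omega) hS).elim
  · -- case III
    obtain ⟨L, hL⟩ : ∃ L, L = pc n₂ := ⟨_, rfl⟩
    obtain ⟨Φ, hS⟩ := hdesc L (by omega) (by omega)
    obtain ⟨ho1, ho2⟩ := III_ord (by omega) hL.symm hS
    rcases comb_III (by omega) hL.symm ho1 ho2 with h | ⟨hx, hy, hν⟩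
    · exact end_III (L := L) (by omega) hL.symm h hp
    · exact (III_one (by omega) hx hL.symm hy (by omega) hS).elim
  · -- case I
    obtain ⟨L, hL⟩ : ∃ L, L = pc n₂ := ⟨_, rfl⟩
    obtain ⟨Φ, hS⟩ := hdesc L (by omega) (by omega)
    have ho := I_ord (by omega) hL.symm hS
    obtain ⟨hn₁, hA | hB | hC⟩ := comb_I hL.symm (by omega) ho
    · obtain ⟨h1, hν⟩ := hA
      rcases Nat.lt_or_ge (n₂ / 2 ^ (L + 1)) 2 with hy | hy
      · rcases Nat.eq_zero_or_pos (n₂ / 2 ^ (L + 1)) with h0 | h0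
        · refine end_Ia0 (L := L) h1 hL.symm ?_ hp
          rw [h0] at hν
          exact (Nat.div_eq_zero_iff_lt (by positivity)).mp hν
        · exact end_Ia1 (L := L) h1 hL.symm (by omega) (by omega) hp
      · exact (Ia_big h1 hn₁ hL.symm (by rw [half]; omega) (by omega) hS).elim
    · obtain ⟨h1, hν, hodd⟩ := hB
      have hpos : 1 ≤ n₂ / 2 ^ (L + 1) := hodd.pos
      rcases Nat.lt_or_ge (n₂ / 2 ^ (L + 1)) 2 with hy | hy
      · exact (Ia_one h1 hn₁ hL.symm (by omega) (by omega) hS).elim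
      · exact (Ia_big h1 hn₁ hL.symm (by rw [half]; omega) (by omega) hS).elim
    · obtain ⟨h1, hν, hodd⟩ := hC
      obtain ⟨k, hk⟩ := hodd
      rcases Nat.lt_or_ge k 1 with h0 | h0
      · exact (Ib_one h1 hn₁ hL.symm (by omega) (by omega) hS).elim
      · rcases Nat.lt_or_ge k 2 with h3 | h3
        · exact (Ib_three h1 hn₁ hL.symm (by omega) hν hS).elim
        · exact (Ib_big h1 hn₁ hL.symm ⟨k, hk⟩ (by omega) hν hS).elim

theorem main_result (s₁ s₂ : ℕ) (h₁ : 1 ≤ s₁) (h₂ : 1 ≤ s₂) (hp : ¬ (Even s₁ ∧ Even s₂))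
    (hz : ZetaLike s₁ s₂) : InL s₁ s₂ := by
  obtain ⟨F, hF⟩ := exists_poly h₁ h₂ hz
  obtain ⟨n₁, rfl⟩ : ∃ n, s₁ = n + 1 := ⟨s₁ - 1, by omega⟩
  obtain ⟨n₂, rfl⟩ : ∃ n, s₂ = n + 1 := ⟨s₂ - 1, by omega⟩
  apply main_alg n₁ n₂ F _ hp
  simpa [show n₁ + 1 + (n₂ + 1) = n₁ + n₂ + 2 by ring] using hF

end MZ
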