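import Pool.Agent.Work.MP_968e92_nt.Loc
import Pool.Agent.Work.MP_968e92_nt.Deg
import Pool.Agent.Work.MP_968e92_nt.Comb

/-! # MP_968e92_nt, module MainA: auxiliary lemmas for the case analysis -/

open Polynomial

namespace MZ

section aux
variable {K : Type*} [Field K] [CharP K 2]

theorem two_zero' : (2 : K) = 0 := CharTwo.two_eq_zero

theorem two_zeroP : (2 : K[X]) = 0 := CharTwo.two_eq_zero

theorem eq_of_add_zero {x y : K} (h : x + y = 0) : x = y := by
  linear_combination h - y * (two_zero' (K := K))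

theorem add_zero_of_eq {x y : K} (h : x = y) : x + y = 0 := by
  rw [h]; linear_combination y * (two_zero' (K := K))

theorem root_dvd {f : K[X]} {a : K} (h : f.eval a = 0) : (X + C a) ∣ f := by
  have : (X + C a : K[X]) = X - C a := by
    linear_combination (C a) * (two_zeroP (K := K))
  rw [this]
  exact dvd_iff_isRoot.mpr h

theorem eval_u (a : K) : (X + C a : K[X]).eval a = 0 := by
  rw [eval_add, eval_X, eval_C]
  exact add_zero_of_eq rfl

omit [CharP K 2] in
theorem u_ne (a : K) : (X + C a : K[X]) ≠ 0 := X_add_C_ne_zero a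

theorem pow_dvd_le {a : K} {m k : ℕ} {W : K[X]} (h : (X + C a) ^ m ∣ (X + C a) ^ k * W)
    (hW : W.eval a ≠ 0) : m ≤ k := by
  by_contra hlt
  have h1 : (X + C a) ^ (k + 1) ∣ (X + C a) ^ k * W := (pow_dvd_pow _ (by omega)).trans h
  rw [pow_succ] at h1
  have h2 : (X + C a) ∣ W := (mul_dvd_mul_iff_left (pow_ne_zero k (u_ne a))).mp h1
  obtain ⟨Q, hQ⟩ := h2
  apply hW
  rw [hQ, eval_mul, eval_u, zero_mul]

theorem dvd3_const (P : K[X]) (c a : K) :
    (X + C a) ^ 3 ∣ C c * P + (C c + C 0 * (X + C a) ^ 2) * P := by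
  have : C c * P + (C c + C 0 * (X + C a) ^ 2) * P = 0 := by
    rw [C_0]
    linear_combination (C c * P) * (two_zeroP (K := K))
  rw [this]
  exact dvd_zero _

theorem dvd3_fB (P : K[X]) (c a : K) (hP : P.eval a ≠ 0) :
    (X + C a) ^ 3 ∣ C c * (P + (X + C a) ^ 2) +
      (C c + C (c * (P.eval a)⁻¹) * (X + C a) ^ 2) * P := by
  have h1 : (X + C a) ∣ C c + C (c * (P.eval a)⁻¹) * P := by
    apply root_dvd
    rw [eval_add, eval_mul, eval_C, eval_C, mul_assoc, inv_mul_cancel₀ hP, mul_one]
    exact add_zero_of_eq rfl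
  have h2 : C c * (P + (X + C a) ^ 2) + (C c + C (c * (P.eval a)⁻¹) * (X + C a) ^ 2) * P =
      (X + C a) ^ 2 * (C c + C (c * (P.eval a)⁻¹) * P) := by
    linear_combination (C c * P) * (two_zeroP (K := K))
  rw [h2, pow_succ]
  exact mul_dvd_mul_left _ h1

theorem dvd3_gB (c a r s t : K) (h1 : a + r ≠ 0) (h2 : a + s ≠ 0) (h3 : a + t ≠ 0) :
    (X + C a) ^ 3 ∣ C c * (C ((a + r) * (a + s) * (a + t)) +
        C ((a + r) * (a + s) + (a + r) * (a + t) + (a + s) * (a + t)) * (X + C a)) +
      (C c + C (c * ((a + r)⁻¹ * (a + s)⁻¹ + (a + r)⁻¹ * (a + t)⁻¹ + (a + s)⁻¹ * (a + t)⁻¹)) *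
        (X + C a) ^ 2) * ((X + C r) * (X + C s) * (X + C t)) := by
  set e := c * ((a + r)⁻¹ * (a + s)⁻¹ + (a + r)⁻¹ * (a + t)⁻¹ + (a + s)⁻¹ * (a + t)⁻¹) with he
  have he' : e * ((a + r) * (a + s) * (a + t)) + c * ((a + r) + (a + s) + (a + t)) = 0 := by
    have : e * ((a + r) * (a + s) * (a + t)) = c * ((a + r) + (a + s) + (a + t)) := by
      rw [he]
      field_simp
      ring
    exact add_zero_of_eq this
  have he2 : C e * (C (a + r) * C (a + s) * C (a + t)) +
      C c * (C (a + r) + C (a + s) + C (a + t)) = 0 := by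
    have := congrArg (C : K → K[X]) he'
    simpa only [C_add, C_mul, C_0] using this
  have hr : (X + C r : K[X]) = (X + C a) + C (a + r) := by
    rw [C_add]; linear_combination (-C a) * (two_zeroP (K := K))
  have hs : (X + C s : K[X]) = (X + C a) + C (a + s) := by
    rw [C_add]; linear_combination (-C a) * (two_zeroP (K := K))
  have ht : (X + C t : K[X]) = (X + C a) + C (a + t) := by
    rw [C_add]; linear_combination (-C a) * (two_zeroP (K := K))
  rw [hr, hs, ht]
  simp only [C_mul, C_add (a := (a + r) * (a + s) + (a + r) * (a + t)),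
    C_add (a := (a + r) * (a + s))]
  generalize (C (a + r) : K[X]) = A at *
  generalize (C (a + s) : K[X]) = B at *
  generalize (C (a + t) : K[X]) = D at *
  generalize (X + C a : K[X]) = u at *
  refine ⟨C c + C e * (A * B + A * D + B * D) + C e * (A + B + D) * u + C e * u ^ 2, ?_⟩
  linear_combination u ^ 2 * he2 +
    (C c * (A * B * D) + C c * (A * B + A * D + B * D) * u) * (two_zeroP (K := K))

end aux

/-! ## explicit products -/

section
variable {K : Type*} [Field K] {θ : K}

theorem PP_zer0 {n L : ℕ} (h : zer n (L + 1) = ∅) : PP θ n L = 1 := by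
  unfold PP; rw [h, Finset.prod_empty]

theorem PP_zer1 {n L i : ℕ} (h : zer n (L + 1) = {i}) : PP θ n L = X + C (th θ i) := by
  unfold PP; rw [h, Finset.prod_singleton]

theorem PP_zer2 {n L i j : ℕ} (hij : i < j) (h : zer n (L + 1) = {i, j}) :
    PP θ n L = (X + C (th θ i)) * (X + C (th θ j)) := by
  unfold PP; rw [h, Finset.prod_pair (by omega)]

theorem PP_zer3 {n L i j k : ℕ} (hij : i < j) (hjk : j < k) (h : zer n (L + 1) = {i, j, k}) :
    PP θ n L = (X + C (th θ i)) * (X + C (th θ j)) * (X + C (th θ k)) := by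
  unfold PP
  rw [h, Finset.prod_insert, Finset.prod_pair (by omega), mul_assoc]
  simp only [Finset.mem_insert, Finset.mem_singleton]
  omega

end

/-! ## digits at position `L+1` -/

theorem testBit_of_div {n l : ℕ} (h : n / 2 ^ l % 2 = 1) : n.testBit l = true := by
  rw [Nat.testBit_eq_decide_div_mod_eq, h]; rfl

theorem testBit_of_div' {n l : ℕ} (h : n / 2 ^ l % 2 = 0) : n.testBit l = false := by
  rw [Nat.testBit_eq_decide_div_mod_eq, h]; rfl

/-- the zeros below `L+1` when the zeros below `L+2` are `{i, j}` -/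
theorem zer_two {n L i j : ℕ} (hn : n < 2 ^ (L + 2)) (hij : i < j) (hj : j ≤ L + 1)
    (h : zer n (L + 2) = {i, j}) :
    (n / 2 ^ (L + 1) = 0 ∧ j = L + 1 ∧ zer n (L + 1) = {i}) ∨
      (n / 2 ^ (L + 1) = 1 ∧ j ≤ L ∧ zer n (L + 1) = {i, j}) := by
  have hx : n / 2 ^ (L + 1) < 2 := by
    rw [Nat.div_lt_iff_lt_mul (by positivity)]
    calc n < 2 ^ (L + 2) := hn
      _ = 2 * 2 ^ (L + 1) := by ring
  have hx' : n / 2 ^ (L + 1) = 0 ∨ n / 2 ^ (L + 1) = 1 :=
    Nat.le_one_iff_eq_zero_or_eq_one.mp (Nat.lt_succ_iff.mp hx)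
  rcases hx' with hx | hx
  · left
    have hb : n.testBit (L + 1) = false := testBit_of_div' (by rw [hx])
    have hz := zer_succ_zero hb
    rw [h] at hz
    have hnot : L + 1 ∉ zer n (L + 1) := fun hm => absurd (lt_of_mem_zer hm) (lt_irrefl _)
    have hmem : L + 1 ∈ ({i, j} : Finset ℕ) := by rw [hz]; exact Finset.mem_insert_self _ _
    have hjL : j = L + 1 := by
      simp only [Finset.mem_insert, Finset.mem_singleton] at hmem; omega
    refine ⟨hx, hjL, ?_⟩
    ext k
    constructor
    · intro hk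
      have hkz : k ∈ ({i, j} : Finset ℕ) := by rw [hz]; exact Finset.mem_insert_of_mem hk
      have := lt_of_mem_zer hk
      simp only [Finset.mem_insert, Finset.mem_singleton] at hkz ⊢
      omega
    · intro hk
      rw [Finset.mem_singleton] at hk
      have : k ∈ insert (L + 1) (zer n (L + 1)) := by rw [← hz, hk]; simp
      rw [Finset.mem_insert] at this
      rcases this with h | h
      · omega
      · exact h
  · right
    have hb : n.testBit (L + 1) = true := testBit_of_div (by rw [hx])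
    have hz := zer_succ_one hb
    rw [h] at hz
    refine ⟨hx, ?_, hz.symm⟩
    have : j ∈ zer n (L + 1) := by rw [← hz]; simp
    have := lt_of_mem_zer this
    omega

/-- the zeros below `L+1` when the only zero below `L+2` is `j` -/
theorem zer_one {n L j : ℕ} (hn : n < 2 ^ (L + 2)) (hj : j ≤ L + 1)
    (h : zer n (L + 2) = {j}) :
    (n / 2 ^ (L + 1) = 0 ∧ j = L + 1 ∧ zer n (L + 1) = ∅) ∨
      (n / 2 ^ (L + 1) = 1 ∧ j ≤ L ∧ zer n (L + 1) = {j}) := by
  have hx : n / 2 ^ (L + 1) < 2 := by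
    rw [Nat.div_lt_iff_lt_mul (by positivity)]
    calc n < 2 ^ (L + 2) := hn
      _ = 2 * 2 ^ (L + 1) := by ring
  have hx' : n / 2 ^ (L + 1) = 0 ∨ n / 2 ^ (L + 1) = 1 :=
    Nat.le_one_iff_eq_zero_or_eq_one.mp (Nat.lt_succ_iff.mp hx)
  rcases hx' with hx | hx
  · left
    have hb : n.testBit (L + 1) = false := testBit_of_div' (by rw [hx])
    have hz := zer_succ_zero hb
    rw [h] at hz
    have hmem : L + 1 ∈ ({j} : Finset ℕ) := by rw [hz]; exact Finset.mem_insert_self _ _
    have hjL : j = L + 1 := by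
      rw [Finset.mem_singleton] at hmem; omega
    refine ⟨hx, hjL, ?_⟩
    rw [Finset.eq_empty_iff_forall_notMem]
    intro k hk
    have hkz : k ∈ ({j} : Finset ℕ) := by rw [hz]; exact Finset.mem_insert_of_mem hk
    have := lt_of_mem_zer hk
    rw [Finset.mem_singleton] at hkz
    omega
  · right
    have hb : n.testBit (L + 1) = true := testBit_of_div (by rw [hx])
    have hz := zer_succ_one hb
    rw [h] at hz
    refine ⟨hx, ?_, hz.symm⟩
    have : j ∈ zer n (L + 1) := by rw [← hz]; simp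
    have := lt_of_mem_zer this
    omega

end MZ
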