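import Pool.Agent.Work.MP_968e92_nt.MainA

/-! # MP_968e92_nt, module MainB: case I-a and case II -/

open Polynomial

namespace MZ

theorem tadd_ne {i j : ℕ} (h : i < j) : (th T i + th T j : K2) ≠ 0 := (dadd h).ne_zero

theorem tadd_ne' {i j : ℕ} (h : i < j) : (th T j + th T i : K2) ≠ 0 := by
  rw [add_comm]; exact tadd_ne h

theorem sum_pair_ne {i j m : ℕ} (hij : i < j) :
    ∑ k ∈ ({i, j} : Finset ℕ), (th T k + th T m : K2)⁻¹ ≠ 0 := by
  rw [Finset.sum_pair (by omega)]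
  intro h
  have h1 := eq_of_add_zero h
  have h2 : (th T i + th T m : K2) = th T j + th T m := inv_injective h1
  have h3 : (th T i : K2) = th T j := add_right_cancel h2
  exact absurd (th_T_injective h3) (by omega)

/-- case I-a, `y ≥ 2` -/
theorem Ia_big {n₁ n₂ L : ℕ} {Φ : K2[X]} (h₁ : pc n₁ = L) (hn₁ : n₁ < 2 ^ (L + 2))
    (h₂ : pc n₂ = L) (hy : 1 ≤ n₂ / 2 ^ (L + 2))
    (he : 2 ≤ (n₁ + n₂ + 1) / 2 ^ (L + 1))
    (hS : SysAt T n₁ n₂ L (EE T n₁ L * HH T n₂ L) Φ) : False := by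
  obtain ⟨c, hc, hE⟩ := dat_gC th_T_injective n₁ L h₁ hn₁
  obtain ⟨f₀, f₂, hf₀, hH, hf₂, hW⟩ := dat_fA th_T_injective n₂ L h₂ hy
  have key := LC2 th_T_injective n₁ n₂ L _ _ Φ hS he f₀ f₂ c 0
    (by rw [hE]; exact dvd3_const _ _ _) hH
  rw [wrE_zero th_T_injective n₁ L (by omega), hW] at key
  obtain ⟨i, j, hij, hj, hz⟩ := two_zeros h₁ hn₁
  have e1 := sum_pair_ne (m := L + 2) hij
  rw [← hz] at e1
  have p1 := PP_eval_ne th_T_injective n₁ L (L + 2) (by omega)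
  have p2 := PP_eval_ne th_T_injective n₂ L (L + 2) (by omega)
  have p3 : (th T (L + 1) + th T (L + 2) : K2) ≠ 0 := tadd_ne (by omega)
  rw [eval_zero, zero_mul, zero_mul, add_zero, hf₂] at key
  have e2 : f₀ * 0 + f₀ * (∑ j ∈ zer n₂ (L + 2), (th T j + th T (L + 2))⁻¹) * c + f₀ * c *
      (∑ j ∈ zer n₁ (L + 2), (th T j + th T (L + 2))⁻¹ +
        ∑ j ∈ zer n₂ (L + 2), (th T j + th T (L + 2))⁻¹) =
      f₀ * c * ∑ j ∈ zer n₁ (L + 2), (th T j + th T (L + 2))⁻¹ := by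
    linear_combination (f₀ * c * ∑ j ∈ zer n₂ (L + 2), (th T j + th T (L + 2))⁻¹) * two_zero
  rw [e2] at key
  exact absurd key (mul_ne_zero (mul_ne_zero (pow_ne_zero _ p3) (mul_ne_zero p1 p2))
    (mul_ne_zero (mul_ne_zero hf₀ hc) e1))

/-- case I-a, `y = 1` -/
theorem Ia_one {n₁ n₂ L : ℕ} {Φ : K2[X]} (h₁ : pc n₁ = L) (hn₁ : n₁ < 2 ^ (L + 2))
    (h₂ : pc n₂ = L) (hy : n₂ / 2 ^ (L + 1) = 1)
    (he : 2 ≤ (n₁ + n₂ + 1) / 2 ^ (L + 1))
    (hS : SysAt T n₁ n₂ L (EE T n₁ L * HH T n₂ L) Φ) : False := by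
  obtain ⟨c, hc, hE⟩ := dat_gC th_T_injective n₁ L h₁ hn₁
  obtain ⟨d, hd, hH⟩ := dat_fB th_T_injective n₂ L h₂ hy
  have p2a := PP_eval_ne th_T_injective n₂ L (L + 1) (by omega)
  have key := LC2 th_T_injective n₁ n₂ L _ _ Φ hS he d
    (d * ((PP T n₂ L).eval (th T (L + 1)))⁻¹) c 0
    (by rw [hE]; exact dvd3_const _ _ _) (by rw [hH]; exact dvd3_fB _ _ _ p2a)
  rw [wrE_zero th_T_injective n₁ L (by omega)] at key
  obtain ⟨i, j, hij, hj, hz⟩ := two_zeros h₁ hn₁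
  obtain ⟨p, q, hpq, hq, hz1, hz2⟩ := two_zeros' h₂ hy
  have p1 := PP_eval_ne th_T_injective n₁ L (L + 2) (by omega)
  have p3 : (th T (L + 1) + th T (L + 2) : K2) ≠ 0 := tadd_ne (by omega)
  rw [hz, hz2, Finset.sum_pair (by omega), Finset.sum_pair (by omega), hH, hE, hy,
    PP_zer2 hpq hz1] at key
  have hx : (n₁ / 2 ^ (L + 1) = 0 ∧ (PP T n₁ L).eval (th T (L + 2)) =
      th T (L + 2) + th T i) ∨ (n₁ / 2 ^ (L + 1) = 1 ∧ (PP T n₁ L).eval (th T (L + 2)) =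
      (th T (L + 2) + th T i) * (th T (L + 2) + th T j)) := by
    rcases zer_two hn₁ hij hj hz with ⟨hx, -, hz0⟩ | ⟨hx, -, hz0⟩
    · left
      refine ⟨hx, ?_⟩
      rw [PP_zer1 hz0]; simp
    · right
      refine ⟨hx, ?_⟩
      rw [PP_zer2 hij hz0]; simp
  have ft := FT1 L p q i j (n₁ / 2 ^ (L + 1)) _ hpq hq hij hj hx
  apply ft
  generalize n₁ / 2 ^ (L + 1) = x at *
  have w1 : (Wr (C d * ((X + C (th T p)) * (X + C (th T q)) + (X + C (th T (L + 1))) ^ 2))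
      ((X + C (th T p)) * (X + C (th T q)))).eval (th T (L + 2)) =
      d * (th T (L + 1) + th T (L + 2)) ^ 2 * (th T p + th T q) := by
    unfold Wr
    simp only [derivative_mul, derivative_C, derivative_add, derivative_X, derivative_pow,
      eval_add, eval_mul, eval_C, eval_X, eval_pow, eval_zero, eval_one]
    push_cast
    linear_combination (d * ((th T (L + 2) + th T p) * (th T (L + 2) + th T q)) *
      ((th T (L + 2) + th T p) + (th T (L + 2) + th T q)) + d * (th T (L + 2) + th T (L + 1)) *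
      ((th T (L + 2) + th T p) * (th T (L + 2) + th T q)) + d * th T (L + 2) *
        (th T (L + 2) + th T (L + 1)) ^ 2) * two_zero
  rw [w1] at key
  simp only [eval_add, eval_mul, eval_C, eval_X, eval_zero, zero_mul, zero_add,
    mul_zero] at key
  have hne : d * c * (PP T n₁ L).eval (th T (L + 2)) * (th T (L + 1) + th T (L + 2)) ^ 2 ≠ 0 :=
    mul_ne_zero (mul_ne_zero (mul_ne_zero hd hc) p1) (pow_ne_zero _ p3)
  apply mul_left_cancel₀ hne
  rw [show x + 1 + 2 = (x + 1) + 2 by ring] at key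
  linear_combination key

end MZ
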