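import Pool.Agent.Work.MP_968e92_nt.MainB

/-! # MP_968e92_nt, module MainC: case I-b -/

open Polynomial

namespace MZ

/-- case I-b, `y = 1` -/
theorem Ib_one {n₁ n₂ L : ℕ} {Φ : K2[X]} (h₁ : pc n₁ = L + 1) (hn₁ : n₁ < 2 ^ (L + 2))
    (h₂ : pc n₂ = L) (hy : n₂ / 2 ^ (L + 1) = 1)
    (he : 2 ≤ (n₁ + n₂ + 1) / 2 ^ (L + 1))
    (hS : SysAt T n₁ n₂ L (EE T n₁ L * HH T n₂ L) Φ) : False := by
  obtain ⟨i, hi, -, hz⟩ := one_zero h₁ hn₁
  obtain ⟨c, hc, hE⟩ := dat_gD th_T_injective n₁ L i h₁ hn₁ hz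
  obtain ⟨d, hd, hH⟩ := dat_fB th_T_injective n₂ L h₂ hy
  have p2a := PP_eval_ne th_T_injective n₂ L (L + 1) (by omega)
  have key := LC2 th_T_injective n₁ n₂ L _ _ Φ hS he d
    (d * ((PP T n₂ L).eval (th T (L + 1)))⁻¹) (c * (th T (L + 2) + th T i)) c
    (by
      rw [hE, sq_a L]
      have : C c * (X ^ 2 + C (th T i)) * PP T n₁ L +
          (C (c * (th T (L + 1) ^ 2 + th T i)) + C c * (X + C (th T (L + 1))) ^ 2) *
            PP T n₁ L = 0 := by
        simp only [C_mul, C_add, C_pow]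
        linear_combination (C c * (X ^ 2 + C (th T i) + C (th T (L + 1)) ^ 2 +
          X * C (th T (L + 1))) * PP T n₁ L) * (two_zeroP (K := K2))
      rw [this]
      exact dvd_zero _)
    (by rw [hH]; exact dvd3_fB _ _ _ p2a)
  rw [wrE_zero th_T_injective n₁ L (by omega)] at key
  obtain ⟨p, q, hpq, hq, hz1, hz2⟩ := two_zeros' h₂ hy
  have p1 := PP_eval_ne th_T_injective n₁ L (L + 2) (by omega)
  have p3 : (th T (L + 1) + th T (L + 2) : K2) ≠ 0 := tadd_ne (by omega)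
  rw [hz, hz2, Finset.sum_singleton, Finset.sum_pair (by omega), hH, hE, hy,
    PP_zer2 hpq hz1] at key
  have hx : (n₁ / 2 ^ (L + 1) = 0 ∧ (PP T n₁ L).eval (th T (L + 2)) = 1) ∨
      (n₁ / 2 ^ (L + 1) = 1 ∧ (PP T n₁ L).eval (th T (L + 2)) = th T (L + 2) + th T i) := by
    rcases zer_one hn₁ hi hz with ⟨hx, -, hz0⟩ | ⟨hx, -, hz0⟩
    · left
      refine ⟨hx, ?_⟩
      rw [PP_zer0 hz0]; simp
    · right
      refine ⟨hx, ?_⟩
      rw [PP_zer1 hz0]; simp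
  have ft := FT2 L p q i (n₁ / 2 ^ (L + 1)) _ hpq hq hi hx
  apply ft
  generalize n₁ / 2 ^ (L + 1) = x at *
  have w1 : (Wr (C d * ((X + C (th T p)) * (X + C (th T q)) + (X + C (th T (L + 1))) ^ 2))
      ((X + C (th T p)) * (X + C (th T q)))).eval (th T (L + 2)) =
      d * (th T (L + 1) + th T (L + 2)) ^ 2 * (th T p + th T q) := by
    unfold Wr
    simp only [derivative_mul, derivative_C, derivative_add, derivative_X, derivative_pow,
      eval_add, eval_mul, eval_C, eval_X, eval_pow, eval_zero, eval_one]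
    push_cast
    linear_combination (d * ((th T (L + 2) + th T p) * (th T (L + 2) + th T q)) *
      ((th T (L + 2) + th T p) + (th T (L + 2) + th T q)) + d * (th T (L + 2) + th T (L + 1)) *
      ((th T (L + 2) + th T p) * (th T (L + 2) + th T q)) + d * th T (L + 2) *
        (th T (L + 2) + th T (L + 1)) ^ 2) * two_zero
  rw [w1] at key
  simp only [eval_add, eval_mul, eval_C, eval_X, eval_zero, eval_pow, zero_mul, zero_add] at key
  have hne : d * c * (PP T n₁ L).eval (th T (L + 2)) * (th T (L + 1) + th T (L + 2)) ^ 2 ≠ 0 :=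
    mul_ne_zero (mul_ne_zero (mul_ne_zero hd hc) p1) (pow_ne_zero _ p3)
  apply mul_left_cancel₀ hne
  have hbi : (th T i + th T (L + 2) : K2) * (th T i + th T (L + 2))⁻¹ = 1 :=
    mul_inv_cancel₀ (tadd_ne (by omega))
  have e2 : d * c + d * ((th T (L + 1) + th T p) * (th T (L + 1) + th T q))⁻¹ *
        (c * (th T (L + 2) + th T i)) +
      d * (c * (th T (L + 2) + th T i)) * ((th T i + th T (L + 2))⁻¹ +
        ((th T p + th T (L + 2))⁻¹ + (th T q + th T (L + 2))⁻¹)) =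
      d * c * ((th T (L + 2) + th T i) *
        (((th T (L + 1) + th T p) * (th T (L + 1) + th T q))⁻¹ +
          ((th T p + th T (L + 2))⁻¹ + (th T q + th T (L + 2))⁻¹))) := by
    linear_combination (d * c) * hbi + (d * c) * two_zero
  rw [e2] at key
  rw [show x + 1 + 2 = (x + 1) + 2 by ring] at key
  linear_combination key

/-- case I-b: the system in the form required by `LC3` -/
theorem Ib_sys {n₁ n₂ L : ℕ} {Φ : K2[X]} (h₁ : pc n₁ = L + 1) (hn₁ : n₁ < 2 ^ (L + 2))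
    (h₂ : pc n₂ = L) (hS : SysAt T n₁ n₂ L (EE T n₁ L * HH T n₂ L) Φ) :
    ∃ (h : K2) (Φ' : K2[X]), h ≠ 0 ∧ SysAt T n₁ n₂ L
      ((PP T n₁ L * C h) * ((X + C (th T (L + 1))) ^ (n₂ / 2 ^ (L + 1) + 1) * EE T n₂ (L + 1)))
      Φ' := by
  obtain ⟨Φ', hS'⟩ := sys_swap th_T_injective n₁ n₂ L Φ (by omega) (by omega) hS
  obtain ⟨h, hh, hH⟩ := dat_fC th_T_injective n₁ L h₁ hn₁
  refine ⟨h, Φ', hh, ?_⟩
  rw [hH] at hS'
  rw [mul_comm (PP T n₁ L) (C h)]
  exact hS'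

/-- case I-b, `y ≥ 5` -/
theorem Ib_big {n₁ n₂ L : ℕ} {Φ : K2[X]} (h₁ : pc n₁ = L + 1) (hn₁ : n₁ < 2 ^ (L + 2))
    (h₂ : pc n₂ = L) (hy : Odd (n₂ / 2 ^ (L + 1))) (hy5 : 5 ≤ n₂ / 2 ^ (L + 1))
    (hν : (n₁ + n₂ + 1) / 2 ^ (L + 1) = n₂ / 2 ^ (L + 1) + 1)
    (hS : SysAt T n₁ n₂ L (EE T n₁ L * HH T n₂ L) Φ) : False := by
  obtain ⟨h, Φ', hh, hS'⟩ := Ib_sys h₁ hn₁ h₂ hS
  have hn3 : n₂ / 2 ^ (L + 3) = n₂ / 2 ^ (L + 1) / 4 := by
    rw [Nat.div_div_eq_div_mul, show (2 : ℕ) ^ (L + 3) = 2 ^ (L + 1) * 4 by ring]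
  have hn2 : n₂ / 2 ^ (L + 2) = n₂ / 2 ^ (L + 1) / 2 := by
    rw [Nat.div_div_eq_div_mul, show (2 : ℕ) ^ (L + 2) = 2 ^ (L + 1) * 2 by ring]
  obtain ⟨e₀, e₂, he₀, hE, he₂, hW⟩ := dat_Ib th_T_injective n₂ L h₂ hy (by omega)
  have key := LC3 th_T_injective n₁ n₂ L (EE T n₂ (L + 1)) Φ' h hh hS' hy (by omega) hν e₀ e₂ hE
  rw [if_neg (by omega), hW, mul_zero, add_zero] at key
  have p2 := PP_eval_ne th_T_injective n₂ L (L + 3) (by omega)
  have p3 : (th T (L + 1) + th T (L + 2) : K2) ≠ 0 := tadd_ne (by omega)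
  have p4 : (th T (L + 1) + th T (L + 3) : K2) ≠ 0 := tadd_ne (by omega)
  obtain ⟨i, hi, -, hz⟩ := one_zero h₁ hn₁
  have hbc : (th T (L + 2) + th T (L + 3) : K2) = (th T (L + 1) + th T (L + 2)) ^ 2 := by
    rw [sq_b L, sq_a L]
    linear_combination (- (th T (L + 1)) ^ 3) * two_zero
  have hbc0 : (th T (L + 2) + th T (L + 3) : K2) ≠ 0 := tadd_ne (by omega)
  -- the second sum
  have hsum : (((n₂ / 2 ^ (L + 1) + 1) / 2 : ℕ) : K2) *
      (th T (L + 1) + th T (L + 2)) ^ (n₂ / 2 ^ (L + 1) - 1) * e₀ =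
      (th T (L + 1) + th T (L + 2)) ^ (n₂ / 2 ^ (L + 1) + 1) *
        (e₀ * (∑ j ∈ zer n₂ (L + 2), (th T j + th T (L + 3))⁻¹) + e₂) := by
    rw [he₂]
    have hpow : (th T (L + 1) + th T (L + 2) : K2) ^ (n₂ / 2 ^ (L + 1) + 1) =
        (th T (L + 1) + th T (L + 2)) ^ (n₂ / 2 ^ (L + 1) - 1) *
          (th T (L + 2) + th T (L + 3)) := by
      rw [hbc, ← pow_add]
      congr 1
      omega
    rw [hpow]
    obtain ⟨k, hk⟩ := hy
    rcases Nat.even_or_odd' k with ⟨m, hm | hm⟩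
    · -- digit `L+2` is zero
      have hb : n₂.testBit (L + 2) = false := testBit_of_div' (by rw [hn2]; omega)
      have hz2 := zer_succ_zero hb
      have hnot : L + 2 ∉ zer n₂ (L + 2) := fun hm => absurd (lt_of_mem_zer hm) (lt_irrefl _)
      rw [show L + 3 = L + 2 + 1 by ring, hz2, Finset.sum_insert hnot]
      have hc1 : (((n₂ / 2 ^ (L + 1) + 1) / 2 : ℕ) : K2) = 1 := by
        have : (n₂ / 2 ^ (L + 1) + 1) / 2 = 2 * m + 1 := by omega
        rw [this]; push_cast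
        linear_combination (m : K2) * two_zero
      rw [hc1]
      rw [show L + 2 + 1 = L + 3 by ring]
      have hinv : (th T (L + 2) + th T (L + 3) : K2) * (th T (L + 2) + th T (L + 3))⁻¹ = 1 :=
        mul_inv_cancel₀ hbc0
      linear_combination (-((th T (L + 1) + th T (L + 2)) ^ (n₂ / 2 ^ (L + 1) - 1) * e₀)) * hinv -
        ((th T (L + 1) + th T (L + 2)) ^ (n₂ / 2 ^ (L + 1) - 1) *
          (th T (L + 2) + th T (L + 3)) * e₀ *
            (∑ j ∈ zer n₂ (L + 2), (th T j + th T (L + 3))⁻¹)) * two_zero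
    · have hb : n₂.testBit (L + 2) = true := testBit_of_div (by rw [hn2]; omega)
      have hz2 := zer_succ_one hb
      rw [show L + 3 = L + 2 + 1 by ring, hz2]
      have hc1 : (((n₂ / 2 ^ (L + 1) + 1) / 2 : ℕ) : K2) = 0 := by
        have : (n₂ / 2 ^ (L + 1) + 1) / 2 = 2 * (m + 1) := by omega
        rw [this]; push_cast
        linear_combination ((m : K2) + 1) * two_zero
      rw [hc1]
      rw [show L + 2 + 1 = L + 3 by ring]
      linear_combination (-((th T (L + 1) + th T (L + 2)) ^ (n₂ / 2 ^ (L + 1) - 1) *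
          (th T (L + 2) + th T (L + 3)) * e₀ *
            (∑ j ∈ zer n₂ (L + 2), (th T j + th T (L + 3))⁻¹))) * two_zero
  rw [hsum, hz, Finset.sum_singleton] at key
  have e2 : (th T (L + 1) + th T (L + 2)) ^ (n₂ / 2 ^ (L + 1) + 1) *
      (e₀ * ((th T i + th T (L + 3))⁻¹ + ∑ j ∈ zer n₂ (L + 2), (th T j + th T (L + 3))⁻¹) + e₂) +
      (th T (L + 1) + th T (L + 2)) ^ (n₂ / 2 ^ (L + 1) + 1) *
        (e₀ * (∑ j ∈ zer n₂ (L + 2), (th T j + th T (L + 3))⁻¹) + e₂) =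
      (th T (L + 1) + th T (L + 2)) ^ (n₂ / 2 ^ (L + 1) + 1) *
        (e₀ * (th T i + th T (L + 3))⁻¹) := by
    linear_combination ((th T (L + 1) + th T (L + 2)) ^ (n₂ / 2 ^ (L + 1) + 1) *
      (e₀ * (∑ j ∈ zer n₂ (L + 2), (th T j + th T (L + 3))⁻¹) + e₂)) * two_zero
  rw [e2] at key
  refine absurd key (mul_ne_zero (mul_ne_zero (pow_ne_zero _ p4) p2)
    (mul_ne_zero (pow_ne_zero _ p3) (mul_ne_zero he₀ (inv_ne_zero (tadd_ne (by omega))))))

/-- case I-b, `y = 3` -/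
theorem Ib_three {n₁ n₂ L : ℕ} {Φ : K2[X]} (h₁ : pc n₁ = L + 1) (hn₁ : n₁ < 2 ^ (L + 2))
    (h₂ : pc n₂ = L) (hy : n₂ / 2 ^ (L + 1) = 3)
    (hν : (n₁ + n₂ + 1) / 2 ^ (L + 1) = n₂ / 2 ^ (L + 1) + 1)
    (hS : SysAt T n₁ n₂ L (EE T n₁ L * HH T n₂ L) Φ) : False := by
  obtain ⟨h, Φ', hh, hS'⟩ := Ib_sys h₁ hn₁ h₂ hS
  have hn2 : n₂ / 2 ^ (L + 2) = 1 := by
    rw [show (2 : ℕ) ^ (L + 2) = 2 ^ (L + 1) * 2 by ring, ← Nat.div_div_eq_div_mul, hy]
  have hb : n₂.testBit (L + 1) = true := testBit_of_div (by rw [hy])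
  have hzz := zer_succ_one hb
  obtain ⟨p, q, s, hpq, hqs, -, hz1, -⟩ := three_zeros (n := n₂) (L := L + 1) (by omega) hn2
  have hz0 : zer n₂ (L + 1) = {p, q, s} := by rw [← hzz]; exact hz1
  have hs : s ≤ L := by
    have : s ∈ zer n₂ (L + 1) := by rw [hz0]; simp
    have := lt_of_mem_zer this
    omega
  obtain ⟨g₀, hg₀, hE, hW⟩ := dat_gB th_T_injective n₂ (L + 1) p q s (by omega) hn2 hpq hqs
    (by omega) hz1
  have hPP : PP T n₂ (L + 1) = PP T n₂ L := by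
    unfold PP; rw [hzz]
  rw [hPP] at hW
  rw [show L + 1 + 1 = L + 2 from rfl] at hE hW
  have hPe := PP_zer3 (θ := T) hpq hqs hz0
  obtain ⟨i, hi, -, hz⟩ := one_zero h₁ hn₁
  have key := LC3 th_T_injective n₁ n₂ L (EE T n₂ (L + 1)) Φ' h hh hS' ⟨1, by omega⟩
    (by omega) hν g₀
    (g₀ * ((th T (L + 2) + th T p)⁻¹ * (th T (L + 2) + th T q)⁻¹ +
      (th T (L + 2) + th T p)⁻¹ * (th T (L + 2) + th T s)⁻¹ +
      (th T (L + 2) + th T q)⁻¹ * (th T (L + 2) + th T s)⁻¹))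
    (by
      rw [hE, hPe]
      exact dvd3_gB g₀ (th T (L + 2)) (th T p) (th T q) (th T s) (tadd_ne' (by omega))
        (tadd_ne' (by omega)) (tadd_ne' (by omega)))
  have hx : (n₁ / 2 ^ (L + 1) = 0 ∧ (PP T n₁ L).eval (th T (L + 2)) = 1 ∧
        (PP T n₁ L).eval (th T (L + 3)) = 1) ∨
      (n₁ / 2 ^ (L + 1) = 1 ∧ (PP T n₁ L).eval (th T (L + 2)) = th T (L + 2) + th T i ∧
        (PP T n₁ L).eval (th T (L + 3)) = th T (L + 3) + th T i) := by
    rcases zer_one hn₁ hi hz with ⟨hx, -, hz0⟩ | ⟨hx, -, hz0⟩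
    · left
      refine ⟨hx, ?_, ?_⟩ <;> rw [PP_zer0 hz0] <;> simp
    · right
      refine ⟨hx, ?_, ?_⟩ <;> rw [PP_zer1 hz0] <;> simp
  have ft := FT5 L p q s i (n₁ / 2 ^ (L + 1)) _ _ hpq hqs hs hi hx
  apply ft
  rw [hy, if_pos rfl, hz, hzz, hz0, Finset.sum_singleton, hW, hE, hPe] at key
  rw [Finset.sum_insert (by simp only [Finset.mem_insert, Finset.mem_singleton]; omega),
    Finset.sum_pair (by omega)] at key
  generalize n₁ / 2 ^ (L + 1) = x at *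
  have hc : (((3 + 1) / 2 : ℕ) : K2) = 0 := by
    norm_num
    exact two_zero
  rw [hc, zero_mul, zero_mul, add_zero] at key
  simp only [eval_add, eval_mul, eval_C, eval_X, eval_pow] at key
  apply mul_left_cancel₀ hg₀
  rw [show x + 3 + 2 = x + 5 by ring] at key
  rw [add_comm (th T (L + 3)) (th T (L + 2))] at key
  clear ft hx hE hW hPe hS hS'
  generalize (th T (L + 1) + th T (L + 3) : K2) ^ (x + 5) = AC5 at *
  generalize (th T (L + 1) + th T (L + 2) : K2) ^ (x + 5) = AB5 at *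
  generalize (th T (L + 3) + th T p : K2) * (th T (L + 3) + th T q) *
    (th T (L + 3) + th T s) = c1 at *
  generalize ((th T (L + 1) + th T p : K2) * (th T (L + 1) + th T q) *
    (th T (L + 1) + th T s))⁻¹ = a1 at *
  generalize ((PP T n₁ L).eval (th T (L + 2)) * ((th T (L + 2) + th T p) *
    (th T (L + 2) + th T q) * (th T (L + 2) + th T s)))⁻¹ = b0 at *
  generalize (th T (L + 2) + th T p : K2) * (th T (L + 2) + th T q) *
    (th T (L + 2) + th T s) = b1 at *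
  generalize (th T (L + 2) + th T p : K2) * (th T (L + 2) + th T q) +
    (th T (L + 2) + th T p) * (th T (L + 2) + th T s) +
    (th T (L + 2) + th T q) * (th T (L + 2) + th T s) = b2 at *
  generalize (th T (L + 2) + th T p : K2)⁻¹ * (th T (L + 2) + th T q)⁻¹ +
    (th T (L + 2) + th T p)⁻¹ * (th T (L + 2) + th T s)⁻¹ +
    (th T (L + 2) + th T q)⁻¹ * (th T (L + 2) + th T s)⁻¹ = b3 at *
  generalize (th T (L + 1) + th T (L + 2) : K2) = ab at *
  generalize (th T (L + 1) + th T (L + 3) : K2) = ac at *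
  generalize (th T (L + 2) + th T (L + 3) : K2) = bc at *
  generalize (th T i + th T (L + 3) : K2)⁻¹ = ci at *
  generalize (th T p + th T (L + 3) : K2)⁻¹ = cp at *
  generalize (th T q + th T (L + 3) : K2)⁻¹ = cq at *
  generalize (th T s + th T (L + 3) : K2)⁻¹ = cs at *
  generalize (th T p + th T q : K2) * (th T p + th T s) * (th T q + th T s) = dd at *
  generalize (PP T n₁ L).eval (th T (L + 3)) = e3 at *
  linear_combination key

end MZ
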