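import Mathlib

open Polynomial

namespace MZ

/-- `K = F_2(t)` -/
abbrev K2 := RatFunc (ZMod 2)

noncomputable instance : DecidableEq K2 := Classical.decEq _

/-- `K_∞ = F_2((1/t))`, the completion of `F_2(t)` at the place at infinity (Mathlib's definition) -/
abbrev Kinf := RatFunc.CompletionAtInfty (ZMod 2)

/-- the inclusion `F_2[t] → K_∞` -/
noncomputable def iA (a : (ZMod 2)[X]) : Kinf :=
  algebraMap K2 Kinf (algebraMap (ZMod 2)[X] K2 a)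

/-- the Carlitz zeta value -/
noncomputable def zeta (s : ℕ) : Kinf :=
  ∑' a : {a : (ZMod 2)[X] // a.Monic}, (iA a.1 ^ s)⁻¹

/-- the depth-two multizeta value -/
noncomputable def zeta2 (s₁ s₂ : ℕ) : Kinf :=
  ∑' p : {p : (ZMod 2)[X] × (ZMod 2)[X] // p.1.Monic ∧ p.2.Monic ∧ p.2.natDegree < p.1.natDegree},
    (iA p.1.1 ^ s₁ * iA p.1.2 ^ s₂)⁻¹

/-- `(s₁,s₂)` is zeta-like -/
def ZetaLike (s₁ s₂ : ℕ) : Prop :=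
  ∃ r : K2, zeta2 s₁ s₂ / zeta (s₁ + s₂) = algebraMap K2 Kinf r

def InL (s₁ s₂ : ℕ) : Prop :=
  (s₁ = 1 ∧ s₂ = 1) ∨ (s₁ = 1 ∧ s₂ = 3) ∨ (s₁ = 3 ∧ s₂ = 5) ∨
  (∃ n, 1 ≤ n ∧ s₁ = 2 ^ n - 1 ∧ s₂ = 2 ^ n) ∨
  (∃ n, 1 ≤ n ∧ s₁ = 2 ^ n ∧ s₂ = 2 ^ (n + 1) + 2 ^ n - 1)

end MZ
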