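import Pool.Agent.Work.MP_968e92_nt.Loc

/-! # MP_968e92_nt: the leading coefficient `vv` -/

open Polynomial

namespace MZ

/-- the leading coefficient at `a = θ_{L+1}` of the Wronskians -/
noncomputable def vv {K : Type*} [Field K] (θ : K) (n L : ℕ) : K :=
  kap θ n * ∏ e ∈ (bits (n / 2 ^ (L + 1))).filter (fun e => 1 ≤ e),
    ((∏ m ∈ Finset.range (e - 1), (th θ (L + 1 + e) + th θ (L + 2 + m))) *
      (th θ (L + 2 + e) + th θ (L + 2)))

end MZ
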